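import Mathlib

/-!
# Cyclically monotone bilinear forms are symmetric and positive semidefinite
-/

open Set Filter Topology
open scoped Real

set_option linter.unusedSectionVars false
set_option linter.style.haveILetI false

namespace Pool.Agent.Lib.H84.RCD

lemma sum_cos_zero (L : ℕ) (δ c : ℝ) (hδ : (L : ℝ) * δ = 2 * π) (hs : Real.sin δ ≠ 0) :
    ∑ j ∈ Finset.range L, Real.cos (2 * (j : ℝ) * δ + c) = 0 := by
  have key : ∀ j : ℕ, 2 * Real.sin δ * Real.cos (2 * (j : ℝ) * δ + c) =
      Real.sin (2 * ((j + 1 : ℕ) : ℝ) * δ - δ + c) - Real.sin (2 * (j : ℝ) * δ - δ + c) := by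
    intro j
    push_cast
    rw [show 2 * ((j : ℝ) + 1) * δ - δ + c = (2 * (j : ℝ) * δ + c) + δ by ring,
      show 2 * (j : ℝ) * δ - δ + c = (2 * (j : ℝ) * δ + c) - δ by ring, Real.sin_add, Real.sin_sub]
    ring
  have h1 : 2 * Real.sin δ * ∑ j ∈ Finset.range L, Real.cos (2 * (j : ℝ) * δ + c) = 0 := by
    rw [Finset.mul_sum, Finset.sum_congr rfl (fun j _ => key j),
      Finset.sum_range_sub (fun j : ℕ => Real.sin (2 * (j : ℝ) * δ - δ + c))]
    rw [show 2 * (L : ℝ) * δ - δ + c = (-δ + c) + 2 * π + 2 * π by linear_combination 2 * hδ,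
      Real.sin_add_two_pi, Real.sin_add_two_pi]
    simp
  rcases mul_eq_zero.1 h1 with h | h
  · exact absurd h (by simpa using hs)
  · exact h

section

variable {E : Type*} [AddCommGroup E] [Module ℝ E] (B : E →ₗ[ℝ] E →ₗ[ℝ] ℝ)

/-- cyclic monotonicity of a bilinear form -/
def CycMon : Prop := ∀ (L : ℕ) (w : Fin L → E) (σ : Equiv.Perm (Fin L)),
  ∑ i, B (w i) (w (σ i)) ≤ ∑ i, B (w i) (w i)

variable {B}

lemma CycMon.nonneg (h : CycMon B) (v : E) : 0 ≤ B v v := by
  have := h 2 ![0, v] (Equiv.swap 0 1)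
  simpa [Fin.sum_univ_two] using this

lemma CycMon.le (h : CycMon B) (p q : E) : B p q ≤ B q p := by
  set S := B p p + B q q with hS
  have hS0 : 0 ≤ S := add_nonneg (h.nonneg p) (h.nonneg q)
  have key : ∀ n : ℕ, B p q - B q p ≤ (π ^ 2 * S) / ((n : ℝ) + 3) := by
    intro n
    set L : ℕ := n + 3 with hL
    have hLpos : (0 : ℝ) < L := by rw [hL]; positivity
    set δ : ℝ := 2 * π / L with hδ
    have hδL : (L : ℝ) * δ = 2 * π := by rw [hδ]; field_simp
    have hδpos : 0 < δ := by rw [hδ]; positivity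
    have hL3 : (3 : ℝ) ≤ L := by rw [hL]; push_cast; linarith [(Nat.cast_nonneg n : (0 : ℝ) ≤ n)]
    have hδle : δ ≤ 2 * π / 3 := by
      rw [hδ]; gcongr
    have hpi := Real.pi_pos
    have hsin : 0 < Real.sin δ := Real.sin_pos_of_pos_of_lt_pi hδpos (by linarith)
    set w : Fin L → E := fun j => Real.cos ((j : ℕ) * δ) • p + Real.sin ((j : ℕ) * δ) • q with hw
    have hwσ : ∀ j : Fin L, w (finRotate L j) =
        Real.cos (((j : ℕ) + 1 : ℝ) * δ) • p + Real.sin (((j : ℕ) + 1 : ℝ) * δ) • q := by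
      intro j
      have h1 : finRotate L j = j + 1 := finRotate_succ_apply j
      rw [h1, hw]
      simp only
      rcases eq_or_ne j (Fin.last (n + 2)) with hj | hj
      · have h2 : ((j + 1 : Fin L) : ℕ) = 0 := by
          rw [hj]; simp [hL]
        have h3' : (j : ℕ) = n + 2 := by rw [hj]; exact Fin.val_last _
        have h3 : ((j : ℕ) : ℝ) + 1 = L := by
          rw [h3', hL]; push_cast; ring
        rw [h2, h3, hδL]
        simp
      · have h2 : ((j + 1 : Fin L) : ℕ) = (j : ℕ) + 1 :=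
          Fin.val_add_one_of_lt (lt_of_le_of_ne (Fin.le_last j) hj)
        rw [h2]; push_cast; rfl
    have hcyc := h L w (finRotate L)
    let F1 : ℕ → ℝ := fun k => (1 / 2) * ((Real.cos δ + Real.cos (2 * (k : ℝ) * δ + δ)) * B p p +
          (Real.sin δ + Real.cos (2 * (k : ℝ) * δ + (δ - π / 2))) * B p q +
          (-Real.sin δ + Real.cos (2 * (k : ℝ) * δ + (δ - π / 2))) * B q p +
          (Real.cos δ - Real.cos (2 * (k : ℝ) * δ + δ)) * B q q)
    let F2 : ℕ → ℝ := fun k => (1 / 2) * ((1 + Real.cos (2 * (k : ℝ) * δ + 0)) * B p p +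
          (Real.cos (2 * (k : ℝ) * δ + (- π / 2))) * (B p q + B q p) +
          (1 - Real.cos (2 * (k : ℝ) * δ + 0)) * B q q)
    have e1 : ∀ j : Fin L, B (w j) (w (finRotate L j)) = F1 (j : ℕ) := by
      intro j
      rw [hwσ j, hw]
      simp only [F1]
      simp only [map_add, map_smul, LinearMap.add_apply, LinearMap.smul_apply, smul_eq_mul]
      set a := ((j : ℕ) : ℝ) * δ with ha
      have i1 : (((j : ℕ) : ℝ) + 1) * δ = a + δ := by rw [ha]; ring
      have i2 : 2 * ((j : ℕ) : ℝ) * δ + δ = a + (a + δ) := by rw [ha]; ring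
      have i3 : 2 * ((j : ℕ) : ℝ) * δ + (δ - π / 2) = (a + (a + δ)) - π / 2 := by rw [ha]; ring
      rw [i1, i2, i3, Real.cos_sub_pi_div_two]
      have j1 : Real.cos δ = Real.cos a * Real.cos (a + δ) + Real.sin a * Real.sin (a + δ) := by
        rw [← Real.cos_sub, show a - (a + δ) = -δ by ring, Real.cos_neg]
      have j2 : Real.sin δ = Real.sin (a + δ) * Real.cos a - Real.cos (a + δ) * Real.sin a := by
        rw [← Real.sin_sub, show a + δ - a = δ by ring]
      rw [Real.cos_add a (a + δ), Real.sin_add a (a + δ), j1, j2]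
      ring
    have e2 : ∀ j : Fin L, B (w j) (w j) = F2 (j : ℕ) := by
      intro j
      rw [hw]
      simp only [F2]
      simp only [map_add, map_smul, LinearMap.add_apply, LinearMap.smul_apply, smul_eq_mul]
      set a := ((j : ℕ) : ℝ) * δ with ha
      have i2 : 2 * ((j : ℕ) : ℝ) * δ + 0 = 2 * a := by rw [ha]; ring
      have i3 : 2 * ((j : ℕ) : ℝ) * δ + (-π / 2) = 2 * a - π / 2 := by rw [ha]; ring
      rw [i2, i3, Real.cos_sub_pi_div_two, Real.cos_two_mul, Real.sin_two_mul]
      have := Real.sin_sq_add_cos_sq a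
      linear_combination (B q q) * this
    rw [Finset.sum_congr rfl (fun j _ => e1 j), Finset.sum_congr rfl (fun j _ => e2 j)] at hcyc
    rw [Fin.sum_univ_eq_sum_range F1 L, Fin.sum_univ_eq_sum_range F2 L] at hcyc
    simp only [F1, F2] at hcyc
    have z1 := sum_cos_zero L δ δ hδL hsin.ne'
    have z2 := sum_cos_zero L δ (δ - π / 2) hδL hsin.ne'
    have z3 := sum_cos_zero L δ 0 hδL hsin.ne'
    have z4 := sum_cos_zero L δ (-π / 2) hδL hsin.ne'
    rw [← Finset.mul_sum, ← Finset.mul_sum] at hcyc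
    simp only [Finset.sum_add_distrib, ← Finset.sum_mul, Finset.sum_sub_distrib,
      Finset.sum_const, Finset.card_range, z1, z2, z3, z4, nsmul_eq_mul] at hcyc
    -- (L/2) sin δ (Bpq - Bqp) ≤ (L/2) (1 - cos δ) S
    have h1 : Real.sin δ * (B p q - B q p) ≤ (1 - Real.cos δ) * S := by
      have : (L : ℝ) * (Real.sin δ * (B p q - B q p)) ≤ L * ((1 - Real.cos δ) * S) := by
        rw [hS]; nlinarith
      exact le_of_mul_le_mul_left this hLpos
    have h2 : 1 - Real.cos δ ≤ δ ^ 2 / 2 := by linarith [Real.one_sub_sq_div_two_le_cos (x := δ)]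
    -- lower bound of sin δ
    have h3 : δ / 2 ≤ Real.sin δ * π / 2 := by
      rcases le_or_gt δ (π / 2) with h4 | h4
      · have := Real.mul_le_sin hδpos.le h4
        have h5 : 2 / π * δ * π / 2 = δ := by field_simp
        nlinarith
      · -- δ ∈ (π/2, 2π/3]
        have h5 : Real.sin δ = Real.sin (π - δ) := (Real.sin_pi_sub δ).symm
        have h6 := Real.mul_le_sin (x := π - δ) (by linarith) (by linarith)
        rw [← h5] at h6
        have h7 : 2 / π * (π - δ) * π / 2 = π - δ := by field_simp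
        nlinarith
    have h4 : δ ≤ π * Real.sin δ := by linarith
    have h5 : (B p q - B q p) * Real.sin δ ≤ (π / 2 * δ * S) * Real.sin δ := by
      calc (B p q - B q p) * Real.sin δ ≤ (1 - Real.cos δ) * S := by linarith
        _ ≤ δ ^ 2 / 2 * S := by gcongr
        _ = (δ / 2 * S) * δ := by ring
        _ ≤ (δ / 2 * S) * (π * Real.sin δ) := by gcongr
        _ = (π / 2 * δ * S) * Real.sin δ := by ring
    have h6 := le_of_mul_le_mul_right h5 hsin
    have hBb : π / 2 * δ * S = (π ^ 2 * S) / ((n : ℝ) + 3) := by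
      rw [hδ, hL]; push_cast; ring
    rw [← hBb]; exact h6
  have hlim : Tendsto (fun n : ℕ => (π ^ 2 * S) / ((n : ℝ) + 3)) atTop (𝓝 0) := by
    apply Tendsto.div_atTop tendsto_const_nhds
    exact tendsto_atTop_add_const_right _ _ tendsto_natCast_atTop_atTop
  have := ge_of_tendsto' hlim key
  linarith

lemma CycMon.symm (h : CycMon B) (p q : E) : B p q = B q p := le_antisymm (h.le p q) (h.le q p)

end

end Pool.Agent.Lib.H84.RCD
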