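import Mathlib

/-!
# Comparison inequality on the sphere
-/

open Set Filter Topology
open scoped Real RealInnerProductSpace

set_option linter.unusedSectionVars false

namespace Pool.Agent.Lib.H84.RCD

lemma mul_cos_le_sin {θ : ℝ} (h0 : 0 ≤ θ) (h1 : θ ≤ π) : θ * Real.cos θ ≤ Real.sin θ := by
  rcases lt_or_ge θ (π / 2) with h | h
  · rcases eq_or_lt_of_le h0 with h2 | h2
    · rw [← h2]; simp
    · have h3 := Real.lt_tan h2 h
      have hc : 0 < Real.cos θ := Real.cos_pos_of_mem_Ioo ⟨by linarith, h⟩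
      rw [Real.tan_eq_sin_div_cos, lt_div_iff₀ hc] at h3
      exact h3.le
  · have hc : Real.cos θ ≤ 0 := Real.cos_nonpos_of_pi_div_two_le_of_le h (by linarith)
    have hs : 0 ≤ Real.sin θ := Real.sin_nonneg_of_nonneg_of_le_pi h0 h1
    nlinarith

/-- `arccos u / √(1 - u²)` -/
noncomputable def phi (u : ℝ) : ℝ := Real.arccos u / √(1 - u ^ 2)

lemma mul_phi_le_one {u : ℝ} (h1 : -1 < u) (h2 : u < 1) : u * phi u ≤ 1 := by
  have hs : 0 < √(1 - u ^ 2) := Real.sqrt_pos.2 (by nlinarith)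
  unfold phi
  rw [← mul_div_assoc, div_le_one hs, mul_comm]
  have h := mul_cos_le_sin (Real.arccos_nonneg u) (Real.arccos_le_pi u)
  rw [Real.cos_arccos h1.le h2.le, Real.sin_arccos] at h
  exact h

lemma hasDerivAt_phi {u : ℝ} (h1 : -1 < u) (h2 : u < 1) :
    HasDerivAt phi ((u * phi u - 1) / (1 - u ^ 2)) u := by
  have hpos : 0 < 1 - u ^ 2 := by nlinarith
  have hs : 0 < √(1 - u ^ 2) := Real.sqrt_pos.2 hpos
  have ha := Real.hasDerivAt_arccos (x := u) (by linarith) (by linarith)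
  have hq : HasDerivAt (fun v : ℝ => 1 - v ^ 2) (-(2 * u)) u := by
    have := (hasDerivAt_pow 2 u).const_sub 1
    simpa using this
  have hb := hq.sqrt hpos.ne'
  have := ha.div hb hs.ne'
  refine this.congr_deriv ?_
  unfold phi
  have hsq : √(1 - u ^ 2) ^ 2 = 1 - u ^ 2 := Real.sq_sqrt hpos.le
  rw [hsq]
  field_simp
  ring

section

variable {A B c : ℝ}

lemma osc_sq_lt (h : A ^ 2 + B ^ 2 < 1) (s : ℝ) :
    (A * Real.cos (c * s) + B * Real.sin (c * s)) ^ 2 < 1 := by
  have h1 := Real.sin_sq_add_cos_sq (c * s)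
  nlinarith [sq_nonneg (A * Real.sin (c * s) - B * Real.cos (c * s))]

lemma osc_concave (h : A ^ 2 + B ^ 2 < 1) :
    ConcaveOn ℝ univ (fun s : ℝ =>
      Real.arccos (A * Real.cos (c * s) + B * Real.sin (c * s)) ^ 2 - c ^ 2 * s ^ 2) := by
  set g : ℝ → ℝ := fun s => A * Real.cos (c * s) + B * Real.sin (c * s) with hg
  set g' : ℝ → ℝ := fun s => c * (-A * Real.sin (c * s) + B * Real.cos (c * s)) with hg'
  have hlin : ∀ s : ℝ, HasDerivAt (fun s : ℝ => c * s) c s := fun s => by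
    simpa using (hasDerivAt_id s).const_mul c
  have hgd : ∀ s, HasDerivAt g (g' s) s := by
    intro s
    have h1 := ((Real.hasDerivAt_cos (c * s)).comp s (hlin s)).const_mul A
    have h2 := ((Real.hasDerivAt_sin (c * s)).comp s (hlin s)).const_mul B
    refine (h1.add h2).congr_deriv ?_
    simp only [hg']; ring
  have hgd' : ∀ s, HasDerivAt g' (-c ^ 2 * g s) s := by
    intro s
    have h1 := ((Real.hasDerivAt_sin (c * s)).comp s (hlin s)).const_mul (-A)
    have h2 := ((Real.hasDerivAt_cos (c * s)).comp s (hlin s)).const_mul B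
    refine ((h1.add h2).const_mul c).congr_deriv ?_
    simp only [hg]; ring
  have hlt : ∀ s, -1 < g s ∧ g s < 1 := by
    intro s
    have := osc_sq_lt (c := c) h s
    exact ⟨by nlinarith, by nlinarith⟩
  have hen : ∀ s, g' s ^ 2 ≤ c ^ 2 * (1 - g s ^ 2) := by
    intro s
    have h1 := Real.sin_sq_add_cos_sq (c * s)
    have : g' s ^ 2 + c ^ 2 * g s ^ 2 = c ^ 2 * (A ^ 2 + B ^ 2) := by
      simp only [hg, hg']
      linear_combination (c ^ 2 * (A ^ 2 + B ^ 2)) * h1
    nlinarith [sq_nonneg c]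
  -- first derivative
  set F : ℝ → ℝ := fun s => Real.arccos (g s) ^ 2 - c ^ 2 * s ^ 2 with hF
  set F' : ℝ → ℝ := fun s => -2 * phi (g s) * g' s - 2 * c ^ 2 * s with hF'
  have hFd : ∀ s, HasDerivAt F (F' s) s := by
    intro s
    obtain ⟨h1, h2⟩ := hlt s
    have ha := (Real.hasDerivAt_arccos (x := g s) (by linarith) (by linarith)).comp s (hgd s)
    have hb := ha.pow 2
    have hc := (hasDerivAt_pow 2 s).const_mul (c ^ 2)
    refine (hb.sub hc).congr_deriv ?_
    simp only [hF', phi, Function.comp]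
    push_cast
    ring
  have hFd' : ∀ s, HasDerivAt F' (2 * (1 - g s * phi (g s)) * (g' s ^ 2 / (1 - g s ^ 2) - c ^ 2))
      s := by
    intro s
    obtain ⟨h1, h2⟩ := hlt s
    have ha := ((hasDerivAt_phi h1 h2).comp s (hgd s)).const_mul (-2)
    have hb := ha.mul (hgd' s)
    have hc := (hasDerivAt_id s).const_mul (2 * c ^ 2)
    refine (hb.sub hc).congr_deriv ?_
    simp only [Function.comp]
    have hpos : 1 - g s ^ 2 ≠ 0 := by nlinarith
    field_simp
    ring
  have hd1 : deriv F = F' := funext fun s => (hFd s).deriv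
  have hd2 : ∀ s, deriv^[2] F s =
      2 * (1 - g s * phi (g s)) * (g' s ^ 2 / (1 - g s ^ 2) - c ^ 2) := by
    intro s
    simp only [Function.iterate_succ, Function.iterate_zero, Function.comp, id]
    rw [hd1]; exact (hFd' s).deriv
  apply concaveOn_univ_of_deriv2_nonpos
  · exact fun s => (hFd s).differentiableAt
  · rw [hd1]; exact fun s => (hFd' s).differentiableAt
  · intro s
    rw [hd2]
    obtain ⟨h1, h2⟩ := hlt s
    have hpos : 0 < 1 - g s ^ 2 := by nlinarith
    have h3 := mul_phi_le_one h1 h2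
    have h4 : g' s ^ 2 / (1 - g s ^ 2) - c ^ 2 ≤ 0 := by
      rw [sub_nonpos, div_le_iff₀ hpos]; exact hen s
    nlinarith

lemma osc_ineq_strict (h : A ^ 2 + B ^ 2 < 1) {t : ℝ} (ht : t ∈ Icc (0 : ℝ) 1) :
    (1 - t) * Real.arccos A ^ 2 +
      t * Real.arccos (A * Real.cos c + B * Real.sin c) ^ 2 - t * (1 - t) * c ^ 2 ≤
    Real.arccos (A * Real.cos (c * t) + B * Real.sin (c * t)) ^ 2 := by
  have hc := (osc_concave (c := c) h).2 (mem_univ (0 : ℝ)) (mem_univ (1 : ℝ))
    (show (0 : ℝ) ≤ 1 - t by linarith [ht.2]) (show (0 : ℝ) ≤ t from ht.1) (by ring)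
  simp only [smul_eq_mul, mul_zero, mul_one, zero_add, Real.cos_zero, Real.sin_zero, add_zero,
    one_pow] at hc
  nlinarith

lemma osc_ineq (h : A ^ 2 + B ^ 2 ≤ 1) {t : ℝ} (ht : t ∈ Icc (0 : ℝ) 1) :
    (1 - t) * Real.arccos A ^ 2 +
      t * Real.arccos (A * Real.cos c + B * Real.sin c) ^ 2 - t * (1 - t) * c ^ 2 ≤
    Real.arccos (A * Real.cos (c * t) + B * Real.sin (c * t)) ^ 2 := by
  -- limit `r → 1⁻` of the strict inequality for `(r A, r B)`
  have hev : ∀ᶠ r : ℝ in 𝓝[<] 1,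
      (1 - t) * Real.arccos (r * A) ^ 2 +
      t * Real.arccos ((r * A) * Real.cos c + (r * B) * Real.sin c) ^ 2 - t * (1 - t) * c ^ 2 ≤
      Real.arccos ((r * A) * Real.cos (c * t) + (r * B) * Real.sin (c * t)) ^ 2 := by
    have h0 : Ioo (0 : ℝ) 1 ∈ 𝓝[<] (1 : ℝ) := Ioo_mem_nhdsLT (by norm_num)
    filter_upwards [h0] with r hr
    apply osc_ineq_strict _ ht
    have : (r * A) ^ 2 + (r * B) ^ 2 = r ^ 2 * (A ^ 2 + B ^ 2) := by ring
    rw [this]
    have hr2 : r ^ 2 < 1 := by nlinarith [hr.1, hr.2]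
    nlinarith [sq_nonneg A, sq_nonneg B, sq_nonneg r]
  have hac := Real.continuous_arccos
  refine le_of_tendsto_of_tendsto (b := 𝓝[<] (1 : ℝ)) ?_ ?_ hev
  · have : Continuous (fun r : ℝ => (1 - t) * Real.arccos (r * A) ^ 2 +
      t * Real.arccos ((r * A) * Real.cos c + (r * B) * Real.sin c) ^ 2 - t * (1 - t) * c ^ 2) := by
      fun_prop
    have h2 := (this.tendsto 1).mono_left (nhdsWithin_le_nhds (s := Iio (1 : ℝ)))
    simpa using h2
  · have : Continuous (fun r : ℝ => Real.arccos ((r * A) * Real.cos (c * t) +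
      (r * B) * Real.sin (c * t)) ^ 2) := by
      fun_prop
    have h2 := (this.tendsto 1).mono_left (nhdsWithin_le_nhds (s := Iio (1 : ℝ)))
    simpa using h2

end

end Pool.Agent.Lib.H84.RCD
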