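import Mathlib

/-!
# Noncollapsed `RCD(K,N)` spaces, their boundary and their radius

Definitions, following Sturm (On the geometry of metric measure spaces II),
Lott and Villani, Ambrosio, Gigli and Savare, De Philippis and Gigli, and
Burago, Burago and Ivanov (A course in metric geometry, Definition 8.1.1).
-/

open MeasureTheory Set Filter Topology Metric
open scoped ENNReal NNReal Real

namespace Pool.Agent.Lib.H84.RCD

universe u

/-! ### Optimal transport -/

section Transport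

variable {X : Type u} [MetricSpace X] [MeasurableSpace X]

/-- `q` is a coupling of `μ` and `ν`: its first marginal is `μ` and its second one is `ν`. -/
def IsCoupling (μ ν : Measure X) (q : Measure (X × X)) : Prop :=
  q.map Prod.fst = μ ∧ q.map Prod.snd = ν

/-- The quadratic transport cost `∫ d(x,y)² dq(x,y)` of `q`. -/
noncomputable def transportCost (q : Measure (X × X)) : ℝ≥0∞ :=
  ∫⁻ p, edist p.1 p.2 ^ 2 ∂q

/-- The `L²`-Wasserstein distance `W₂(μ,ν)`, with values in `[0,∞]`: the square root of the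
infimum of the quadratic cost over all couplings of `μ` and `ν`. -/
noncomputable def W2 (μ ν : Measure X) : ℝ≥0∞ :=
  (⨅ (q : Measure (X × X)) (_ : IsCoupling μ ν q), transportCost q) ^ (1 / 2 : ℝ)

/-- `q` is an optimal coupling of `μ` and `ν` (for the quadratic cost). -/
def IsOptimalCoupling (μ ν : Measure X) (q : Measure (X × X)) : Prop :=
  IsCoupling μ ν q ∧
    ∀ q' : Measure (X × X), IsCoupling μ ν q' → transportCost q ≤ transportCost q'

/-- `μ` belongs to `P₂(X)`: it is a probability measure with finite second moment. -/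
def InP2 (μ : Measure X) : Prop :=
  IsProbabilityMeasure μ ∧ ∃ x₀ : X, ∫⁻ x, edist x x₀ ^ 2 ∂μ < ∞

/-- `Γ : [0,1] → P₂(X)` is a (constant speed, minimizing) `W₂`-geodesic from `μ₀` to `μ₁`.
Only the values `Γ t` with `t ∈ [0,1]` matter. -/
def IsW2Geodesic (μ₀ μ₁ : Measure X) (Γ : ℝ → Measure X) : Prop :=
  Γ 0 = μ₀ ∧ Γ 1 = μ₁ ∧ (∀ t ∈ Icc (0 : ℝ) 1, InP2 (Γ t)) ∧
    ∀ s ∈ Icc (0 : ℝ) 1, ∀ t ∈ Icc (0 : ℝ) 1,
      W2 (Γ s) (Γ t) = ENNReal.ofReal |s - t| * W2 μ₀ μ₁

end Transport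

/-! ### The Lott-Sturm-Villani condition `CD(K,N)` -/

/-- Sturm's volume distortion coefficient `τ_{K,N}^{(t)}(θ) ∈ [0,∞]`, for `N > 1`, `t ∈ [0,1]` and
`θ ≥ 0`: it is `∞` if `K θ² ≥ (N-1) π²`, it is
`t^{1/N} (sin(t θ √(K/(N-1))) / sin(θ √(K/(N-1))))^{1-1/N}` if `0 < K θ² < (N-1) π²`, it is `t` if
`K θ² = 0`, and `t^{1/N} (sinh(t θ √(-K/(N-1))) / sinh(θ √(-K/(N-1))))^{1-1/N}` if `K θ² < 0`. -/
noncomputable def tau (K N t θ : ℝ) : ℝ≥0∞ :=
  if (N - 1) * π ^ 2 ≤ K * θ ^ 2 then ∞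
  else if 0 < K * θ ^ 2 then
    ENNReal.ofReal (t ^ (1 / N) *
      (Real.sin (t * θ * √(K / (N - 1))) / Real.sin (θ * √(K / (N - 1)))) ^ (1 - 1 / N))
  else if K * θ ^ 2 = 0 then ENNReal.ofReal t
  else
    ENNReal.ofReal (t ^ (1 / N) *
      (Real.sinh (t * θ * √(-K / (N - 1))) / Real.sinh (θ * √(-K / (N - 1)))) ^ (1 - 1 / N))

/-- Minus the Rényi entropy: `-S_N(ν|m) = ∫ ρ^{1-1/N} dm ∈ [0,∞]` for `ν = ρ m` absolutely
continuous with respect to `m` (`ρ` is the Radon-Nikodym density). -/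
noncomputable def negRenyi {X : Type u} [MeasurableSpace X] (N : ℝ) (m ν : Measure X) : ℝ≥0∞ :=
  ∫⁻ x, (ν.rnDeriv m x) ^ (1 - 1 / N) ∂m

/-- The curvature-dimension condition `CD(K,N)` of Lott-Sturm-Villani in the form of Sturm, for
`K` real and `N > 1` real: for any `μ₀ = ρ₀ m` and `μ₁ = ρ₁ m` in `P₂(X)` there are an optimal
coupling `q` of them and a `W₂`-geodesic `Γ` of absolutely continuous measures from `μ₀` to `μ₁`
such that for all `N' ≥ N` and all `t ∈ [0,1]`,
`S_{N'}(Γ(t)|m) ≤ -∫ [τ_{K,N'}^{(1-t)}(d(x,y)) ρ₀(x)^{-1/N'} + τ_{K,N'}^{(t)}(d(x,y)) ρ₁(y)^{-1/N'}]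
dq(x,y)`. Both sides are written here with the opposite sign, so that they lie in `[0,∞]`. -/
def CD {X : Type u} [MetricSpace X] [MeasurableSpace X] (K N : ℝ) (m : Measure X) : Prop :=
  ∀ μ₀ μ₁ : Measure X, InP2 μ₀ → InP2 μ₁ → μ₀ ≪ m → μ₁ ≪ m →
    ∃ (q : Measure (X × X)) (Γ : ℝ → Measure X),
      IsOptimalCoupling μ₀ μ₁ q ∧ IsW2Geodesic μ₀ μ₁ Γ ∧ (∀ t ∈ Icc (0 : ℝ) 1, Γ t ≪ m) ∧
      ∀ N' : ℝ, N ≤ N' → ∀ t ∈ Icc (0 : ℝ) 1,
        ∫⁻ p, (tau K N' (1 - t) (dist p.1 p.2) * (μ₀.rnDeriv m p.1) ^ (-(1 / N')) +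
            tau K N' t (dist p.1 p.2) * (μ₁.rnDeriv m p.2) ^ (-(1 / N'))) ∂q
          ≤ negRenyi N' m (Γ t)

/-! ### Infinitesimally Hilbertian spaces -/

section Cheeger

variable {X : Type u} [MetricSpace X]

/-- The local Lipschitz constant (slope) `lip f (x) = limsup_{y → x, y ≠ x} |f y - f x| / d(y,x)`,
equal to `0` at isolated points. -/
noncomputable def localLip (f : X → ℝ) (x : X) : ℝ≥0∞ :=
  limsup (fun y => ENNReal.ofReal (|f y - f x| / dist y x)) (𝓝[≠] x)

/-- The Cheeger energy of `f ∈ L²(m)`: the infimum of `liminf_n (1/2) ∫ (lip g_n)² dm` over all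
sequences `g_n` of Lipschitz functions of `L²(m)` that converge to `f` in `L²(m)`. -/
noncomputable def cheegerEnergy [MeasurableSpace X] (m : Measure X) (f : X → ℝ) : ℝ≥0∞ :=
  ⨅ (g : ℕ → X → ℝ) (_ : ∀ n, (∃ C : ℝ≥0, LipschitzWith C (g n)) ∧ MemLp (g n) 2 m)
    (_ : Tendsto (fun n => eLpNorm (g n - f) 2 m) atTop (𝓝 0)),
    liminf (fun n => (1 / 2) * ∫⁻ x, localLip (g n) x ^ 2 ∂m) atTop

/-- `(X,d,m)` is infinitesimally Hilbertian: the Cheeger energy is a quadratic form on `L²(m)`,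
that is, it satisfies the parallelogram identity. -/
def InfinitesimallyHilbertian [MeasurableSpace X] (m : Measure X) : Prop :=
  ∀ f g : X → ℝ, MemLp f 2 m → MemLp g 2 m →
    cheegerEnergy m (f + g) + cheegerEnergy m (f - g) =
      2 * cheegerEnergy m f + 2 * cheegerEnergy m g

end Cheeger

/-! ### `RCD(K,N)` spaces -/

/-- `X` is a geodesic space: any two points are joined by a constant speed minimizing geodesic. -/
def IsGeodesicSpace (X : Type u) [MetricSpace X] : Prop :=
  ∀ x y : X, ∃ γ : ℝ → X, γ 0 = x ∧ γ 1 = y ∧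
    ∀ s ∈ Icc (0 : ℝ) 1, ∀ t ∈ Icc (0 : ℝ) 1, dist (γ s) (γ t) = |s - t| * dist x y

/-- `(X,d,m)` is an `RCD(K,N)` space (`N > 1`): a complete separable geodesic metric space with a
Borel measure `m`, finite on bounded sets and with full support, which satisfies `CD(K,N)` and is
infinitesimally Hilbertian. -/
structure IsRCD (K N : ℝ) {X : Type u} [MetricSpace X] [MeasurableSpace X] [BorelSpace X]
    (m : Measure X) : Prop where
  complete : CompleteSpace X
  separable : TopologicalSpace.SeparableSpace X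
  nonempty : Nonempty X
  geodesic : IsGeodesicSpace X
  finite_ball : ∀ (x : X) (r : ℝ), m (ball x r) < ∞
  full_support : ∀ (x : X) (r : ℝ), 0 < r → 0 < m (ball x r)
  curvature_dimension : CD K N m
  hilbertian : InfinitesimallyHilbertian m

/-- `(X,d,H^N)` is a noncollapsed `RCD(K,N)` space: it is an `RCD(K,N)` space when endowed with the
`N`-dimensional Hausdorff measure `H^N` of `d`. -/
def IsNoncollapsedRCD (K : ℝ) (N : ℕ) (X : Type u) [MetricSpace X] [MeasurableSpace X]
    [BorelSpace X] : Prop :=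
  IsRCD K N (μH[(N : ℝ)] : Measure X)

/-! ### Tangent cones, singular strata and boundary -/

/-- Pointed Gromov-Hausdorff convergence `(X, d/rₙ, x) → (Y, y)` (Burago, Burago and Ivanov,
Definition 8.1.1): for all `R, ε > 0` and all large `n` there is a map `f` (used only on the ball of
radius `R` around `x` in `(X, d/rₙ)`) with `f x = y`, distortion at most `ε` on this ball, and such
that the `ε`-neighbourhood of the image of this ball contains the ball of radius `R - ε` around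
`y`. -/
def PointedGHTendsto {X : Type u} [MetricSpace X] (x : X) (r : ℕ → ℝ)
    {Y : Type u} [MetricSpace Y] (y : Y) : Prop :=
  ∀ R > (0 : ℝ), ∀ ε > (0 : ℝ), ∀ᶠ n in atTop, ∃ f : X → Y, f x = y ∧
    (∀ a b : X, dist a x / r n < R → dist b x / r n < R →
      |dist (f a) (f b) - dist a b / r n| < ε) ∧
    (∀ z : Y, dist z y < R - ε → ∃ a : X, dist a x / r n < R ∧ dist z (f a) < ε)

/-- The proper pointed metric space `(Y,y)` is a tangent cone of `X` at `x`: it is the pointed
Gromov-Hausdorff limit of the rescaled spaces `(X, d/rₙ, x)` for some `rₙ > 0` tending to `0`. -/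
def IsTangentCone {X : Type u} [MetricSpace X] (x : X) {Y : Type u} [MetricSpace Y] (y : Y) :
    Prop :=
  ProperSpace Y ∧ ∃ r : ℕ → ℝ, (∀ n, 0 < r n) ∧ Tendsto r atTop (𝓝 0) ∧ PointedGHTendsto x r y

/-- `Y` splits off a factor `ℝ^k` isometrically: `Y` is isometric to `ℝ^k × Z` with the `L²`
product metric, for some metric space `Z`. -/
def SplitsOff (k : ℕ) (Y : Type u) [MetricSpace Y] : Prop :=
  ∃ (Z : Type u) (_ : MetricSpace Z),
    Nonempty (Y ≃ᵢ WithLp 2 (EuclideanSpace ℝ (Fin k) × Z))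

/-- The stratum `S^k` of points of `X` at which no tangent cone splits off a factor `ℝ^{k+1}`
isometrically. -/
def stratum (k : ℕ) (X : Type u) [MetricSpace X] : Set X :=
  {x | ∀ (Y : Type u) [MetricSpace Y] (y : Y), IsTangentCone x y → ¬ SplitsOff (k + 1) Y}

/-- The boundary (De Philippis and Gigli) of a noncollapsed `RCD(K,N)` space, `N ≥ 2`: the closure
of `S^{N-1} \ S^{N-2}`. -/
def boundary (N : ℕ) (X : Type u) [MetricSpace X] : Set X :=
  closure (stratum (N - 1) X \ stratum (N - 2) X)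

/-! ### Radius -/

/-- The radius `inf_p sup_x d(p,x)` of a metric space (for a compact space both are attained). -/
noncomputable def radius (X : Type u) [MetricSpace X] : ℝ≥0∞ :=
  ⨅ p : X, ⨆ x : X, edist p x

end Pool.Agent.Lib.H84.RCD
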