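import Mathlib
import Pool.Agent.Lib.H84.RCDDefs

/-!
# The space `S²(1/√3) × S²(1/√3)` and its closed hemisphere `S²(1/√3) × S²₊(1/√3)`
-/

open MeasureTheory Set Filter Topology Metric InnerProductGeometry
open scoped ENNReal NNReal Real RealInnerProductSpace

set_option linter.unusedSectionVars false
set_option linter.style.haveILetI false

namespace Pool.Agent.Lib.H84.RCD

/-- Euclidean three-space. -/
abbrev E3 := EuclideanSpace ℝ (Fin 3)

/-! ### chord and angle -/

lemma norm_sub_sq_of_unit {x y : E3} (hx : ‖x‖ = 1) (hy : ‖y‖ = 1) :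
    ‖x - y‖ ^ 2 = 2 - 2 * Real.cos (angle x y) := by
  have h := norm_sub_sq_real x y
  rw [hx, hy] at h
  have h2 : ⟪x, y⟫ = Real.cos (angle x y) := by
    rw [inner_eq_cos_angle_of_norm_eq_one hx hy]
  rw [h2] at h
  linarith

/-- the chord is `2 sin (angle / 2)` -/
lemma norm_sub_eq_of_unit {x y : E3} (hx : ‖x‖ = 1) (hy : ‖y‖ = 1) :
    ‖x - y‖ = 2 * Real.sin (angle x y / 2) := by
  have h := norm_sub_sq_of_unit hx hy
  have h2 : 0 ≤ Real.sin (angle x y / 2) := by
    apply Real.sin_nonneg_of_nonneg_of_le_pi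
    · linarith [angle_nonneg x y]
    · linarith [angle_le_pi x y, Real.pi_pos]
  have h3 : Real.cos (angle x y) = 1 - 2 * Real.sin (angle x y / 2) ^ 2 := by
    have := Real.cos_two_mul (angle x y / 2)
    rw [show 2 * (angle x y / 2) = angle x y by ring] at this
    have h4 := Real.sin_sq_add_cos_sq (angle x y / 2)
    nlinarith
  rw [h3] at h
  have h5 : ‖x - y‖ ^ 2 = (2 * Real.sin (angle x y / 2)) ^ 2 := by rw [h]; ring
  exact (sq_eq_sq₀ (norm_nonneg _) (by positivity)).1 h5

lemma norm_sub_le_angle {x y : E3} (hx : ‖x‖ = 1) (hy : ‖y‖ = 1) : ‖x - y‖ ≤ angle x y := by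
  rw [norm_sub_eq_of_unit hx hy]
  have := Real.sin_le (x := angle x y / 2) (by linarith [angle_nonneg x y])
  linarith

lemma angle_le_norm_sub {x y : E3} (hx : ‖x‖ = 1) (hy : ‖y‖ = 1) :
    angle x y ≤ π / 2 * ‖x - y‖ := by
  rw [norm_sub_eq_of_unit hx hy]
  have := Real.mul_le_sin (x := angle x y / 2) (by linarith [angle_nonneg x y])
    (by linarith [angle_le_pi x y])
  have hpi := Real.pi_pos
  have h2 : 2 / π * (angle x y / 2) * (π / 2) = angle x y / 2 := by field_simp
  nlinarith

/-! ### the product of two spheres -/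

/-- The product `S² × S²` (pairs of unit vectors of Euclidean 3-space). -/
@[ext] structure SS where
  /-- first component -/
  fst : E3
  /-- second component -/
  snd : E3
  norm_fst : ‖fst‖ = 1
  norm_snd : ‖snd‖ = 1

namespace SS

/-- The distance of `S²(1/√3) × S²(1/√3)`: `√((θ₁² + θ₂²) / 3)` with `θᵢ` the angles between the
components. -/
noncomputable instance : Dist SS :=
  ⟨fun z w => √((angle z.fst w.fst ^ 2 + angle z.snd w.snd ^ 2) / 3)⟩

lemma dist_def (z w : SS) :
    dist z w = √((angle z.fst w.fst ^ 2 + angle z.snd w.snd ^ 2) / 3) := rfl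

lemma angle_self_unit {x : E3} (hx : ‖x‖ = 1) : angle x x = 0 := by
  apply angle_self
  intro h
  rw [h] at hx
  simp at hx

lemma sqrt_triangle {a b c a' b' c' : ℝ} (ha : 0 ≤ a) (ha' : 0 ≤ a')
    (h : a ≤ b + c) (h' : a' ≤ b' + c') (hb : 0 ≤ b) (hb' : 0 ≤ b') (hc : 0 ≤ c) (hc' : 0 ≤ c') :
    √((a ^ 2 + a' ^ 2) / 3) ≤ √((b ^ 2 + b' ^ 2) / 3) + √((c ^ 2 + c' ^ 2) / 3) := by
  rw [Real.sqrt_le_left (by positivity), add_sq, Real.sq_sqrt (by positivity),
    Real.sq_sqrt (by positivity)]
  have h1 : (b * c + b' * c') / 3 ≤ √((b ^ 2 + b' ^ 2) / 3) * √((c ^ 2 + c' ^ 2) / 3) := by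
    rw [← Real.sqrt_mul (by positivity)]
    apply Real.le_sqrt_of_sq_le
    nlinarith [sq_nonneg (b * c' - b' * c)]
  have h2 : a ^ 2 ≤ (b + c) ^ 2 := by gcongr
  have h3 : a' ^ 2 ≤ (b' + c') ^ 2 := by gcongr
  nlinarith

noncomputable instance : MetricSpace SS where
  dist_self z := by
    rw [dist_def, angle_self_unit z.norm_fst, angle_self_unit z.norm_snd]; simp
  dist_comm z w := by rw [dist_def, dist_def, angle_comm z.fst, angle_comm z.snd]
  dist_triangle x y z := by
    rw [dist_def, dist_def, dist_def]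
    exact sqrt_triangle (angle_nonneg _ _) (angle_nonneg _ _)
      (angle_le_angle_add_angle _ _ _)
      (angle_le_angle_add_angle _ _ _) (angle_nonneg _ _)
      (angle_nonneg _ _) (angle_nonneg _ _) (angle_nonneg _ _)
  eq_of_dist_eq_zero {z w} h := by
    rw [dist_def, Real.sqrt_eq_zero (by positivity)] at h
    have h1 : angle z.fst w.fst = 0 := by
      have := sq_nonneg (angle z.fst w.fst)
      have := sq_nonneg (angle z.snd w.snd)
      nlinarith
    have h2 : angle z.snd w.snd = 0 := by
      have := sq_nonneg (angle z.fst w.fst)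
      have := sq_nonneg (angle z.snd w.snd)
      nlinarith
    ext1
    · have := norm_sub_le_angle z.norm_fst w.norm_fst
      rw [h1] at this
      exact sub_eq_zero.1 (norm_le_zero_iff.1 this)
    · have := norm_sub_le_angle z.norm_snd w.norm_snd
      rw [h2] at this
      exact sub_eq_zero.1 (norm_le_zero_iff.1 this)

noncomputable instance : MeasurableSpace SS := borel SS
instance : BorelSpace SS := ⟨rfl⟩

/-- The inclusion of `S² × S²` in `ℝ³ × ℝ³` (with the sup norm). -/
def toVec (z : SS) : E3 × E3 := (z.fst, z.snd)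

lemma toVec_injective : Function.Injective toVec := by
  intro z w h
  have h1 := congrArg Prod.fst h
  have h2 := congrArg Prod.snd h
  exact SS.ext h1 h2

lemma angle_fst_le (z w : SS) : angle z.fst w.fst ≤ √3 * dist z w := by
  rw [dist_def, ← Real.sqrt_mul (by norm_num)]
  apply Real.le_sqrt_of_sq_le
  nlinarith [sq_nonneg (angle z.snd w.snd)]

lemma angle_snd_le (z w : SS) : angle z.snd w.snd ≤ √3 * dist z w := by
  rw [dist_def, ← Real.sqrt_mul (by norm_num)]
  apply Real.le_sqrt_of_sq_le
  nlinarith [sq_nonneg (angle z.fst w.fst)]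

lemma sqrt_three_le : √3 ≤ 2 := by
  rw [Real.sqrt_le_left (by norm_num)]; norm_num

lemma dist_toVec_le (z w : SS) : dist (toVec z) (toVec w) ≤ 2 * dist z w := by
  rw [Prod.dist_eq, dist_eq_norm, dist_eq_norm]
  have h := dist_nonneg (x := z) (y := w)
  have h3 := sqrt_three_le
  apply max_le
  · exact (norm_sub_le_angle z.norm_fst w.norm_fst).trans ((angle_fst_le z w).trans (by gcongr))
  · exact (norm_sub_le_angle z.norm_snd w.norm_snd).trans ((angle_snd_le z w).trans (by gcongr))

lemma dist_le_toVec (z w : SS) : dist z w ≤ 2 * dist (toVec z) (toVec w) := by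
  have h1 := angle_le_norm_sub z.norm_fst w.norm_fst
  have h2 := angle_le_norm_sub z.norm_snd w.norm_snd
  have hpi := Real.pi_lt_four
  have hpi0 := Real.pi_pos
  set D := dist (toVec z) (toVec w) with hD
  have hD0 : 0 ≤ D := dist_nonneg
  have e1 : ‖z.fst - w.fst‖ ≤ D := by
    rw [hD, Prod.dist_eq, dist_eq_norm, dist_eq_norm]; exact le_max_left _ _
  have e2 : ‖z.snd - w.snd‖ ≤ D := by
    rw [hD, Prod.dist_eq, dist_eq_norm, dist_eq_norm]; exact le_max_right _ _
  rw [dist_def, Real.sqrt_le_left (by positivity)]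
  have hpi2 : π ≤ 3.2 := by linarith [Real.pi_lt_d2]
  have f1 : angle z.fst w.fst ≤ 1.6 * D := by nlinarith
  have f2 : angle z.snd w.snd ≤ 1.6 * D := by nlinarith
  have g1 : angle z.fst w.fst ^ 2 ≤ (1.6 * D) ^ 2 := by
    have := angle_nonneg z.fst w.fst
    gcongr
  have g2 : angle z.snd w.snd ^ 2 ≤ (1.6 * D) ^ 2 := by
    have := angle_nonneg z.snd w.snd
    gcongr
  nlinarith

lemma lipschitz_toVec : LipschitzWith 2 toVec :=
  LipschitzWith.of_dist_le_mul (fun z w => by simpa using dist_toVec_le z w)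

lemma antilipschitz_toVec : AntilipschitzWith 2 toVec :=
  AntilipschitzWith.of_le_mul_dist (fun z w => by simpa using dist_le_toVec z w)

lemma continuous_toVec : Continuous toVec := lipschitz_toVec.continuous

/-- the set of pairs of unit vectors -/
def sph : Set (E3 × E3) := {u | ‖u.1‖ = 1 ∧ ‖u.2‖ = 1}

lemma range_toVec : range toVec = sph := by
  ext u
  constructor
  · rintro ⟨z, rfl⟩; exact ⟨z.norm_fst, z.norm_snd⟩
  · rintro ⟨h1, h2⟩; exact ⟨⟨u.1, u.2, h1, h2⟩, rfl⟩

lemma isClosed_sph : IsClosed sph :=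
  (isClosed_eq (by fun_prop) continuous_const).inter (isClosed_eq (by fun_prop) continuous_const)

lemma isCompact_sph : IsCompact sph := by
  have : sph = sphere (0 : E3) 1 ×ˢ sphere (0 : E3) 1 := by
    ext u; simp [sph]
  rw [this]
  exact (isCompact_sphere _ _).prod (isCompact_sphere _ _)

lemma isClosedEmbedding_toVec : IsClosedEmbedding toVec := by
  refine ⟨⟨antilipschitz_toVec.isInducing lipschitz_toVec.continuous, toVec_injective⟩, ?_⟩
  rw [range_toVec]; exact isClosed_sph

instance : CompactSpace SS := by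
  rw [← isCompact_univ_iff]
  have h := isClosedEmbedding_toVec.isCompact_preimage isCompact_sph
  rwa [← range_toVec, preimage_range] at h

lemma measurableEmbedding_toVec : MeasurableEmbedding toVec :=
  isClosedEmbedding_toVec.measurableEmbedding

end SS

/-- The closed subset `S²(1/√3) × S²₊(1/√3)`: the second component lies in the closed upper
hemisphere. -/
def Hemi : Set SS := {z | 0 ≤ z.snd 2}

lemma continuous_snd_apply (i : Fin 3) : Continuous (fun z : SS => z.snd i) := by
  have h : Continuous (fun u : E3 × E3 => u.2 i) := by fun_prop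
  exact h.comp SS.continuous_toVec

lemma continuous_fst_apply (i : Fin 3) : Continuous (fun z : SS => z.fst i) := by
  have h : Continuous (fun u : E3 × E3 => u.1 i) := by fun_prop
  exact h.comp SS.continuous_toVec

lemma isClosed_Hemi : IsClosed Hemi :=
  isClosed_le continuous_const (continuous_snd_apply 2)

instance : CompactSpace Hemi := isCompact_iff_compactSpace.1 isClosed_Hemi.isCompact

/-! ### the cone measure -/

/-- Radial projection of both components: `(u₁, u₂) ↦ (u₁/|u₁|, u₂/|u₂|)`. -/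
noncomputable def proj (u : E3 × E3) : E3 × E3 := (‖u.1‖⁻¹ • u.1, ‖u.2‖⁻¹ • u.2)

/-- The open set of `(u₁, u₂)` with `1/2 < |uᵢ| < 2`. -/
def annulus : Set (E3 × E3) := {u | (1 / 2 < ‖u.1‖ ∧ ‖u.1‖ < 2) ∧ (1 / 2 < ‖u.2‖ ∧ ‖u.2‖ < 2)}

/-- The measure on `ℝ³ × ℝ³`, concentrated on `S² × S²`, which gives to a set `B` the Lebesgue
measure of the part of the cone over `B` which lies in `annulus`. -/
noncomputable def coneMeasure : Measure (E3 × E3) := (volume.restrict annulus).map proj

end Pool.Agent.Lib.H84.RCD
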