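import Mathlib
import Pool.Agent.Lib.H84.Space
import Pool.Agent.Lib.H84.Compare

/-!
# Measurable selection of geodesics on `S²`, on `S² × S²` and on the hemisphere
-/

open MeasureTheory Set Filter Topology Metric InnerProductGeometry
open scoped ENNReal NNReal Real RealInnerProductSpace

set_option linter.unusedSectionVars false
set_option linter.style.haveILetI false

namespace Pool.Agent.Lib.H84.RCD

/-- third basis vector -/
noncomputable def north : E3 := EuclideanSpace.single 2 1

/-- first basis vector -/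
noncomputable def east : E3 := EuclideanSpace.single 0 1

lemma inner_north (x : E3) : ⟪x, north⟫ = x 2 := by
  simp [north, EuclideanSpace.inner_single_right]

lemma inner_east (x : E3) : ⟪x, east⟫ = x 0 := by
  simp [east, EuclideanSpace.inner_single_right]

lemma norm_north : ‖north‖ = 1 := by simp [north]

lemma norm_east : ‖east‖ = 1 := by simp [east]

/-- the projection of the north pole to the plane orthogonal to `x` -/
noncomputable def nproj (x : E3) : E3 := north - (x 2) • x

/-- a unit vector orthogonal to the unit vector `x`, pointing north -/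
noncomputable def perp (x : E3) : E3 :=
  if nproj x = 0 then east else ‖nproj x‖⁻¹ • nproj x

lemma nproj_eq_zero {x : E3} (hx : ‖x‖ = 1) (h : nproj x = 0) : x 0 = 0 := by
  have h1 : ⟪nproj x, east⟫ = 0 := by rw [h]; simp
  have h2 : ⟪nproj x, x⟫ = 0 := by rw [h]; simp
  unfold nproj at h1
  rw [inner_sub_left, real_inner_smul_left, inner_east, inner_east] at h1
  have h3 : north 0 = 0 := by simp [north]
  rw [h3] at h1
  have h5 : x 2 * x 0 = 0 := by linarith
  -- x 2 = ± 1
  have h6 : ⟪nproj x, north⟫ = 0 := by rw [h]; simp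
  unfold nproj at h6
  rw [inner_sub_left, real_inner_smul_left, inner_north x, real_inner_self_eq_norm_sq,
    norm_north] at h6
  rcases mul_eq_zero.1 h5 with h7 | h7
  · rw [h7] at h6; norm_num at h6
  · exact h7

lemma inner_perp {x : E3} (hx : ‖x‖ = 1) : ⟪x, perp x⟫ = 0 := by
  unfold perp
  split_ifs with h
  · rw [inner_east]; exact nproj_eq_zero hx h
  · rw [real_inner_smul_right]
    unfold nproj
    rw [inner_sub_right, inner_north, real_inner_smul_right, real_inner_self_eq_norm_sq, hx]
    simp

lemma norm_perp (x : E3) : ‖perp x‖ = 1 := by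
  unfold perp
  split_ifs with h
  · exact norm_east
  · rw [norm_smul, norm_inv, norm_norm, inv_mul_cancel₀ (norm_ne_zero_iff.2 h)]

lemma perp_of_equator {x : E3} (hx : x 2 = 0) : perp x = north := by
  have h1 : nproj x = north := by unfold nproj; rw [hx]; simp
  unfold perp
  rw [h1, norm_north]
  simp only [inv_one, one_smul]
  rw [if_neg]
  intro h
  have := norm_north
  rw [h] at this
  simp at this

/-- initial unit velocity of the selected geodesic from `x` to `y` -/
noncomputable def dir (x y : E3) : E3 :=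
  if Real.sin (angle x y) = 0 then perp x
  else (Real.sin (angle x y))⁻¹ • (y - Real.cos (angle x y) • x)

/-- the selected geodesic from `x` to `y` -/
noncomputable def geo (t : ℝ) (x y : E3) : E3 :=
  Real.cos (t * angle x y) • x + Real.sin (t * angle x y) • dir x y

section unit

variable {x y : E3} (hx : ‖x‖ = 1) (hy : ‖y‖ = 1)

include hx hy

lemma inner_eq_cos : ⟪x, y⟫ = Real.cos (angle x y) := inner_eq_cos_angle_of_norm_eq_one hx hy

lemma inner_dir : ⟪x, dir x y⟫ = 0 := by
  unfold dir
  split_ifs with h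
  · exact inner_perp hx
  · rw [real_inner_smul_right, inner_sub_right, real_inner_smul_right,
      real_inner_self_eq_norm_sq, hx, inner_eq_cos hx hy]
    ring

lemma norm_dir : ‖dir x y‖ = 1 := by
  unfold dir
  split_ifs with h
  · exact norm_perp x
  · have hs : 0 < Real.sin (angle x y) :=
      lt_of_le_of_ne (sin_angle_nonneg x y) (Ne.symm h)
    have h1 : ‖y - Real.cos (angle x y) • x‖ ^ 2 = Real.sin (angle x y) ^ 2 := by
      rw [norm_sub_sq_real, norm_smul, real_inner_smul_right, real_inner_comm,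
        inner_eq_cos hx hy, hx, hy, Real.sin_sq]
      simp only [Real.norm_eq_abs, one_pow, mul_one, sq_abs]
      ring
    have h2 : ‖y - Real.cos (angle x y) • x‖ = Real.sin (angle x y) :=
      (sq_eq_sq₀ (norm_nonneg _) hs.le).1 h1
    rw [norm_smul, h2, norm_inv, Real.norm_eq_abs, abs_of_pos hs, inv_mul_cancel₀ h]

lemma eq_geo_one : y = Real.cos (angle x y) • x + Real.sin (angle x y) • dir x y := by
  unfold dir
  split_ifs with h
  · rw [h, zero_smul, add_zero]
    rw [sin_eq_zero_iff_angle_eq_zero_or_angle_eq_pi] at h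
    rcases h with h | h
    · rw [h, Real.cos_zero, one_smul]
      have := norm_sub_le_angle hx hy
      rw [h] at this
      exact (sub_eq_zero.1 (norm_le_zero_iff.1 this)).symm
    · rw [h, Real.cos_pi, neg_one_smul]
      have h2 : ⟪x, y⟫ = -1 := by rw [inner_eq_cos hx hy, h, Real.cos_pi]
      rw [inner_eq_neg_one_iff_of_norm_eq_one hx hy] at h2
      rw [h2, neg_neg]
  · rw [smul_smul, mul_inv_cancel₀ h, one_smul]; abel

lemma geo_zero : geo 0 x y = x := by simp [geo]

lemma geo_one : geo 1 x y = y := by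
  unfold geo
  rw [one_mul]
  exact (eq_geo_one hx hy).symm

lemma inner_geo (p : E3) (t : ℝ) : ⟪p, geo t x y⟫ =
    ⟪p, x⟫ * Real.cos (angle x y * t) + ⟪p, dir x y⟫ * Real.sin (angle x y * t) := by
  unfold geo
  rw [inner_add_right, real_inner_smul_right, real_inner_smul_right, mul_comm t]
  ring

lemma inner_geo_geo (s t : ℝ) : ⟪geo s x y, geo t x y⟫ = Real.cos ((s - t) * angle x y) := by
  unfold geo
  rw [inner_add_left, inner_add_right, inner_add_right]
  simp only [real_inner_smul_left, real_inner_smul_right]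
  rw [real_inner_self_eq_norm_sq, real_inner_self_eq_norm_sq, hx, norm_dir hx hy,
    real_inner_comm x (dir x y), inner_dir hx hy, sub_mul, Real.cos_sub]
  ring

lemma norm_geo (t : ℝ) : ‖geo t x y‖ = 1 := by
  have h := inner_geo_geo hx hy t t
  rw [real_inner_self_eq_norm_sq, sub_self, zero_mul, Real.cos_zero] at h
  have h0 := norm_nonneg (geo t x y)
  nlinarith

lemma angle_geo_geo {s t : ℝ} (hs : s ∈ Icc (0 : ℝ) 1) (ht : t ∈ Icc (0 : ℝ) 1) :
    angle (geo s x y) (geo t x y) = |s - t| * angle x y := by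
  have h1 := inner_eq_cos (norm_geo hx hy s) (norm_geo hx hy t)
  rw [inner_geo_geo hx hy] at h1
  have h2 : Real.cos ((s - t) * angle x y) = Real.cos (|s - t| * angle x y) := by
    rcases abs_choice (s - t) with h | h <;> rw [h]
    rw [neg_mul, Real.cos_neg]
  rw [h2] at h1
  have h3 : |s - t| ≤ 1 := by
    rw [abs_le]; constructor <;> linarith [hs.1, hs.2, ht.1, ht.2]
  have h4 := angle_nonneg x y
  have h5 := angle_le_pi x y
  have h6 : |s - t| * angle x y ≤ π := by nlinarith [abs_nonneg (s - t)]
  exact (Real.injOn_cos ⟨by positivity, h6⟩ ⟨angle_nonneg _ _, angle_le_pi _ _⟩ h1).symm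

/-- the comparison inequality on the sphere -/
lemma sphere_compare {p : E3} (hp : ‖p‖ = 1) {t : ℝ} (ht : t ∈ Icc (0 : ℝ) 1) :
    (1 - t) * angle p x ^ 2 + t * angle p y ^ 2 - t * (1 - t) * angle x y ^ 2 ≤
      angle p (geo t x y) ^ 2 := by
  have hAB : ⟪p, x⟫ ^ 2 + ⟪p, dir x y⟫ ^ 2 ≤ 1 := by
    -- Bessel
    have h1 : 0 ≤ ‖p - ⟪p, x⟫ • x - ⟪p, dir x y⟫ • dir x y‖ ^ 2 := by positivity
    rw [← real_inner_self_eq_norm_sq] at h1
    simp only [inner_sub_left, inner_sub_right, real_inner_smul_left, real_inner_smul_right] at h1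
    rw [real_inner_self_eq_norm_sq, real_inner_self_eq_norm_sq, real_inner_self_eq_norm_sq, hx, hp,
      norm_dir hx hy, real_inner_comm x (dir x y), inner_dir hx hy, real_inner_comm p x,
      real_inner_comm p (dir x y)] at h1
    nlinarith
  have hang : ∀ {z : E3}, ‖z‖ = 1 → angle p z = Real.arccos ⟪p, z⟫ := by
    intro z hz
    unfold angle
    rw [hp, hz]; simp
  have key := osc_ineq (c := angle x y) hAB ht
  rw [← inner_geo hx hy p t] at key
  have h1 : ⟪p, x⟫ * Real.cos (angle x y) + ⟪p, dir x y⟫ * Real.sin (angle x y) = ⟪p, y⟫ := by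
    have := inner_geo hx hy p 1
    rw [geo_one hx hy, mul_one] at this
    exact this.symm
  rw [h1] at key
  rw [hang hx, hang hy, hang (norm_geo hx hy t)]
  exact key

end unit

lemma geo_two_nonneg {x y : E3} (hx : ‖x‖ = 1) (hy : ‖y‖ = 1) (hx2 : 0 ≤ x 2) (hy2 : 0 ≤ y 2)
    {t : ℝ} (ht : t ∈ Icc (0 : ℝ) 1) : 0 ≤ (geo t x y) 2 := by
  have hθ0 := angle_nonneg x y
  have hθ1 := angle_le_pi x y
  by_cases h : Real.sin (angle x y) = 0
  · unfold geo dir
    rw [if_pos h]
    rw [sin_eq_zero_iff_angle_eq_zero_or_angle_eq_pi] at h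
    rcases h with h | h
    · rw [h]; simpa using hx2
    · have h2 : ⟪x, y⟫ = -1 := by rw [inner_eq_cos hx hy, h, Real.cos_pi]
      rw [inner_eq_neg_one_iff_of_norm_eq_one hx hy] at h2
      have h3 : x 2 = 0 := by
        have : x 2 = -(y 2) := by rw [h2]; simp
        linarith
      rw [perp_of_equator h3, h]
      simp only [PiLp.add_apply, PiLp.smul_apply, smul_eq_mul, h3, mul_zero, zero_add]
      have h4 : north 2 = 1 := by simp [north]
      rw [h4, mul_one]
      apply Real.sin_nonneg_of_nonneg_of_le_pi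
      · exact mul_nonneg ht.1 Real.pi_pos.le
      · nlinarith [ht.2, Real.pi_pos]
  · have hs : 0 < Real.sin (angle x y) := lt_of_le_of_ne (sin_angle_nonneg x y) (Ne.symm h)
    unfold geo dir
    rw [if_neg h]
    simp only [PiLp.add_apply, PiLp.smul_apply, smul_eq_mul, PiLp.sub_apply]
    have h1 : Real.cos (t * angle x y) * x 2 + Real.sin (t * angle x y) *
        ((Real.sin (angle x y))⁻¹ * (y 2 - Real.cos (angle x y) * x 2)) =
        (Real.sin ((1 - t) * angle x y) * x 2 + Real.sin (t * angle x y) * y 2) /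
          Real.sin (angle x y) := by
      rw [show (1 - t) * angle x y = angle x y - t * angle x y by ring, Real.sin_sub]
      field_simp
      ring
    rw [h1]
    have ha : 0 ≤ Real.sin ((1 - t) * angle x y) := by
      apply Real.sin_nonneg_of_nonneg_of_le_pi
      · nlinarith [ht.2]
      · nlinarith [ht.1, ht.2]
    have hb : 0 ≤ Real.sin (t * angle x y) := by
      apply Real.sin_nonneg_of_nonneg_of_le_pi
      · nlinarith [ht.1]
      · nlinarith [ht.1, ht.2]
    positivity

/-! ### measurability -/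

lemma measurable_angle : Measurable (fun p : E3 × E3 => angle p.1 p.2) := by
  unfold InnerProductGeometry.angle
  fun_prop

lemma measurable_nproj : Measurable nproj := by
  unfold nproj
  fun_prop

lemma measurable_perp : Measurable perp := by
  unfold perp
  apply Measurable.ite
  · exact measurable_nproj (measurableSet_singleton 0)
  · fun_prop
  · exact (measurable_nproj.norm.inv).smul measurable_nproj

lemma measurable_dir : Measurable (fun p : E3 × E3 => dir p.1 p.2) := by
  unfold dir
  have h := measurable_angle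
  apply Measurable.ite
  · exact (Real.measurable_sin.comp h) (measurableSet_singleton 0)
  · exact measurable_perp.comp measurable_fst
  · exact ((Real.measurable_sin.comp h).inv).smul
      (measurable_snd.sub ((Real.measurable_cos.comp h).smul measurable_fst))

lemma measurable_geo (t : ℝ) : Measurable (fun p : E3 × E3 => geo t p.1 p.2) := by
  unfold geo
  have h := measurable_angle
  exact ((Real.measurable_cos.comp (h.const_mul t)).smul measurable_fst).add
    ((Real.measurable_sin.comp (h.const_mul t)).smul measurable_dir)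

/-! ### geodesics of `SS` -/

/-- the selected geodesics of `S² × S²` -/
noncomputable def SS.geod (t : ℝ) (z w : SS) : SS where
  fst := geo t z.fst w.fst
  snd := geo t z.snd w.snd
  norm_fst := norm_geo z.norm_fst w.norm_fst t
  norm_snd := norm_geo z.norm_snd w.norm_snd t

lemma SS.geod_zero (z w : SS) : SS.geod 0 z w = z := by
  ext1
  · exact geo_zero z.norm_fst w.norm_fst
  · exact geo_zero z.norm_snd w.norm_snd

lemma SS.geod_one (z w : SS) : SS.geod 1 z w = w := by
  ext1
  · exact geo_one z.norm_fst w.norm_fst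
  · exact geo_one z.norm_snd w.norm_snd

lemma SS.dist_sq (z w : SS) :
    dist z w ^ 2 = (angle z.fst w.fst ^ 2 + angle z.snd w.snd ^ 2) / 3 := by
  rw [SS.dist_def, Real.sq_sqrt (by positivity)]

lemma SS.dist_geod_geod (z w : SS) {s t : ℝ} (hs : s ∈ Icc (0 : ℝ) 1) (ht : t ∈ Icc (0 : ℝ) 1) :
    dist (SS.geod s z w) (SS.geod t z w) = |s - t| * dist z w := by
  rw [SS.dist_def, SS.dist_def]
  simp only [SS.geod]
  rw [angle_geo_geo z.norm_fst w.norm_fst hs ht, angle_geo_geo z.norm_snd w.norm_snd hs ht,
    mul_pow, mul_pow, ← mul_add, mul_div_assoc, Real.sqrt_mul (by positivity),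
    Real.sqrt_sq (abs_nonneg _)]

/-- `S² × S²` has nonnegative curvature. -/
lemma SS.compare (p z w : SS) {t : ℝ} (ht : t ∈ Icc (0 : ℝ) 1) :
    (1 - t) * dist p z ^ 2 + t * dist p w ^ 2 - t * (1 - t) * dist z w ^ 2 ≤
      dist p (SS.geod t z w) ^ 2 := by
  rw [SS.dist_sq, SS.dist_sq, SS.dist_sq, SS.dist_sq]
  have h1 := sphere_compare z.norm_fst w.norm_fst p.norm_fst ht
  have h2 := sphere_compare z.norm_snd w.norm_snd p.norm_snd ht
  simp only [SS.geod]
  linarith

/-- the selected geodesics stay in the hemisphere -/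
lemma SS.geod_mem_Hemi {z w : SS} (hz : z ∈ Hemi) (hw : w ∈ Hemi) {t : ℝ}
    (ht : t ∈ Icc (0 : ℝ) 1) : SS.geod t z w ∈ Hemi :=
  geo_two_nonneg z.norm_snd w.norm_snd hz hw ht

lemma SS.toVec_geod (t : ℝ) (z w : SS) : SS.toVec (SS.geod t z w) =
    (geo t z.fst w.fst, geo t z.snd w.snd) := rfl

lemma SS.measurable_fst' : Measurable (SS.fst) := by
  have h : Measurable (fun z : SS => (SS.toVec z).1) :=
    measurable_fst.comp SS.measurableEmbedding_toVec.measurable
  exact h

lemma SS.measurable_snd' : Measurable (SS.snd) := by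
  have h : Measurable (fun z : SS => (SS.toVec z).2) :=
    measurable_snd.comp SS.measurableEmbedding_toVec.measurable
  exact h

lemma SS.measurable_fst2 : Measurable (fun p : SS × SS => (p.1.fst, p.2.fst)) :=
  (SS.measurable_fst'.comp measurable_fst).prodMk (SS.measurable_fst'.comp measurable_snd)

lemma SS.measurable_snd2 : Measurable (fun p : SS × SS => (p.1.snd, p.2.snd)) :=
  (SS.measurable_snd'.comp measurable_fst).prodMk (SS.measurable_snd'.comp measurable_snd)

lemma SS.measurable_geod (t : ℝ) : Measurable (fun p : SS × SS => SS.geod t p.1 p.2) := by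
  rw [← SS.measurableEmbedding_toVec.measurable_comp_iff]
  have h3 := (measurable_geo t).comp SS.measurable_fst2
  have h4 := (measurable_geo t).comp SS.measurable_snd2
  have h5 := h3.prodMk h4
  exact h5

/-- The selected geodesics of the hemisphere (for `t ∈ [0,1]`). -/
noncomputable def hgeod (t : ℝ) (p : Hemi × Hemi) : Hemi :=
  if ht : t ∈ Icc (0 : ℝ) 1 then ⟨SS.geod t p.1.1 p.2.1, SS.geod_mem_Hemi p.1.2 p.2.2 ht⟩ else p.1

lemma hgeod_coe {t : ℝ} (ht : t ∈ Icc (0 : ℝ) 1) (p : Hemi × Hemi) :
    (hgeod t p : SS) = SS.geod t p.1.1 p.2.1 := by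
  unfold hgeod; rw [dif_pos ht]

lemma SS.measurable_hemi2 : Measurable (fun p : Hemi × Hemi => ((p.1 : SS), (p.2 : SS))) :=
  (measurable_subtype_coe.comp measurable_fst).prodMk
      (measurable_subtype_coe.comp measurable_snd)

lemma measurable_hgeod {t : ℝ} (ht : t ∈ Icc (0 : ℝ) 1) : Measurable (hgeod t) := by
  have h0 := SS.measurable_hemi2
  have h := (SS.measurable_geod t).comp h0
  have : hgeod t = fun p => ⟨SS.geod t p.1.1 p.2.1, SS.geod_mem_Hemi p.1.2 p.2.2 ht⟩ := by
    funext p
    exact Subtype.ext (hgeod_coe ht p)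
  rw [this]
  exact h.subtype_mk

lemma hgeod_zero (p : Hemi × Hemi) : hgeod 0 p = p.1 := by
  apply Subtype.ext
  rw [hgeod_coe ⟨le_rfl, zero_le_one⟩, SS.geod_zero]

lemma hgeod_one (p : Hemi × Hemi) : hgeod 1 p = p.2 := by
  apply Subtype.ext
  rw [hgeod_coe ⟨zero_le_one, le_rfl⟩, SS.geod_one]

lemma dist_hgeod (p : Hemi × Hemi) {s t : ℝ} (hs : s ∈ Icc (0 : ℝ) 1) (ht : t ∈ Icc (0 : ℝ) 1) :
    dist (hgeod s p) (hgeod t p) = |s - t| * dist p.1 p.2 := by
  rw [Subtype.dist_eq, Subtype.dist_eq, hgeod_coe hs, hgeod_coe ht, SS.dist_geod_geod _ _ hs ht]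

/-- the hemisphere is a geodesic space -/
lemma isGeodesicSpace_Hemi : IsGeodesicSpace Hemi := by
  intro x y
  exact ⟨fun t => hgeod t (x, y), hgeod_zero (x, y), hgeod_one (x, y),
    fun s hs t ht => dist_hgeod (x, y) hs ht⟩

/-- Shortening principle: for a pair of pairs satisfying the monotonicity inequality, the
intermediate points control the endpoints. -/
lemma SS.shortening {x y x' y' : SS} {t : ℝ} (ht : t ∈ Icc (0 : ℝ) 1)
    (hmon : dist x y ^ 2 + dist x' y' ^ 2 ≤ dist x y' ^ 2 + dist x' y ^ 2) :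
    (1 - t) * dist x x' ≤ dist (SS.geod t x y) (SS.geod t x' y') ∧
      t * dist y y' ≤ dist (SS.geod t x y) (SS.geod t x' y') := by
  have h1 := SS.compare (SS.geod t x' y') x y ht
  have h2 := SS.compare x x' y' ht
  have h3 := SS.compare y x' y' ht
  rw [dist_comm (SS.geod t x' y') x, dist_comm (SS.geod t x' y') y,
    dist_comm (SS.geod t x' y') (SS.geod t x y)] at h1
  have ht0 := ht.1
  have ht1 : 0 ≤ 1 - t := by linarith [ht.2]
  have hkey : ((1 - t) * dist x x') ^ 2 + (t * dist y y') ^ 2 ≤
      dist (SS.geod t x y) (SS.geod t x' y') ^ 2 := by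
    have e2 := mul_le_mul_of_nonneg_left h2 ht1
    have e3 := mul_le_mul_of_nonneg_left h3 ht0
    have e4 := mul_le_mul_of_nonneg_left hmon (mul_nonneg ht0 ht1)
    rw [dist_comm y x'] at e3
    nlinarith
  constructor
  · apply le_of_sq_le_sq _ dist_nonneg
    nlinarith [sq_nonneg (t * dist y y')]
  · apply le_of_sq_le_sq _ dist_nonneg
    nlinarith [sq_nonneg ((1 - t) * dist x x')]

end Pool.Agent.Lib.H84.RCD
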