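import Mathlib
import Pool.Agent.Lib.H84.Geod

/-!
# First and second order expansions along sequences, on the sphere
-/

open MeasureTheory Set Filter Topology Metric InnerProductGeometry Asymptotics
open scoped ENNReal NNReal Real RealInnerProductSpace

set_option linter.unusedSectionVars false
set_option linter.style.haveILetI false

namespace Pool.Agent.Lib.H84.RCD

/-! ### sequences with a velocity -/

/-- `n (u n - a) → ξ` -/
def Vel {E : Type*} [NormedAddCommGroup E] [NormedSpace ℝ E] (u : ℕ → E) (a ξ : E) : Prop :=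
  Tendsto (fun n : ℕ => (n : ℝ) • (u n - a)) atTop (𝓝 ξ)

section Vel

variable {E F : Type*} [NormedAddCommGroup E] [NormedSpace ℝ E] [NormedAddCommGroup F]
  [NormedSpace ℝ F]

lemma Vel.tendsto_sub {u : ℕ → E} {a ξ : E} (h : Vel u a ξ) :
    Tendsto (fun n => u n - a) atTop (𝓝 0) := by
  have h1 : Tendsto (fun n : ℕ => ((n : ℝ))⁻¹) atTop (𝓝 0) := tendsto_inv_atTop_nhds_zero_nat
  have h2 := h1.smul h
  rw [zero_smul] at h2
  refine h2.congr' ?_
  filter_upwards [eventually_gt_atTop 0] with n hn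
  rw [smul_smul, inv_mul_cancel₀ (by exact_mod_cast hn.ne'), one_smul]

lemma Vel.tendsto {u : ℕ → E} {a ξ : E} (h : Vel u a ξ) : Tendsto u atTop (𝓝 a) := by
  have := h.tendsto_sub.add_const a
  simpa using this

lemma Vel.congr' {u v : ℕ → E} {a ξ : E} (h : Vel u a ξ) (huv : ∀ᶠ n in atTop, u n = v n) :
    Vel v a ξ := by
  refine Tendsto.congr' ?_ h
  filter_upwards [huv] with n hn
  rw [hn]

lemma vel_const (a : E) : Vel (fun _ => a) a 0 := by
  unfold Vel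
  simp only [sub_self, smul_zero]
  exact tendsto_const_nhds

lemma Vel.add {u v : ℕ → E} {a b ξ η : E} (h : Vel u a ξ) (h' : Vel v b η) :
    Vel (fun n => u n + v n) (a + b) (ξ + η) := by
  refine (Tendsto.add h h').congr (fun n => ?_)
  rw [← smul_add, add_sub_add_comm]

lemma Vel.sub {u v : ℕ → E} {a b ξ η : E} (h : Vel u a ξ) (h' : Vel v b η) :
    Vel (fun n => u n - v n) (a - b) (ξ - η) := by
  refine (Tendsto.sub h h').congr (fun n => ?_)
  rw [← smul_sub, sub_sub_sub_comm]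

/-- composition with a differentiable map -/
lemma Vel.comp {u : ℕ → E} {a ξ : E} (h : Vel u a ξ) {f : E → F} {f' : E →L[ℝ] F}
    (hf : HasFDerivAt f f' a) : Vel (fun n => f (u n)) (f a) (f' ξ) := by
  have h1 := (hasFDerivWithinAt_univ.2 hf).lim (l := atTop) (c := fun n : ℕ => (n : ℝ))
    (d := fun n => u n - a) (v := ξ) h.tendsto_sub (.of_forall fun _ ↦ mem_univ _) h
  refine h1.congr (fun n => ?_)
  rw [add_sub_cancel]

lemma Vel.comp_deriv {u : ℕ → ℝ} {a ξ : ℝ} (h : Vel u a ξ) {f : ℝ → ℝ} {f' : ℝ}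
    (hf : HasDerivAt f f' a) : Vel (fun n => f (u n)) (f a) (f' * ξ) := by
  have := h.comp hf.hasFDerivAt
  simpa [mul_comm] using this

lemma Vel.clm {u : ℕ → E} {a ξ : E} (h : Vel u a ξ) (L : E →L[ℝ] F) :
    Vel (fun n => L (u n)) (L a) (L ξ) := h.comp L.hasFDerivAt

lemma Vel.unique {u : ℕ → E} {a ξ η : E} (h : Vel u a ξ) (h' : Vel u a η) : ξ = η :=
  tendsto_nhds_unique h h'

lemma Vel.mul_real {u v : ℕ → ℝ} {a b ξ η : ℝ} (h : Vel u a ξ) (h' : Vel v b η) :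
    Vel (fun n => u n * v n) (a * b) (ξ * b + a * η) := by
  have h1 : Tendsto (fun n : ℕ => ((n : ℝ) • (u n - a)) * v n + a * ((n : ℝ) • (v n - b))) atTop
      (𝓝 (ξ * b + a * η)) := (Tendsto.mul h h'.tendsto).add (Tendsto.mul tendsto_const_nhds h')
  refine h1.congr (fun n => ?_)
  simp only [smul_eq_mul]; ring

/-- if `A n → A` and `v n` has velocity `η` at `0`, then `A n * v n` has velocity `A η` at `0` -/
lemma Vel.mul_tendsto {A v : ℕ → ℝ} {a η : ℝ} (hA : Tendsto A atTop (𝓝 a)) (h : Vel v 0 η) :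
    Vel (fun n => A n * v n) 0 (a * η) := by
  refine (Tendsto.mul hA h).congr (fun n => ?_)
  simp only [smul_eq_mul, sub_zero]; ring

lemma Vel.inner {E : Type*} [NormedAddCommGroup E] [InnerProductSpace ℝ E]
    {u v : ℕ → E} {a b ξ η : E} (h : Vel u a ξ) (h' : Vel v b η) :
    Vel (fun n => ⟪u n, v n⟫) ⟪a, b⟫ (⟪ξ, b⟫ + ⟪a, η⟫) := by
  have h1 : Tendsto (fun n : ℕ => ⟪(n : ℝ) • (u n - a), v n⟫ + ⟪a, (n : ℝ) • (v n - b)⟫) atTop
      (𝓝 (⟪ξ, b⟫ + ⟪a, η⟫)) := (Tendsto.inner h h'.tendsto).add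
        (Tendsto.inner tendsto_const_nhds h')
  refine h1.congr (fun n => ?_)
  simp only [smul_eq_mul, real_inner_smul_left, real_inner_smul_right, inner_sub_left,
    inner_sub_right]
  ring

end Vel

/-! ### second order Taylor expansion along a sequence -/

lemma taylor2_seq {f : ℝ → ℝ} {f' : ℝ → ℝ} {a f'' : ℝ}
    (hf : ∀ᶠ x in 𝓝 a, HasDerivAt f (f' x) x) (hf' : HasDerivAt f' f'' a)
    {u : ℕ → ℝ} {ξ : ℝ} (hu : Vel u a ξ) :
    Tendsto (fun n : ℕ => (n : ℝ) ^ 2 * (f (u n) - f a - f' a * (u n - a))) atTop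
      (𝓝 (f'' / 2 * ξ ^ 2)) := by
  -- remainder
  set R : ℝ → ℝ := fun x => f x - f a - f' a * (x - a) - f'' / 2 * (x - a) ^ 2 with hR
  have hRd : ∀ᶠ x in 𝓝 a, HasDerivAt R (f' x - f' a - f'' * (x - a)) x := by
    filter_upwards [hf] with x hx
    have h1 := (hasDerivAt_id x).sub_const a
    have h2 := h1.const_mul (f' a)
    have h3 := (h1.pow 2).const_mul (f'' / 2)
    refine (((hx.sub_const (f a)).sub h2).sub h3).congr_deriv ?_
    simp only [id]
    push_cast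
    ring
  have hR0 : R a = 0 := by simp [hR]
  -- `R x = o((x-a)^2)`
  have hlittle : ∀ ε > 0, ∀ᶠ x in 𝓝 a, |R x| ≤ ε * (x - a) ^ 2 := by
    intro ε hε
    have h1 := hf'.isLittleO
    rw [Asymptotics.isLittleO_iff] at h1
    have h2 := (h1 hε).and hRd
    rw [Metric.eventually_nhds_iff_ball] at h2
    obtain ⟨δ, hδ, hball⟩ := h2
    rw [Metric.eventually_nhds_iff_ball]
    refine ⟨δ, hδ, fun x hx => ?_⟩
    have hseg : ∀ y ∈ segment ℝ a x, |y - a| ≤ |x - a| := by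
      intro y hy
      rw [segment_eq_image] at hy
      obtain ⟨θ, hθ, rfl⟩ := hy
      have : (1 - θ) • a + θ • x - a = θ * (x - a) := by simp only [smul_eq_mul]; ring
      rw [this, abs_mul, abs_of_nonneg hθ.1]
      have := abs_nonneg (x - a)
      nlinarith [hθ.2]
    have hsub : segment ℝ a x ⊆ ball a δ := by
      intro y hy
      rw [mem_ball, Real.dist_eq]
      exact (hseg y hy).trans_lt (by rwa [mem_ball, Real.dist_eq] at hx)
    have hmv := (convex_segment a x).norm_image_sub_le_of_norm_hasDerivWithin_le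
      (f := R) (f' := fun y => f' y - f' a - f'' * (y - a)) (C := ε * |x - a|)
      (fun y hy => ((hball y (hsub hy)).2).hasDerivWithinAt)
      (fun y hy => by
        have h3 := (hball y (hsub hy)).1
        rw [Real.norm_eq_abs, Real.norm_eq_abs, smul_eq_mul, mul_comm (y - a)] at h3
        rw [Real.norm_eq_abs]
        exact h3.trans (mul_le_mul_of_nonneg_left (hseg y hy) (le_of_lt hε)))
      (left_mem_segment ℝ a x) (right_mem_segment ℝ a x)
    rw [hR0, sub_zero, Real.norm_eq_abs, Real.norm_eq_abs] at hmv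
    refine hmv.trans (le_of_eq ?_)
    rw [mul_assoc, ← sq, sq_abs]
  have hlim : Tendsto (fun n : ℕ => (n : ℝ) ^ 2 * R (u n)) atTop (𝓝 0) := by
    rw [Metric.tendsto_atTop]
    intro ε hε
    have hbd : ∀ᶠ n : ℕ in atTop, ((n : ℝ) • (u n - a)) ^ 2 < ξ ^ 2 + 1 := by
      have h1 : Tendsto (fun n : ℕ => ((n : ℝ) • (u n - a)) ^ 2) atTop (𝓝 (ξ ^ 2)) := by
        have : Tendsto (fun n : ℕ => ((n : ℝ) • (u n - a))) atTop (𝓝 ξ) := hu
        exact this.pow 2
      exact h1.eventually (gt_mem_nhds (by linarith))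
    have hpos : 0 < ε / (2 * (ξ ^ 2 + 1)) := by positivity
    have h2 := hu.tendsto.eventually (hlittle _ hpos)
    obtain ⟨N, hN⟩ := eventually_atTop.1 (hbd.and h2)
    refine ⟨N, fun n hn => ?_⟩
    obtain ⟨h3, h4⟩ := hN n hn
    rw [Real.dist_eq, sub_zero, abs_mul, abs_of_nonneg (by positivity : (0 : ℝ) ≤ (n : ℝ) ^ 2)]
    calc (n : ℝ) ^ 2 * |R (u n)| ≤ (n : ℝ) ^ 2 * (ε / (2 * (ξ ^ 2 + 1)) * (u n - a) ^ 2) := by
          gcongr
      _ = ε / (2 * (ξ ^ 2 + 1)) * ((n : ℝ) • (u n - a)) ^ 2 := by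
          rw [smul_eq_mul]; ring
      _ ≤ ε / (2 * (ξ ^ 2 + 1)) * (ξ ^ 2 + 1) := by gcongr
      _ = ε / 2 := by field_simp
      _ < ε := by linarith
  have hmain : Tendsto (fun n : ℕ => f'' / 2 * ((n : ℝ) • (u n - a)) ^ 2) atTop
      (𝓝 (f'' / 2 * ξ ^ 2)) := by
    have : Tendsto (fun n : ℕ => ((n : ℝ) • (u n - a))) atTop (𝓝 ξ) := hu
    exact (this.pow 2).const_mul _
  have := hlim.add hmain
  rw [zero_add] at this
  refine this.congr (fun n => ?_)
  simp only [hR, smul_eq_mul]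
  ring

/-! ### the mixed second difference of the squared angle -/

lemma angle_unit_eq {x y : E3} (hx : ‖x‖ = 1) (hy : ‖y‖ = 1) : angle x y = Real.arccos ⟪x, y⟫ := by
  unfold angle
  rw [hx, hy]; simp

lemma hasDerivAt_arccos_sq {s : ℝ} (h1 : -1 < s) (h2 : s < 1) :
    HasDerivAt (fun s => Real.arccos s ^ 2) (-2 * phi s) s := by
  have ha := Real.hasDerivAt_arccos (x := s) (by linarith) (by linarith)
  refine (ha.pow 2).congr_deriv ?_
  unfold phi
  push_cast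
  ring

/-- mixed second difference, generic position -/
lemma mixed_limit_pos {x y : ℕ → E3} {x0 y0 ξ η : E3} (hx : ∀ n, ‖x n‖ = 1)
    (hy : ∀ n, ‖y n‖ = 1) (hx0 : ‖x0‖ = 1) (hy0 : ‖y0‖ = 1) (hξ : Vel x x0 ξ) (hη : Vel y y0 η)
    (h1 : 0 < angle x0 y0) (h2 : angle x0 y0 < π) :
    Tendsto (fun n : ℕ => (n : ℝ) ^ 2 * (angle (x n) (y n) ^ 2 - angle (x n) y0 ^ 2 -
      angle x0 (y n) ^ 2 + angle x0 y0 ^ 2)) atTop
      (𝓝 (-2 * phi ⟪x0, y0⟫ * ⟪ξ, η⟫ +
        2 * (1 - ⟪x0, y0⟫ * phi ⟪x0, y0⟫) / (1 - ⟪x0, y0⟫ ^ 2) * ⟪ξ, y0⟫ * ⟪x0, η⟫)) := by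
  set s0 := ⟪x0, y0⟫ with hs0
  have hs0c : s0 = Real.cos (angle x0 y0) := inner_eq_cos hx0 hy0
  have hlt1 : s0 < 1 := by
    rw [hs0c, ← Real.cos_zero]
    exact Real.strictAntiOn_cos ⟨le_rfl, Real.pi_pos.le⟩ ⟨h1.le, h2.le⟩ h1
  have hgt1 : -1 < s0 := by
    rw [hs0c, ← Real.cos_pi]
    exact Real.strictAntiOn_cos ⟨h1.le, h2.le⟩ ⟨Real.pi_pos.le, le_rfl⟩ h2
  have hev : ∀ᶠ s in 𝓝 s0, HasDerivAt (fun s => Real.arccos s ^ 2) (-2 * phi s) s := by
    filter_upwards [Ioo_mem_nhds hgt1 hlt1] with s hs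
    exact hasDerivAt_arccos_sq hs.1 hs.2
  have hd2 : HasDerivAt (fun s => -2 * phi s) (-2 * ((s0 * phi s0 - 1) / (1 - s0 ^ 2))) s0 :=
    (hasDerivAt_phi hgt1 hlt1).const_mul (-2)
  have v1 : Vel (fun n => ⟪x n, y n⟫) s0 (⟪ξ, y0⟫ + ⟪x0, η⟫) := hξ.inner hη
  have v2 : Vel (fun n => ⟪x n, y0⟫) s0 (⟪ξ, y0⟫) := by
    have := hξ.inner (vel_const y0)
    simpa using this
  have v3 : Vel (fun n => ⟪x0, y n⟫) s0 (⟪x0, η⟫) := by
    have := (vel_const x0).inner hη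
    simpa using this
  have t1 := taylor2_seq hev hd2 v1
  have t2 := taylor2_seq hev hd2 v2
  have t3 := taylor2_seq hev hd2 v3
  have t4 : Tendsto (fun n : ℕ => (-2 * phi s0) * ⟪(n : ℝ) • (x n - x0), (n : ℝ) • (y n - y0)⟫)
      atTop (𝓝 ((-2 * phi s0) * ⟪ξ, η⟫)) := (Tendsto.inner hξ hη).const_mul _
  have t5 := ((t1.sub t2).sub t3).add t4
  refine (t5.congr (fun n => ?_)).trans (le_of_eq ?_)
  · rw [angle_unit_eq (hx n) (hy n), angle_unit_eq (hx n) hy0, angle_unit_eq hx0 (hy n),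
      angle_unit_eq hx0 hy0, real_inner_smul_left, real_inner_smul_right, inner_sub_left,
      inner_sub_right, inner_sub_right, ← hs0]
    ring
  · congr 1
    have hne : 1 - s0 ^ 2 ≠ 0 := by nlinarith
    field_simp
    ring

/-- `n * angle (x n) (y n) → ‖ξ - η‖` when both sequences converge to the same point -/
lemma tendsto_mul_angle {x y : ℕ → E3} {x0 ξ η : E3} (hx : ∀ n, ‖x n‖ = 1)
    (hy : ∀ n, ‖y n‖ = 1) (hξ : Vel x x0 ξ) (hη : Vel y x0 η) :
    Tendsto (fun n : ℕ => (n : ℝ) * angle (x n) (y n)) atTop (𝓝 ‖ξ - η‖) := by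
  have h1 : Vel (fun n => x n - y n) 0 (ξ - η) := by
    have := hξ.sub hη
    simpa using this
  have h2 : Tendsto (fun n : ℕ => (n : ℝ) * ‖x n - y n‖) atTop (𝓝 ‖ξ - η‖) := by
    have h3 : Tendsto (fun n : ℕ => ‖(n : ℝ) • (x n - y n - 0)‖) atTop (𝓝 ‖ξ - η‖) :=
      Tendsto.norm h1
    refine h3.congr (fun n => ?_)
    rw [sub_zero, norm_smul, Real.norm_natCast]
  have h3 : ∀ n, angle (x n) (y n) = 2 * Real.arcsin (‖x n - y n‖ / 2) := by
    intro n
    rw [norm_sub_eq_of_unit (hx n) (hy n), mul_div_cancel_left₀ _ (by norm_num : (2 : ℝ) ≠ 0),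
      Real.arcsin_sin]
    · ring
    · linarith [angle_nonneg (x n) (y n), Real.pi_pos]
    · linarith [angle_le_pi (x n) (y n)]
  have h4 : Vel (fun n => ‖x n - y n‖ / 2) 0 (‖ξ - η‖ / 2) := by
    have := h2.div_const 2
    refine this.congr (fun n => ?_)
    simp only [sub_zero, smul_eq_mul]; ring
  have h5 : HasDerivAt Real.arcsin 1 0 := by
    have := Real.hasDerivAt_arcsin (x := 0) (by norm_num) (by norm_num)
    simpa using this
  have h6 := (h4.comp_deriv h5)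
  have h7 : Tendsto (fun n : ℕ => 2 * ((n : ℝ) • (Real.arcsin (‖x n - y n‖ / 2) -
      Real.arcsin 0))) atTop (𝓝 (2 * (1 * (‖ξ - η‖ / 2)))) := Tendsto.const_mul 2 h6
  have h8 : 2 * (1 * (‖ξ - η‖ / 2)) = ‖ξ - η‖ := by ring
  rw [h8] at h7
  refine h7.congr (fun n => ?_)
  rw [Real.arcsin_zero, sub_zero, smul_eq_mul, h3 n]
  ring

lemma mixed_limit_zero {x y : ℕ → E3} {x0 ξ η : E3} (hx : ∀ n, ‖x n‖ = 1)
    (hy : ∀ n, ‖y n‖ = 1) (hx0 : ‖x0‖ = 1) (hξ : Vel x x0 ξ) (hη : Vel y x0 η) :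
    Tendsto (fun n : ℕ => (n : ℝ) ^ 2 * (angle (x n) (y n) ^ 2 - angle (x n) x0 ^ 2 -
      angle x0 (y n) ^ 2 + angle x0 x0 ^ 2)) atTop
      (𝓝 (-2 * ⟪ξ, η⟫)) := by
  have h1 := (tendsto_mul_angle hx hy hξ hη).pow 2
  have h2 := (tendsto_mul_angle hx (fun _ => hx0) hξ (vel_const x0)).pow 2
  have h3 := (tendsto_mul_angle (fun _ => hx0) hy (vel_const x0) hη).pow 2
  have h4 := (h1.sub h2).sub h3
  refine (h4.congr (fun n => ?_)).trans (le_of_eq ?_)
  · rw [SS.angle_self_unit hx0]; ring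
  · congr 1
    rw [sub_zero, zero_sub, norm_neg, norm_sub_sq_real]
    ring

end Pool.Agent.Lib.H84.RCD
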