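import Mathlib
import Pool.Agent.Lib.H84.Mixed

/-!
# First order relations and the mixed second difference in adapted frames
-/

open MeasureTheory Set Filter Topology Metric InnerProductGeometry Asymptotics
open scoped ENNReal NNReal Real RealInnerProductSpace

set_option linter.unusedSectionVars false
set_option linter.style.haveILetI false

namespace Pool.Agent.Lib.H84.RCD

/-- `sin (t θ) / sin θ`, with the value `t` at `θ = 0` -/
noncomputable def ratio (t θ : ℝ) : ℝ := t * Real.sinc (t * θ) / Real.sinc θ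

lemma sinc_pos {θ : ℝ} (h0 : 0 ≤ θ) (h1 : θ < π) : 0 < Real.sinc θ := by
  rcases eq_or_lt_of_le h0 with h | h
  · rw [← h, Real.sinc_zero]; norm_num
  · rw [Real.sinc_of_ne_zero h.ne']
    exact div_pos (Real.sin_pos_of_pos_of_lt_pi h h1) h

lemma sinc_nonneg {θ : ℝ} (h0 : 0 ≤ θ) (h1 : θ ≤ π) : 0 ≤ Real.sinc θ := by
  rcases eq_or_lt_of_le h0 with h | h
  · rw [← h, Real.sinc_zero]; norm_num
  · rw [Real.sinc_of_ne_zero h.ne']
    exact div_nonneg (Real.sin_nonneg_of_nonneg_of_le_pi h0 h1) h0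

lemma mul_sinc (θ : ℝ) : θ * Real.sinc θ = Real.sin θ := by
  by_cases h : θ = 0
  · rw [h]; simp
  · rw [Real.sinc_of_ne_zero h]; field_simp

lemma ratio_pos {t θ : ℝ} (ht0 : 0 < t) (ht1 : t ≤ 1) (h0 : 0 ≤ θ) (h1 : θ < π) :
    0 < ratio t θ := by
  unfold ratio
  have h2 := sinc_pos h0 h1
  have h3 : 0 < Real.sinc (t * θ) := sinc_pos (by positivity) (by nlinarith)
  positivity

lemma geo_sinc {x y : E3} (hx : ‖x‖ = 1) (hy : ‖y‖ = 1) (t : ℝ) :
    Real.sinc (angle x y) • geo t x y =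
      ((1 - t) * Real.sinc ((1 - t) * angle x y)) • x + (t * Real.sinc (t * angle x y)) • y := by
  by_cases h : angle x y = 0
  · have hxy : x = y := by
      have := norm_sub_le_angle hx hy
      rw [h] at this
      exact sub_eq_zero.1 (norm_le_zero_iff.1 this)
    unfold geo
    rw [h]
    simp only [mul_zero, Real.sinc_zero, Real.cos_zero, Real.sin_zero, one_smul, zero_smul,
      add_zero, mul_one]
    rw [← hxy, ← add_smul]; simp
  · have key : angle x y • (Real.sinc (angle x y) • geo t x y) = angle x y •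
        (((1 - t) * Real.sinc ((1 - t) * angle x y)) • x + (t * Real.sinc (t * angle x y)) • y) := by
      rw [smul_smul, mul_sinc, smul_add, smul_smul, smul_smul]
      rw [show angle x y * ((1 - t) * Real.sinc ((1 - t) * angle x y)) =
        (1 - t) * angle x y * Real.sinc ((1 - t) * angle x y) by ring, mul_sinc,
        show angle x y * (t * Real.sinc (t * angle x y)) =
        t * angle x y * Real.sinc (t * angle x y) by ring, mul_sinc]
      have h1 : Real.sin (angle x y) • dir x y = y - Real.cos (angle x y) • x := by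
        have := eq_geo_one hx hy
        rw [eq_sub_iff_add_eq, add_comm]; exact this.symm
      unfold geo
      rw [smul_add, smul_smul, smul_smul, mul_comm (Real.sin (angle x y)) (Real.sin (t * angle x y)),
        ← smul_smul (Real.sin (t * angle x y)), h1,
        show (1 - t) * angle x y = angle x y - t * angle x y by ring, Real.sin_sub, smul_sub,
        smul_smul, sub_smul, mul_comm (Real.cos (angle x y))]
      abel
    exact smul_right_injective E3 h key

section Factor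

variable {x0 y0 : E3} (hx0 : ‖x0‖ = 1) (hy0 : ‖y0‖ = 1) (hθ : angle x0 y0 < π)
  (b : OrthonormalBasis (Fin 3) ℝ E3) (hb0 : b 0 = x0) (hb1 : b 1 = dir x0 y0)

include hx0 hy0 hθ hb0 hb1

omit hx0 hy0 hθ hb0 hb1 in
/-- expansion of the inner product in the frame -/
lemma inner_frame (u v : E3) :
    ⟪u, v⟫ = ⟪u, b 0⟫ * ⟪v, b 0⟫ + ⟪u, b 1⟫ * ⟪v, b 1⟫ + ⟪u, b 2⟫ * ⟪v, b 2⟫ := by
  have h := b.sum_inner_mul_inner u v
  rw [Fin.sum_univ_three] at h
  rw [← h, real_inner_comm v (b 0), real_inner_comm v (b 1), real_inner_comm v (b 2)]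

lemma inner_y0_frame (u : E3) : ⟪u, y0⟫ =
    Real.cos (angle x0 y0) * ⟪u, b 0⟫ + Real.sin (angle x0 y0) * ⟪u, b 1⟫ := by
  conv_lhs => rw [eq_geo_one hx0 hy0]
  rw [inner_add_right, real_inner_smul_right, real_inner_smul_right, hb0, hb1]

/-- the mixed second difference in the frame -/
lemma mixed_limit {x y : ℕ → E3} {ξ η : E3} (hx : ∀ n, ‖x n‖ = 1)
    (hy : ∀ n, ‖y n‖ = 1) (hξ : Vel x x0 ξ) (hη : Vel y y0 η) :
    Tendsto (fun n : ℕ => (n : ℝ) ^ 2 * (angle (x n) (y n) ^ 2 - angle (x n) y0 ^ 2 -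
      angle x0 (y n) ^ 2 + angle x0 y0 ^ 2)) atTop
      (𝓝 (-2 * (⟪ξ, b 1⟫ * ⟪η, -Real.sin (angle x0 y0) • b 0 + Real.cos (angle x0 y0) • b 1⟫ +
        (Real.sinc (angle x0 y0))⁻¹ * (⟪ξ, b 2⟫ * ⟪η, b 2⟫)))) := by
  -- orthogonality of velocities
  have hξ0 : ⟪ξ, b 0⟫ = 0 := by
    have h1 := hξ.inner hξ
    have h2 : Vel (fun n => ⟪x n, x n⟫) ⟪x0, x0⟫ 0 := by
      have : (fun n => ⟪x n, x n⟫) = fun _ : ℕ => ⟪x0, x0⟫ := by
        funext n
        rw [real_inner_self_eq_norm_sq, real_inner_self_eq_norm_sq, hx n, hx0]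
      rw [this]; exact vel_const _
    have h3 := h1.unique h2
    rw [hb0]
    rw [real_inner_comm ξ x0] at h3
    linarith
  have hη0 : ⟪η, y0⟫ = 0 := by
    have h1 := hη.inner hη
    have h2 : Vel (fun n => ⟪y n, y n⟫) ⟪y0, y0⟫ 0 := by
      have : (fun n => ⟪y n, y n⟫) = fun _ : ℕ => ⟪y0, y0⟫ := by
        funext n
        rw [real_inner_self_eq_norm_sq, real_inner_self_eq_norm_sq, hy n, hy0]
      rw [this]; exact vel_const _
    have h3 := h1.unique h2
    rw [real_inner_comm η y0] at h3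
    linarith
  rw [inner_y0_frame hx0 hy0 hθ b hb0 hb1] at hη0
  set θ := angle x0 y0 with hθdef
  set β := ⟪η, -Real.sin θ • b 0 + Real.cos θ • b 1⟫ with hβ
  have hβe : β = -Real.sin θ * ⟪η, b 0⟫ + Real.cos θ * ⟪η, b 1⟫ := by
    rw [hβ, inner_add_right, real_inner_smul_right, real_inner_smul_right]
  have hsc := Real.sin_sq_add_cos_sq θ
  have hηb0 : ⟪η, b 0⟫ = -Real.sin θ * β := by
    rw [hβe]; linear_combination (-⟪η, b 0⟫) * hsc + Real.cos θ * hη0
  have hηb1 : ⟪η, b 1⟫ = Real.cos θ * β := by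
    rw [hβe]; linear_combination (-⟪η, b 1⟫) * hsc + Real.sin θ * hη0
  have hξη : ⟪ξ, η⟫ = ⟪ξ, b 1⟫ * (Real.cos θ * β) + ⟪ξ, b 2⟫ * ⟪η, b 2⟫ := by
    rw [inner_frame b ξ η, hξ0, hηb1]; ring
  rcases eq_or_lt_of_le (angle_nonneg x0 y0) with h0 | h0
  · have hxy : x0 = y0 := by
      have := norm_sub_le_angle hx0 hy0
      rw [← h0] at this
      exact sub_eq_zero.1 (norm_le_zero_iff.1 this)
    subst hxy
    have hm := mixed_limit_zero hx hy hx0 hξ hη
    have hθ0 : θ = 0 := h0.symm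
    refine hm.trans (le_of_eq ?_)
    congr 1
    rw [hξη, hθ0, Real.cos_zero, Real.sinc_zero]
    ring
  · have hm := mixed_limit_pos hx hy hx0 hy0 hξ hη h0 hθ
    rw [← hθdef] at h0
    refine hm.trans (le_of_eq ?_)
    congr 1
    have hs0 : ⟪x0, y0⟫ = Real.cos θ := inner_eq_cos hx0 hy0
    have hsin : 0 < Real.sin θ := Real.sin_pos_of_pos_of_lt_pi h0 hθ
    have hphi : phi (Real.cos θ) = θ / Real.sin θ := by
      unfold phi
      rw [Real.arccos_cos h0.le hθ.le]
      congr 1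
      rw [show 1 - Real.cos θ ^ 2 = Real.sin θ ^ 2 by linarith, Real.sqrt_sq hsin.le]
    have h1 : ⟪ξ, y0⟫ = Real.sin θ * ⟪ξ, b 1⟫ := by
      rw [inner_y0_frame hx0 hy0 hθ b hb0 hb1, hξ0]; ring
    have h2 : ⟪x0, η⟫ = -Real.sin θ * β := by
      rw [← hηb0, hb0, real_inner_comm]
    rw [hs0, hphi, h1, h2, hξη, Real.sinc_of_ne_zero h0.ne', inv_div,
      show 1 - Real.cos θ ^ 2 = Real.sin θ ^ 2 by linarith]
    field_simp
    ring

/-- first order relations -/
lemma first_order {t : ℝ} (ht0 : 0 < t) (ht1 : t < 1) {x y z : ℕ → E3} {ξ η ζ : E3}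
    (hx : ∀ n, ‖x n‖ = 1) (hy : ∀ n, ‖y n‖ = 1) (hz : ∀ n, z n = geo t (x n) (y n))
    (hξ : Vel x x0 ξ) (hη : Vel y y0 η) (hζ : Vel z (geo t x0 y0) ζ) :
    ⟪ζ, b 2⟫ = ratio (1 - t) (angle x0 y0) * ⟪ξ, b 2⟫ + ratio t (angle x0 y0) * ⟪η, b 2⟫ ∧
    ⟪ζ, -Real.sin (t * angle x0 y0) • b 0 + Real.cos (t * angle x0 y0) • b 1⟫ =
      (1 - t) * ⟪ξ, b 1⟫ +
      t * ⟪η, -Real.sin (angle x0 y0) • b 0 + Real.cos (angle x0 y0) • b 1⟫ := by
  set θ := angle x0 y0 with hθdef
  have hθ0 : 0 ≤ θ := angle_nonneg x0 y0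
  set θn : ℕ → ℝ := fun n => angle (x n) (y n) with hθn
  have hzn : ∀ n, ‖z n‖ = 1 := fun n => by rw [hz]; exact norm_geo (hx n) (hy n) t
  have hzz : ‖geo t x0 y0‖ = 1 := norm_geo hx0 hy0 t
  have hθlim : Tendsto θn atTop (𝓝 θ) := by
    have h1 : Tendsto (fun n => ⟪x n, y n⟫) atTop (𝓝 ⟪x0, y0⟫) := hξ.tendsto.inner hη.tendsto
    have h2 := (Real.continuous_arccos.tendsto ⟪x0, y0⟫).comp h1
    rw [hθdef, angle_unit_eq hx0 hy0]
    refine h2.congr (fun n => ?_)
    rw [hθn]
    exact (angle_unit_eq (hx n) (hy n)).symm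
  have hsinc : 0 < Real.sinc θ := sinc_pos hθ0 hθ
  have hA : Tendsto (fun n => (1 - t) * Real.sinc ((1 - t) * θn n) / Real.sinc (θn n)) atTop
      (𝓝 (ratio (1 - t) θ)) := by
    unfold ratio
    have c1 : Tendsto (fun n => Real.sinc ((1 - t) * θn n)) atTop (𝓝 (Real.sinc ((1 - t) * θ))) :=
      (Real.continuous_sinc.tendsto _).comp (hθlim.const_mul _)
    have c2 : Tendsto (fun n => Real.sinc (θn n)) atTop (𝓝 (Real.sinc θ)) :=
      (Real.continuous_sinc.tendsto _).comp hθlim
    exact (c1.const_mul _).div c2 hsinc.ne'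
  have hB : Tendsto (fun n => t * Real.sinc (t * θn n) / Real.sinc (θn n)) atTop
      (𝓝 (ratio t θ)) := by
    unfold ratio
    have c1 : Tendsto (fun n => Real.sinc (t * θn n)) atTop (𝓝 (Real.sinc (t * θ))) :=
      (Real.continuous_sinc.tendsto _).comp (hθlim.const_mul _)
    have c2 : Tendsto (fun n => Real.sinc (θn n)) atTop (𝓝 (Real.sinc θ)) :=
      (Real.continuous_sinc.tendsto _).comp hθlim
    exact (c1.const_mul _).div c2 hsinc.ne'
  have hlt : ∀ᶠ n in atTop, θn n < π := hθlim.eventually (gt_mem_nhds hθ)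
  -- relation for a vector orthogonal to `x0`, `y0`
  have hrel : ∀ v : E3, ⟪x0, v⟫ = 0 → ⟪y0, v⟫ = 0 → ⟪geo t x0 y0, v⟫ = 0 →
      ⟪ζ, v⟫ = ratio (1 - t) θ * ⟪ξ, v⟫ + ratio t θ * ⟪η, v⟫ := by
    intro v h1 h2 h3
    have v1 : Vel (fun n => ⟪x n, v⟫) 0 ⟪ξ, v⟫ := by
      have := hξ.inner (vel_const v)
      simpa [h1] using this
    have v2 : Vel (fun n => ⟪y n, v⟫) 0 ⟪η, v⟫ := by
      have := hη.inner (vel_const v)
      simpa [h2] using this
    have v3 : Vel (fun n => ⟪z n, v⟫) 0 ⟪ζ, v⟫ := by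
      have := hζ.inner (vel_const v)
      simpa [h3] using this
    have v4 := (Vel.mul_tendsto hA v1).add (Vel.mul_tendsto hB v2)
    rw [add_zero] at v4
    refine Vel.unique v3 (v4.congr' ?_)
    filter_upwards [hlt] with n hn
    have hs : 0 < Real.sinc (θn n) := sinc_pos (angle_nonneg _ _) hn
    have hg := congrArg (fun w => ⟪w, v⟫) (geo_sinc (hx n) (hy n) t)
    simp only [real_inner_smul_left, inner_add_left] at hg
    rw [← hz n] at hg
    change _ = ⟪z n, v⟫
    rw [hθn] at hs ⊢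
    field_simp
    linarith
  have hb02 : ⟪b 0, b 2⟫ = 0 := b.orthonormal.2 (by decide)
  have hb12 : ⟪b 1, b 2⟫ = 0 := b.orthonormal.2 (by decide)
  have hb01 : ⟪b 0, b 1⟫ = 0 := b.orthonormal.2 (by decide)
  have hbn : ∀ i, ⟪b i, b i⟫ = 1 := fun i => by
    rw [real_inner_self_eq_norm_sq, b.orthonormal.1 i]; norm_num
  have hy0b : y0 = Real.cos θ • b 0 + Real.sin θ • b 1 := by
    rw [hb0, hb1]; exact eq_geo_one hx0 hy0
  have hzzb : geo t x0 y0 = Real.cos (t * θ) • b 0 + Real.sin (t * θ) • b 1 := by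
    rw [hb0, hb1]; rfl
  constructor
  · apply hrel
    · rw [← hb0]; exact hb02
    · rw [hy0b, inner_add_left, real_inner_smul_left, real_inner_smul_left, hb02, hb12]; simp
    · rw [hzzb, inner_add_left, real_inner_smul_left, real_inner_smul_left, hb02, hb12]; simp
  · rcases eq_or_lt_of_le hθ0 with h0 | h0
    · -- θ = 0
      have hxy : x0 = y0 := by
        have := norm_sub_le_angle hx0 hy0
        rw [← hθdef, ← h0] at this
        exact sub_eq_zero.1 (norm_le_zero_iff.1 this)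
      have hr : ∀ s : ℝ, ratio s 0 = s := fun s => by unfold ratio; simp
      rw [← h0] at hrel ⊢
      simp only [mul_zero, Real.sin_zero, Real.cos_zero, neg_zero, zero_smul, zero_add, one_smul]
      rw [hr, hr] at hrel
      have e1 : ⟪x0, b 1⟫ = 0 := by rw [← hb0]; exact hb01
      apply hrel _ e1
      · rw [← hxy]; exact e1
      · rw [hzzb, ← h0]; simp only [mul_zero, Real.sin_zero, Real.cos_zero, one_smul, zero_smul,
          add_zero]; exact hb01
    · -- θ > 0
      have htθ : 0 < t * θ := by positivity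
      have htθ' : t * θ < π := by nlinarith
      have hsθ : 0 < (1 - t) * θ := mul_pos (by linarith) h0
      have hsθ' : (1 - t) * θ < π := by nlinarith
      have hsin1 : 0 < Real.sin (t * θ) := Real.sin_pos_of_pos_of_lt_pi htθ htθ'
      have hsin2 : 0 < Real.sin ((1 - t) * θ) := Real.sin_pos_of_pos_of_lt_pi hsθ hsθ'
      have a1 : ∀ n, angle (x n) (z n) = t * θn n := by
        intro n
        have := angle_geo_geo (hx n) (hy n) (s := 0) (t := t) ⟨le_rfl, zero_le_one⟩
          ⟨ht0.le, ht1.le⟩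
        rw [geo_zero (hx n) (hy n), zero_sub, abs_neg, abs_of_pos ht0, ← hz n] at this
        exact this
      have a2 : ∀ n, angle (z n) (y n) = (1 - t) * θn n := by
        intro n
        have := angle_geo_geo (hx n) (hy n) (s := t) (t := 1) ⟨ht0.le, ht1.le⟩
          ⟨zero_le_one, le_rfl⟩
        rw [geo_one (hx n) (hy n), abs_sub_comm, abs_of_pos (by linarith), ← hz n] at this
        exact this
      have c1 : ⟪x0, geo t x0 y0⟫ = Real.cos (t * θ) := by
        have := inner_geo_geo hx0 hy0 0 t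
        rw [geo_zero hx0 hy0, zero_sub, neg_mul, Real.cos_neg] at this
        exact this
      have c2 : ⟪geo t x0 y0, y0⟫ = Real.cos ((1 - t) * θ) := by
        have := inner_geo_geo hx0 hy0 t 1
        rw [geo_one hx0 hy0, show (t - 1) * angle x0 y0 = -((1 - t) * θ) by rw [hθdef]; ring,
          Real.cos_neg] at this
        exact this
      -- velocities of the angles
      have hda : ∀ τ : ℝ, 0 < τ → τ < π →
          HasDerivAt Real.arccos (-(1 / Real.sin τ)) (Real.cos τ) := by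
        intro τ h1 h2
        have hs := Real.sin_pos_of_pos_of_lt_pi h1 h2
        have hsc := Real.sin_sq_add_cos_sq τ
        have := Real.hasDerivAt_arccos (x := Real.cos τ) (by nlinarith) (by nlinarith)
        rwa [show 1 - Real.cos τ ^ 2 = Real.sin τ ^ 2 by linarith, Real.sqrt_sq hs.le] at this
      have w1 : Vel (fun n => Real.arccos ⟪x n, z n⟫) (Real.arccos (Real.cos (t * θ)))
          (-(1 / Real.sin (t * θ)) * (⟪ξ, geo t x0 y0⟫ + ⟪x0, ζ⟫)) := by
        have h1 := hξ.inner hζ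
        rw [c1] at h1
        exact h1.comp_deriv (hda _ htθ htθ')
      have w2 : Vel (fun n => Real.arccos ⟪z n, y n⟫) (Real.arccos (Real.cos ((1 - t) * θ)))
          (-(1 / Real.sin ((1 - t) * θ)) * (⟪ζ, y0⟫ + ⟪geo t x0 y0, η⟫)) := by
        have h1 := hζ.inner hη
        rw [c2] at h1
        exact h1.comp_deriv (hda _ hsθ hsθ')
      rw [Real.arccos_cos htθ.le htθ'.le] at w1
      rw [Real.arccos_cos hsθ.le hsθ'.le] at w2
      have w1' : Vel (fun n => (1 - t) * (t * θn n)) ((1 - t) * (t * θ))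
          ((1 - t) * (-(1 / Real.sin (t * θ)) * (⟪ξ, geo t x0 y0⟫ + ⟪x0, ζ⟫))) := by
        have h1 : Tendsto (fun n : ℕ => (1 - t) * ((n : ℝ) • (Real.arccos ⟪x n, z n⟫ - t * θ)))
          atTop (𝓝 ((1 - t) * (-(1 / Real.sin (t * θ)) * (⟪ξ, geo t x0 y0⟫ + ⟪x0, ζ⟫)))) :=
          Tendsto.const_mul _ w1
        refine h1.congr (fun n => ?_)
        rw [← angle_unit_eq (hx n) (hzn n), a1 n]
        simp only [smul_eq_mul]; ring
      have w2' : Vel (fun n => (1 - t) * (t * θn n)) ((1 - t) * (t * θ))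
          (t * (-(1 / Real.sin ((1 - t) * θ)) * (⟪ζ, y0⟫ + ⟪geo t x0 y0, η⟫))) := by
        have h1 : Tendsto (fun n : ℕ => t * ((n : ℝ) • (Real.arccos ⟪z n, y n⟫ - (1 - t) * θ)))
          atTop (𝓝 (t * (-(1 / Real.sin ((1 - t) * θ)) * (⟪ζ, y0⟫ + ⟪geo t x0 y0, η⟫)))) :=
          Tendsto.const_mul _ w2
        refine h1.congr (fun n => ?_)
        rw [← angle_unit_eq (hzn n) (hy n), a2 n]
        simp only [smul_eq_mul]; ring
      have heq := w1'.unique w2'
      -- orthogonality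
      have hξ0 : ⟪ξ, b 0⟫ = 0 := by
        have h1 := hξ.inner hξ
        have h2 : Vel (fun n => ⟪x n, x n⟫) ⟪x0, x0⟫ 0 := by
          have : (fun n => ⟪x n, x n⟫) = fun _ : ℕ => ⟪x0, x0⟫ := by
            funext n
            rw [real_inner_self_eq_norm_sq, real_inner_self_eq_norm_sq, hx n, hx0]
          rw [this]; exact vel_const _
        have h3 := h1.unique h2
        rw [hb0]
        rw [real_inner_comm ξ x0] at h3
        linarith
      have hη0 : ⟪η, y0⟫ = 0 := by
        have h1 := hη.inner hη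
        have h2 : Vel (fun n => ⟪y n, y n⟫) ⟪y0, y0⟫ 0 := by
          have : (fun n => ⟪y n, y n⟫) = fun _ : ℕ => ⟪y0, y0⟫ := by
            funext n
            rw [real_inner_self_eq_norm_sq, real_inner_self_eq_norm_sq, hy n, hy0]
          rw [this]; exact vel_const _
        have h3 := h1.unique h2
        rw [real_inner_comm η y0] at h3
        linarith
      have hζ0 : ⟪ζ, geo t x0 y0⟫ = 0 := by
        have h1 := hζ.inner hζ
        have h2 : Vel (fun n => ⟪z n, z n⟫) ⟪geo t x0 y0, geo t x0 y0⟫ 0 := by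
          have : (fun n => ⟪z n, z n⟫) = fun _ : ℕ => ⟪geo t x0 y0, geo t x0 y0⟫ := by
            funext n
            rw [real_inner_self_eq_norm_sq, real_inner_self_eq_norm_sq, hzn n, hzz]
          rw [this]; exact vel_const _
        have h3 := h1.unique h2
        rw [real_inner_comm ζ (geo t x0 y0)] at h3
        linarith
      rw [inner_y0_frame hx0 hy0 hθ b hb0 hb1] at hη0
      rw [hzzb, inner_add_right, real_inner_smul_right, real_inner_smul_right] at hζ0
      -- names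
      set α := ⟪ξ, b 1⟫ with hα
      set β := ⟪η, -Real.sin θ • b 0 + Real.cos θ • b 1⟫ with hβ
      set ω := ⟪ζ, -Real.sin (t * θ) • b 0 + Real.cos (t * θ) • b 1⟫ with hω
      have hβe : β = -Real.sin θ * ⟪η, b 0⟫ + Real.cos θ * ⟪η, b 1⟫ := by
        rw [hβ, inner_add_right, real_inner_smul_right, real_inner_smul_right]
      have hωe : ω = -Real.sin (t * θ) * ⟪ζ, b 0⟫ + Real.cos (t * θ) * ⟪ζ, b 1⟫ := by
        rw [hω, inner_add_right, real_inner_smul_right, real_inner_smul_right]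
      have hsc := Real.sin_sq_add_cos_sq θ
      have hsct := Real.sin_sq_add_cos_sq (t * θ)
      have hηb0 : ⟪η, b 0⟫ = -Real.sin θ * β := by
        rw [hβe]; linear_combination (-⟪η, b 0⟫) * hsc + Real.cos θ * hη0
      have hηb1 : ⟪η, b 1⟫ = Real.cos θ * β := by
        rw [hβe]; linear_combination (-⟪η, b 1⟫) * hsc + Real.sin θ * hη0
      have hζb0 : ⟪ζ, b 0⟫ = -Real.sin (t * θ) * ω := by
        rw [hωe]; linear_combination (-⟪ζ, b 0⟫) * hsct + Real.cos (t * θ) * hζ0
      have hζb1 : ⟪ζ, b 1⟫ = Real.cos (t * θ) * ω := by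
        rw [hωe]; linear_combination (-⟪ζ, b 1⟫) * hsct + Real.sin (t * θ) * hζ0
      have f1 : ⟪ξ, geo t x0 y0⟫ = Real.sin (t * θ) * α := by
        rw [hzzb, inner_add_right, real_inner_smul_right, real_inner_smul_right, hξ0]; ring
      have f2 : ⟪x0, ζ⟫ = -Real.sin (t * θ) * ω := by
        rw [← hb0, real_inner_comm]; exact hζb0
      have hs1 : Real.sin ((1 - t) * θ) =
          Real.sin θ * Real.cos (t * θ) - Real.cos θ * Real.sin (t * θ) := by
        rw [show (1 - t) * θ = θ - t * θ by ring, Real.sin_sub]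
      have f3 : ⟪ζ, y0⟫ = Real.sin ((1 - t) * θ) * ω := by
        rw [inner_y0_frame hx0 hy0 hθ b hb0 hb1, hζb0, hζb1, hs1]; ring
      have f4 : ⟪geo t x0 y0, η⟫ = -Real.sin ((1 - t) * θ) * β := by
        rw [real_inner_comm, hzzb, inner_add_right, real_inner_smul_right, real_inner_smul_right,
          hηb0, hηb1, hs1]; ring
      rw [f1, f2, f3, f4] at heq
      have g1 : (1 - t) * (-(1 / Real.sin (t * θ)) * (Real.sin (t * θ) * α +
          -Real.sin (t * θ) * ω)) = (1 - t) * (ω - α) := by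
        field_simp
        ring
      have g2 : t * (-(1 / Real.sin ((1 - t) * θ)) * (Real.sin ((1 - t) * θ) * ω +
          -Real.sin ((1 - t) * θ) * β)) = t * (β - ω) := by
        field_simp
        ring
      rw [g1, g2] at heq
      linarith

end Factor

end Pool.Agent.Lib.H84.RCD
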