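import Mathlib
import Pool.Agent.Lib.H84.Mixed

/-!
# Almost everywhere differentiability and density points, on the cone over a subset of `S² × S²`
-/

open MeasureTheory Set Filter Topology Metric InnerProductGeometry Asymptotics
open scoped ENNReal NNReal Real RealInnerProductSpace

set_option linter.unusedSectionVars false
set_option linter.style.haveILetI false

namespace Pool.Agent.Lib.H84.RCD

instance instIsAddHaarMeasureVolumeE3E3 : (volume : Measure (E3 × E3)).IsAddHaarMeasure := by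
  rw [Measure.volume_eq_prod]
  infer_instance

/-- extension of `x` to a map homogeneous of degree one in each factor -/
noncomputable def homExt (x : E3 × E3 → E3 × E3) (u : E3 × E3) : E3 × E3 :=
  (‖u.1‖ • (x (proj u)).1, ‖u.2‖ • (x (proj u)).2)

/-- scaling of both factors -/
noncomputable def scal (a b : ℝ) (u : E3 × E3) : E3 × E3 := (a • u.1, b • u.2)

/-- scaling of both factors, as a continuous linear map -/
noncomputable def scalL (a b : ℝ) : E3 × E3 →L[ℝ] E3 × E3 :=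
  (a • ContinuousLinearMap.fst ℝ E3 E3).prod (b • ContinuousLinearMap.snd ℝ E3 E3)

lemma scalL_apply (a b : ℝ) (u : E3 × E3) : scalL a b u = scal a b u := rfl

lemma scal_add (a b : ℝ) (u v : E3 × E3) : scal a b (u + v) = scal a b u + scal a b v := by
  rw [← scalL_apply, map_add]; rfl

lemma scal_sub (a b : ℝ) (u v : E3 × E3) : scal a b (u - v) = scal a b u - scal a b v := by
  rw [← scalL_apply, map_sub]; rfl

lemma scal_smul (a b c : ℝ) (u : E3 × E3) : scal a b (c • u) = c • scal a b u := by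
  rw [← scalL_apply, map_smul]; rfl

lemma norm_scal_le {a b : ℝ} {c : ℝ} (ha : |a| ≤ c) (hb : |b| ≤ c) (u : E3 × E3) :
    ‖scal a b u‖ ≤ c * ‖u‖ := by
  have hc : 0 ≤ c := (abs_nonneg a).trans ha
  rw [scal, Prod.norm_mk, norm_smul, norm_smul, Prod.norm_def]
  apply max_le
  · exact mul_le_mul ha (le_max_left _ _) (norm_nonneg _) hc
  · exact mul_le_mul hb (le_max_right _ _) (norm_nonneg _) hc

lemma scal_scal (a b a' b' : ℝ) (u : E3 × E3) :
    scal a b (scal a' b' u) = scal (a * a') (b * b') u := by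
  simp [scal, smul_smul]

lemma scal_inv {a b : ℝ} (ha : a ≠ 0) (hb : b ≠ 0) (u : E3 × E3) :
    scal a b (scal a⁻¹ b⁻¹ u) = u := by
  rw [scal_scal, mul_inv_cancel₀ ha, mul_inv_cancel₀ hb]; simp [scal]

lemma scal_inv' {a b : ℝ} (ha : a ≠ 0) (hb : b ≠ 0) (u : E3 × E3) :
    scal a⁻¹ b⁻¹ (scal a b u) = u := by
  rw [scal_scal, inv_mul_cancel₀ ha, inv_mul_cancel₀ hb]; simp [scal]

lemma normalize_smul {a : ℝ} (ha : 0 < a) (v : E3) : ‖a • v‖⁻¹ • (a • v) = ‖v‖⁻¹ • v := by
  rw [norm_smul, Real.norm_eq_abs, abs_of_pos ha, smul_smul, mul_inv, mul_comm a⁻¹, mul_assoc,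
    inv_mul_cancel₀ ha.ne', mul_one]

lemma proj_scal {a b : ℝ} (ha : 0 < a) (hb : 0 < b) (u : E3 × E3) :
    proj (scal a b u) = proj u := by
  unfold proj scal
  simp only
  rw [normalize_smul ha, normalize_smul hb]

lemma proj_of_sph {z : E3 × E3} (hz : z ∈ SS.sph) : proj z = z := by
  unfold proj
  rw [hz.1, hz.2]; simp

lemma proj_mem_sph {u : E3 × E3} (h1 : u.1 ≠ 0) (h2 : u.2 ≠ 0) : proj u ∈ SS.sph := by
  unfold proj SS.sph
  simp only [mem_setOf_eq]
  rw [norm_smul, norm_smul, norm_inv, norm_inv, norm_norm, norm_norm,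
    inv_mul_cancel₀ (norm_ne_zero_iff.2 h1), inv_mul_cancel₀ (norm_ne_zero_iff.2 h2)]
  exact ⟨rfl, rfl⟩

lemma scal_proj {u : E3 × E3} (h1 : u.1 ≠ 0) (h2 : u.2 ≠ 0) :
    scal ‖u.1‖ ‖u.2‖ (proj u) = u := by
  unfold scal proj
  simp only [smul_smul]
  rw [mul_inv_cancel₀ (norm_ne_zero_iff.2 h1), mul_inv_cancel₀ (norm_ne_zero_iff.2 h2)]
  simp

lemma annulus_ne_zero {u : E3 × E3} (hu : u ∈ annulus) : u.1 ≠ 0 ∧ u.2 ≠ 0 := by
  constructor
  · intro h
    have := hu.1.1
    rw [h, norm_zero] at this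
    norm_num at this
  · intro h
    have := hu.2.1
    rw [h, norm_zero] at this
    norm_num at this

lemma isOpen_annulus : IsOpen annulus := by
  have h1 : Continuous (fun u : E3 × E3 => ‖u.1‖) := by fun_prop
  have h2 : Continuous (fun u : E3 × E3 => ‖u.2‖) := by fun_prop
  exact ((isOpen_lt continuous_const h1).inter (isOpen_lt h1 continuous_const)).inter
    ((isOpen_lt continuous_const h2).inter (isOpen_lt h2 continuous_const))

lemma sph_subset_annulus : SS.sph ⊆ annulus := by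
  intro z hz
  have h1 := hz.1
  have h2 := hz.2
  refine ⟨⟨?_, ?_⟩, ⟨?_, ?_⟩⟩ <;> simp only [h1, h2] <;> norm_num

lemma measurable_proj : Measurable proj := by
  unfold proj
  exact ((measurable_fst.norm.inv).smul measurable_fst).prodMk
    ((measurable_snd.norm.inv).smul measurable_snd)

lemma normalize_lip {v w : E3} (hv : 1 / 2 < ‖v‖) (hw : 1 / 2 < ‖w‖) :
    ‖‖v‖⁻¹ • v - ‖w‖⁻¹ • w‖ ≤ 4 * ‖v - w‖ := by
  have hv0 : 0 < ‖v‖ := by linarith
  have hw0 : 0 < ‖w‖ := by linarith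
  have h1 : ‖v‖⁻¹ • v - ‖w‖⁻¹ • w = ‖v‖⁻¹ • (v - w) + (‖v‖⁻¹ * (‖w‖ - ‖v‖) * ‖w‖⁻¹) • w := by
    rw [show ‖v‖⁻¹ * (‖w‖ - ‖v‖) * ‖w‖⁻¹ = ‖v‖⁻¹ - ‖w‖⁻¹ by field_simp, smul_sub, sub_smul]
    abel
  rw [h1]
  refine (norm_add_le _ _).trans ?_
  rw [norm_smul, norm_smul, norm_inv, norm_norm, norm_mul, norm_mul, norm_inv, norm_inv, norm_norm,
    norm_norm, mul_assoc (‖v‖⁻¹ * _), inv_mul_cancel₀ hw0.ne', mul_one, Real.norm_eq_abs]
  have h2 : |‖w‖ - ‖v‖| ≤ ‖v - w‖ := by
    rw [norm_sub_rev]; exact abs_norm_sub_norm_le w v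
  have h3 : ‖v‖⁻¹ ≤ 2 := by
    rw [inv_le_comm₀ hv0 (by norm_num)]; linarith
  have h4 := norm_nonneg (v - w)
  have h5 : 0 < ‖v‖⁻¹ := by positivity
  nlinarith [abs_nonneg (‖w‖ - ‖v‖)]

lemma proj_lipschitzOn : LipschitzOnWith 4 proj annulus := by
  apply LipschitzOnWith.of_dist_le_mul
  intro u hu v hv
  rw [dist_eq_norm, dist_eq_norm, Prod.norm_def, Prod.norm_def]
  have h1 := normalize_lip hu.1.1 hv.1.1
  have h2 := normalize_lip hu.2.1 hv.2.1
  simp only [NNReal.coe_ofNat]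
  apply max_le
  · exact h1.trans (mul_le_mul_of_nonneg_left (le_max_left _ _) (by norm_num))
  · exact h2.trans (mul_le_mul_of_nonneg_left (le_max_right _ _) (by norm_num))

lemma homExt_of_sph (x : E3 × E3 → E3 × E3) {z : E3 × E3} (hz : z ∈ SS.sph) :
    homExt x z = x z := by
  unfold homExt
  rw [proj_of_sph hz, hz.1, hz.2]; simp

/-- the open cone over `K` -/
def coneOver (K : Set (E3 × E3)) : Set (E3 × E3) := {u | u.1 ≠ 0 ∧ u.2 ≠ 0 ∧ proj u ∈ K}

lemma measurableSet_coneOver {K : Set (E3 × E3)} (hK : MeasurableSet K) :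
    MeasurableSet (coneOver K) := by
  have h1 : MeasurableSet {u : E3 × E3 | u.1 ≠ 0} :=
    (measurable_fst (measurableSet_singleton (0 : E3))).compl
  have h2 : MeasurableSet {u : E3 × E3 | u.2 ≠ 0} :=
    (measurable_snd (measurableSet_singleton (0 : E3))).compl
  exact h1.inter (h2.inter (measurable_proj hK))

lemma scal_mem_coneOver {K : Set (E3 × E3)} {a b : ℝ} (ha : 0 < a) (hb : 0 < b) {u : E3 × E3}
    (hu : u ∈ coneOver K) : scal a b u ∈ coneOver K := by
  refine ⟨?_, ?_, ?_⟩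
  · exact smul_ne_zero ha.ne' hu.1
  · exact smul_ne_zero hb.ne' hu.2.1
  · rw [proj_scal ha hb]; exact hu.2.2

/-- asymptotic density of `C` at `u` in the direction `v` -/
def AD (C : Set (E3 × E3)) (u v : E3 × E3) : Prop :=
  Tendsto (fun n : ℕ => (n : ℝ) * infDist (u + ((n : ℝ))⁻¹ • v) C) atTop (𝓝 0)

lemma AD_of_density {C : Set (E3 × E3)} {u : E3 × E3}
    (h : Tendsto (fun r => volume (C ∩ closedBall u r) / volume (closedBall u r)) (𝓝[>] 0) (𝓝 1))
    (v : E3 × E3) : AD C u v := by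
  unfold AD
  rw [Metric.tendsto_atTop]
  intro ε hε
  have h1 := Measure.eventually_nonempty_inter_smul_of_density_one (volume : Measure (E3 × E3)) C u
    h (closedBall v (ε / 2)) measurableSet_closedBall
    (measure_closedBall_pos _ _ (by positivity)).ne'
  have h2 : Tendsto (fun n : ℕ => ((n : ℝ))⁻¹) atTop (𝓝[>] 0) := by
    rw [tendsto_nhdsWithin_iff]
    refine ⟨tendsto_inv_atTop_nhds_zero_nat, ?_⟩
    filter_upwards [eventually_gt_atTop 0] with n hn
    have : (0 : ℝ) < n := by exact_mod_cast hn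
    exact inv_pos.2 this
  obtain ⟨N, hN⟩ := eventually_atTop.1 ((h2.eventually h1).and (eventually_gt_atTop 0))
  refine ⟨N, fun n hn => ?_⟩
  obtain ⟨⟨w, hwC, hw⟩, hn0⟩ := hN n hn
  have hnpos : (0 : ℝ) < n := by exact_mod_cast hn0
  rw [singleton_add, mem_image] at hw
  obtain ⟨w', hw', rfl⟩ := hw
  rw [mem_smul_set] at hw'
  obtain ⟨w'', hw'', rfl⟩ := hw'
  rw [Real.dist_eq, sub_zero, abs_of_nonneg (mul_nonneg hnpos.le infDist_nonneg)]
  have h3 : infDist (u + ((n : ℝ))⁻¹ • v) C ≤ ((n : ℝ))⁻¹ * (ε / 2) := by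
    refine (infDist_le_dist_of_mem hwC).trans ?_
    rw [dist_add_left, dist_smul₀, Real.norm_eq_abs, abs_of_pos (inv_pos.2 hnpos)]
    gcongr
    rw [dist_comm]; exact hw''
  calc (n : ℝ) * infDist (u + ((n : ℝ))⁻¹ • v) C ≤ n * (((n : ℝ))⁻¹ * (ε / 2)) := by gcongr
    _ = ε / 2 := by field_simp
    _ < ε := by linarith

/-- transfer of `AD` by scaling -/
lemma AD_scal {K : Set (E3 × E3)} {u v : E3 × E3} (hu : u ∈ annulus)
    (h : ∀ v, AD (coneOver K) u v) : AD (coneOver K) (proj u) v := by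
  obtain ⟨h1, h2⟩ := annulus_ne_zero hu
  set a := ‖u.1‖ with ha
  set b := ‖u.2‖ with hb
  have ha0 : 0 < a := norm_pos_iff.2 h1
  have hb0 : 0 < b := norm_pos_iff.2 h2
  have hbound : ∀ w, ‖scal a⁻¹ b⁻¹ w‖ ≤ 2 * ‖w‖ := by
    intro w
    apply norm_scal_le
    · rw [abs_of_pos (inv_pos.2 ha0), inv_le_comm₀ ha0 (by norm_num)]
      have := hu.1.1; linarith
    · rw [abs_of_pos (inv_pos.2 hb0), inv_le_comm₀ hb0 (by norm_num)]
      have := hu.2.1; linarith
  have hlim : Tendsto (fun n : ℕ => 2 * ((n : ℝ) * infDist (u + ((n : ℝ))⁻¹ • scal a b v)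
      (coneOver K))) atTop (𝓝 0) := by
    have := (h (scal a b v)).const_mul 2
    simpa using this
  rcases (coneOver K).eq_empty_or_nonempty with hem | hne
  · unfold AD; rw [hem]; simp
  refine squeeze_zero (fun n => mul_nonneg (Nat.cast_nonneg n) infDist_nonneg) (fun n => ?_) hlim
  rw [← mul_assoc, mul_comm (2 : ℝ), mul_assoc]
  apply mul_le_mul_of_nonneg_left _ (Nat.cast_nonneg n)
  have h3 : infDist (proj u + ((n : ℝ))⁻¹ • v) (coneOver K) / 2 ≤
      infDist (u + ((n : ℝ))⁻¹ • scal a b v) (coneOver K) := by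
    rw [le_infDist hne]
    intro c hc
    have h4 : infDist (proj u + ((n : ℝ))⁻¹ • v) (coneOver K) ≤
        dist (proj u + ((n : ℝ))⁻¹ • v) (scal a⁻¹ b⁻¹ c) :=
      infDist_le_dist_of_mem (scal_mem_coneOver (inv_pos.2 ha0) (inv_pos.2 hb0) hc)
    have h5 : proj u + ((n : ℝ))⁻¹ • v = scal a⁻¹ b⁻¹ (u + ((n : ℝ))⁻¹ • scal a b v) := by
      rw [scal_add, scal_smul, scal_inv' ha0.ne' hb0.ne']
      congr 1
    rw [h5, dist_eq_norm, ← scal_sub] at h4
    have h6 := hbound (u + ((n : ℝ))⁻¹ • scal a b v - c)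
    rw [dist_eq_norm]
    rw [← h5] at h4
    linarith
  linarith

/-- normalization of a sequence -/
lemma vel_normalize {v : ℕ → E3} {z ζ : E3} (hz : ‖z‖ = 1) (hζ : ⟪z, ζ⟫ = 0) (h : Vel v z ζ) :
    Vel (fun n => ‖v n‖⁻¹ • v n) z ζ := by
  have h1 : Vel (fun n => ⟪v n, v n⟫) 1 0 := by
    have := h.inner h
    rwa [real_inner_comm z ζ, hζ, real_inner_self_eq_norm_sq, hz, add_zero, one_pow] at this
  have h2 : HasDerivAt (fun s : ℝ => (√s)⁻¹) (-(1 / (2 * √1)) / (√1) ^ 2) 1 :=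
    (Real.hasDerivAt_sqrt (x := 1) (by norm_num)).inv (by simp)
  have h3 : Vel (fun n => (√⟪v n, v n⟫)⁻¹) 1 0 := by
    have := h1.comp_deriv h2
    rwa [mul_zero, Real.sqrt_one, inv_one] at this
  have h4 : ∀ n, (√⟪v n, v n⟫)⁻¹ = ‖v n‖⁻¹ := by
    intro n
    rw [real_inner_self_eq_norm_sq, Real.sqrt_sq (norm_nonneg _)]
  have h5 : Tendsto (fun n : ℕ => ((n : ℝ) • (‖v n‖⁻¹ - 1)) • v n + (n : ℝ) • (v n - z)) atTop
      (𝓝 ((0 : ℝ) • z + ζ)) := by
    apply Tendsto.add _ h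
    apply Tendsto.smul _ h.tendsto
    refine Tendsto.congr (fun n => ?_) h3
    simp only [h4 n]
  rw [zero_smul, zero_add] at h5
  refine Tendsto.congr (fun n => ?_) h5
  rw [smul_sub, smul_sub, smul_sub, sub_smul, smul_smul, smul_eq_mul, smul_eq_mul, mul_one,
    sub_add_sub_cancel]

lemma exists_seq_of_AD {K : Set (E3 × E3)} (hne : K.Nonempty) (hKs : K ⊆ SS.sph) {z ζ : E3 × E3}
    (hz : z ∈ SS.sph) (h : ∀ v, AD (coneOver K) z v) (h1 : ⟪z.1, ζ.1⟫ = 0) (h2 : ⟪z.2, ζ.2⟫ = 0) :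
    ∃ w : ℕ → E3 × E3, (∀ n, w n ∈ K) ∧ Vel w z ζ := by
  have hCne : (coneOver K).Nonempty := by
    obtain ⟨k, hk⟩ := hne
    obtain ⟨h3, h4⟩ := annulus_ne_zero (sph_subset_annulus (hKs hk))
    exact ⟨k, h3, h4, by rw [proj_of_sph (hKs hk)]; exact hk⟩
  -- choose near-minimizers
  have hch : ∀ n : ℕ, ∃ c ∈ coneOver K, dist (z + ((n : ℝ))⁻¹ • ζ) c <
      infDist (z + ((n : ℝ))⁻¹ • ζ) (coneOver K) + (((n : ℝ) + 1)⁻¹) ^ 2 := by
    intro n
    apply (infDist_lt_iff hCne).1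
    have : (0 : ℝ) < (((n : ℝ) + 1)⁻¹) ^ 2 := by positivity
    linarith
  choose c hcC hcd using hch
  have hvel : Vel c z ζ := by
    unfold Vel
    rw [tendsto_iff_dist_tendsto_zero]
    have hlim : Tendsto (fun n : ℕ => (n : ℝ) * infDist (z + ((n : ℝ))⁻¹ • ζ) (coneOver K) +
        ((n : ℝ) + 1)⁻¹) atTop (𝓝 0) := by
      have h4 : Tendsto (fun n : ℕ => ((n : ℝ) + 1)⁻¹) atTop (𝓝 0) := by
        have := tendsto_one_div_add_atTop_nhds_zero_nat (𝕜 := ℝ)
        simpa using this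
      simpa using (h ζ).add h4
    refine squeeze_zero' (Eventually.of_forall (fun n => dist_nonneg)) ?_ hlim
    filter_upwards [eventually_gt_atTop 0] with n hn
    have hnpos : (0 : ℝ) < n := by exact_mod_cast hn
    have h5 : (n : ℝ) • (c n - z) - ζ = -((n : ℝ) • (z + ((n : ℝ))⁻¹ • ζ - c n)) := by
      rw [smul_sub, smul_sub, smul_add, smul_smul, mul_inv_cancel₀ hnpos.ne', one_smul]
      abel
    rw [dist_eq_norm, h5, norm_neg, norm_smul, Real.norm_natCast, ← dist_eq_norm]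
    calc (n : ℝ) * dist (z + ((n : ℝ))⁻¹ • ζ) (c n)
        ≤ n * (infDist (z + ((n : ℝ))⁻¹ • ζ) (coneOver K) + (((n : ℝ) + 1)⁻¹) ^ 2) := by
          gcongr; exact (hcd n).le
      _ = (n : ℝ) * infDist (z + ((n : ℝ))⁻¹ • ζ) (coneOver K) +
          (n : ℝ) * (((n : ℝ) + 1)⁻¹) ^ 2 := by ring
      _ ≤ _ := by
          gcongr
          rw [sq, ← mul_assoc]
          have : (n : ℝ) * ((n : ℝ) + 1)⁻¹ ≤ 1 := by
            rw [← div_eq_mul_inv, div_le_one (by positivity)]; linarith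
          have h6 : (0 : ℝ) < ((n : ℝ) + 1)⁻¹ := by positivity
          nlinarith
  have hv1 : Vel (fun n => (c n).1) z.1 ζ.1 := hvel.clm (ContinuousLinearMap.fst ℝ E3 E3)
  have hv2 : Vel (fun n => (c n).2) z.2 ζ.2 := hvel.clm (ContinuousLinearMap.snd ℝ E3 E3)
  have hw1 := vel_normalize hz.1 h1 hv1
  have hw2 := vel_normalize hz.2 h2 hv2
  refine ⟨fun n => proj (c n), fun n => (hcC n).2.2, ?_⟩
  unfold Vel at hw1 hw2 ⊢
  exact hw1.prodMk_nhds hw2

/-- Almost every point of `K` is a point of differentiability and a density point. -/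
theorem ae_good {K : Set (E3 × E3)} (hK : MeasurableSet K) (hKs : K ⊆ SS.sph)
    {x : E3 × E3 → E3 × E3} {L : ℝ≥0} (hx : LipschitzWith L x) :
    ∀ᵐ z ∂(coneMeasure.restrict K), DifferentiableAt ℝ (homExt x) z ∧
      ∀ ζ : E3 × E3, ⟪z.1, ζ.1⟫ = 0 → ⟪z.2, ζ.2⟫ = 0 →
        ∃ w : ℕ → E3 × E3, (∀ n, w n ∈ K) ∧ Vel w z ζ := by
  set P : E3 × E3 → Prop := fun u => DifferentiableAt ℝ (x ∘ proj) u ∧
    ∀ v, AD (coneOver K) u v with hP
  -- step 1
  have hann : MeasurableSet annulus := isOpen_annulus.measurableSet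
  have hC := measurableSet_coneOver hK
  have step1 : ∀ᵐ u ∂(volume : Measure (E3 × E3)), u ∈ annulus → proj u ∈ K → P u := by
    have hlip : LipschitzOnWith (L * 4) (x ∘ proj) annulus :=
      hx.comp_lipschitzOnWith proj_lipschitzOn
    have h1 := hlip.ae_differentiableWithinAt_of_mem (μ := (volume : Measure (E3 × E3)))
    have h2 := Besicovitch.ae_tendsto_measure_inter_div (volume : Measure (E3 × E3)) (coneOver K)
    rw [ae_restrict_iff' hC] at h2
    filter_upwards [h1, h2] with u hu1 hu2 huA huK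
    obtain ⟨h3, h4⟩ := annulus_ne_zero huA
    refine ⟨(hu1 huA).differentiableAt (isOpen_annulus.mem_nhds huA), ?_⟩
    exact AD_of_density (hu2 ⟨h3, h4, huK⟩)
  -- step 2
  have step2 : ∀ u ∈ annulus, P u → P (proj u) := by
    intro u hu hPu
    obtain ⟨h3, h4⟩ := annulus_ne_zero hu
    have ha0 : 0 < ‖u.1‖ := norm_pos_iff.2 h3
    have hb0 : 0 < ‖u.2‖ := norm_pos_iff.2 h4
    refine ⟨?_, fun v => AD_scal hu hPu.2⟩
    have h5 : x ∘ proj = (x ∘ proj) ∘ (scalL ‖u.1‖ ‖u.2‖) := by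
      funext w
      simp only [Function.comp, scalL_apply]
      rw [proj_scal ha0 hb0]
    rw [h5]
    apply DifferentiableAt.comp
    · rw [scalL_apply, scal_proj h3 h4]; exact hPu.1
    · exact (scalL ‖u.1‖ ‖u.2‖).differentiableAt
  -- measurability
  have hPm : MeasurableSet {u | P u} := by
    have m1 : MeasurableSet {u | DifferentiableAt ℝ (x ∘ proj) u} :=
      measurableSet_of_differentiableAt ℝ (x ∘ proj)
    have m2 : {u | ∀ v, AD (coneOver K) u v} =
        ⋂ k : ℕ, {u | AD (coneOver K) u (TopologicalSpace.denseSeq (E3 × E3) k)} := by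
      ext u
      simp only [mem_setOf_eq, mem_iInter]
      constructor
      · exact fun h k => h _
      · intro h v
        unfold AD at h ⊢
        rw [Metric.tendsto_atTop]
        intro ε hε
        obtain ⟨k, hk⟩ := (TopologicalSpace.denseRange_denseSeq (E3 × E3)).exists_dist_lt v
          (half_pos hε)
        obtain ⟨N, hN⟩ := Metric.tendsto_atTop.1 (h k) (ε / 2) (half_pos hε)
        refine ⟨max N 1, fun n hn => ?_⟩
        have hn1 : N ≤ n := (le_max_left _ _).trans hn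
        have hn2 : 1 ≤ n := (le_max_right _ _).trans hn
        have hnpos : (0 : ℝ) < n := by exact_mod_cast hn2
        have h6 := hN n hn1
        rw [Real.dist_eq, sub_zero, abs_of_nonneg (mul_nonneg hnpos.le infDist_nonneg)] at h6 ⊢
        have h7 : infDist (u + ((n : ℝ))⁻¹ • v) (coneOver K) ≤
            infDist (u + ((n : ℝ))⁻¹ • TopologicalSpace.denseSeq (E3 × E3) k) (coneOver K) +
              dist (u + ((n : ℝ))⁻¹ • v)
                (u + ((n : ℝ))⁻¹ • TopologicalSpace.denseSeq (E3 × E3) k) :=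
          infDist_le_infDist_add_dist
        rw [dist_add_left, dist_smul₀, Real.norm_eq_abs, abs_of_pos (inv_pos.2 hnpos)] at h7
        calc (n : ℝ) * infDist (u + ((n : ℝ))⁻¹ • v) (coneOver K)
            ≤ n * (infDist (u + ((n : ℝ))⁻¹ • TopologicalSpace.denseSeq (E3 × E3) k)
              (coneOver K) + ((n : ℝ))⁻¹ * dist v (TopologicalSpace.denseSeq (E3 × E3) k)) := by
              gcongr
          _ = n * infDist (u + ((n : ℝ))⁻¹ • TopologicalSpace.denseSeq (E3 × E3) k)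
              (coneOver K) + dist v (TopologicalSpace.denseSeq (E3 × E3) k) := by
              field_simp
          _ < ε := by linarith
    have m3 : MeasurableSet {u | ∀ v, AD (coneOver K) u v} := by
      rw [m2]
      apply MeasurableSet.iInter
      intro k
      unfold AD
      apply measurableSet_tendsto
      intro n
      have : Continuous (fun u : E3 × E3 => (n : ℝ) * infDist (u + ((n : ℝ))⁻¹ •
          TopologicalSpace.denseSeq (E3 × E3) k) (coneOver K)) := by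
        have := continuous_infDist_pt (coneOver K)
        fun_prop
      exact this.measurable
    exact m1.inter m3
  -- step 3
  have step3 : ∀ᵐ z ∂(coneMeasure.restrict K), P z := by
    rw [ae_restrict_iff' hK]
    unfold coneMeasure
    have hset : MeasurableSet {z | z ∈ K → P z} := by
      have : {z | z ∈ K → P z} = Kᶜ ∪ {z | P z} := by
        ext z; simp only [mem_setOf_eq, mem_union, mem_compl_iff]; tauto
      rw [this]
      exact hK.compl.union hPm
    rw [ae_map_iff measurable_proj.aemeasurable hset, ae_restrict_iff' hann]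
    filter_upwards [step1] with u hu huA huK
    exact step2 u huA (hu huA huK)
  -- step 4
  filter_upwards [step3, ae_restrict_mem hK] with z hz hzK
  have hzs := hKs hzK
  obtain ⟨h3, h4⟩ := annulus_ne_zero (sph_subset_annulus hzs)
  refine ⟨?_, fun ζ h1 h2 => exists_seq_of_AD ⟨z, hzK⟩ hKs hzs hz.2 h1 h2⟩
  unfold homExt
  have hd : DifferentiableAt ℝ (fun u => x (proj u)) z := hz.1
  have hn1 : DifferentiableAt ℝ (fun u : E3 × E3 => ‖u.1‖) z :=
    differentiableAt_fst.norm ℝ h3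
  have hn2 : DifferentiableAt ℝ (fun u : E3 × E3 => ‖u.2‖) z :=
    differentiableAt_snd.norm ℝ h4
  exact (hn1.smul hd.fst).prodMk (hn2.smul hd.snd)

end Pool.Agent.Lib.H84.RCD
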