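import Mathlib
import Pool.Agent.Lib.H84.Space

/-!
# Determinants of block maps of `ℝ³ × ℝ³`
-/

open MeasureTheory Set Filter Topology Metric InnerProductGeometry Asymptotics
open scoped ENNReal NNReal Real RealInnerProductSpace

set_option linter.unusedSectionVars false
set_option linter.style.haveILetI false

namespace Pool.Agent.Lib.H84.RCD

lemma abs_det_isometry (ρ : E3 ≃ₗᵢ[ℝ] E3) :
    |LinearMap.det (ρ.toLinearEquiv : E3 →ₗ[ℝ] E3)| = 1 := by
  have h := Measure.addHaar_image_linearMap (volume : Measure E3)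
    (ρ.toLinearEquiv : E3 →ₗ[ℝ] E3) (ball 0 1)
  have h1 : (ρ.toLinearEquiv : E3 →ₗ[ℝ] E3) '' ball 0 1 = ball 0 1 := by
    have h2 : (ρ.toLinearEquiv : E3 →ₗ[ℝ] E3) '' ball 0 1 = ρ '' ball 0 1 := rfl
    rw [h2, LinearIsometryEquiv.image_ball, map_zero]
  rw [h1] at h
  have hpos : volume (ball (0 : E3) 1) ≠ 0 := (measure_ball_pos _ _ one_pos).ne'
  have hfin : volume (ball (0 : E3) 1) ≠ ∞ := measure_ball_lt_top.ne
  have h3 : ENNReal.ofReal |LinearMap.det (ρ.toLinearEquiv : E3 →ₗ[ℝ] E3)| = 1 := by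
    have h4 : (1 : ℝ≥0∞) * volume (ball (0 : E3) 1) =
      ENNReal.ofReal |LinearMap.det (ρ.toLinearEquiv : E3 →ₗ[ℝ] E3)| *
        volume (ball (0 : E3) 1) := by rw [one_mul]; exact h
    exact ((ENNReal.mul_left_inj hpos hfin).1 h4).symm
  rw [ENNReal.ofReal_eq_one] at h3
  exact h3

/-- the four tangential frame vectors -/
noncomputable def fvec (b1 b2 : OrthonormalBasis (Fin 3) ℝ E3) : Fin 4 → E3 × E3 :=
  ![(b1 1, 0), (b1 2, 0), (0, b2 1), (0, b2 2)]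

/-- the four tangential coordinates -/
noncomputable def cvec (b1 b2 : OrthonormalBasis (Fin 3) ℝ E3) (k : Fin 4) (v : E3 × E3) : ℝ :=
  ![⟪v.1, b1 1⟫, ⟪v.1, b1 2⟫, ⟪v.2, b2 1⟫, ⟪v.2, b2 2⟫] k

/-- reordering of the indices -/
def gidx : Fin 2 ⊕ Fin 4 → Fin 3 ⊕ Fin 3 :=
  Sum.elim ![Sum.inl 0, Sum.inr 0] ![Sum.inl 1, Sum.inl 2, Sum.inr 1, Sum.inr 2]

lemma gidx_bij : Function.Bijective gidx := by
  constructor
  · intro a b; revert a b; decide
  · intro a; revert a; decide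

lemma det_block (b1 b2 : OrthonormalBasis (Fin 3) ℝ E3) (M : E3 × E3 →ₗ[ℝ] E3 × E3)
    (h1 : M (b1 0, 0) = (b1 0, 0)) (h2 : M (0, b2 0) = (0, b2 0))
    (h3 : ∀ l : Fin 4, ⟪(M (fvec b1 b2 l)).1, b1 0⟫ = 0)
    (h4 : ∀ l : Fin 4, ⟪(M (fvec b1 b2 l)).2, b2 0⟫ = 0) :
    LinearMap.det M = Matrix.det (Matrix.of fun k l => cvec b1 b2 k (M (fvec b1 b2 l))) := by
  set 𝔟 := b1.toBasis.prod b2.toBasis with h𝔟
  rw [← LinearMap.det_toMatrix 𝔟 M]
  set N := LinearMap.toMatrix 𝔟 𝔟 M with hN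
  let e : Fin 2 ⊕ Fin 4 ≃ Fin 3 ⊕ Fin 3 := Equiv.ofBijective gidx gidx_bij
  have he : ∀ i, e i = gidx i := fun i => rfl
  rw [← Matrix.det_submatrix_equiv_self e N]
  have hrepr1 : ∀ (v : E3 × E3) (i : Fin 3), 𝔟.repr v (Sum.inl i) = ⟪v.1, b1 i⟫ := by
    intro v i
    rw [h𝔟, Module.Basis.prod_repr_inl, OrthonormalBasis.coe_toBasis_repr_apply,
      OrthonormalBasis.repr_apply_apply, real_inner_comm]
  have hrepr2 : ∀ (v : E3 × E3) (i : Fin 3), 𝔟.repr v (Sum.inr i) = ⟪v.2, b2 i⟫ := by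
    intro v i
    rw [h𝔟, Module.Basis.prod_repr_inr, OrthonormalBasis.coe_toBasis_repr_apply,
      OrthonormalBasis.repr_apply_apply, real_inner_comm]
  have hb1 : ∀ i : Fin 3, 𝔟 (Sum.inl i) = (b1 i, 0) := by
    intro i
    rw [h𝔟, Module.Basis.prod_apply]; simp
  have hb2 : ∀ i : Fin 3, 𝔟 (Sum.inr i) = (0, b2 i) := by
    intro i
    rw [h𝔟, Module.Basis.prod_apply]; simp
  have o1 : ∀ i j : Fin 3, ⟪b1 i, b1 j⟫ = if i = j then 1 else 0 :=
    fun i j => orthonormal_iff_ite.1 b1.orthonormal i j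
  have o2 : ∀ i j : Fin 3, ⟪b2 i, b2 j⟫ = if i = j then 1 else 0 :=
    fun i j => orthonormal_iff_ite.1 b2.orthonormal i j
  have hblocks : N.submatrix e e = Matrix.fromBlocks 1 0 0
      (Matrix.of fun k l => cvec b1 b2 k (M (fvec b1 b2 l))) := by
    ext i j
    rw [Matrix.submatrix_apply, hN, LinearMap.toMatrix_apply, he, he]
    rcases i with i | i <;> rcases j with j | j
    · rw [Matrix.fromBlocks_apply₁₁]
      fin_cases i <;> fin_cases j <;>
        simp [gidx, hrepr1, hrepr2, hb1, hb2, h1, h2, o1, o2]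
    · rw [Matrix.fromBlocks_apply₁₂]
      have g3 := h3 j
      have g4 := h4 j
      fin_cases i <;> fin_cases j <;>
        simpa [gidx, hrepr1, hrepr2, hb1, hb2, fvec] using (by assumption)
    · rw [Matrix.fromBlocks_apply₂₁]
      fin_cases i <;> fin_cases j <;>
        simp [gidx, hrepr1, hrepr2, hb1, hb2, h1, h2, o1, o2]
    · rw [Matrix.fromBlocks_apply₂₂]
      fin_cases i <;> fin_cases j <;>
        simp [gidx, hrepr1, hrepr2, hb1, hb2, fvec, cvec]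
  rw [hblocks, Matrix.det_fromBlocks_zero₂₁, Matrix.det_one, one_mul]

end Pool.Agent.Lib.H84.RCD
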