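import Mathlib

/-!
# A determinant inequality
-/

open Matrix
open scoped Real

set_option linter.unusedSectionVars false
set_option linter.style.haveILetI false

namespace Pool.Agent.Lib.H84.RCD

/-- arithmetic-geometric mean inequality for the determinant of a positive semidefinite matrix -/
lemma det_rpow_le_trace {n : ℕ} (hn : 0 < n) {P : Matrix (Fin n) (Fin n) ℝ} (hP : P.PosSemidef) :
    0 ≤ P.det ∧ P.det ^ (1 / (n : ℝ)) ≤ P.trace / n := by
  have hH := hP.isHermitian
  have hdet : P.det = ∏ i, hH.eigenvalues i := by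
    simpa using hH.det_eq_prod_eigenvalues
  have htr : P.trace = ∑ i, hH.eigenvalues i := by
    simpa using hH.trace_eq_sum_eigenvalues
  have hev : ∀ i, 0 ≤ hH.eigenvalues i := hP.eigenvalues_nonneg
  have hnR : (0 : ℝ) < n := by exact_mod_cast hn
  refine ⟨by rw [hdet]; exact Finset.prod_nonneg (fun i _ => hev i), ?_⟩
  have h := Real.geom_mean_le_arith_mean_weighted Finset.univ (fun _ : Fin n => 1 / (n : ℝ))
    hH.eigenvalues (fun i _ => by positivity) (by simp [hnR.ne']) (fun i _ => hev i)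
  rw [Real.finset_prod_rpow _ _ (fun i _ => hev i), ← hdet, ← Finset.mul_sum, ← htr] at h
  refine h.trans (le_of_eq ?_)
  ring

theorem det_ineq {n : ℕ} (hn : 0 < n) (A B : Matrix (Fin n) (Fin n) ℝ) (d : Fin n → ℝ)
    (hd : ∀ i, 0 < d i) (hAB : A + B = 1)
    (hpsd : (A.transpose * Matrix.diagonal d * B).PosSemidef) :
    0 ≤ A.det ∧ 0 ≤ B.det ∧ A.det ^ (1 / (n : ℝ)) + B.det ^ (1 / (n : ℝ)) ≤ 1 := by
  have hnR : (0 : ℝ) < n := by exact_mod_cast hn
  have hB : B = 1 - A := by rw [← hAB]; abel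
  set D : Matrix (Fin n) (Fin n) ℝ := Matrix.diagonal d with hD
  set R : Matrix (Fin n) (Fin n) ℝ := Matrix.diagonal (fun i => √(d i)) with hR
  set R' : Matrix (Fin n) (Fin n) ℝ := Matrix.diagonal (fun i => (√(d i))⁻¹) with hR'
  have hsq : ∀ i, √(d i) ≠ 0 := fun i => (Real.sqrt_pos.2 (hd i)).ne'
  have hRR' : R * R' = 1 := by
    rw [hR, hR', diagonal_mul_diagonal, ← diagonal_one]
    congr 1; ext i; exact mul_inv_cancel₀ (hsq i)
  have hR'R : R' * R = 1 := by
    rw [hR, hR', diagonal_mul_diagonal, ← diagonal_one]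
    congr 1; ext i; exact inv_mul_cancel₀ (hsq i)
  have hRR : R * R = D := by
    rw [hR, hD, diagonal_mul_diagonal]
    congr 1; ext i; exact Real.mul_self_sqrt (hd i).le
  have hRt : Rᵀ = R := by rw [hR, diagonal_transpose]
  have hR't : R'ᵀ = R' := by rw [hR', diagonal_transpose]
  have hDt : Dᵀ = D := by rw [hD, diagonal_transpose]
  -- symmetry
  have hsymm : Aᵀ * D = D * A := by
    have h1 := hpsd.isHermitian
    rw [IsHermitian, conjTranspose_eq_transpose_of_trivial, transpose_mul, transpose_mul,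
      transpose_transpose, hDt, hB, transpose_sub, transpose_one] at h1
    have h2 : (1 - Aᵀ) * (D * A) = D * A - Aᵀ * D * A := by noncomm_ring
    have h3 : Aᵀ * D * (1 - A) = Aᵀ * D - Aᵀ * D * A := by noncomm_ring
    rw [h2, h3] at h1
    exact (sub_left_inj.1 h1).symm
  set P := R * A * R' with hP
  set Q := R * B * R' with hQ
  have hPt : Pᵀ = P := by
    rw [hP, transpose_mul, transpose_mul, hRt, hR't]
    calc R' * (Aᵀ * R) = R' * (Aᵀ * R) * (R * R') := by rw [hRR', mul_one]
      _ = R' * (Aᵀ * (R * R)) * R' := by noncomm_ring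
      _ = R' * (R * R * A) * R' := by rw [hRR, hsymm]
      _ = (R' * R) * R * A * R' := by noncomm_ring
      _ = R * A * R' := by rw [hR'R, one_mul]
  have hPQ : P + Q = 1 := by
    rw [hP, hQ, ← add_mul, ← mul_add, hAB, mul_one, hRR']
  have hQP : Q = 1 - P := by rw [← hPQ]; abel
  have hQt : Qᵀ = Q := by rw [hQP, transpose_sub, transpose_one, hPt]
  have hG : P * Q = R' * (Aᵀ * D * B) * R' := by
    calc P * Q = Pᵀ * Q := by rw [hPt]
      _ = (R' * (Aᵀ * R)) * (R * B * R') := by
        rw [hP, hQ, transpose_mul, transpose_mul, hRt, hR't]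
      _ = R' * (Aᵀ * (R * R) * B) * R' := by noncomm_ring
      _ = R' * (Aᵀ * D * B) * R' := by rw [hRR]
  have hPQpsd : (P * Q).PosSemidef := by
    rw [hG]
    have := hpsd.conjTranspose_mul_mul_same R'
    rwa [conjTranspose_eq_transpose_of_trivial, hR't] at this
  have hPpsd : P.PosSemidef := by
    have h1 : P = P * Q + Pᴴ * P := by
      rw [conjTranspose_eq_transpose_of_trivial, hPt, hQP]; noncomm_ring
    rw [h1]
    exact hPQpsd.add (posSemidef_conjTranspose_mul_self P)
  have hQpsd : Q.PosSemidef := by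
    have h1 : Q = P * Q + Qᴴ * Q := by
      rw [conjTranspose_eq_transpose_of_trivial, hQt, hQP]; noncomm_ring
    rw [h1]
    exact hPQpsd.add (posSemidef_conjTranspose_mul_self Q)
  have hdet : R.det * R'.det = 1 := by rw [← det_mul, hRR', det_one]
  have hPdet : P.det = A.det := by
    rw [hP, det_mul, det_mul]; linear_combination A.det * hdet
  have hQdet : Q.det = B.det := by
    rw [hQ, det_mul, det_mul]; linear_combination B.det * hdet
  obtain ⟨p1, p2⟩ := det_rpow_le_trace hn hPpsd
  obtain ⟨q1, q2⟩ := det_rpow_le_trace hn hQpsd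
  rw [hPdet] at p1 p2
  rw [hQdet] at q1 q2
  refine ⟨p1, q1, (add_le_add p2 q2).trans ?_⟩
  rw [← add_div, ← trace_add, hPQ, trace_one, Fintype.card_fin, div_self hnR.ne']

end Pool.Agent.Lib.H84.RCD
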