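import Mathlib
import Pool.Agent.Lib.H84.Frames
import Pool.Agent.Lib.H84.Good
import Pool.Agent.Lib.H84.DetBlock
import Pool.Agent.Lib.H84.Algebra
import Pool.Agent.Lib.H84.T7LinAlg

/-!
# The pointwise Jacobian inequality
-/

open MeasureTheory Set Filter Topology Metric InnerProductGeometry Asymptotics
open scoped ENNReal NNReal Real RealInnerProductSpace

set_option linter.unusedSectionVars false
set_option linter.style.haveILetI false

namespace Pool.Agent.Lib.H84.RCD

/-- the squared angle cost on `ℝ³ × ℝ³` -/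
noncomputable def cst (u v : E3 × E3) : ℝ := angle u.1 v.1 ^ 2 + angle u.2 v.2 ^ 2

/-- cyclical monotonicity of the relation `{(x z, y z) : z ∈ K}` for the cost `cst` -/
def CycRel (K : Set (E3 × E3)) (x y : E3 × E3 → E3 × E3) : Prop :=
  ∀ (L : ℕ) (w : Fin L → E3 × E3) (_ : ∀ i, w i ∈ K) (σ : Equiv.Perm (Fin L)),
    ∑ i, cst (x (w i)) (y (w i)) ≤ ∑ i, cst (x (w i)) (y (w (σ i)))

/-- existence of an orthonormal frame extending two orthonormal vectors -/
lemma exists_frame {u v : E3} (hu : ‖u‖ = 1) (hv : ‖v‖ = 1) (huv : ⟪u, v⟫ = 0) :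
    ∃ b : OrthonormalBasis (Fin 3) ℝ E3, b 0 = u ∧ b 1 = v := by
  set f : Fin 3 → E3 := ![u, v, 0] with hf
  set s : Set (Fin 3) := {0, 1} with hs
  have hort : Orthonormal ℝ (s.domRestrict f) := by
    constructor
    · rintro ⟨i, hi⟩
      simp only [hs, mem_insert_iff, mem_singleton_iff] at hi
      rcases hi with rfl | rfl
      · simpa [Set.domRestrict, hf] using hu
      · simpa [Set.domRestrict, hf] using hv
    · rintro ⟨i, hi⟩ ⟨j, hj⟩ hij
      simp only [hs, mem_insert_iff, mem_singleton_iff] at hi hj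
      rcases hi with rfl | rfl <;> rcases hj with rfl | rfl
      · exact absurd rfl hij
      · simpa [Set.domRestrict, hf] using huv
      · simpa [Set.domRestrict, hf, real_inner_comm] using huv
      · exact absurd rfl hij
  obtain ⟨b, hb⟩ := hort.exists_orthonormalBasis_extension_of_card_eq (by simp)
  refine ⟨b, ?_, ?_⟩
  · rw [hb 0 (by simp [hs])]; simp [hf]
  · rw [hb 1 (by simp [hs])]; simp [hf]

/-- rotated frame -/
lemma exists_rot (b : OrthonormalBasis (Fin 3) ℝ E3) (τ : ℝ) :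
    ∃ b' : OrthonormalBasis (Fin 3) ℝ E3, b' 0 = Real.cos τ • b 0 + Real.sin τ • b 1 ∧
      b' 1 = -Real.sin τ • b 0 + Real.cos τ • b 1 ∧ b' 2 = b 2 := by
  set f : Fin 3 → E3 := ![Real.cos τ • b 0 + Real.sin τ • b 1,
    -Real.sin τ • b 0 + Real.cos τ • b 1, b 2] with hf
  have o : ∀ i j : Fin 3, ⟪b i, b j⟫ = if i = j then 1 else 0 :=
    fun i j => orthonormal_iff_ite.1 b.orthonormal i j
  have hsc := Real.sin_sq_add_cos_sq τ
  have hort : Orthonormal ℝ f := by
    rw [orthonormal_iff_ite]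
    intro i j
    have hcc : Real.cos τ * Real.cos τ + Real.sin τ * Real.sin τ = 1 := by nlinarith
    have e00 : ⟪f 0, f 0⟫ = 1 := by
      simp only [hf, Matrix.cons_val_zero, inner_add_left, inner_add_right, real_inner_smul_left,
        real_inner_smul_right, o]
      simp
      linarith
    have e11 : ⟪f 1, f 1⟫ = 1 := by
      simp only [hf, Matrix.cons_val_one, Matrix.cons_val_zero, inner_add_left, inner_add_right,
        real_inner_smul_left, real_inner_smul_right, o]
      simp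
      linarith
    have e01 : ⟪f 0, f 1⟫ = 0 := by
      simp only [hf, Matrix.cons_val_one, Matrix.cons_val_zero, inner_add_left, inner_add_right,
        real_inner_smul_left, real_inner_smul_right, o]
      simp
      ring
    have e22 : ⟪f 2, f 2⟫ = 1 := by simp [hf]
    have e02 : ⟪f 0, f 2⟫ = 0 := by
      simp [hf, inner_add_left, real_inner_smul_left, o]
    have e12 : ⟪f 1, f 2⟫ = 0 := by
      simp [hf, inner_add_left, real_inner_smul_left, o]
    fin_cases i <;> fin_cases j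
    · simpa using e00
    · simpa using e01
    · simpa using e02
    · rw [real_inner_comm]; simpa using e01
    · simpa using e11
    · simpa using e12
    · rw [real_inner_comm]; simpa using e02
    · rw [real_inner_comm]; simpa using e12
    · simpa using e22
  have hort' : Orthonormal ℝ ((univ : Set (Fin 3)).domRestrict f) := by
    exact hort.comp _ Subtype.val_injective
  obtain ⟨b', hb'⟩ := hort'.exists_orthonormalBasis_extension_of_card_eq (by simp)
  refine ⟨b', ?_, ?_, ?_⟩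
  · rw [hb' 0 (mem_univ _)]; simp [hf]
  · rw [hb' 1 (mem_univ _)]; simp [hf]
  · rw [hb' 2 (mem_univ _)]; simp [hf]

lemma cvec_sum (b1 b2 : OrthonormalBasis (Fin 3) ℝ E3) (k : Fin 4) (w : Fin 4 → ℝ)
    (v : Fin 4 → E3 × E3) :
    cvec b1 b2 k (∑ l, w l • v l) = ∑ l, cvec b1 b2 k (v l) * w l := by
  fin_cases k <;>
    simp [cvec, Fin.sum_univ_four, inner_add_left, real_inner_smul_left] <;> ring

/-- The pointwise Jacobian inequality. -/
theorem jac {K : Set (E3 × E3)} (hKs : K ⊆ SS.sph) {x y : E3 × E3 → E3 × E3}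
    (hxK : ∀ z ∈ K, x z ∈ SS.sph) (hyK : ∀ z ∈ K, y z ∈ SS.sph) {t : ℝ} (ht0 : 0 < t) (ht1 : t < 1)
    (hgeo : ∀ z ∈ K, z = (geo t (x z).1 (y z).1, geo t (x z).2 (y z).2))
    (hcyc : CycRel K x y) {z0 : E3 × E3} (hz0 : z0 ∈ K)
    (hdx : DifferentiableAt ℝ (homExt x) z0) (hdy : DifferentiableAt ℝ (homExt y) z0)
    (htan : ∀ ζ : E3 × E3, ⟪z0.1, ζ.1⟫ = 0 → ⟪z0.2, ζ.2⟫ = 0 →
        ∃ w : ℕ → E3 × E3, (∀ n, w n ∈ K) ∧ Vel w z0 ζ)
    (hθ1 : angle (x z0).1 (y z0).1 < π) (hθ2 : angle (x z0).2 (y z0).2 < π) :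
    ((1 - t) ^ 2 * ratio (1 - t) (angle (x z0).1 (y z0).1) *
        ratio (1 - t) (angle (x z0).2 (y z0).2) * |(fderiv ℝ (homExt x) z0).det|) ^ (1 / 4 : ℝ) +
      (t ^ 2 * ratio t (angle (x z0).1 (y z0).1) *
        ratio t (angle (x z0).2 (y z0).2) * |(fderiv ℝ (homExt y) z0).det|) ^ (1 / 4 : ℝ) ≤ 1 := by
  have hzs := hKs hz0
  have hxs := hxK z0 hz0
  have hys := hyK z0 hz0
  set θ1 := angle (x z0).1 (y z0).1 with hθ1def
  set θ2 := angle (x z0).2 (y z0).2 with hθ2def
  set a := fderiv ℝ (homExt x) z0 with ha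
  set b := fderiv ℝ (homExt y) z0 with hb
  have haD : HasFDerivAt (homExt x) a z0 := hdx.hasFDerivAt
  have hbD : HasFDerivAt (homExt y) b z0 := hdy.hasFDerivAt
  -- frames
  obtain ⟨bx1, hbx10, hbx11⟩ := exists_frame hxs.1 (norm_dir hxs.1 hys.1) (inner_dir hxs.1 hys.1)
  obtain ⟨bx2, hbx20, hbx21⟩ := exists_frame hxs.2 (norm_dir hxs.2 hys.2) (inner_dir hxs.2 hys.2)
  obtain ⟨bz1, hbz10, hbz11, hbz12⟩ := exists_rot bx1 (t * θ1)
  obtain ⟨bz2, hbz20, hbz21, hbz22⟩ := exists_rot bx2 (t * θ2)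
  obtain ⟨by1, hby10, hby11, hby12⟩ := exists_rot bx1 θ1
  obtain ⟨by2, hby20, hby21, hby22⟩ := exists_rot bx2 θ2
  have hz1 : z0.1 = geo t (x z0).1 (y z0).1 := congrArg Prod.fst (hgeo z0 hz0)
  have hz2 : z0.2 = geo t (x z0).2 (y z0).2 := congrArg Prod.snd (hgeo z0 hz0)
  have hz1b : bz1 0 = z0.1 := by rw [hbz10, hz1, hbx10, hbx11]; rfl
  have hz2b : bz2 0 = z0.2 := by rw [hbz20, hz2, hbx20, hbx21]; rfl
  have hy1b : by1 0 = (y z0).1 := by
    rw [hby10, hbx10, hbx11]; exact (eq_geo_one hxs.1 hys.1).symm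
  have hy2b : by2 0 = (y z0).2 := by
    rw [hby20, hbx20, hbx21]; exact (eq_geo_one hxs.2 hys.2).symm
  have oz1 : ∀ i j : Fin 3, ⟪bz1 i, bz1 j⟫ = if i = j then 1 else 0 :=
    fun i j => orthonormal_iff_ite.1 bz1.orthonormal i j
  have oz2 : ∀ i j : Fin 3, ⟪bz2 i, bz2 j⟫ = if i = j then 1 else 0 :=
    fun i j => orthonormal_iff_ite.1 bz2.orthonormal i j
  -- velocities of the images
  have hvx : ∀ {w : ℕ → E3 × E3} {ζ : E3 × E3}, (∀ n, w n ∈ K) → Vel w z0 ζ →
      Vel (fun n => x (w n)) (x z0) (a ζ) := by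
    intro w ζ hw hv
    have := hv.comp haD
    rw [homExt_of_sph x hzs] at this
    refine this.congr' (Eventually.of_forall (fun n => ?_))
    exact homExt_of_sph x (hKs (hw n))
  have hvy : ∀ {w : ℕ → E3 × E3} {ζ : E3 × E3}, (∀ n, w n ∈ K) → Vel w z0 ζ →
      Vel (fun n => y (w n)) (y z0) (b ζ) := by
    intro w ζ hw hv
    have := hv.comp hbD
    rw [homExt_of_sph y hzs] at this
    refine this.congr' (Eventually.of_forall (fun n => ?_))
    exact homExt_of_sph y (hKs (hw n))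
  have hfst : ∀ {w : ℕ → E3 × E3} {p ζ : E3 × E3}, Vel w p ζ →
      Vel (fun n => (w n).1) p.1 ζ.1 := fun h => h.clm (ContinuousLinearMap.fst ℝ E3 E3)
  have hsnd : ∀ {w : ℕ → E3 × E3} {p ζ : E3 × E3}, Vel w p ζ →
      Vel (fun n => (w n).2) p.2 ζ.2 := fun h => h.clm (ContinuousLinearMap.snd ℝ E3 E3)
  -- the tangential vectors
  set f := fvec bz1 bz2 with hf
  have htanf : ∀ w : Fin 4 → ℝ, ⟪z0.1, (∑ l, w l • f l).1⟫ = 0 ∧
      ⟪z0.2, (∑ l, w l • f l).2⟫ = 0 := by
    intro w
    rw [← hz1b, ← hz2b]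
    constructor
    · simp [hf, fvec, Fin.sum_univ_four, inner_add_right, real_inner_smul_right, oz1]
    · simp [hf, fvec, Fin.sum_univ_four, inner_add_right, real_inner_smul_right, oz2]
  -- the matrices
  set Am : Matrix (Fin 4) (Fin 4) ℝ := Matrix.of fun k l => cvec bx1 bx2 k (a (f l)) with hAm
  set Bm : Matrix (Fin 4) (Fin 4) ℝ := Matrix.of fun k l => cvec by1 by2 k (b (f l)) with hBm
  set s : Fin 4 → ℝ := ![1, (Real.sinc θ1)⁻¹, 1, (Real.sinc θ2)⁻¹] with hs
  set n0 : Fin 4 → ℝ := ![1 - t, ratio (1 - t) θ1, 1 - t, ratio (1 - t) θ2] with hn0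
  set n1 : Fin 4 → ℝ := ![t, ratio t θ1, t, ratio t θ2] with hn1
  have hs1pos : 0 < Real.sinc θ1 := sinc_pos (angle_nonneg _ _) hθ1
  have hs2pos : 0 < Real.sinc θ2 := sinc_pos (angle_nonneg _ _) hθ2
  have h1t : 0 < 1 - t := by linarith
  have hr1 : 0 < ratio (1 - t) θ1 := ratio_pos h1t (by linarith) (angle_nonneg _ _) hθ1
  have hr2 : 0 < ratio (1 - t) θ2 := ratio_pos h1t (by linarith) (angle_nonneg _ _) hθ2
  have hr3 : 0 < ratio t θ1 := ratio_pos ht0 ht1.le (angle_nonneg _ _) hθ1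
  have hr4 : 0 < ratio t θ2 := ratio_pos ht0 ht1.le (angle_nonneg _ _) hθ2
  have hspos : ∀ k, 0 < s k := by
    intro k; fin_cases k <;> simp [hs, hs1pos, hs2pos]
  have hn0pos : ∀ k, 0 < n0 k := by
    intro k; fin_cases k <;> simp [hn0, h1t, hr1, hr2]
  have hn1pos : ∀ k, 0 < n1 k := by
    intro k; fin_cases k <;> simp [hn1, ht0, hr3, hr4]
  -- first order relations
  have hrel : Matrix.diagonal n0 * Am + Matrix.diagonal n1 * Bm = 1 := by
    ext k l
    have hl := htanf (Pi.single l 1)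
    have hsum : ∑ l', (Pi.single l (1 : ℝ) : Fin 4 → ℝ) l' • f l' = f l := by
      rw [Finset.sum_eq_single l]
      · simp
      · intro j _ hj; rw [Pi.single_eq_of_ne hj]; simp
      · simp
    rw [hsum] at hl
    obtain ⟨w, hwK, hw⟩ := htan (f l) hl.1 hl.2
    have vx := hvx hwK hw
    have vy := hvy hwK hw
    have F1 := first_order hxs.1 hys.1 hθ1 bx1 hbx10 hbx11 ht0 ht1
      (fun n => (hxK _ (hwK n)).1) (fun n => (hyK _ (hwK n)).1)
      (fun n => congrArg Prod.fst (hgeo _ (hwK n))) (hfst vx) (hfst vy)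
      (by have := hfst hw; rwa [hz1] at this)
    have F2 := first_order hxs.2 hys.2 hθ2 bx2 hbx20 hbx21 ht0 ht1
      (fun n => (hxK _ (hwK n)).2) (fun n => (hyK _ (hwK n)).2)
      (fun n => congrArg Prod.snd (hgeo _ (hwK n))) (hsnd vx) (hsnd vy)
      (by have := hsnd hw; rwa [hz2] at this)
    rw [← hθ1def, ← hbz11, ← hbz12, ← hby11] at F1
    rw [← hθ2def, ← hbz21, ← hbz22, ← hby21] at F2
    rw [Matrix.add_apply, Matrix.diagonal_mul, Matrix.diagonal_mul, hAm, hBm, Matrix.of_apply,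
      Matrix.of_apply]
    have hδ : (1 : Matrix (Fin 4) (Fin 4) ℝ) k l = cvec bz1 bz2 k (f l) := by
      fin_cases k <;> fin_cases l <;> simp [cvec, hf, fvec, oz1, oz2]
    rw [hδ]
    have e12 : by1 2 = bz1 2 := by rw [hby12, hbz12]
    have e22 : by2 2 = bz2 2 := by rw [hby22, hbz22]
    have g12 : bx1 2 = bz1 2 := by rw [hbz12]
    have g22 : bx2 2 = bz2 2 := by rw [hbz22]
    fin_cases k
    · simp only [cvec, hn0, hn1]
      simpa using F1.2.symm
    · simp only [cvec, hn0, hn1]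
      simpa [e12, g12] using F1.1.symm
    · simp only [cvec, hn0, hn1]
      simpa using F2.2.symm
    · simp only [cvec, hn0, hn1]
      simpa [e22, g22] using F2.1.symm
  -- the bilinear form
  set G : Matrix (Fin 4) (Fin 4) ℝ := Am.transpose * Matrix.diagonal s * Bm with hG
  set B : (Fin 4 → ℝ) →ₗ[ℝ] (Fin 4 → ℝ) →ₗ[ℝ] ℝ := Matrix.toLinearMap₂' ℝ G with hB
  have hBapp : ∀ w w', B w w' = ∑ k, s k * (cvec bx1 bx2 k (a (∑ l, w l • f l)) *
      cvec by1 by2 k (b (∑ l, w' l • f l))) := by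
    intro w w'
    rw [hB, Matrix.toLinearMap₂'_apply']
    have h1 : ∀ k, cvec bx1 bx2 k (a (∑ l, w l • f l)) = (Am.mulVec w) k := by
      intro k
      rw [map_sum]
      simp only [map_smul]
      rw [cvec_sum]; rfl
    have h2 : ∀ k, cvec by1 by2 k (b (∑ l, w' l • f l)) = (Bm.mulVec w') k := by
      intro k
      rw [map_sum]
      simp only [map_smul]
      rw [cvec_sum]; rfl
    simp only [h1, h2]
    rw [hG, ← Matrix.mulVec_mulVec, ← Matrix.mulVec_mulVec, Matrix.dotProduct_mulVec,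
      Matrix.vecMul_transpose, dotProduct]
    apply Finset.sum_congr rfl
    intro k _
    rw [Matrix.mulVec_diagonal]
    ring
  have hcm : CycMon B := by
    intro L w σ
    -- sequences
    have hch : ∀ i, ∃ u : ℕ → E3 × E3, (∀ n, u n ∈ K) ∧ Vel u z0 (∑ l, w i l • f l) :=
      fun i => htan _ (htanf (w i)).1 (htanf (w i)).2
    choose u huK huV using hch
    -- mixed differences
    set m : Fin L → Fin L → ℕ → ℝ := fun i j n =>
      cst (x (u i n)) (y (u j n)) - cst (x (u i n)) (y z0) - cst (x z0) (y (u j n)) +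
        cst (x z0) (y z0) with hm
    have hmlim : ∀ i j, Tendsto (fun n : ℕ => (n : ℝ) ^ 2 * m i j n) atTop
        (𝓝 (-2 * B (w i) (w j))) := by
      intro i j
      have vx := hvx (huK i) (huV i)
      have vy := hvy (huK j) (huV j)
      have M1 := mixed_limit hxs.1 hys.1 hθ1 bx1 hbx10 hbx11
        (fun n => (hxK _ (huK i n)).1) (fun n => (hyK _ (huK j n)).1) (hfst vx) (hfst vy)
      have M2 := mixed_limit hxs.2 hys.2 hθ2 bx2 hbx20 hbx21
        (fun n => (hxK _ (huK i n)).2) (fun n => (hyK _ (huK j n)).2) (hsnd vx) (hsnd vy)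
      refine ((M1.add M2).congr (fun n => ?_)).trans (le_of_eq ?_)
      · simp only [hm, cst]; ring
      · congr 1
        rw [hBapp]
        generalize (∑ l, w i l • f l) = ζ
        generalize (∑ l, w j l • f l) = ζ'
        rw [Fin.sum_univ_four, ← hθ1def, ← hθ2def, ← hby11, ← hby21]
        have e12 : by1 2 = bx1 2 := hby12
        have e22 : by2 2 = bx2 2 := hby22
        simp only [cvec, hs]
        simp [e12, e22]
        ring
    have hle : ∀ n, ∑ i, m i i n ≤ ∑ i, m i (σ i) n := by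
      intro n
      have h1 := hcyc L (fun i => u i n) (fun i => huK i n) σ
      simp only [hm, Finset.sum_add_distrib, Finset.sum_sub_distrib]
      have h2 : ∑ i, cst (x z0) (y (u (σ i) n)) = ∑ i, cst (x z0) (y (u i n)) :=
        Equiv.sum_comp σ (fun i => cst (x z0) (y (u i n)))
      rw [h2]
      linarith
    have l1 : Tendsto (fun n : ℕ => ∑ i, (n : ℝ) ^ 2 * m i i n) atTop
        (𝓝 (∑ i, -2 * B (w i) (w i))) := tendsto_finset_sum _ (fun i _ => hmlim i i)
    have l2 : Tendsto (fun n : ℕ => ∑ i, (n : ℝ) ^ 2 * m i (σ i) n) atTop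
        (𝓝 (∑ i, -2 * B (w i) (w (σ i)))) := tendsto_finset_sum _ (fun i _ => hmlim i (σ i))
    have l3 := le_of_tendsto_of_tendsto' l1 l2 (fun n => by
      rw [← Finset.mul_sum, ← Finset.mul_sum]
      exact mul_le_mul_of_nonneg_left (hle n) (by positivity))
    rw [← Finset.mul_sum, ← Finset.mul_sum] at l3
    linarith
  have hGpsd : G.PosSemidef := by
    have hsym : G.IsHermitian := by
      rw [Matrix.IsHermitian, Matrix.conjTranspose_eq_transpose_of_trivial]
      ext i j
      have h1 := hcm.symm (Pi.single j 1) (Pi.single i 1)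
      rw [hB, Matrix.toLinearMap₂'_apply', Matrix.toLinearMap₂'_apply'] at h1
      rw [Matrix.transpose_apply]
      simpa using h1
    refine Matrix.PosSemidef.of_dotProduct_mulVec_nonneg hsym (fun v => ?_)
    have h1 := hcm.nonneg v
    rw [hB, Matrix.toLinearMap₂'_apply'] at h1
    simpa using h1
  -- conclusion for the matrices
  set A' := Matrix.diagonal n0 * Am with hA'
  set B' := Matrix.diagonal n1 * Bm with hB'
  set d : Fin 4 → ℝ := fun k => s k / (n0 k * n1 k) with hd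
  have hdpos : ∀ k, 0 < d k := fun k => div_pos (hspos k) (mul_pos (hn0pos k) (hn1pos k))
  have hG' : A'.transpose * Matrix.diagonal d * B' = G := by
    rw [hA', hB', Matrix.transpose_mul, Matrix.diagonal_transpose, hG]
    have h1 : Matrix.diagonal n0 * Matrix.diagonal d * Matrix.diagonal n1 = Matrix.diagonal s := by
      rw [Matrix.diagonal_mul_diagonal, Matrix.diagonal_mul_diagonal]
      congr 1; ext k
      have := (hn0pos k).ne'
      have := (hn1pos k).ne'
      simp only [hd]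
      field_simp
    calc Am.transpose * Matrix.diagonal n0 * Matrix.diagonal d * (Matrix.diagonal n1 * Bm)
        = Am.transpose * (Matrix.diagonal n0 * Matrix.diagonal d * Matrix.diagonal n1) * Bm := by
          simp only [Matrix.mul_assoc]
      _ = _ := by rw [h1]
  obtain ⟨hA0, hB0, hfin⟩ := det_ineq (by norm_num) A' B' d hdpos hrel (by rw [hG']; exact hGpsd)
  -- determinants
  have hdetA : A'.det = (1 - t) ^ 2 * ratio (1 - t) θ1 * ratio (1 - t) θ2 * Am.det := by
    rw [hA', Matrix.det_mul, Matrix.det_diagonal, Fin.prod_univ_four]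
    change (1 - t) * ratio (1 - t) θ1 * (1 - t) * ratio (1 - t) θ2 * Am.det = _
    ring
  have hdetB : B'.det = t ^ 2 * ratio t θ1 * ratio t θ2 * Bm.det := by
    rw [hB', Matrix.det_mul, Matrix.det_diagonal, Fin.prod_univ_four]
    change t * ratio t θ1 * t * ratio t θ2 * Bm.det = _
    ring
  -- radial behaviour of the derivatives
  have hrad : ∀ (X : E3 × E3 → E3 × E3) (A : E3 × E3 →L[ℝ] E3 × E3),
      HasFDerivAt (homExt X) A z0 → (∀ z ∈ K, X z ∈ SS.sph) →
      A (z0.1, 0) = ((X z0).1, 0) ∧ A (0, z0.2) = (0, (X z0).2) ∧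
      (∀ l, ⟪(A (f l)).1, (X z0).1⟫ = 0) ∧ (∀ l, ⟪(A (f l)).2, (X z0).2⟫ = 0) := by
    intro X A hA hX
    refine ⟨?_, ?_, ?_, ?_⟩
    · -- radial derivative in the first factor
      have h1 : HasDerivAt (fun r : ℝ => (r • z0.1, z0.2)) (z0.1, (0 : E3)) 1 := by
        have e1 : HasDerivAt (fun r : ℝ => r • z0.1) z0.1 1 := by
          simpa using (hasDerivAt_id (1 : ℝ)).smul_const z0.1
        exact e1.prodMk (hasDerivAt_const _ _)
      have h2 : HasDerivAt (fun r : ℝ => homExt X (r • z0.1, z0.2)) (A (z0.1, 0)) 1 := by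
        have hA1 : HasFDerivAt (homExt X) A ((fun r : ℝ => (r • z0.1, z0.2)) 1) := by
          simpa using hA
        exact hA1.comp_hasDerivAt 1 h1
      have h3 : HasDerivAt (fun r : ℝ => (r • (X z0).1, (X z0).2)) ((X z0).1, (0 : E3)) 1 := by
        have e1 : HasDerivAt (fun r : ℝ => r • (X z0).1) (X z0).1 1 := by
          simpa using (hasDerivAt_id (1 : ℝ)).smul_const (X z0).1
        exact e1.prodMk (hasDerivAt_const _ _)
      have h4 : (fun r : ℝ => homExt X (r • z0.1, z0.2)) =ᶠ[𝓝 1]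
          (fun r : ℝ => (r • (X z0).1, (X z0).2)) := by
        filter_upwards [lt_mem_nhds (show (0 : ℝ) < 1 by norm_num)] with r hr
        have e1 : (r • z0.1, z0.2) = scal r 1 z0 := by simp [scal]
        unfold homExt
        rw [e1, proj_scal hr one_pos, proj_of_sph hzs]
        simp only [scal, norm_smul, Real.norm_eq_abs, abs_of_pos hr, hzs.1, hzs.2, mul_one,
          one_smul]
      exact h2.unique (h3.congr_of_eventuallyEq h4)
    · have h1 : HasDerivAt (fun r : ℝ => (z0.1, r • z0.2)) ((0 : E3), z0.2) 1 := by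
        have e1 : HasDerivAt (fun r : ℝ => r • z0.2) z0.2 1 := by
          simpa using (hasDerivAt_id (1 : ℝ)).smul_const z0.2
        exact (hasDerivAt_const _ _).prodMk e1
      have h2 : HasDerivAt (fun r : ℝ => homExt X (z0.1, r • z0.2)) (A (0, z0.2)) 1 := by
        have hA1 : HasFDerivAt (homExt X) A ((fun r : ℝ => (z0.1, r • z0.2)) 1) := by
          simpa using hA
        exact hA1.comp_hasDerivAt 1 h1
      have h3 : HasDerivAt (fun r : ℝ => ((X z0).1, r • (X z0).2)) ((0 : E3), (X z0).2) 1 := by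
        have e1 : HasDerivAt (fun r : ℝ => r • (X z0).2) (X z0).2 1 := by
          simpa using (hasDerivAt_id (1 : ℝ)).smul_const (X z0).2
        exact (hasDerivAt_const _ _).prodMk e1
      have h4 : (fun r : ℝ => homExt X (z0.1, r • z0.2)) =ᶠ[𝓝 1]
          (fun r : ℝ => ((X z0).1, r • (X z0).2)) := by
        filter_upwards [lt_mem_nhds (show (0 : ℝ) < 1 by norm_num)] with r hr
        have e1 : (z0.1, r • z0.2) = scal 1 r z0 := by simp [scal]
        unfold homExt
        rw [e1, proj_scal one_pos hr, proj_of_sph hzs]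
        simp only [scal, norm_smul, Real.norm_eq_abs, abs_of_pos hr, hzs.1, hzs.2, mul_one,
          one_smul]
      exact h2.unique (h3.congr_of_eventuallyEq h4)
    · intro l
      have hl := htanf (Pi.single l 1)
      have hsum : ∑ l', (Pi.single l (1 : ℝ) : Fin 4 → ℝ) l' • f l' = f l := by
        rw [Finset.sum_eq_single l]
        · simp
        · intro j _ hj; rw [Pi.single_eq_of_ne hj]; simp
        · simp
      rw [hsum] at hl
      obtain ⟨w, hwK, hw⟩ := htan (f l) hl.1 hl.2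
      have hv : Vel (fun n => X (w n)) (X z0) (A (f l)) := by
        have := hw.comp hA
        rw [homExt_of_sph X hzs] at this
        refine this.congr' (Eventually.of_forall (fun n => ?_))
        exact homExt_of_sph X (hKs (hwK n))
      have hv1 := hfst hv
      have h1 := hv1.inner hv1
      have h2 : Vel (fun n => ⟪(X (w n)).1, (X (w n)).1⟫) ⟪(X z0).1, (X z0).1⟫ 0 := by
        have : (fun n => ⟪(X (w n)).1, (X (w n)).1⟫) = fun _ : ℕ => ⟪(X z0).1, (X z0).1⟫ := by
          funext n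
          rw [real_inner_self_eq_norm_sq, real_inner_self_eq_norm_sq, (hX _ (hwK n)).1,
            (hX _ hz0).1]
        rw [this]; exact vel_const _
      have h3 := h1.unique h2
      rw [real_inner_comm (A (f l)).1 (X z0).1] at h3
      linarith
    · intro l
      have hl := htanf (Pi.single l 1)
      have hsum : ∑ l', (Pi.single l (1 : ℝ) : Fin 4 → ℝ) l' • f l' = f l := by
        rw [Finset.sum_eq_single l]
        · simp
        · intro j _ hj; rw [Pi.single_eq_of_ne hj]; simp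
        · simp
      rw [hsum] at hl
      obtain ⟨w, hwK, hw⟩ := htan (f l) hl.1 hl.2
      have hv : Vel (fun n => X (w n)) (X z0) (A (f l)) := by
        have := hw.comp hA
        rw [homExt_of_sph X hzs] at this
        refine this.congr' (Eventually.of_forall (fun n => ?_))
        exact homExt_of_sph X (hKs (hwK n))
      have hv1 := hsnd hv
      have h1 := hv1.inner hv1
      have h2 : Vel (fun n => ⟪(X (w n)).2, (X (w n)).2⟫) ⟪(X z0).2, (X z0).2⟫ 0 := by
        have : (fun n => ⟪(X (w n)).2, (X (w n)).2⟫) = fun _ : ℕ => ⟪(X z0).2, (X z0).2⟫ := by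
          funext n
          rw [real_inner_self_eq_norm_sq, real_inner_self_eq_norm_sq, (hX _ (hwK n)).2,
            (hX _ hz0).2]
        rw [this]; exact vel_const _
      have h3 := h1.unique h2
      rw [real_inner_comm (A (f l)).2 (X z0).2] at h3
      linarith
  -- determinant of the six dimensional derivative
  have hdet6 : ∀ (X : E3 × E3 → E3 × E3) (A : E3 × E3 →L[ℝ] E3 × E3)
      (c1 c2 : OrthonormalBasis (Fin 3) ℝ E3), c1 0 = (X z0).1 → c2 0 = (X z0).2 →
      HasFDerivAt (homExt X) A z0 → (∀ z ∈ K, X z ∈ SS.sph) →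
      |A.det| = |Matrix.det (Matrix.of fun k l => cvec c1 c2 k (A (f l)))| := by
    intro X A c1 c2 hc1 hc2 hA hX
    obtain ⟨r1, r2, r3, r4⟩ := hrad X A hA hX
    set ρ1 := c1.equiv bz1 (Equiv.refl _) with hρ1
    set ρ2 := c2.equiv bz2 (Equiv.refl _) with hρ2
    have hρ1b : ∀ i, ρ1 (c1 i) = bz1 i := fun i => by
      rw [hρ1, OrthonormalBasis.equiv_apply_basis]; rfl
    have hρ2b : ∀ i, ρ2 (c2 i) = bz2 i := fun i => by
      rw [hρ2, OrthonormalBasis.equiv_apply_basis]; rfl
    set ρ : E3 × E3 →ₗ[ℝ] E3 × E3 := LinearMap.prodMap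
      (ρ1.toLinearEquiv : E3 →ₗ[ℝ] E3) (ρ2.toLinearEquiv : E3 →ₗ[ℝ] E3) with hρ
    have hρapp : ∀ v : E3 × E3, ρ v = (ρ1 v.1, ρ2 v.2) := fun v => rfl
    have hρdet : |LinearMap.det ρ| = 1 := by
      rw [hρ, LinearMap.det_prodMap, abs_mul, abs_det_isometry, abs_det_isometry, one_mul]
    set M : E3 × E3 →ₗ[ℝ] E3 × E3 := ρ ∘ₗ (A : E3 × E3 →ₗ[ℝ] E3 × E3) with hM
    have hMapp : ∀ v, M v = (ρ1 (A v).1, ρ2 (A v).2) := fun v => rfl
    have hMdet : |LinearMap.det M| = |A.det| := by
      rw [hM, LinearMap.det_comp, abs_mul, hρdet, one_mul]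
    have i1 : ∀ (v : E3) (i : Fin 3), ⟪ρ1 v, bz1 i⟫ = ⟪v, c1 i⟫ := by
      intro v i; rw [← hρ1b i, LinearIsometryEquiv.inner_map_map]
    have i2 : ∀ (v : E3) (i : Fin 3), ⟪ρ2 v, bz2 i⟫ = ⟪v, c2 i⟫ := by
      intro v i; rw [← hρ2b i, LinearIsometryEquiv.inner_map_map]
    rw [← hMdet, det_block bz1 bz2 M]
    · congr 2
      ext k l
      rw [Matrix.of_apply, Matrix.of_apply, ← hf, hMapp]
      fin_cases k <;> simp [cvec, i1, i2]
    · rw [hMapp, hz1b, r1, ← hc1, hρ1b]; simp [hz1b]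
    · rw [hMapp, hz2b, r2, ← hc2, hρ2b]; simp [hz2b]
    · intro l
      rw [hMapp, i1, hc1, ← hf]; exact r3 l
    · intro l
      rw [hMapp, i2, hc2, ← hf]; exact r4 l
  have hda : |a.det| = |Am.det| := hdet6 x a bx1 bx2 hbx10 hbx20 haD hxK
  have hdb : |b.det| = |Bm.det| := hdet6 y b by1 by2 hy1b hy2b hbD hyK
  have hAmpos : 0 ≤ Am.det := by
    rw [hdetA] at hA0
    have hc : 0 < (1 - t) ^ 2 * ratio (1 - t) θ1 * ratio (1 - t) θ2 := by positivity
    exact nonneg_of_mul_nonneg_right hA0 hc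
  have hBmpos : 0 ≤ Bm.det := by
    rw [hdetB] at hB0
    have hc : 0 < t ^ 2 * ratio t θ1 * ratio t θ2 := by positivity
    exact nonneg_of_mul_nonneg_right hB0 hc
  rw [hda, hdb, abs_of_nonneg hAmpos, abs_of_nonneg hBmpos, ← hdetA, ← hdetB]
  exact_mod_cast hfin

end Pool.Agent.Lib.H84.RCD
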