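import Mathlib
import Pool.Agent.Lib.H84.Frames
import Pool.Agent.Lib.H84.Good
import Pool.Agent.Lib.H84.Jac

/-!
# The set where one of the angles is `π` is negligible
-/

open MeasureTheory Set Filter Topology Metric InnerProductGeometry Asymptotics
open scoped ENNReal NNReal Real RealInnerProductSpace

set_option linter.unusedSectionVars false
set_option linter.style.haveILetI false

namespace Pool.Agent.Lib.H84.RCD

lemma angle_neg_eq {x y : E3} : angle x (-y) = π - angle x y := angle_neg_right x y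

lemma eq_neg_of_angle_pi {x y : E3} (hx : ‖x‖ = 1) (hy : ‖y‖ = 1) (h : angle x y = π) :
    y = -x := by
  have h1 : angle x (-y) = 0 := by rw [angle_neg_right, h, sub_self]
  have h2 := norm_sub_le_angle hx (show ‖-y‖ = 1 by rw [norm_neg]; exact hy)
  rw [h1] at h2
  have h3 := sub_eq_zero.1 (norm_le_zero_iff.1 h2)
  rw [h3, neg_neg]

/-- second-order behaviour of the other component -/
lemma tendsto_mixed_div {x y : ℕ → E3} {x0 y0 ξ η : E3} (hx : ∀ n, ‖x n‖ = 1)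
    (hy : ∀ n, ‖y n‖ = 1) (hx0 : ‖x0‖ = 1) (hy0 : ‖y0‖ = 1) (hξ : Vel x x0 ξ) (hη : Vel y y0 η)
    (hθ : angle x0 y0 < π) :
    Tendsto (fun n : ℕ => (n : ℝ) * (angle (x n) (y n) ^ 2 - angle (x n) y0 ^ 2 -
      angle x0 (y n) ^ 2 + angle x0 y0 ^ 2)) atTop (𝓝 0) := by
  obtain ⟨c, hc⟩ : ∃ c : ℝ, Tendsto (fun n : ℕ => (n : ℝ) ^ 2 * (angle (x n) (y n) ^ 2 -
      angle (x n) y0 ^ 2 - angle x0 (y n) ^ 2 + angle x0 y0 ^ 2)) atTop (𝓝 c) := by
    rcases eq_or_lt_of_le (angle_nonneg x0 y0) with h0 | h0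
    · have hxy : x0 = y0 := by
        have := norm_sub_le_angle hx0 hy0
        rw [← h0] at this
        exact sub_eq_zero.1 (norm_le_zero_iff.1 this)
      subst hxy
      exact ⟨_, mixed_limit_zero hx hy hx0 hξ hη⟩
    · exact ⟨_, mixed_limit_pos hx hy hx0 hy0 hξ hη h0 hθ⟩
  have h1 : Tendsto (fun n : ℕ => ((n : ℝ))⁻¹) atTop (𝓝 0) := tendsto_inv_atTop_nhds_zero_nat
  have h2 := h1.mul hc
  rw [zero_mul] at h2
  refine h2.congr' ?_
  filter_upwards [eventually_gt_atTop 0] with n hn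
  have : (n : ℝ) ≠ 0 := by exact_mod_cast hn.ne'
  field_simp

/-- the core estimate -/
lemma anti_seq {x1 x2 y2 : ℕ → E3} {x10 x20 y20 ξ1 ξ2 η2 : E3}
    (hx1 : ∀ n, ‖x1 n‖ = 1) (hx2 : ∀ n, ‖x2 n‖ = 1) (hy2 : ∀ n, ‖y2 n‖ = 1)
    (hx10 : ‖x10‖ = 1) (hx20 : ‖x20‖ = 1) (hy20 : ‖y20‖ = 1)
    (v1 : Vel x1 x10 ξ1) (v2 : Vel x2 x20 ξ2) (v3 : Vel y2 y20 η2)
    (h2 : angle x20 y20 < π ∨ (y20 = -x20 ∧ ∀ n, y2 n = - x2 n))
    (hm : ∀ n, (angle (x1 n) (-x1 n) ^ 2 + angle (x2 n) (y2 n) ^ 2) +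
      (angle x10 (-x10) ^ 2 + angle x20 y20 ^ 2) ≤
      (angle (x1 n) (-x10) ^ 2 + angle (x2 n) y20 ^ 2) +
      (angle x10 (-x1 n) ^ 2 + angle x20 (y2 n) ^ 2)) :
    ξ1 = 0 := by
  have hpi := Real.pi_pos
  set δ : ℕ → ℝ := fun n => angle (x1 n) x10 with hδ
  have hδ0 : ∀ n, 0 ≤ δ n := fun n => angle_nonneg _ _
  have hδpi : ∀ n, δ n ≤ π := fun n => angle_le_pi _ _
  have key : ∀ n, 2 * π * δ n ≤ -(angle (x2 n) (y2 n) ^ 2 - angle (x2 n) y20 ^ 2 -
      angle x20 (y2 n) ^ 2 + angle x20 y20 ^ 2) := by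
    intro n
    have h := hm n
    rw [angle_neg_eq, angle_neg_eq, angle_neg_eq, angle_neg_eq, SS.angle_self_unit (hx1 n),
      SS.angle_self_unit hx10, angle_comm x10 (x1 n)] at h
    have h3 := hδ0 n
    have h4 := hδpi n
    simp only [hδ] at h3 h4 ⊢
    nlinarith
  have hz : Tendsto (fun n : ℕ => (n : ℝ) * δ n) atTop (𝓝 0) := by
    rcases h2 with h2 | ⟨h2, h2'⟩
    · have hl := (tendsto_mixed_div hx2 hy2 hx20 hy20 v2 v3 h2).neg
      rw [neg_zero] at hl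
      have hl2 := hl.const_mul (1 / (2 * π))
      rw [mul_zero] at hl2
      refine squeeze_zero (fun n => mul_nonneg (Nat.cast_nonneg n) (hδ0 n)) (fun n => ?_) hl2
      have h5 := mul_le_mul_of_nonneg_left (key n) (Nat.cast_nonneg (α := ℝ) n)
      rw [div_mul_eq_mul_div, le_div_iff₀ (by positivity)]
      linarith
    · have : ∀ n, δ n = 0 := by
        intro n
        have h := key n
        rw [h2', h2, angle_neg_eq, angle_neg_eq, angle_neg_eq, angle_neg_eq,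
          SS.angle_self_unit (hx2 n), SS.angle_self_unit hx20, angle_comm x20 (x2 n)] at h
        have h3 := hδ0 n
        have h6 := angle_nonneg (x2 n) x20
        have h7 := angle_le_pi (x2 n) x20
        have h8 : 0 ≤ angle (x2 n) x20 * (2 * π - angle (x2 n) x20) :=
          mul_nonneg h6 (by linarith)
        have h9 : 2 * π * δ n ≤ 0 := by nlinarith
        have h10 : 0 ≤ 2 * π * δ n := by positivity
        have h11 : 2 * π * δ n = 0 := le_antisymm h9 h10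
        have h12 : (2 * π) ≠ 0 := by positivity
        exact (mul_eq_zero.1 h11).resolve_left h12
      simp only [this, mul_zero]
      exact tendsto_const_nhds
  have hv : Tendsto (fun n : ℕ => (n : ℝ) • (x1 n - x10)) atTop (𝓝 0) := by
    rw [tendsto_zero_iff_norm_tendsto_zero]
    refine squeeze_zero (fun n => norm_nonneg _) (fun n => ?_) hz
    rw [norm_smul, Real.norm_natCast]
    exact mul_le_mul_of_nonneg_left (norm_sub_le_angle (hx1 n) hx10) (Nat.cast_nonneg n)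
  exact tendsto_nhds_unique v1 hv

/-- radial derivative in the first factor -/
lemma rad_fst {X : E3 × E3 → E3 × E3} {A : E3 × E3 →L[ℝ] E3 × E3} {z0 : E3 × E3}
    (hzs : z0 ∈ SS.sph) (hA : HasFDerivAt (homExt X) A z0) : A (z0.1, 0) = ((X z0).1, 0) := by
  have h1 : HasDerivAt (fun r : ℝ => (r • z0.1, z0.2)) (z0.1, (0 : E3)) 1 := by
    have e1 : HasDerivAt (fun r : ℝ => r • z0.1) z0.1 1 := by
      simpa using (hasDerivAt_id (1 : ℝ)).smul_const z0.1
    exact e1.prodMk (hasDerivAt_const _ _)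
  have h2 : HasDerivAt (fun r : ℝ => homExt X (r • z0.1, z0.2)) (A (z0.1, 0)) 1 := by
    have hA1 : HasFDerivAt (homExt X) A ((fun r : ℝ => (r • z0.1, z0.2)) 1) := by
      simpa using hA
    exact hA1.comp_hasDerivAt 1 h1
  have h3 : HasDerivAt (fun r : ℝ => (r • (X z0).1, (X z0).2)) ((X z0).1, (0 : E3)) 1 := by
    have e1 : HasDerivAt (fun r : ℝ => r • (X z0).1) (X z0).1 1 := by
      simpa using (hasDerivAt_id (1 : ℝ)).smul_const (X z0).1
    exact e1.prodMk (hasDerivAt_const _ _)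
  have h4 : (fun r : ℝ => homExt X (r • z0.1, z0.2)) =ᶠ[𝓝 1]
      (fun r : ℝ => (r • (X z0).1, (X z0).2)) := by
    filter_upwards [lt_mem_nhds (show (0 : ℝ) < 1 by norm_num)] with r hr
    have e1 : (r • z0.1, z0.2) = scal r 1 z0 := by simp [scal]
    unfold homExt
    rw [e1, proj_scal hr one_pos, proj_of_sph hzs]
    simp only [scal, norm_smul, Real.norm_eq_abs, abs_of_pos hr, hzs.1, hzs.2, mul_one,
      one_smul]
  exact h2.unique (h3.congr_of_eventuallyEq h4)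

/-- radial derivative in the second factor -/
lemma rad_snd {X : E3 × E3 → E3 × E3} {A : E3 × E3 →L[ℝ] E3 × E3} {z0 : E3 × E3}
    (hzs : z0 ∈ SS.sph) (hA : HasFDerivAt (homExt X) A z0) : A (0, z0.2) = (0, (X z0).2) := by
  have h1 : HasDerivAt (fun r : ℝ => (z0.1, r • z0.2)) ((0 : E3), z0.2) 1 := by
    have e1 : HasDerivAt (fun r : ℝ => r • z0.2) z0.2 1 := by
      simpa using (hasDerivAt_id (1 : ℝ)).smul_const z0.2
    exact (hasDerivAt_const _ _).prodMk e1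
  have h2 : HasDerivAt (fun r : ℝ => homExt X (z0.1, r • z0.2)) (A (0, z0.2)) 1 := by
    have hA1 : HasFDerivAt (homExt X) A ((fun r : ℝ => (z0.1, r • z0.2)) 1) := by
      simpa using hA
    exact hA1.comp_hasDerivAt 1 h1
  have h3 : HasDerivAt (fun r : ℝ => ((X z0).1, r • (X z0).2)) ((0 : E3), (X z0).2) 1 := by
    have e1 : HasDerivAt (fun r : ℝ => r • (X z0).2) (X z0).2 1 := by
      simpa using (hasDerivAt_id (1 : ℝ)).smul_const (X z0).2
    exact (hasDerivAt_const _ _).prodMk e1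
  have h4 : (fun r : ℝ => homExt X (z0.1, r • z0.2)) =ᶠ[𝓝 1]
      (fun r : ℝ => ((X z0).1, r • (X z0).2)) := by
    filter_upwards [lt_mem_nhds (show (0 : ℝ) < 1 by norm_num)] with r hr
    have e1 : (z0.1, r • z0.2) = scal 1 r z0 := by simp [scal]
    unfold homExt
    rw [e1, proj_scal one_pos hr, proj_of_sph hzs]
    simp only [scal, norm_smul, Real.norm_eq_abs, abs_of_pos hr, hzs.1, hzs.2, mul_one,
      one_smul]
  exact h2.unique (h3.congr_of_eventuallyEq h4)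

lemma exists_perp (u : E3) : ∃ e : E3, e ≠ 0 ∧ ⟪u, e⟫ = 0 := by
  have : ∃ e : E3, e ≠ 0 ∧ e ∈ (ℝ ∙ u)ᗮ := by
    by_contra hcon
    push Not at hcon
    have h0 : (ℝ ∙ u)ᗮ = ⊥ := by
      rw [eq_bot_iff]
      intro e he
      by_contra hne
      exact hcon e (by simpa using hne) he
    have h1 := Submodule.finrank_add_finrank_orthogonal (ℝ ∙ u)
    rw [h0, finrank_bot, finrank_euclideanSpace, Fintype.card_fin] at h1
    have h2 := finrank_span_le_card (R := ℝ) ({u} : Set E3)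
    rw [Set.toFinset_card, Fintype.card_unique] at h2
    omega
  obtain ⟨e, he, he'⟩ := this
  exact ⟨e, he, Submodule.mem_orthogonal_singleton_iff_inner_right.1 he'⟩

lemma det_eq_zero_of_ortho {A : E3 × E3 →L[ℝ] E3 × E3} {e : E3 × E3} (he : e ≠ 0)
    (h : ∀ v, ⟪(A v).1, e.1⟫ + ⟪(A v).2, e.2⟫ = 0) : A.det = 0 := by
  by_contra hne
  have hu : IsUnit (LinearMap.det (A : E3 × E3 →ₗ[ℝ] E3 × E3)) := isUnit_iff_ne_zero.2 hne
  have hsurj : Function.Surjective (A : E3 × E3 →ₗ[ℝ] E3 × E3) :=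
    (LinearMap.equivOfDetNeZero (A : E3 × E3 →ₗ[ℝ] E3 × E3) hne).surjective
  obtain ⟨v, hv⟩ := hsurj e
  have h1 := h v
  have hv' : A v = e := hv
  rw [hv', real_inner_self_eq_norm_sq, real_inner_self_eq_norm_sq] at h1
  have h2 : ‖e.1‖ = 0 := by nlinarith [sq_nonneg ‖e.1‖, sq_nonneg ‖e.2‖]
  have h3 : ‖e.2‖ = 0 := by nlinarith [sq_nonneg ‖e.1‖, sq_nonneg ‖e.2‖]
  exact he (Prod.ext (norm_eq_zero.1 h2) (norm_eq_zero.1 h3))

/-- decomposition in radial and tangential parts -/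
lemma decomp {z0 : E3 × E3} (hzs : z0 ∈ SS.sph) (v : E3 × E3) : ∃ (r s : ℝ) (ζ : E3 × E3),
    ⟪z0.1, ζ.1⟫ = 0 ∧ ⟪z0.2, ζ.2⟫ = 0 ∧ v = r • (z0.1, 0) + s • (0, z0.2) + ζ := by
  refine ⟨⟪z0.1, v.1⟫, ⟪z0.2, v.2⟫, v - ⟪z0.1, v.1⟫ • (z0.1, 0) - ⟪z0.2, v.2⟫ • (0, z0.2),
    ?_, ?_, by abel⟩
  · simp [inner_sub_right, inner_add_right, real_inner_smul_right, hzs.1]
  · simp [inner_sub_right, inner_add_right, real_inner_smul_right, hzs.2]

lemma measurable_angle_comp {x y : E3 × E3 → E3} (hx : Measurable x) (hy : Measurable y) :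
    Measurable (fun z => angle (x z) (y z)) := by
  unfold angle
  exact Real.measurable_arccos.comp ((hx.inner hy).div (hx.norm.mul hy.norm))

/-- Where one of the angles is `π`, the Jacobian vanishes almost everywhere. -/
theorem anti_det {K : Set (E3 × E3)} (hK : MeasurableSet K) (hKs : K ⊆ SS.sph)
    {x y : E3 × E3 → E3 × E3} {L L' : ℝ≥0} (hx : LipschitzWith L x) (hy : LipschitzWith L' y)
    (hxK : ∀ z ∈ K, x z ∈ SS.sph) (hyK : ∀ z ∈ K, y z ∈ SS.sph)
    (hmono : ∀ z ∈ K, ∀ w ∈ K, cst (x z) (y z) + cst (x w) (y w) ≤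
      cst (x z) (y w) + cst (x w) (y z)) :
    ∀ᵐ z ∂(coneMeasure.restrict K), (angle (x z).1 (y z).1 = π ∨ angle (x z).2 (y z).2 = π) →
      (fderiv ℝ (homExt x) z).det = 0 := by
  have hxm := hx.continuous.measurable
  have hym := hy.continuous.measurable
  have hm1 : Measurable (fun z => angle (x z).1 (y z).1) :=
    measurable_angle_comp (measurable_fst.comp hxm) (measurable_fst.comp hym)
  have hm2 : Measurable (fun z => angle (x z).2 (y z).2) :=
    measurable_angle_comp (measurable_snd.comp hxm) (measurable_snd.comp hym)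
  set P1 : Set (E3 × E3) := {z | angle (x z).1 (y z).1 = π} with hP1
  set P2 : Set (E3 × E3) := {z | angle (x z).2 (y z).2 = π} with hP2
  have hP1m : MeasurableSet P1 := hm1 (measurableSet_singleton π)
  have hP2m : MeasurableSet P2 := hm2 (measurableSet_singleton π)
  -- velocities
  have hvX : ∀ {X : E3 × E3 → E3 × E3} {Kp : Set (E3 × E3)} {z0 : E3 × E3}, Kp ⊆ SS.sph →
      z0 ∈ SS.sph → DifferentiableAt ℝ (homExt X) z0 →
      ∀ {w : ℕ → E3 × E3} {ζ : E3 × E3}, (∀ n, w n ∈ Kp) → Vel w z0 ζ →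
      Vel (fun n => X (w n)) (X z0) (fderiv ℝ (homExt X) z0 ζ) := by
    intro X Kp z0 hKp hzs hd w ζ hw hv
    have := hv.comp hd.hasFDerivAt
    rw [homExt_of_sph X hzs] at this
    refine this.congr' (Eventually.of_forall (fun n => ?_))
    exact homExt_of_sph X (hKp (hw n))
  have hfst : ∀ {w : ℕ → E3 × E3} {p ζ : E3 × E3}, Vel w p ζ →
      Vel (fun n => (w n).1) p.1 ζ.1 := fun h => h.clm (ContinuousLinearMap.fst ℝ E3 E3)
  have hsnd : ∀ {w : ℕ → E3 × E3} {p ζ : E3 × E3}, Vel w p ζ →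
      Vel (fun n => (w n).2) p.2 ζ.2 := fun h => h.clm (ContinuousLinearMap.snd ℝ E3 E3)
  have good : ∀ Kp : Set (E3 × E3), MeasurableSet Kp → Kp ⊆ K →
      ∀ᵐ z ∂coneMeasure, z ∈ Kp → DifferentiableAt ℝ (homExt x) z ∧
        DifferentiableAt ℝ (homExt y) z ∧ ∀ ζ : E3 × E3, ⟪z.1, ζ.1⟫ = 0 → ⟪z.2, ζ.2⟫ = 0 →
        ∃ w : ℕ → E3 × E3, (∀ n, w n ∈ Kp) ∧ Vel w z ζ := by
    intro Kp hKpm hKp
    have h1 := ae_good hKpm (hKp.trans hKs) hx
    have h2 := ae_good hKpm (hKp.trans hKs) hy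
    rw [ae_restrict_iff' hKpm] at h1 h2
    filter_upwards [h1, h2] with z hz1 hz2 hz
    exact ⟨(hz1 hz).1, (hz2 hz).1, (hz1 hz).2⟩
  have hneg1 : ∀ z ∈ K, z ∈ P1 → (y z).1 = -(x z).1 := fun z hz h =>
    eq_neg_of_angle_pi (hxK z hz).1 (hyK z hz).1 h
  have hneg2 : ∀ z ∈ K, z ∈ P2 → (y z).2 = -(x z).2 := fun z hz h =>
    eq_neg_of_angle_pi (hxK z hz).2 (hyK z hz).2 h
  -- first factor
  have main1 : ∀ Kp : Set (E3 × E3), MeasurableSet Kp → Kp ⊆ K → Kp ⊆ P1 →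
      (Kp ⊆ P2 ∨ Kp ⊆ P2ᶜ) → ∀ᵐ z ∂coneMeasure, z ∈ Kp → (fderiv ℝ (homExt x) z).det = 0 := by
    intro Kp hKpm hKp hKp1 hKp2
    filter_upwards [good Kp hKpm hKp] with z hz hzK
    obtain ⟨hdx, hdy, htan⟩ := hz hzK
    have hzs := hKs (hKp hzK)
    have hxs := hxK z (hKp hzK)
    have hys := hyK z (hKp hzK)
    obtain ⟨e, he, he'⟩ := exists_perp (x z).1
    apply det_eq_zero_of_ortho (e := (e, 0)) (by
      intro h; exact he (congrArg Prod.fst h))
    intro v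
    obtain ⟨r, s, ζ, hζ1, hζ2, rfl⟩ := decomp hzs v
    obtain ⟨w, hwK, hw⟩ := htan ζ hζ1 hζ2
    have vx := hvX (hKp.trans hKs) hzs hdx hwK hw
    have vy := hvX (hKp.trans hKs) hzs hdy hwK hw
    have hcore : (fderiv ℝ (homExt x) z ζ).1 = 0 := by
      apply anti_seq (x1 := fun n => (x (w n)).1) (x2 := fun n => (x (w n)).2)
        (y2 := fun n => (y (w n)).2) (x10 := (x z).1) (x20 := (x z).2) (y20 := (y z).2)
        (fun n => (hxK _ (hKp (hwK n))).1) (fun n => (hxK _ (hKp (hwK n))).2)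
        (fun n => (hyK _ (hKp (hwK n))).2) hxs.1 hxs.2 hys.2 (hfst vx) (hsnd vx) (hsnd vy)
      · rcases hKp2 with h | h
        · right
          exact ⟨hneg2 z (hKp hzK) (h hzK), fun n => hneg2 _ (hKp (hwK n)) (h (hwK n))⟩
        · left
          exact lt_of_le_of_ne (angle_le_pi _ _) (h hzK)
      · intro n
        have h := hmono _ (hKp (hwK n)) _ (hKp hzK)
        unfold cst at h
        rw [hneg1 z (hKp hzK) (hKp1 hzK), hneg1 _ (hKp (hwK n)) (hKp1 (hwK n))] at h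
        linarith
    rw [map_add, map_add, map_smul, map_smul, rad_fst hzs hdx.hasFDerivAt,
      rad_snd hzs hdx.hasFDerivAt]
    simp [hcore, inner_add_left, real_inner_smul_left, he']
  -- second factor
  have main2 : ∀ Kp : Set (E3 × E3), MeasurableSet Kp → Kp ⊆ K → Kp ⊆ P2 →
      (Kp ⊆ P1 ∨ Kp ⊆ P1ᶜ) → ∀ᵐ z ∂coneMeasure, z ∈ Kp → (fderiv ℝ (homExt x) z).det = 0 := by
    intro Kp hKpm hKp hKp1 hKp2
    filter_upwards [good Kp hKpm hKp] with z hz hzK
    obtain ⟨hdx, hdy, htan⟩ := hz hzK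
    have hzs := hKs (hKp hzK)
    have hxs := hxK z (hKp hzK)
    have hys := hyK z (hKp hzK)
    obtain ⟨e, he, he'⟩ := exists_perp (x z).2
    apply det_eq_zero_of_ortho (e := (0, e)) (by
      intro h; exact he (congrArg Prod.snd h))
    intro v
    obtain ⟨r, s, ζ, hζ1, hζ2, rfl⟩ := decomp hzs v
    obtain ⟨w, hwK, hw⟩ := htan ζ hζ1 hζ2
    have vx := hvX (hKp.trans hKs) hzs hdx hwK hw
    have vy := hvX (hKp.trans hKs) hzs hdy hwK hw
    have hcore : (fderiv ℝ (homExt x) z ζ).2 = 0 := by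
      apply anti_seq (x1 := fun n => (x (w n)).2) (x2 := fun n => (x (w n)).1)
        (y2 := fun n => (y (w n)).1) (x10 := (x z).2) (x20 := (x z).1) (y20 := (y z).1)
        (fun n => (hxK _ (hKp (hwK n))).2) (fun n => (hxK _ (hKp (hwK n))).1)
        (fun n => (hyK _ (hKp (hwK n))).1) hxs.2 hxs.1 hys.1 (hsnd vx) (hfst vx) (hfst vy)
      · rcases hKp2 with h | h
        · right
          exact ⟨hneg1 z (hKp hzK) (h hzK), fun n => hneg1 _ (hKp (hwK n)) (h (hwK n))⟩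
        · left
          exact lt_of_le_of_ne (angle_le_pi _ _) (h hzK)
      · intro n
        have h := hmono _ (hKp (hwK n)) _ (hKp hzK)
        unfold cst at h
        rw [hneg2 z (hKp hzK) (hKp1 hzK), hneg2 _ (hKp (hwK n)) (hKp1 (hwK n))] at h
        linarith
    rw [map_add, map_add, map_smul, map_smul, rad_fst hzs hdx.hasFDerivAt,
      rad_snd hzs hdx.hasFDerivAt]
    simp [hcore, inner_add_left, real_inner_smul_left, he']
  rw [ae_restrict_iff' hK]
  filter_upwards [main1 (K ∩ P1 ∩ P2) ((hK.inter hP1m).inter hP2m)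
      (fun z h => h.1.1) (fun z h => h.1.2) (Or.inl (fun z h => h.2)),
    main1 (K ∩ P1 ∩ P2ᶜ) ((hK.inter hP1m).inter hP2m.compl)
      (fun z h => h.1.1) (fun z h => h.1.2) (Or.inr (fun z h => h.2)),
    main2 (K ∩ P2 ∩ P1) ((hK.inter hP2m).inter hP1m)
      (fun z h => h.1.1) (fun z h => h.1.2) (Or.inl (fun z h => h.2)),
    main2 (K ∩ P2 ∩ P1ᶜ) ((hK.inter hP2m).inter hP1m.compl)
      (fun z h => h.1.1) (fun z h => h.1.2) (Or.inr (fun z h => h.2))] with z h1 h2 h3 h4 hz hor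
  rcases hor with h | h
  · by_cases h' : z ∈ P2
    · exact h1 ⟨⟨hz, h⟩, h'⟩
    · exact h2 ⟨⟨hz, h⟩, h'⟩
  · by_cases h' : z ∈ P1
    · exact h3 ⟨⟨hz, h⟩, h'⟩
    · exact h4 ⟨⟨hz, h⟩, h'⟩

end Pool.Agent.Lib.H84.RCD
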