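import Mathlib

/-!
# Uniformly distributed measures are proportional

Christensen's theorem (Mattila, Geometry of sets and measures in Euclidean spaces, Theorem 3.4),
for finite measures.
-/

set_option autoImplicit false

open MeasureTheory Set Filter Topology Metric
open scoped ENNReal

namespace Pool.Agent.Lib.H84.UniformMeasure

variable {X : Type*} [MetricSpace X] [SecondCountableTopology X] [MeasurableSpace X] [BorelSpace X]

lemma measure_open_le_of_ball (μ ν : Measure X) [IsFiniteMeasure μ] [IsFiniteMeasure ν]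
    (g h : ℝ → ℝ≥0∞) (hg : ∀ x r, 0 < r → μ (ball x r) = g r)
    (hh : ∀ x r, 0 < r → ν (ball x r) = h r) (hh0 : ∀ r, 0 < r → h r ≠ 0)
    (r : ℕ → ℝ) (hr : ∀ n, 0 < r n) (hr0 : Tendsto r atTop (𝓝 0)) (c : ℝ≥0∞)
    (hc : Tendsto (fun n => g (r n) / h (r n)) atTop (𝓝 c)) {U : Set X} (hU : IsOpen U) :
    μ U ≤ c * ν U := by
  rcases U.eq_empty_or_nonempty with rfl | ⟨x₀, hx₀⟩
  · simp
  have hhtop : ∀ n, h (r n) ≠ ∞ := fun n => by
    rw [← hh x₀ (r n) (hr n)]; exact measure_ne_top _ _
  have hmeas : ∀ ρ : ℝ, MeasurableSet {p : X × X | dist p.2 p.1 < ρ} := fun ρ =>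
    (isOpen_lt (by fun_prop) (by fun_prop)).measurableSet
  set F : ℕ → X → ℝ≥0∞ := fun n x => (ν.restrict U) (ball x (r n)) / h (r n) with hF
  have hFm : ∀ n, Measurable (F n) := by
    intro n
    refine Measurable.div_const ?_ _
    have := measurable_measure_prodMk_left (ν := ν.restrict U) (hmeas (r n))
    exact this
  have h1 : ∀ x ∈ U, liminf (fun n => F n x) atTop = 1 := by
    intro x hx
    refine Tendsto.liminf_eq (tendsto_const_nhds.congr' ?_)
    obtain ⟨ε, hε, hεU⟩ := Metric.isOpen_iff.1 hU x hx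
    filter_upwards [hr0.eventually (gt_mem_nhds hε)] with n hn
    have hsub : ball x (r n) ⊆ U := (ball_subset_ball hn.le).trans hεU
    simp only [hF]
    rw [Measure.restrict_apply measurableSet_ball, inter_eq_left.2 hsub, hh x _ (hr n),
      ENNReal.div_self (hh0 _ (hr n)) (hhtop n)]
  calc μ U = ∫⁻ x in U, liminf (fun n => F n x) atTop ∂μ := by
        rw [setLIntegral_congr_fun hU.measurableSet h1, setLIntegral_one]
    _ ≤ liminf (fun n => ∫⁻ x in U, F n x ∂μ) atTop := lintegral_liminf_le hFm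
    _ ≤ liminf (fun n => g (r n) / h (r n) * ν U) atTop := by
        refine liminf_le_liminf (Eventually.of_forall fun n => ?_)
        have h2 : ∫⁻ x in U, (ν.restrict U) (ball x (r n)) ∂μ =
            ∫⁻ y in U, (μ.restrict U) (ball y (r n)) ∂ν := by
          have e1 := Measure.prod_apply (μ := μ.restrict U) (ν := ν.restrict U) (hmeas (r n))
          have e2 := Measure.prod_apply_symm (μ := μ.restrict U) (ν := ν.restrict U) (hmeas (r n))
          have e3 : ∀ x : X, (Prod.mk x ⁻¹' {p : X × X | dist p.2 p.1 < r n}) = ball x (r n) := by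
            intro x; ext y; simp
          have e4 : ∀ y : X, ((fun x => (x, y)) ⁻¹' {p : X × X | dist p.2 p.1 < r n}) =
              ball y (r n) := by
            intro y; ext x; simp [dist_comm]
          simp only [e3] at e1
          simp only [e4] at e2
          rw [← e1, ← e2]
        have h3 : ∫⁻ y in U, (μ.restrict U) (ball y (r n)) ∂ν ≤ g (r n) * ν U := by
          calc _ ≤ ∫⁻ _ in U, g (r n) ∂ν := by
                refine lintegral_mono fun y => ?_
                rw [← hg y _ (hr n)]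
                exact Measure.restrict_apply_le _ _
            _ = g (r n) * ν U := by rw [setLIntegral_const]
        calc ∫⁻ x in U, F n x ∂μ = (∫⁻ x in U, (ν.restrict U) (ball x (r n)) ∂μ) / h (r n) := by
              simp only [hF, div_eq_mul_inv]
              rw [lintegral_mul_const']
              exact ENNReal.inv_ne_top.2 (hh0 _ (hr n))
          _ ≤ g (r n) * ν U / h (r n) := by
              rw [h2]; exact ENNReal.div_le_div_right h3 _
          _ = g (r n) / h (r n) * ν U := by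
              rw [div_eq_mul_inv, div_eq_mul_inv]; ring
    _ = c * ν U := (ENNReal.Tendsto.mul_const hc (Or.inr (measure_ne_top _ _))).liminf_eq

/-- **Christensen's theorem**, for finite measures. -/
theorem eq_smul_of_ball (μ ν : Measure X) [IsFiniteMeasure μ] [IsFiniteMeasure ν]
    (g h : ℝ → ℝ≥0∞) (hg : ∀ x r, 0 < r → μ (ball x r) = g r)
    (hh : ∀ x r, 0 < r → ν (ball x r) = h r) (hg0 : ∀ r, 0 < r → g r ≠ 0)
    (hh0 : ∀ r, 0 < r → h r ≠ 0) (hne : Nonempty X) :
    ∃ c : ℝ≥0∞, c ≠ 0 ∧ c ≠ ∞ ∧ μ = c • ν := by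
  obtain ⟨x₀⟩ := hne
  have hμ0 : μ univ ≠ 0 := fun h0 => hg0 1 one_pos (by
    rw [← hg x₀ 1 one_pos]; exact measure_mono_null (subset_univ _) h0)
  have hν0 : ν univ ≠ 0 := fun h0 => hh0 1 one_pos (by
    rw [← hh x₀ 1 one_pos]; exact measure_mono_null (subset_univ _) h0)
  have hgtop : ∀ r, 0 < r → g r ≠ ∞ := fun r hr => by
    rw [← hg x₀ r hr]; exact measure_ne_top _ _
  have hhtop : ∀ r, 0 < r → h r ≠ ∞ := fun r hr => by
    rw [← hh x₀ r hr]; exact measure_ne_top _ _
  let r₀ : ℕ → ℝ := fun n => 1 / ((n : ℝ) + 1)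
  have hr₀ : ∀ n, 0 < r₀ n := fun n => by positivity
  have hr₀0 : Tendsto r₀ atTop (𝓝 0) := tendsto_one_div_add_atTop_nhds_zero_nat
  obtain ⟨c, -, φ, hφ, hc⟩ := isCompact_univ.tendsto_subseq
    (x := fun n => g (r₀ n) / h (r₀ n)) (fun n => mem_univ _)
  let r : ℕ → ℝ := r₀ ∘ φ
  have hr : ∀ n, 0 < r n := fun n => hr₀ _
  have hr0 : Tendsto r atTop (𝓝 0) := hr₀0.comp hφ.tendsto_atTop
  have hc1 : Tendsto (fun n => g (r n) / h (r n)) atTop (𝓝 c) := hc
  have hc2 : Tendsto (fun n => h (r n) / g (r n)) atTop (𝓝 c⁻¹) := by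
    refine ((tendsto_inv_iff (a := c)).2 hc1).congr fun n => ?_
    rw [ENNReal.inv_div (Or.inl (hhtop _ (hr n))) (Or.inl (hh0 _ (hr n)))]
  have key1 : ∀ U : Set X, IsOpen U → μ U ≤ c * ν U := fun U hU =>
    measure_open_le_of_ball μ ν g h hg hh hh0 r hr hr0 c hc1 hU
  have key2 : ∀ U : Set X, IsOpen U → ν U ≤ c⁻¹ * μ U := fun U hU =>
    measure_open_le_of_ball ν μ h g hh hg hg0 r hr hr0 c⁻¹ hc2 hU
  have hc0 : c ≠ 0 := by
    intro h0
    have := key1 univ isOpen_univ
    rw [h0, zero_mul] at this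
    exact hμ0 (le_zero_iff.1 this)
  have hctop : c ≠ ∞ := by
    intro h0
    have := key2 univ isOpen_univ
    rw [h0, ENNReal.inv_top, zero_mul] at this
    exact hν0 (le_zero_iff.1 this)
  refine ⟨c, hc0, hctop, ?_⟩
  have hopen : ∀ U : Set X, IsOpen U → μ U = (c • ν) U := by
    intro U hU
    rw [Measure.smul_apply, smul_eq_mul]
    refine le_antisymm (key1 U hU) ?_
    calc c * ν U ≤ c * (c⁻¹ * μ U) := by gcongr; exact key2 U hU
      _ = μ U := by rw [← mul_assoc, ENNReal.mul_inv_cancel hc0 hctop, one_mul]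
  refine ext_of_generate_finite {U : Set X | IsOpen U} (BorelSpace.measurable_eq) ?_ ?_ ?_
  · exact isPiSystem_isOpen
  · exact fun U hU => hopen U hU
  · exact hopen univ isOpen_univ

end Pool.Agent.Lib.H84.UniformMeasure
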