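import Mathlib
import Pool.Agent.Lib.H84.Space
import Pool.Agent.Lib.H84.UniformMeasure

/-!
# The four-dimensional Hausdorff measure of `S² × S²` and of its hemisphere
-/

open MeasureTheory Set Filter Topology Metric InnerProductGeometry
open scoped ENNReal NNReal Real RealInnerProductSpace

namespace Pool.Agent.Lib.H84.RCD

namespace T2

/-! ### Isometries of the product of two spheres -/

/-- Linear isometries of the factors act on `S² × S²`. -/
noncomputable def act (A B : E3 ≃ₗᵢ[ℝ] E3) : SS ≃ᵢ SS where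
  toFun z := ⟨A z.fst, B z.snd, by rw [A.norm_map, z.norm_fst], by rw [B.norm_map, z.norm_snd]⟩
  invFun z := ⟨A.symm z.fst, B.symm z.snd, by rw [A.symm.norm_map, z.norm_fst],
    by rw [B.symm.norm_map, z.norm_snd]⟩
  left_inv z := by ext1 <;> simp
  right_inv z := by ext1 <;> simp
  isometry_toFun := by
    refine Isometry.of_dist_eq fun z w => ?_
    rw [SS.dist_def, SS.dist_def]
    have h1 : angle (A z.fst) (A w.fst) = angle z.fst w.fst := A.toLinearIsometry.angle_map _ _
    have h2 : angle (B z.snd) (B w.snd) = angle z.snd w.snd := B.toLinearIsometry.angle_map _ _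
    rw [h1, h2]

lemma toVec_act (A B : E3 ≃ₗᵢ[ℝ] E3) (z : SS) :
    SS.toVec (act A B z) = Prod.map A B (SS.toVec z) := rfl

lemma exists_act (z w : SS) : ∃ A B : E3 ≃ₗᵢ[ℝ] E3, act A B z = w := by
  obtain ⟨A, hA⟩ : ∃ A : E3 ≃ₗᵢ[ℝ] E3, A z.fst = w.fst :=
    ⟨_, Submodule.reflection_sub (by rw [z.norm_fst, w.norm_fst])⟩
  obtain ⟨B, hB⟩ : ∃ B : E3 ≃ₗᵢ[ℝ] E3, B z.snd = w.snd :=
    ⟨_, Submodule.reflection_sub (by rw [z.norm_snd, w.norm_snd])⟩
  exact ⟨A, B, SS.ext hA hB⟩

/-- A point of `S² × S²`. -/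
noncomputable def pt : SS :=
  ⟨EuclideanSpace.single 0 1, EuclideanSpace.single 0 1, by simp, by simp⟩

lemma hausdorff_ball (z w : SS) (r : ℝ) :
    (μH[(4 : ℝ)] : Measure SS) (ball z r) = μH[(4 : ℝ)] (ball w r) := by
  obtain ⟨A, B, h⟩ := exists_act z w
  rw [← (act A B).hausdorffMeasure_image, IsometryEquiv.image_ball, h]

/-! ### The cone measure -/

lemma measurable_proj : Measurable proj := by
  unfold proj
  fun_prop

lemma isOpen_annulus : IsOpen annulus := by
  have c1 : Continuous (fun u : E3 × E3 => ‖u.1‖) := by fun_prop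
  have c2 : Continuous (fun u : E3 × E3 => ‖u.2‖) := by fun_prop
  exact ((isOpen_lt continuous_const c1).inter (isOpen_lt c1 continuous_const)).inter
    ((isOpen_lt continuous_const c2).inter (isOpen_lt c2 continuous_const))

lemma proj_mem {u : E3 × E3} (hu : u ∈ annulus) : proj u ∈ SS.sph := by
  obtain ⟨⟨h1, -⟩, h2, -⟩ := hu
  have h1' : ‖u.1‖ ≠ 0 := by linarith
  have h2' : ‖u.2‖ ≠ 0 := by linarith
  constructor
  · simp [proj, norm_smul, h1']
  · simp [proj, norm_smul, h2']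

lemma annulus_subset : annulus ⊆ ball (0 : E3 × E3) 2 := by
  intro u hu
  rw [mem_ball, dist_zero_right, Prod.norm_def]
  exact max_lt hu.1.2 hu.2.2

lemma volume_annulus_lt_top : volume annulus < ∞ :=
  (measure_mono annulus_subset).trans_lt measure_ball_lt_top

lemma annulus_nonempty : annulus.Nonempty :=
  ⟨(EuclideanSpace.single 0 1, EuclideanSpace.single 0 1), by
    refine ⟨?_, ?_⟩ <;> simp <;> norm_num⟩

lemma volume_annulus_pos : 0 < volume annulus :=
  isOpen_annulus.measure_pos volume annulus_nonempty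

lemma coneMeasure_apply {s : Set (E3 × E3)} (hs : MeasurableSet s) :
    coneMeasure s = volume (proj ⁻¹' s ∩ annulus) := by
  rw [coneMeasure, Measure.map_apply measurable_proj hs,
    Measure.restrict_apply (measurable_proj hs)]

lemma coneMeasure_compl_sph : coneMeasure SS.sphᶜ = 0 := by
  rw [coneMeasure_apply SS.isClosed_sph.measurableSet.compl]
  have : proj ⁻¹' SS.sphᶜ ∩ annulus = ∅ := by
    ext u
    simp only [mem_inter_iff, mem_preimage, mem_compl_iff, mem_empty_iff_false, iff_false, not_and]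
    exact fun h1 h2 => h1 (proj_mem h2)
  rw [this, measure_empty]

lemma coneMeasure_univ : coneMeasure univ = volume annulus := by
  rw [coneMeasure_apply MeasurableSet.univ, preimage_univ, univ_inter]

instance isFiniteMeasure_coneMeasure : IsFiniteMeasure coneMeasure :=
  ⟨by rw [coneMeasure_univ]; exact volume_annulus_lt_top⟩

/-- The cone measure is invariant under linear isometries of the factors. -/
lemma coneMeasure_map (A B : E3 ≃ₗᵢ[ℝ] E3) :
    coneMeasure.map (Prod.map A B) = coneMeasure := by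
  have hm : Measurable (Prod.map A B : E3 × E3 → E3 × E3) :=
    A.continuous.measurable.prodMap B.continuous.measurable
  have hpres : MeasurePreserving (Prod.map A B : E3 × E3 → E3 × E3) volume volume :=
    A.measurePreserving.prod B.measurePreserving
  have hann : (Prod.map A B : E3 × E3 → E3 × E3) ⁻¹' annulus = annulus := by
    ext u; simp [annulus]
  have hcomm : (Prod.map A B : E3 × E3 → E3 × E3) ∘ proj = proj ∘ Prod.map A B := by
    ext1 u; simp [proj]
  have hres : (volume.restrict annulus).map (Prod.map A B : E3 × E3 → E3 × E3) =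
      volume.restrict annulus := by
    have := (hpres.restrict_preimage isOpen_annulus.measurableSet).map_eq
    rwa [hann] at this
  rw [coneMeasure, Measure.map_map hm measurable_proj, hcomm,
    ← Measure.map_map measurable_proj hm, hres]

/-- The cone measure as a measure on `S² × S²`. -/
noncomputable def cone : Measure SS := coneMeasure.comap SS.toVec

lemma cone_apply (s : Set SS) : cone s = coneMeasure (SS.toVec '' s) :=
  SS.measurableEmbedding_toVec.comap_apply _ _

lemma map_cone : cone.map SS.toVec = coneMeasure := by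
  rw [cone, SS.measurableEmbedding_toVec.map_comap, SS.range_toVec]
  exact Measure.restrict_eq_self_of_ae_mem (by
    rw [ae_iff]; exact coneMeasure_compl_sph)

lemma cone_univ : cone univ = volume annulus := by
  rw [← coneMeasure_univ, ← map_cone, Measure.map_apply SS.continuous_toVec.measurable
    MeasurableSet.univ, preimage_univ]

instance isFiniteMeasure_cone : IsFiniteMeasure cone :=
  ⟨by rw [cone_univ]; exact volume_annulus_lt_top⟩

lemma cone_ball (z w : SS) (r : ℝ) : cone (ball z r) = cone (ball w r) := by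
  obtain ⟨A, B, h⟩ := exists_act z w
  rw [cone_apply, cone_apply, ← h, ← IsometryEquiv.image_ball]
  have hm : MeasurableEmbedding (Prod.map A B : E3 × E3 → E3 × E3) :=
    ((A.toHomeomorph.prodCongr B.toHomeomorph).measurableEmbedding)
  have e : SS.toVec '' (act A B '' ball z r) = Prod.map A B '' (SS.toVec '' ball z r) := by
    rw [image_image, image_image]
    rfl
  rw [e]
  conv_rhs => rw [← coneMeasure_map A B]
  rw [hm.map_apply, preimage_image_eq _ hm.injective]

/-! ### Balls have positive measure for a uniformly distributed finite measure -/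

lemma ball_ne_zero {μ : Measure SS} (hμ : μ univ ≠ 0)
    (h : ∀ (z w : SS) (r : ℝ), μ (ball z r) = μ (ball w r)) (z : SS) {r : ℝ} (hr : 0 < r) :
    μ (ball z r) ≠ 0 := by
  intro h0
  apply hμ
  obtain ⟨t, -, ht⟩ := isCompact_univ.elim_nhds_subcover (fun z : SS => ball z r)
    (fun z _ => ball_mem_nhds z hr)
  refine measure_mono_null ht ?_
  exact (measure_biUnion_null_iff (Finset.countable_toSet t)).2 (fun w _ => by rw [h w z, h0])

/-! ### The Hausdorff measure is positive -/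

/-- Four of the six coordinates. -/
def coord (z : SS) : Fin 4 → ℝ := ![z.fst 0, z.fst 1, z.snd 0, z.snd 1]

lemma abs_apply_le (v : E3) (i : Fin 3) : |v i| ≤ ‖v‖ := by
  have := PiLp.norm_apply_le v i
  simpa using this

lemma lipschitz_coord : LipschitzWith 2 coord := by
  refine LipschitzWith.of_dist_le_mul fun z w => ?_
  have h := SS.dist_toVec_le z w
  have h1 : ‖z.fst - w.fst‖ ≤ 2 * dist z w := by
    rw [← dist_eq_norm]; exact (le_max_left _ _).trans h
  have h2 : ‖z.snd - w.snd‖ ≤ 2 * dist z w := by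
    rw [← dist_eq_norm]; exact (le_max_right _ _).trans h
  rw [NNReal.coe_ofNat, dist_pi_le_iff (by positivity)]
  intro i
  fin_cases i
  · exact (abs_apply_le (z.fst - w.fst) 0).trans h1
  · exact (abs_apply_le (z.fst - w.fst) 1).trans h1
  · exact (abs_apply_le (z.snd - w.snd) 0).trans h2
  · exact (abs_apply_le (z.snd - w.snd) 1).trans h2

lemma exists_unit {a b : ℝ} (ha : |a| ≤ 1 / 2) (hb : |b| ≤ 1 / 2) :
    ∃ v : E3, ‖v‖ = 1 ∧ v 0 = a ∧ v 1 = b := by
  have ha' : a ^ 2 ≤ 1 / 4 := by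
    rw [← sq_abs]; nlinarith [abs_nonneg a]
  have hb' : b ^ 2 ≤ 1 / 4 := by
    rw [← sq_abs]; nlinarith [abs_nonneg b]
  refine ⟨!₂[a, b, √(1 - a ^ 2 - b ^ 2)], ?_, ?_, ?_⟩
  · rw [EuclideanSpace.norm_eq, Fin.sum_univ_three]
    simp only [Real.norm_eq_abs, sq_abs]
    simp only [Matrix.cons_val_zero, Matrix.cons_val_one, Matrix.cons_val_two, Matrix.head_cons,
      Matrix.tail_cons]
    simp
    rw [Real.sq_sqrt (by linarith)]
    ring
  · simp
  · simp

lemma box_subset : Icc (fun _ => -(1 / 2) : Fin 4 → ℝ) (fun _ => 1 / 2) ⊆ coord '' univ := by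
  intro x hx
  rw [mem_Icc, Pi.le_def, Pi.le_def] at hx
  have hab : ∀ i, |x i| ≤ 1 / 2 := fun i => abs_le.2 ⟨hx.1 i, hx.2 i⟩
  obtain ⟨v, hv, hv0, hv1⟩ := exists_unit (hab 0) (hab 1)
  obtain ⟨w, hw, hw0, hw1⟩ := exists_unit (hab 2) (hab 3)
  refine ⟨⟨v, w, hv, hw⟩, mem_univ _, ?_⟩
  ext i
  fin_cases i
  · exact hv0
  · exact hv1
  · exact hw0
  · exact hw1

lemma hausdorff_univ_ne_zero : (μH[(4 : ℝ)] : Measure SS) univ ≠ 0 := by
  intro h0
  have h1 := lipschitz_coord.hausdorffMeasure_image_le (d := 4) (by norm_num) univ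
  rw [h0, mul_zero] at h1
  have h2 : (μH[(4 : ℝ)] : Measure (Fin 4 → ℝ)) (Icc (fun _ => -(1 / 2)) (fun _ => 1 / 2)) ≤ 0 :=
    (measure_mono box_subset).trans h1
  have h3 : (μH[(4 : ℝ)] : Measure (Fin 4 → ℝ)) = volume := by
    have := hausdorffMeasure_pi_real (ι := Fin 4)
    simpa using this
  rw [h3, Real.volume_Icc_pi] at h2
  norm_num at h2

/-! ### The Hausdorff measure is finite -/

/-- Spherical coordinates. -/
noncomputable def sp (θ φ : ℝ) : E3 :=
  !₂[Real.sin θ * Real.cos φ, Real.sin θ * Real.sin φ, Real.cos θ]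

lemma norm_sp (θ φ : ℝ) : ‖sp θ φ‖ = 1 := by
  rw [EuclideanSpace.norm_eq, Fin.sum_univ_three]
  simp only [Real.norm_eq_abs, sq_abs]
  have : (sp θ φ) 0 ^ 2 + (sp θ φ) 1 ^ 2 + (sp θ φ) 2 ^ 2 = 1 := by
    simp only [sp]
    simp
    have h1 := Real.sin_sq_add_cos_sq θ
    have h2 := Real.sin_sq_add_cos_sq φ
    nlinarith
  rw [this, Real.sqrt_one]

lemma abs_mul_sub_le {a b c d : ℝ} (hb : |b| ≤ 1) (hc : |c| ≤ 1) :
    |a * b - c * d| ≤ |a - c| + |b - d| := by
  have h : a * b - c * d = (a - c) * b + c * (b - d) := by ring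
  rw [h]
  refine (abs_add_le _ _).trans ?_
  rw [abs_mul, abs_mul]
  have := abs_nonneg (a - c)
  have := abs_nonneg (b - d)
  nlinarith

lemma abs_sin_sub_sin_le (a b : ℝ) : |Real.sin a - Real.sin b| ≤ |a - b| := by
  have := Real.lipschitzWith_sin.dist_le_mul a b
  simpa [Real.dist_eq] using this

lemma abs_cos_sub_cos_le (a b : ℝ) : |Real.cos a - Real.cos b| ≤ |a - b| := by
  have := Real.lipschitzWith_cos.dist_le_mul a b
  simpa [Real.dist_eq] using this

lemma norm_sp_sub_le {θ φ θ' φ' D : ℝ} (h1 : |θ - θ'| ≤ D) (h2 : |φ - φ'| ≤ D) :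
    ‖sp θ φ - sp θ' φ'‖ ≤ 4 * D := by
  have hD : 0 ≤ D := (abs_nonneg _).trans h1
  have e0 : |(sp θ φ - sp θ' φ') 0| ≤ 2 * D := by
    have : (sp θ φ - sp θ' φ') 0 =
        Real.sin θ * Real.cos φ - Real.sin θ' * Real.cos φ' := by simp [sp]
    rw [this]
    refine (abs_mul_sub_le (Real.abs_cos_le_one _) (Real.abs_sin_le_one _)).trans ?_
    have := abs_sin_sub_sin_le θ θ'
    have := abs_cos_sub_cos_le φ φ'
    linarith
  have e1 : |(sp θ φ - sp θ' φ') 1| ≤ 2 * D := by
    have : (sp θ φ - sp θ' φ') 1 =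
        Real.sin θ * Real.sin φ - Real.sin θ' * Real.sin φ' := by simp [sp]
    rw [this]
    refine (abs_mul_sub_le (Real.abs_sin_le_one _) (Real.abs_sin_le_one _)).trans ?_
    have := abs_sin_sub_sin_le θ θ'
    have := abs_sin_sub_sin_le φ φ'
    linarith
  have e2 : |(sp θ φ - sp θ' φ') 2| ≤ 2 * D := by
    have : (sp θ φ - sp θ' φ') 2 = Real.cos θ - Real.cos θ' := by simp [sp]
    rw [this]
    have := abs_cos_sub_cos_le θ θ'
    linarith
  rw [EuclideanSpace.norm_eq, Fin.sum_univ_three, Real.sqrt_le_left (by positivity)]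
  simp only [Real.norm_eq_abs]
  have f0 := pow_le_pow_left₀ (abs_nonneg _) e0 2
  have f1 := pow_le_pow_left₀ (abs_nonneg _) e1 2
  have f2 := pow_le_pow_left₀ (abs_nonneg _) e2 2
  nlinarith

/-- Parametrization of `S² × S²`. -/
noncomputable def param (x : Fin 4 → ℝ) : SS :=
  ⟨sp (x 0) (x 1), sp (x 2) (x 3), norm_sp _ _, norm_sp _ _⟩

lemma lipschitz_param : LipschitzWith 8 param := by
  refine LipschitzWith.of_dist_le_mul fun x y => ?_
  have hc : ∀ i, |x i - y i| ≤ dist x y := fun i => by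
    rw [← Real.dist_eq]; exact dist_le_pi_dist x y i
  have h := SS.dist_le_toVec (param x) (param y)
  have h1 : dist (SS.toVec (param x)) (SS.toVec (param y)) ≤ 4 * dist x y := by
    rw [Prod.dist_eq, dist_eq_norm, dist_eq_norm]
    exact max_le (norm_sp_sub_le (hc 0) (hc 1)) (norm_sp_sub_le (hc 2) (hc 3))
  rw [NNReal.coe_ofNat]
  linarith

lemma exists_sp {v : E3} (hv : ‖v‖ = 1) :
    ∃ θ ∈ Icc (-π) π, ∃ φ ∈ Icc (-π) π, sp θ φ = v := by
  have hpi := Real.pi_pos
  have hsum : v 0 ^ 2 + v 1 ^ 2 + v 2 ^ 2 = 1 := by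
    have := EuclideanSpace.norm_sq_eq v
    rw [hv, Fin.sum_univ_three] at this
    simp only [Real.norm_eq_abs, sq_abs] at this
    linarith
  have h2 : v 2 ^ 2 ≤ 1 := by nlinarith [sq_nonneg (v 0), sq_nonneg (v 1)]
  have h2' := abs_le_one_iff_mul_self_le_one.2 (by nlinarith : v 2 * v 2 ≤ 1)
  rw [abs_le] at h2'
  set c : ℂ := ⟨v 0, v 1⟩ with hc
  have hnorm : ‖c‖ = √(1 - v 2 ^ 2) := by
    rw [Complex.norm_eq_sqrt_sq_add_sq]
    congr 1
    simp only [hc]
    linarith
  refine ⟨Real.arccos (v 2), ⟨by linarith [Real.arccos_nonneg (v 2)], Real.arccos_le_pi _⟩,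
    c.arg, ⟨(Complex.neg_pi_lt_arg c).le, Complex.arg_le_pi c⟩, ?_⟩
  ext i
  fin_cases i
  · simp only [sp]
    simp
    rw [Real.sin_arccos, ← hnorm, Complex.norm_mul_cos_arg]
  · simp only [sp]
    simp
    rw [Real.sin_arccos, ← hnorm, Complex.norm_mul_sin_arg]
  · simp only [sp]
    simp
    exact Real.cos_arccos h2'.1 h2'.2

lemma univ_subset_param :
    (univ : Set SS) ⊆ param '' Icc (fun _ => -π : Fin 4 → ℝ) (fun _ => π) := by
  intro z _
  obtain ⟨θ, hθ, φ, hφ, h⟩ := exists_sp z.norm_fst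
  obtain ⟨θ', hθ', φ', hφ', h'⟩ := exists_sp z.norm_snd
  refine ⟨![θ, φ, θ', φ'], ?_, SS.ext h h'⟩
  rw [mem_Icc, Pi.le_def, Pi.le_def]
  constructor
  · intro i
    fin_cases i
    exacts [hθ.1, hφ.1, hθ'.1, hφ'.1]
  · intro i
    fin_cases i
    exacts [hθ.2, hφ.2, hθ'.2, hφ'.2]

lemma hausdorff_univ_lt_top : (μH[(4 : ℝ)] : Measure SS) univ < ∞ := by
  have h3 : (μH[(4 : ℝ)] : Measure (Fin 4 → ℝ)) = volume := by
    have := hausdorffMeasure_pi_real (ι := Fin 4)
    simpa using this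
  refine (measure_mono univ_subset_param).trans_lt ?_
  refine (lipschitz_param.hausdorffMeasure_image_le (d := 4) (by norm_num) _).trans_lt ?_
  rw [h3, Real.volume_Icc_pi]
  refine ENNReal.mul_lt_top ?_ ?_
  · exact ENNReal.rpow_lt_top_of_nonneg (by norm_num) (by simp)
  · exact ENNReal.prod_lt_top fun i _ => ENNReal.ofReal_lt_top

instance isFiniteMeasure_hausdorff : IsFiniteMeasure (μH[(4 : ℝ)] : Measure SS) :=
  ⟨hausdorff_univ_lt_top⟩

lemma exists_eq_smul_cone : ∃ c : ℝ≥0∞, c ≠ 0 ∧ c ≠ ∞ ∧ (μH[(4 : ℝ)] : Measure SS) = c • cone := by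
  have hcone : cone univ ≠ 0 := by rw [cone_univ]; exact volume_annulus_pos.ne'
  refine Pool.Agent.Lib.H84.UniformMeasure.eq_smul_of_ball _ _ (fun r => μH[(4 : ℝ)] (ball pt r))
    (fun r => cone (ball pt r)) (fun x r _ => hausdorff_ball x pt r) (fun x r _ => cone_ball x pt r)
    (fun r hr => ball_ne_zero hausdorff_univ_ne_zero hausdorff_ball pt hr)
    (fun r hr => ball_ne_zero hcone cone_ball pt hr) ⟨pt⟩

end T2

open T2

theorem hausdorff_SS : ∃ c : ℝ≥0∞, c ≠ 0 ∧ c ≠ ∞ ∧
    (μH[(4 : ℝ)] : Measure SS).map SS.toVec = c • coneMeasure := by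
  obtain ⟨c, h0, h1, h⟩ := exists_eq_smul_cone
  exact ⟨c, h0, h1, by rw [h, Measure.map_smul, map_cone]⟩

theorem hausdorff_Hemi : ∃ c : ℝ≥0∞, c ≠ 0 ∧ c ≠ ∞ ∧
    (μH[(4 : ℝ)] : Measure Hemi).map (fun z => SS.toVec z.1) =
      c • coneMeasure.restrict {u | 0 ≤ u.2 2} := by
  obtain ⟨c, h0, h1, h⟩ := hausdorff_SS
  refine ⟨c, h0, h1, ?_⟩
  have hm : MeasurableSet {u : E3 × E3 | 0 ≤ u.2 2} := by
    have : Continuous (fun u : E3 × E3 => u.2 2) := by fun_prop
    exact (isClosed_le continuous_const this).measurableSet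
  have e1 : (μH[(4 : ℝ)] : Measure Hemi).map (fun z => SS.toVec z.1) =
      ((μH[(4 : ℝ)] : Measure Hemi).map Subtype.val).map SS.toVec :=
    (Measure.map_map SS.continuous_toVec.measurable measurable_subtype_coe).symm
  rw [e1, isometry_subtype_coe.map_hausdorffMeasure (Or.inl (by norm_num)), Subtype.range_coe]
  have e2 : Hemi = SS.toVec ⁻¹' {u : E3 × E3 | 0 ≤ u.2 2} := rfl
  rw [e2, ← Measure.restrict_map SS.continuous_toVec.measurable hm, h, Measure.restrict_smul]

theorem hausdorff_Hemi_finite : (μH[(4 : ℝ)] : Measure Hemi) univ < ∞ := by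
  have := isometry_subtype_coe.hausdorffMeasure_image (d := (4 : ℝ)) (Or.inl (by norm_num))
    (univ : Set Hemi)
  rw [← this]
  exact (measure_mono (subset_univ _)).trans_lt hausdorff_univ_lt_top

/-- Points with positive last coordinate are dense in the hemisphere. -/
lemma T2.exists_near_pos (x : SS) (hx : 0 ≤ x.snd 2) {r : ℝ} (hr : 0 < r) :
    ∃ y : SS, 0 < y.snd 2 ∧ dist y x < r := by
  set e : E3 := EuclideanSpace.single 2 1 with he
  set f : ℝ → E3 := fun t => ‖x.snd + t • e‖⁻¹ • (x.snd + t • e) with hf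
  have hf0 : f 0 = x.snd := by simp [hf, x.norm_snd]
  have hcont : ContinuousAt f 0 := by
    have h1 : ContinuousAt (fun t : ℝ => x.snd + t • e) 0 := by fun_prop
    refine ContinuousAt.smul (ContinuousAt.inv₀ h1.norm ?_) h1
    simp [x.norm_snd]
  have h2 : ∀ᶠ t in 𝓝[>] (0 : ℝ), dist (f t) (x.snd) < r / 2 := by
    have h3 : Tendsto f (𝓝 0) (𝓝 (f 0)) := hcont
    rw [hf0] at h3
    exact (h3.eventually (ball_mem_nhds x.snd (by linarith : (0 : ℝ) < r / 2))).filter_mono
      nhdsWithin_le_nhds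
  obtain ⟨t, ht, ht0⟩ := (h2.and self_mem_nhdsWithin).exists
  have ht0' : 0 < t := ht0
  have hcoord : (x.snd + t • e) 2 = x.snd 2 + t := by simp [he]
  have hne : ‖x.snd + t • e‖ ≠ 0 := by
    intro h0
    have := norm_eq_zero.1 h0
    rw [this] at hcoord
    simp at hcoord
    linarith
  have hft : ‖f t‖ = 1 := by
    change ‖‖x.snd + t • e‖⁻¹ • (x.snd + t • e)‖ = 1
    rw [norm_smul, norm_inv, norm_norm, inv_mul_cancel₀ hne]
  refine ⟨⟨x.fst, f t, x.norm_fst, hft⟩, ?_, ?_⟩
  · change 0 < (‖x.snd + t • e‖⁻¹ • (x.snd + t • e)) 2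
    rw [PiLp.smul_apply, hcoord, smul_eq_mul]
    have : 0 < ‖x.snd + t • e‖ := lt_of_le_of_ne (norm_nonneg _) (Ne.symm hne)
    positivity
  · refine (SS.dist_le_toVec _ _).trans_lt ?_
    have : dist (SS.toVec ⟨x.fst, f t, x.norm_fst, hft⟩) (SS.toVec x) =
        dist (f t) x.snd := by
      rw [Prod.dist_eq]
      change max (dist x.fst x.fst) (dist (f t) x.snd) = _
      rw [dist_self]
      exact max_eq_right dist_nonneg
    rw [this]
    linarith

theorem hausdorff_Hemi_ball_pos (x : Hemi) (r : ℝ) (hr : 0 < r) :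
    0 < (μH[(4 : ℝ)] : Measure Hemi) (ball x r) := by
  obtain ⟨y, hy0, hyx⟩ := T2.exists_near_pos x.1 x.2 hr
  have hopen : IsOpen ({z : SS | 0 < z.snd 2} ∩ ball x.1 r) :=
    (isOpen_lt continuous_const (continuous_snd_apply 2)).inter isOpen_ball
  obtain ⟨ε, hε, hsub⟩ := Metric.isOpen_iff.1 hopen y ⟨hy0, hyx⟩
  have h1 : ball y ε ⊆ Subtype.val '' (ball x r) := by
    intro z hz
    have hz' := hsub hz
    have hzH : z ∈ Hemi := le_of_lt (show (0 : ℝ) < z.snd 2 from hz'.1)
    exact ⟨⟨z, hzH⟩, hz'.2, rfl⟩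
  have h2 := isometry_subtype_coe.hausdorffMeasure_image (d := (4 : ℝ)) (Or.inl (by norm_num))
    (ball x r : Set Hemi)
  rw [← h2]
  refine lt_of_lt_of_le ?_ (measure_mono h1)
  exact pos_iff_ne_zero.2 (ball_ne_zero hausdorff_univ_ne_zero hausdorff_ball y hε)

end Pool.Agent.Lib.H84.RCD
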