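import Mathlib
import Pool.Agent.Lib.H84.Frames

/-!
# A trigonometric inequality for the distortion coefficients
-/

open MeasureTheory Set Filter Topology Metric InnerProductGeometry
open scoped ENNReal NNReal Real RealInnerProductSpace

set_option linter.unusedSectionVars false

namespace Pool.Agent.Lib.H84.RCD

/-- convexity of the logarithm of a factor -/
lemma convex_factor {c t : ℝ} (hc : 0 < c) (ht0 : 0 < t) (ht1 : t < 1) :
    ConvexOn ℝ (Iio c⁻¹) (fun u => Real.log (1 - t ^ 2 * c * u) - Real.log (1 - c * u)) := by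
  have hD : IsOpen (Iio c⁻¹) := isOpen_Iio
  have hpos : ∀ u ∈ Iio c⁻¹, 0 < 1 - c * u ∧ 0 < 1 - t ^ 2 * c * u := by
    intro u hu
    have h1 : c * u < 1 := by
      have := mul_lt_mul_of_pos_left hu hc
      rwa [mul_inv_cancel₀ hc.ne'] at this
    have ht2 : t ^ 2 < 1 := by nlinarith
    have ht3 : 0 < t ^ 2 := by positivity
    refine ⟨by linarith, ?_⟩
    rcases le_or_gt 0 (c * u) with h | h
    · nlinarith
    · nlinarith
  have hder : ∀ u ∈ Iio c⁻¹, HasDerivAt
      (fun u => Real.log (1 - t ^ 2 * c * u) - Real.log (1 - c * u))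
      (c * (1 - t ^ 2) / ((1 - t ^ 2 * c * u) * (1 - c * u))) u := by
    intro u hu
    obtain ⟨h1, h2⟩ := hpos u hu
    have d1 : HasDerivAt (fun u => 1 - t ^ 2 * c * u) (-(t ^ 2 * c)) u := by
      have := ((hasDerivAt_id u).const_mul (t ^ 2 * c)).const_sub 1
      simpa using this
    have d2 : HasDerivAt (fun u => 1 - c * u) (-c) u := by
      have := ((hasDerivAt_id u).const_mul c).const_sub 1
      simpa using this
    refine ((d1.log h2.ne').sub (d2.log h1.ne')).congr_deriv ?_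
    field_simp
    ring
  apply MonotoneOn.convexOn_of_deriv (convex_Iio _)
  · exact fun u hu => (hder u hu).continuousAt.continuousWithinAt
  · rw [interior_Iio]
    exact fun u hu => (hder u hu).differentiableAt.differentiableWithinAt
  · rw [interior_Iio]
    intro u hu v hv huv
    rw [(hder u hu).deriv, (hder v hv).deriv]
    obtain ⟨h1, h2⟩ := hpos u hu
    obtain ⟨h3, h4⟩ := hpos v hv
    have ht2 : 0 ≤ 1 - t ^ 2 := by nlinarith
    apply div_le_div_of_nonneg_left (by positivity) (by positivity)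
    have e1 : 1 - c * v ≤ 1 - c * u := by nlinarith
    have e2 : 1 - t ^ 2 * c * v ≤ 1 - t ^ 2 * c * u := by
      have : 0 < t ^ 2 * c := by positivity
      nlinarith
    exact mul_le_mul e2 e1 h3.le h2.le

lemma factor_ineq {c t M : ℝ} (hc : 0 < c) (ht0 : 0 < t) (ht1 : t < 1) (hM : 2 ≤ M) {u v : ℝ}
    (hu0 : 0 ≤ u) (hv0 : 0 ≤ v) (hu : c * u < 1) (hv : c * v < 1) :
    ((1 - t ^ 2 * c * ((u + v) / M)) / (1 - c * ((u + v) / M))) ^ M ≤
      ((1 - t ^ 2 * c * u) / (1 - c * u)) * ((1 - t ^ 2 * c * v) / (1 - c * v)) := by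
  have hcv := convex_factor hc ht0 ht1
  set h : ℝ → ℝ := fun u => Real.log (1 - t ^ 2 * c * u) - Real.log (1 - c * u) with hh
  have hMpos : 0 < M := by linarith
  set w := (u + v) / M with hw
  have ht2 : t ^ 2 < 1 := by nlinarith
  have ht3 : 0 < t ^ 2 := by positivity
  have hmem : ∀ u, c * u < 1 → u ∈ Iio c⁻¹ := by
    intro u hu
    rw [mem_Iio, inv_eq_one_div, lt_div_iff₀ hc, mul_comm]
    exact hu
  have hm : c * ((u + v) / 2) < 1 := by linarith
  have hw2 : w = (2 / M) * ((u + v) / 2) := by rw [hw]; field_simp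
  have hlam : 2 / M ≤ 1 := by rw [div_le_one hMpos]; exact hM
  have hlam0 : 0 < 2 / M := by positivity
  have hw0 : 0 ≤ w := by positivity
  have hcw : c * w < 1 := by
    have h1 : w ≤ (u + v) / 2 := by
      rw [hw2]
      have : 0 ≤ (u + v) / 2 := by positivity
      nlinarith
    nlinarith
  have hexp : ∀ u, 0 ≤ u → c * u < 1 →
      (1 - t ^ 2 * c * u) / (1 - c * u) = Real.exp (h u) := by
    intro u hu0 hu
    have h1 : 0 < 1 - c * u := by linarith
    have h2 : 0 < 1 - t ^ 2 * c * u := by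
      have : 0 ≤ c * u := by positivity
      nlinarith
    rw [hh]
    simp only
    rw [Real.exp_sub, Real.exp_log h1, Real.exp_log h2]
  have h0 : h 0 = 0 := by simp [hh]
  have i1 : h ((u + v) / 2) ≤ (h u + h v) / 2 := by
    have := hcv.2 (hmem u hu) (hmem v hv) (show (0 : ℝ) ≤ 1 / 2 by norm_num)
      (show (0 : ℝ) ≤ 1 / 2 by norm_num) (by norm_num)
    simp only [smul_eq_mul] at this
    rw [show (1 : ℝ) / 2 * u + 1 / 2 * v = (u + v) / 2 by ring] at this
    linarith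
  have i2 : h w ≤ (2 / M) * h ((u + v) / 2) := by
    have := hcv.2 (hmem _ hm) (hmem 0 (by simp)) (show (0 : ℝ) ≤ 2 / M from hlam0.le)
      (show (0 : ℝ) ≤ 1 - 2 / M by linarith) (by ring)
    simp only [smul_eq_mul, mul_zero, h0, add_zero] at this
    rw [← hw2] at this
    exact this
  have i3 : h w * M ≤ h u + h v := by
    have : h w * M ≤ (2 / M) * h ((u + v) / 2) * M := by nlinarith
    have e : (2 / M) * h ((u + v) / 2) * M = 2 * h ((u + v) / 2) := by field_simp
    linarith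
  rw [hexp w hw0 hcw, hexp u hu0 hu, hexp v hv0 hv, ← Real.exp_add, ← Real.exp_mul]
  exact Real.exp_le_exp.2 i3

/-- Euler's product -/
lemma tendsto_sinc_prod (θ : ℝ) :
    Tendsto (fun n : ℕ => ∏ j ∈ Finset.range n, (1 - (π ^ 2 * ((j : ℝ) + 1) ^ 2)⁻¹ * θ ^ 2))
      atTop (𝓝 (Real.sinc θ)) := by
  rcases eq_or_ne θ 0 with rfl | hθ
  · simp
  · have h1 := Real.tendsto_euler_sin_prod (θ / π)
    have hpi := Real.pi_pos.ne'
    rw [mul_div_cancel₀ _ hpi] at h1
    have h2 := h1.const_mul θ⁻¹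
    rw [Real.sinc_of_ne_zero hθ, div_eq_inv_mul]
    refine h2.congr (fun n => ?_)
    rw [← mul_assoc, inv_mul_cancel₀ hθ, one_mul]
    apply Finset.prod_congr rfl
    intro j _
    have : ((j : ℝ) + 1) ≠ 0 := by positivity
    field_simp

lemma sinc_ratio_ineq {t M : ℝ} (ht0 : 0 < t) (ht1 : t < 1) (hM : 2 ≤ M) {a b : ℝ}
    (ha : 0 ≤ a) (ha' : a < π) (hb : 0 ≤ b) (hb' : b < π) :
    (Real.sinc (t * √((a ^ 2 + b ^ 2) / M)) / Real.sinc (√((a ^ 2 + b ^ 2) / M))) ^ M ≤
      (Real.sinc (t * a) / Real.sinc a) * (Real.sinc (t * b) / Real.sinc b) := by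
  have hpi := Real.pi_pos
  have hMpos : 0 < M := by linarith
  set s := √((a ^ 2 + b ^ 2) / M) with hs
  have hs2 : s ^ 2 = (a ^ 2 + b ^ 2) / M := by
    rw [hs, Real.sq_sqrt (by positivity)]
  have hs0 : 0 ≤ s := Real.sqrt_nonneg _
  have ha2 : a ^ 2 < π ^ 2 := by nlinarith
  have hb2 : b ^ 2 < π ^ 2 := by nlinarith
  have hspi : s < π := by
    have h1 : s ^ 2 < π ^ 2 := by
      rw [hs2, div_lt_iff₀ hMpos]
      nlinarith
    nlinarith
  set P : ℝ → ℕ → ℝ := fun θ n =>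
    ∏ j ∈ Finset.range n, (1 - (π ^ 2 * ((j : ℝ) + 1) ^ 2)⁻¹ * θ ^ 2) with hP
  have hlim : ∀ θ, Tendsto (P θ) atTop (𝓝 (Real.sinc θ)) := tendsto_sinc_prod
  have hsa : 0 < Real.sinc a := sinc_pos ha ha'
  have hsb : 0 < Real.sinc b := sinc_pos hb hb'
  have hss : 0 < Real.sinc s := sinc_pos hs0 hspi
  have L1 := ((hlim (t * s)).div (hlim s) hss.ne').rpow_const (p := M) (Or.inr hMpos.le)
  have L2 := ((hlim (t * a)).div (hlim a) hsa.ne').mul ((hlim (t * b)).div (hlim b) hsb.ne')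
  refine le_of_tendsto_of_tendsto' L1 L2 (fun n => ?_)
  have hc : ∀ j : ℕ, 0 < (π ^ 2 * ((j : ℝ) + 1) ^ 2)⁻¹ := fun j => by positivity
  have hcl : ∀ (j : ℕ) (u : ℝ), 0 ≤ u → u < π ^ 2 → (π ^ 2 * ((j : ℝ) + 1) ^ 2)⁻¹ * u < 1 := by
    intro j u hu hu'
    rw [inv_mul_lt_iff₀ (by positivity), mul_one]
    have : (1 : ℝ) ≤ ((j : ℝ) + 1) ^ 2 := by
      have : (0 : ℝ) ≤ j := Nat.cast_nonneg j
      nlinarith
    nlinarith
  have hq : ∀ θ, (P (t * θ) / P θ) n = ∏ j ∈ Finset.range n,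
      (1 - t ^ 2 * (π ^ 2 * ((j : ℝ) + 1) ^ 2)⁻¹ * θ ^ 2) /
        (1 - (π ^ 2 * ((j : ℝ) + 1) ^ 2)⁻¹ * θ ^ 2) := by
    intro θ
    rw [Pi.div_apply, hP]
    simp only
    rw [← Finset.prod_div_distrib]
    apply Finset.prod_congr rfl
    intro j _
    congr 2
    ring
  change (P (t * s) / P s) n ^ M ≤ (P (t * a) / P a) n * (P (t * b) / P b) n
  rw [hq s, hq a, hq b]
  have hnn : ∀ (j : ℕ) (u : ℝ), 0 ≤ u → u < π ^ 2 →
      0 ≤ (1 - t ^ 2 * (π ^ 2 * ((j : ℝ) + 1) ^ 2)⁻¹ * u) /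
        (1 - (π ^ 2 * ((j : ℝ) + 1) ^ 2)⁻¹ * u) := by
    intro j u hu hu'
    have h1 := hcl j u hu hu'
    have h2 : 0 ≤ (π ^ 2 * ((j : ℝ) + 1) ^ 2)⁻¹ * u := mul_nonneg (hc j).le hu
    have ht2 : t ^ 2 < 1 := by nlinarith
    have ht3 : 0 < t ^ 2 := by positivity
    apply div_nonneg
    · nlinarith
    · linarith
  have hs2' : s ^ 2 < π ^ 2 := by nlinarith
  rw [← Real.finsetProd_rpow _ _ (fun j _ => hnn j _ (sq_nonneg s) hs2'), ← Finset.prod_mul_distrib]
  apply Finset.prod_le_prod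
  · intro j _
    exact Real.rpow_nonneg (hnn j _ (sq_nonneg s) hs2') _
  · intro j _
    rw [hs2]
    exact factor_ineq (hc j) ht0 ht1 hM (sq_nonneg a) (sq_nonneg b) (hcl j _ (sq_nonneg a) ha2)
      (hcl j _ (sq_nonneg b) hb2)

theorem tau_le {N : ℝ} (hN : 4 ≤ N) {t : ℝ} (ht0 : 0 < t) (ht1 : t < 1) {a b : ℝ}
    (ha : 0 ≤ a) (ha' : a < π) (hb : 0 ≤ b) (hb' : b < π) :
    tau 3 N t (√((a ^ 2 + b ^ 2) / 3)) ≤
      ENNReal.ofReal ((t ^ (N - 4) * (t ^ 2 * ratio t a * ratio t b)) ^ (1 / N)) := by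
  have hpi := Real.pi_pos
  have hNpos : 0 < N := by linarith
  have hM : 2 ≤ N - 1 := by linarith
  have hMpos : 0 < N - 1 := by linarith
  have ha2 : a ^ 2 < π ^ 2 := by nlinarith
  have hb2 : b ^ 2 < π ^ 2 := by nlinarith
  have key := sinc_ratio_ineq ht0 ht1 hM ha ha' hb hb'
  set s := √((a ^ 2 + b ^ 2) / (N - 1)) with hs
  have hs2 : s ^ 2 = (a ^ 2 + b ^ 2) / (N - 1) := by
    rw [hs, Real.sq_sqrt (by positivity)]
  have hs0 : 0 ≤ s := Real.sqrt_nonneg _
  have hspi : s < π := by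
    have h1 : s ^ 2 < π ^ 2 := by
      rw [hs2, div_lt_iff₀ hMpos]
      nlinarith
    nlinarith
  have hss : 0 < Real.sinc s := sinc_pos hs0 hspi
  have hts : 0 < Real.sinc (t * s) := by
    apply sinc_pos (by positivity)
    nlinarith
  have hsa : 0 < Real.sinc a := sinc_pos ha ha'
  have hsb : 0 < Real.sinc b := sinc_pos hb hb'
  have hta : 0 < Real.sinc (t * a) := sinc_pos (by positivity) (by nlinarith)
  have htb : 0 < Real.sinc (t * b) := sinc_pos (by positivity) (by nlinarith)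
  -- the main inequality
  have hmain : (t ^ (1 / N) * (ratio t s) ^ (1 - 1 / N)) ≤
      (t ^ (N - 4) * (t ^ 2 * ratio t a * ratio t b)) ^ (1 / N) := by
    have e1 : (t ^ (1 / N) * (ratio t s) ^ (1 - 1 / N)) =
        (t ^ N * (Real.sinc (t * s) / Real.sinc s) ^ (N - 1)) ^ (1 / N) := by
      have hr : ratio t s = t * (Real.sinc (t * s) / Real.sinc s) := by
        unfold ratio; ring
      have hq : 0 < Real.sinc (t * s) / Real.sinc s := div_pos hts hss
      rw [hr, Real.mul_rpow ht0.le hq.le, ← mul_assoc, ← Real.rpow_add ht0,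
        Real.mul_rpow (by positivity) (by positivity), ← Real.rpow_mul ht0.le,
        ← Real.rpow_mul hq.le]
      congr 2
      · field_simp; ring
      · field_simp
    have e2 : t ^ (N - 4) * (t ^ 2 * ratio t a * ratio t b) =
        t ^ N * ((Real.sinc (t * a) / Real.sinc a) * (Real.sinc (t * b) / Real.sinc b)) := by
      have h1 : t ^ N = t ^ (N - 4) * t ^ (4 : ℕ) := by
        rw [← Real.rpow_natCast t 4, ← Real.rpow_add ht0]
        congr 1; push_cast; ring
      rw [h1]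
      unfold ratio
      ring
    rw [e1, e2]
    apply Real.rpow_le_rpow (by positivity) _ (by positivity)
    exact mul_le_mul_of_nonneg_left key (by positivity)
  have hθ2 : (√((a ^ 2 + b ^ 2) / 3)) ^ 2 = (a ^ 2 + b ^ 2) / 3 := Real.sq_sqrt (by positivity)
  have h3θ : 3 * (√((a ^ 2 + b ^ 2) / 3)) ^ 2 = a ^ 2 + b ^ 2 := by rw [hθ2]; ring
  unfold tau
  rw [h3θ, if_neg (by push Not; nlinarith)]
  split_ifs with h1 h2
  · apply ENNReal.ofReal_le_ofReal
    have hθs : √((a ^ 2 + b ^ 2) / 3) * √(3 / (N - 1)) = s := by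
      rw [← Real.sqrt_mul (by positivity), hs]
      congr 1
      field_simp
    have hspos : 0 < s := by
      rw [hs]; apply Real.sqrt_pos.2; positivity
    rw [mul_assoc t, hθs]
    have hr : Real.sin (t * s) / Real.sin s = ratio t s := by
      unfold ratio
      rw [← mul_sinc s, ← mul_sinc (t * s)]
      field_simp
    rw [hr]
    exact hmain
  · have ha0 : a = 0 := by
      have := sq_nonneg a
      have := sq_nonneg b
      nlinarith
    have hb0 : b = 0 := by
      have := sq_nonneg a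
      have := sq_nonneg b
      nlinarith
    apply ENNReal.ofReal_le_ofReal
    refine le_trans (le_of_eq ?_) hmain
    have : s = 0 := by rw [hs, ha0, hb0]; simp
    rw [this]
    unfold ratio
    simp only [mul_zero, Real.sinc_zero, div_one, mul_one]
    rw [← Real.rpow_add ht0]
    simp
  · exfalso
    have := sq_nonneg a
    have := sq_nonneg b
    rcases lt_or_eq_of_le (show 0 ≤ a ^ 2 + b ^ 2 by positivity) with h | h
    · exact h1 h
    · exact h2 h.symm

end Pool.Agent.Lib.H84.RCD
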