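import Mathlib
import Pool.Agent.Lib.H84.Good

/-!
# Densities and Jacobians
-/

open MeasureTheory Set Filter Topology Metric InnerProductGeometry Asymptotics
open scoped ENNReal NNReal Real RealInnerProductSpace

set_option linter.unusedSectionVars false
set_option linter.style.haveILetI false

namespace Pool.Agent.Lib.H84.RCD

lemma volume_annulus_lt_top : (volume : Measure (E3 × E3)) annulus < ∞ := by
  have h : annulus ⊆ ball (0 : E3 × E3) 2 := by
    intro u hu
    rw [mem_ball_zero_iff, Prod.norm_def]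
    exact max_lt hu.1.2 hu.2.2
  exact (measure_mono h).trans_lt measure_ball_lt_top

instance : IsFiniteMeasure coneMeasure := by
  unfold coneMeasure
  haveI : IsFiniteMeasure ((volume : Measure (E3 × E3)).restrict annulus) :=
    ⟨by rw [Measure.restrict_apply_univ]; exact volume_annulus_lt_top⟩
  infer_instance

lemma coneMeasure_apply {A : Set (E3 × E3)} (hA : MeasurableSet A) :
    coneMeasure A = volume (annulus ∩ proj ⁻¹' A) := by
  unfold coneMeasure
  rw [Measure.map_apply measurable_proj hA, Measure.restrict_apply (measurable_proj hA),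
    inter_comm]

lemma homExt_scal (x : E3 × E3 → E3 × E3) {a b : ℝ} (ha : 0 < a) (hb : 0 < b) (u : E3 × E3) :
    homExt x (scal a b u) = scal a b (homExt x u) := by
  unfold homExt
  rw [proj_scal ha hb]
  simp only [scal, norm_smul, Real.norm_eq_abs, abs_of_pos ha, abs_of_pos hb, smul_smul]

lemma hasFDerivAt_homExt_scal {x : E3 × E3 → E3 × E3} {a b : ℝ} (ha : 0 < a) (hb : 0 < b)
    {z : E3 × E3} {A : E3 × E3 →L[ℝ] E3 × E3} (h : HasFDerivAt (homExt x) A z) :
    HasFDerivAt (homExt x) ((scalL a b).comp (A.comp (scalL a⁻¹ b⁻¹))) (scal a b z) := by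
  have h1 : homExt x = (scalL a b) ∘ (homExt x) ∘ (scalL a⁻¹ b⁻¹) := by
    funext u
    simp only [Function.comp, scalL_apply]
    rw [homExt_scal x (inv_pos.2 ha) (inv_pos.2 hb), scal_inv ha.ne' hb.ne']
  have h2 : HasFDerivAt (homExt x) A ((scalL a⁻¹ b⁻¹) (scal a b z)) := by
    rw [scalL_apply, scal_inv' ha.ne' hb.ne']; exact h
  have h3 := (scalL a b).hasFDerivAt.comp (scal a b z)
    (h2.comp (scal a b z) (scalL a⁻¹ b⁻¹).hasFDerivAt)
  rw [← h1] at h3
  exact h3

lemma det_scal_conj {a b : ℝ} (ha : 0 < a) (hb : 0 < b) (A : E3 × E3 →L[ℝ] E3 × E3) :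
    ((scalL a b).comp (A.comp (scalL a⁻¹ b⁻¹))).det = A.det := by
  have h1 : (scalL a b).det * (scalL a⁻¹ b⁻¹).det = 1 := by
    have h2 : (scalL a b : E3 × E3 →ₗ[ℝ] E3 × E3) ∘ₗ (scalL a⁻¹ b⁻¹ : E3 × E3 →ₗ[ℝ] E3 × E3) =
        LinearMap.id := by
      ext u
      all_goals simp [scalL, ha.ne', hb.ne']
    have h3 := congrArg LinearMap.det h2
    rw [LinearMap.det_comp, LinearMap.det_id] at h3
    exact h3
  have h4 : ((scalL a b).comp (A.comp (scalL a⁻¹ b⁻¹))).det =
      (scalL a b).det * (A.det * (scalL a⁻¹ b⁻¹).det) := by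
    have : (((scalL a b).comp (A.comp (scalL a⁻¹ b⁻¹)) : E3 × E3 →L[ℝ] E3 × E3) :
        E3 × E3 →ₗ[ℝ] E3 × E3) = (scalL a b : E3 × E3 →ₗ[ℝ] E3 × E3) ∘ₗ
        ((A : E3 × E3 →ₗ[ℝ] E3 × E3) ∘ₗ (scalL a⁻¹ b⁻¹ : E3 × E3 →ₗ[ℝ] E3 × E3)) := rfl
    change LinearMap.det _ = LinearMap.det _ * (LinearMap.det _ * LinearMap.det _)
    rw [this, LinearMap.det_comp, LinearMap.det_comp]
  rw [h4, mul_left_comm, h1, mul_one]

lemma measurable_absdet (x : E3 × E3 → E3 × E3) :
    Measurable (fun z => ENNReal.ofReal |(fderiv ℝ (homExt x) z).det|) := by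
  have h1 : Measurable (fun z => (fderiv ℝ (homExt x) z).det) :=
    ContinuousLinearMap.continuous_det.measurable.comp (measurable_fderiv ℝ (homExt x))
  have h2 : Measurable (fun z => |(fderiv ℝ (homExt x) z).det|) := by
    exact measurable_norm.comp h1
  exact h2.ennreal_ofReal

/-- the basic inequality for compact sets -/
lemma coneMeasure_image_le {x : E3 × E3 → E3 × E3} (hxc : Continuous x) {B : Set (E3 × E3)}
    (hB : IsCompact B) (hBs : B ⊆ SS.sph) (hxB : ∀ z ∈ B, x z ∈ SS.sph)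
    (hd : ∀ z ∈ B, DifferentiableAt ℝ (homExt x) z) :
    coneMeasure (x '' B) ≤
      ∫⁻ z in B, ENNReal.ofReal |(fderiv ℝ (homExt x) z).det| ∂coneMeasure := by
  have hxBc : IsCompact (x '' B) := hB.image hxc
  have hBm : MeasurableSet B := hB.measurableSet
  set C : Set (E3 × E3) := annulus ∩ proj ⁻¹' B with hC
  have hCm : MeasurableSet C := isOpen_annulus.measurableSet.inter (measurable_proj hBm)
  rw [coneMeasure_apply hxBc.measurableSet]
  have himg : annulus ∩ proj ⁻¹' (x '' B) ⊆ homExt x '' C := by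
    rintro v ⟨hv, b, hbB, hb⟩
    obtain ⟨hv1, hv2⟩ := annulus_ne_zero hv
    have p1 : 0 < ‖v.1‖ := norm_pos_iff.2 hv1
    have p2 : 0 < ‖v.2‖ := norm_pos_iff.2 hv2
    have hbs := hBs hbB
    refine ⟨scal ‖v.1‖ ‖v.2‖ b, ⟨?_, ?_⟩, ?_⟩
    · unfold annulus scal
      simp only [mem_setOf_eq, norm_smul, norm_norm, hbs.1, hbs.2, mul_one]
      exact hv
    · rw [mem_preimage, proj_scal p1 p2, proj_of_sph hbs]; exact hbB
    · rw [homExt_scal x p1 p2, homExt_of_sph x hbs, hb, scal_proj hv1 hv2]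
  refine (measure_mono himg).trans ?_
  set D : E3 × E3 → (E3 × E3 →L[ℝ] E3 × E3) := fun u =>
    (scalL ‖u.1‖ ‖u.2‖).comp ((fderiv ℝ (homExt x) (proj u)).comp (scalL ‖u.1‖⁻¹ ‖u.2‖⁻¹)) with hD
  have hDd : ∀ u ∈ C, HasFDerivWithinAt (homExt x) (D u) C u := by
    intro u hu
    obtain ⟨hv1, hv2⟩ := annulus_ne_zero hu.1
    have h1 := hasFDerivAt_homExt_scal (norm_pos_iff.2 hv1) (norm_pos_iff.2 hv2)
      (hd _ hu.2).hasFDerivAt
    rw [scal_proj hv1 hv2] at h1
    exact h1.hasFDerivWithinAt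
  refine (addHaar_image_le_lintegral_abs_det_fderiv volume hCm hDd).trans (le_of_eq ?_)
  have h2 : ∫⁻ u in C, ENNReal.ofReal |(D u).det| ∂(volume : Measure (E3 × E3)) =
      ∫⁻ u in C, ENNReal.ofReal |(fderiv ℝ (homExt x) (proj u)).det| := by
    apply setLIntegral_congr_fun hCm
    intro u hu
    obtain ⟨hv1, hv2⟩ := annulus_ne_zero hu.1
    simp only [hD]
    rw [det_scal_conj (norm_pos_iff.2 hv1) (norm_pos_iff.2 hv2)]
  rw [h2]
  unfold coneMeasure
  rw [setLIntegral_map hBm (measurable_absdet x) measurable_proj,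
    Measure.restrict_restrict (measurable_proj hBm), inter_comm]

theorem density_le (K : Set (E3 × E3)) (hK : MeasurableSet K) (hKs : K ⊆ SS.sph)
    (x : E3 × E3 → E3 × E3) (hxc : Continuous x) (hxK : ∀ z ∈ K, x z ∈ SS.sph)
    (ν₀ ν : Measure (E3 × E3)) [IsFiniteMeasure ν₀] [IsFiniteMeasure ν]
    (h0 : ν₀ ≪ coneMeasure) (h : ν ≪ coneMeasure) (hνK : ν Kᶜ = 0)
    (hpush : ∀ B ⊆ K, MeasurableSet B → ν B ≤ ν₀ (x '' B))
    (hdiff : ∀ᵐ z ∂(coneMeasure.restrict K), DifferentiableAt ℝ (homExt x) z) :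
    ∀ᵐ z ∂ν, ν.rnDeriv coneMeasure z ≤
      ν₀.rnDeriv coneMeasure (x z) * ENNReal.ofReal |(fderiv ℝ (homExt x) z).det| := by
  have hxm := hxc.measurable
  set J : E3 × E3 → ℝ≥0∞ := fun z => ENNReal.ofReal |(fderiv ℝ (homExt x) z).det| with hJ
  have hJm : Measurable J := measurable_absdet x
  set f₀ := ν₀.rnDeriv coneMeasure with hf₀
  have hf₀m : Measurable f₀ := Measure.measurable_rnDeriv _ _
  set g : E3 × E3 → ℝ≥0∞ := fun z => f₀ (x z) * J z with hg
  have hgm : Measurable g := (hf₀m.comp hxm).mul hJm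
  set K' : Set (E3 × E3) := K ∩ {z | DifferentiableAt ℝ (homExt x) z} with hK'
  have hK'm : MeasurableSet K' := hK.inter (measurableSet_of_differentiableAt ℝ (homExt x))
  have hKK' : coneMeasure (K \ K') = 0 := by
    rw [ae_restrict_iff' hK] at hdiff
    rw [← nonpos_iff_eq_zero, ← ae_iff.1 hdiff]
    apply measure_mono
    rintro z ⟨hz, hz'⟩ hcon
    exact hz' ⟨hz, hcon hz⟩
  have hνK' : ν K'ᶜ = 0 := by
    have h1 : K'ᶜ ⊆ Kᶜ ∪ (K \ K') := by
      intro z hz
      by_cases hzK : z ∈ K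
      · exact Or.inr ⟨hzK, hz⟩
      · exact Or.inl hzK
    exact measure_mono_null h1 (measure_union_null hνK (h hKK'))
  -- compact sets
  have hcomp : ∀ B : Set (E3 × E3), IsCompact B → B ⊆ K' →
      ν B ≤ ∫⁻ z in B, g z ∂coneMeasure := by
    intro B hB hBK
    have hBm := hB.measurableSet
    set lam : Measure (E3 × E3) := ((coneMeasure.restrict B).withDensity J).map x with hlam
    have hle : coneMeasure.restrict (x '' B) ≤ lam := by
      rw [Measure.le_iff]
      intro A hA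
      rw [Measure.restrict_apply hA, hlam, Measure.map_apply hxm hA,
        withDensity_apply _ (hxm hA), Measure.restrict_restrict (hxm hA)]
      have hAm : MeasurableSet (A ∩ x '' B) := hA.inter (hB.image hxc).measurableSet
      rw [hAm.measure_eq_iSup_isCompact]
      refine iSup_le fun C' => iSup_le fun hC' => iSup_le fun hC'c => ?_
      set B' := B ∩ x ⁻¹' C' with hB'
      have hB'c : IsCompact B' := hB.inter_right (hC'c.isClosed.preimage hxc)
      have himg : x '' B' = C' := by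
        ext v
        constructor
        · rintro ⟨b, hb, rfl⟩; exact hb.2
        · intro hv
          obtain ⟨b, hb, hb'⟩ := (hC' hv).2
          exact ⟨b, ⟨hb, by rw [mem_preimage, hb']; exact hv⟩, hb'⟩
      rw [← himg]
      refine (coneMeasure_image_le hxc hB'c (fun z hz => hKs (hBK hz.1).1)
        (fun z hz => hxK z (hBK hz.1).1) (fun z hz => (hBK hz.1).2)).trans ?_
      apply lintegral_mono_set
      rintro z ⟨hz1, hz2⟩
      exact ⟨(hC' hz2).1, hz1⟩
    calc ν B ≤ ν₀ (x '' B) := hpush B (fun z hz => (hBK hz).1) hBm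
      _ = ∫⁻ v in x '' B, f₀ v ∂coneMeasure := by
          conv_lhs => rw [← Measure.withDensity_rnDeriv_eq ν₀ coneMeasure h0]
          rw [withDensity_apply']
      _ ≤ ∫⁻ v, f₀ v ∂lam := lintegral_mono' hle le_rfl
      _ = ∫⁻ z in B, g z ∂coneMeasure := by
          have e1 := lintegral_withDensity_eq_lintegral_mul (coneMeasure.restrict B) hJm
            (hf₀m.comp hxm)
          rw [hlam, lintegral_map hf₀m hxm]
          refine Eq.trans e1 ?_
          apply lintegral_congr
          intro z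
          simp only [Pi.mul_apply, hg]
          rw [mul_comm]
          rfl
  -- measurable sets
  have hmeas : ∀ B : Set (E3 × E3), MeasurableSet B → B ⊆ K' →
      ν B ≤ ∫⁻ z in B, g z ∂coneMeasure := by
    intro B hB hBK
    rw [hB.measure_eq_iSup_isCompact]
    refine iSup_le fun C' => iSup_le fun hC' => iSup_le fun hC'c => ?_
    exact (hcomp C' hC'c (hC'.trans hBK)).trans (lintegral_mono_set hC')
  have hae : ν.rnDeriv coneMeasure ≤ᵐ[coneMeasure.restrict K'] g := by
    apply ae_le_of_forall_setLIntegral_le_of_sigmaFinite (Measure.measurable_rnDeriv _ _)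
    intro s hs _
    rw [Measure.restrict_restrict hs]
    have h1 : ∫⁻ z in s ∩ K', ν.rnDeriv coneMeasure z ∂coneMeasure = ν (s ∩ K') := by
      rw [← withDensity_apply', Measure.withDensity_rnDeriv_eq ν coneMeasure h]
    rw [h1]
    exact hmeas _ (hs.inter hK'm) inter_subset_right
  have hae2 := (ae_restrict_iff' hK'm).1 hae
  have hae3 := h.ae_le hae2
  have hae4 : ∀ᵐ z ∂ν, z ∈ K' := by
    rw [ae_iff]; exact hνK'
  filter_upwards [hae3, hae4] with z h1 h2
  exact h1 h2

end Pool.Agent.Lib.H84.RCD
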