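import Mathlib
import Pool.Agent.Lib.H84.Geod
import Pool.Agent.Lib.H84.T9Density
import Pool.Agent.Lib.H84.T6Trig
import Pool.Agent.Lib.H84.T2Hausdorff

/-!
# Densities on the hemisphere, algebraic lemmas for the assembly
-/

open MeasureTheory Set Filter Topology Metric InnerProductGeometry
open scoped ENNReal NNReal Real RealInnerProductSpace

set_option linter.unusedSectionVars false

namespace Pool.Agent.Lib.H84.RCD

/-- the embedding of the hemisphere in `ℝ³ × ℝ³` -/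
def iota (z : Hemi) : E3 × E3 := SS.toVec z.1

lemma measurableEmbedding_iota : MeasurableEmbedding iota :=
  SS.measurableEmbedding_toVec.comp (MeasurableEmbedding.subtype_coe isClosed_Hemi.measurableSet)

lemma iota_mem_sph (z : Hemi) : iota z ∈ SS.sph := ⟨z.1.norm_fst, z.1.norm_snd⟩

instance : IsFiniteMeasure (μH[(4 : ℝ)] : Measure Hemi) := ⟨hausdorff_Hemi_finite⟩

lemma map_iota_ac {μ : Measure Hemi} (hμ : μ ≪ (μH[(4 : ℝ)] : Measure Hemi)) :
    μ.map iota ≪ coneMeasure := by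
  obtain ⟨c, hc0, hct, hc⟩ := hausdorff_Hemi
  have h1 : μ.map iota ≪ (μH[(4 : ℝ)] : Measure Hemi).map iota :=
    hμ.map measurableEmbedding_iota.measurable
  have h2 : (μH[(4 : ℝ)] : Measure Hemi).map iota = c • coneMeasure.restrict {u | 0 ≤ u.2 2} := hc
  rw [h2] at h1
  refine h1.trans ?_
  exact (Measure.smul_absolutelyContinuous (c := c)).trans Measure.restrict_le_self.absolutelyContinuous

/-- relation between the densities -/
lemma exists_rnDeriv_transfer : ∃ c : ℝ≥0∞, c ≠ 0 ∧ c ≠ ∞ ∧ ∀ μ : Measure Hemi,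
    IsFiniteMeasure μ → μ ≪ (μH[(4 : ℝ)] : Measure Hemi) →
    ∀ᵐ a ∂(μH[(4 : ℝ)] : Measure Hemi), μ.rnDeriv (μH[(4 : ℝ)] : Measure Hemi) a =
      c * (μ.map iota).rnDeriv coneMeasure (iota a) := by
  obtain ⟨c, hc0, hct, hc⟩ := hausdorff_Hemi
  refine ⟨c⁻¹, by simpa using hct, by simpa using hc0, ?_⟩
  intro μ hfin hμ
  have hι := measurableEmbedding_iota
  have h2 : (μH[(4 : ℝ)] : Measure Hemi).map iota = c • coneMeasure.restrict {u | 0 ≤ u.2 2} := hc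
  have hac := map_iota_ac hμ
  set f := (μ.map iota).rnDeriv coneMeasure with hf
  have hfm : Measurable f := Measure.measurable_rnDeriv _ _
  have hgm : Measurable (fun a : Hemi => c⁻¹ * f (iota a)) :=
    (hfm.comp hι.measurable).const_mul _
  have hR : MeasurableSet {u : E3 × E3 | 0 ≤ u.2 2} := by
    have : Continuous (fun u : E3 × E3 => u.2 2) := by fun_prop
    exact (isClosed_le continuous_const this).measurableSet
  have heq : μ = (μH[(4 : ℝ)] : Measure Hemi).withDensity (fun a => c⁻¹ * f (iota a)) := by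
    ext A hA
    have hfι : Measurable (fun a : Hemi => f (iota a)) := hfm.comp hι.measurable
    rw [withDensity_apply _ hA, lintegral_const_mul _ hfι]
    have hIA : MeasurableSet (iota '' A) := hι.measurableSet_image.2 hA
    have e1 : ∫⁻ a in A, f (iota a) ∂(μH[(4 : ℝ)] : Measure Hemi) =
        ∫⁻ v in iota '' A, f v ∂((μH[(4 : ℝ)] : Measure Hemi).map iota) := by
      rw [hι.restrict_map, hι.lintegral_map, preimage_image_eq A hι.injective]
    have e2 : ∫⁻ v in iota '' A, f v ∂(c • coneMeasure.restrict {u | 0 ≤ u.2 2}) =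
        c * ∫⁻ v in iota '' A, f v ∂coneMeasure := by
      rw [Measure.restrict_smul, lintegral_smul_measure, Measure.restrict_restrict hIA,
        inter_eq_left.2 (by rintro _ ⟨z, _, rfl⟩; exact z.2)]
      rfl
    have e3 : ∫⁻ v in iota '' A, f v ∂coneMeasure = μ A := by
      rw [← withDensity_apply', Measure.withDensity_rnDeriv_eq _ _ hac, hι.map_apply,
        preimage_image_eq A hι.injective]
    rw [e1, h2, e2, e3, ← mul_assoc, ENNReal.inv_mul_cancel hc0 hct, one_mul]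
  have h3 := Measure.rnDeriv_withDensity (μH[(4 : ℝ)] : Measure Hemi) hgm
  rw [← heq] at h3
  exact h3

lemma ennreal_mul_rpow_le {s : ℝ} (hs : 0 < s) (ρ : ℝ≥0∞) : ρ * ρ ^ (-s) ≤ ρ ^ (1 - s) := by
  rcases eq_or_ne ρ 0 with rfl | h0
  · simp
  rcases eq_or_ne ρ ∞ with rfl | ht
  · rw [ENNReal.top_rpow_of_neg (by linarith)]; simp
  · conv_lhs => rw [← ENNReal.rpow_one ρ]
    rw [ENNReal.rpow_one ρ, sub_eq_add_neg, ENNReal.rpow_add _ _ h0 ht, ENNReal.rpow_one]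

lemma lintegral_le_negRenyi {X : Type*} [MeasurableSpace X] {m μ : Measure X} [IsFiniteMeasure μ]
    [SigmaFinite m] (hμ : μ ≪ m) {N : ℝ} (hN : 0 < N) :
    ∫⁻ a, (μ.rnDeriv m a) ^ (-(1 / N)) ∂μ ≤ negRenyi N m μ := by
  have hm : Measurable (μ.rnDeriv m) := Measure.measurable_rnDeriv _ _
  rw [← lintegral_rnDeriv_mul hμ (hm.pow_const _).aemeasurable]
  exact lintegral_mono (fun a => ennreal_mul_rpow_le (by positivity) _)

/-- weighted arithmetic-geometric mean step -/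
lemma amgm_step {N t u0 u1 : ℝ} (hN : 4 ≤ N) (ht0 : 0 < t) (ht1 : t < 1) (hu0 : 0 ≤ u0)
    (hu1 : 0 ≤ u1) (h : u0 ^ (1 / 4 : ℝ) + u1 ^ (1 / 4 : ℝ) ≤ 1) :
    ((1 - t) ^ (N - 4) * u0) ^ (1 / N) + (t ^ (N - 4) * u1) ^ (1 / N) ≤ 1 := by
  have hNpos : 0 < N := by linarith
  have key : ∀ s u : ℝ, 0 < s → 0 ≤ u →
      (s ^ (N - 4) * u) ^ (1 / N) ≤ (N - 4) / N * s + 4 / N * u ^ (1 / 4 : ℝ) := by
    intro s u hs hu
    have h1 := Real.geom_mean_le_arith_mean2_weighted (w₁ := (N - 4) / N) (w₂ := 4 / N)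
      (p₁ := s) (p₂ := u ^ (1 / 4 : ℝ)) (div_nonneg (by linarith) hNpos.le) (by positivity)
      hs.le (by positivity) (by field_simp; ring)
    refine le_trans (le_of_eq ?_) h1
    rw [Real.mul_rpow (by positivity) hu, ← Real.rpow_mul hs.le, ← Real.rpow_mul hu]
    congr 2
    · field_simp
    · field_simp
  have h1 := key (1 - t) u0 (by linarith) hu0
  have h2 := key t u1 ht0 hu1
  have h3 : 4 / N * (u0 ^ (1 / 4 : ℝ) + u1 ^ (1 / 4 : ℝ)) ≤ 4 / N * 1 :=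
    mul_le_mul_of_nonneg_left h (by positivity)
  have h4 : (N - 4) / N * (1 - t) + (N - 4) / N * t + 4 / N = 1 := by field_simp; ring
  linarith

lemma tau_one {N : ℝ} (hN : 4 ≤ N) {a b : ℝ} (ha : 0 ≤ a) (ha' : a ≤ π) (hb : 0 ≤ b)
    (hb' : b ≤ π) : tau 3 N 1 (√((a ^ 2 + b ^ 2) / 3)) = 1 := by
  have hpi := Real.pi_pos
  have hθ2 : (√((a ^ 2 + b ^ 2) / 3)) ^ 2 = (a ^ 2 + b ^ 2) / 3 := Real.sq_sqrt (by positivity)
  have h3θ : 3 * (√((a ^ 2 + b ^ 2) / 3)) ^ 2 = a ^ 2 + b ^ 2 := by rw [hθ2]; ring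
  have hMpos : 0 < N - 1 := by linarith
  have ha2 : a ^ 2 ≤ π ^ 2 := by nlinarith
  have hb2 : b ^ 2 ≤ π ^ 2 := by nlinarith
  unfold tau
  rw [h3θ, if_neg (by push Not; nlinarith)]
  split_ifs with h1 h2
  · set s := √((a ^ 2 + b ^ 2) / (N - 1)) with hs
    have hθs : √((a ^ 2 + b ^ 2) / 3) * √(3 / (N - 1)) = s := by
      rw [← Real.sqrt_mul (by positivity), hs]
      congr 1
      field_simp
    have hs2 : s ^ 2 = (a ^ 2 + b ^ 2) / (N - 1) := by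
      rw [hs, Real.sq_sqrt (by positivity)]
    have hspos : 0 < s := by
      rw [hs]; apply Real.sqrt_pos.2; positivity
    have hspi : s < π := by
      have h1 : s ^ 2 < π ^ 2 := by
        rw [hs2, div_lt_iff₀ hMpos]
        nlinarith
      nlinarith
    have hsin : 0 < Real.sin s := Real.sin_pos_of_pos_of_lt_pi hspos hspi
    rw [mul_assoc 1, hθs, one_mul, div_self hsin.ne', Real.one_rpow, Real.one_rpow]
    simp
  · simp
  · exfalso
    rcases lt_or_eq_of_le (show 0 ≤ a ^ 2 + b ^ 2 by positivity) with h | h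
    · exact h1 h
    · exact h2 h.symm

lemma tau_zero {N : ℝ} (hN : 4 ≤ N) {a b : ℝ} (ha : 0 ≤ a) (ha' : a ≤ π) (hb : 0 ≤ b)
    (hb' : b ≤ π) : tau 3 N 0 (√((a ^ 2 + b ^ 2) / 3)) = 0 := by
  have hpi := Real.pi_pos
  have hθ2 : (√((a ^ 2 + b ^ 2) / 3)) ^ 2 = (a ^ 2 + b ^ 2) / 3 := Real.sq_sqrt (by positivity)
  have h3θ : 3 * (√((a ^ 2 + b ^ 2) / 3)) ^ 2 = a ^ 2 + b ^ 2 := by rw [hθ2]; ring
  have ha2 : a ^ 2 ≤ π ^ 2 := by nlinarith
  have hb2 : b ^ 2 ≤ π ^ 2 := by nlinarith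
  have hNpos : 0 < N := by linarith
  unfold tau
  rw [h3θ, if_neg (by push Not; nlinarith)]
  split_ifs with h1 h2
  · rw [Real.zero_rpow (by positivity)]
    simp
  · simp
  · exfalso
    rcases lt_or_eq_of_le (show 0 ≤ a ^ 2 + b ^ 2 by positivity) with h | h
    · exact h1 h
    · exact h2 h.symm

/-- The pointwise inequality for the densities. -/
lemma pointwise_ineq {N t : ℝ} (hN : 4 ≤ N) (ht0 : 0 < t) (ht1 : t < 1) {T0 T1 r0 r1 r : ℝ≥0∞}
    {Q0 Q1 D0 D1 : ℝ} (hQ0 : 0 ≤ Q0) (hQ1 : 0 ≤ Q1) (hD0 : 0 ≤ D0) (hD1 : 0 ≤ D1)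
    (hT0 : T0 ≤ ENNReal.ofReal (((1 - t) ^ (N - 4) * Q0) ^ (1 / N)))
    (hT1 : T1 ≤ ENNReal.ofReal ((t ^ (N - 4) * Q1) ^ (1 / N)))
    (hjac : (Q0 * D0) ^ (1 / 4 : ℝ) + (Q1 * D1) ^ (1 / 4 : ℝ) ≤ 1)
    (hr : r ≠ 0) (hr' : r ≠ ∞) (hr0 : r0 ≠ ∞) (hr1 : r1 ≠ ∞)
    (h0 : r ≤ r0 * ENNReal.ofReal D0) (h1 : r ≤ r1 * ENNReal.ofReal D1) :
    T0 * r0 ^ (-(1 / N)) + T1 * r1 ^ (-(1 / N)) ≤ r ^ (-(1 / N)) := by
  have hNpos : 0 < N := by linarith
  have hN1 : 0 < 1 / N := by positivity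
  have key : ∀ (T s : ℝ≥0∞) (Q D τ : ℝ), 0 < τ → 0 ≤ Q → 0 ≤ D →
      T ≤ ENNReal.ofReal ((τ ^ (N - 4) * Q) ^ (1 / N)) → s ≠ ∞ → r ≤ s * ENNReal.ofReal D →
      T * s ^ (-(1 / N)) ≤ ENNReal.ofReal ((τ ^ (N - 4) * (Q * D)) ^ (1 / N)) * r ^ (-(1 / N)) := by
    intro T s Q D τ hτ hQ hD hT hs hrs
    have hs0 : s ≠ 0 := by
      rintro rfl
      rw [zero_mul] at hrs
      exact hr (nonpos_iff_eq_zero.1 hrs)
    have hD' : ENNReal.ofReal D ≠ 0 := by
      intro h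
      rw [h, mul_zero] at hrs
      exact hr (nonpos_iff_eq_zero.1 hrs)
    have hDt : ENNReal.ofReal D ≠ ∞ := ENNReal.ofReal_ne_top
    have e1 : s ^ (-(1 / N)) ≤ ENNReal.ofReal D ^ (1 / N) * r ^ (-(1 / N)) := by
      rw [ENNReal.rpow_neg, ENNReal.rpow_neg]
      have h2 : r ^ (1 / N) ≤ s ^ (1 / N) * ENNReal.ofReal D ^ (1 / N) := by
        rw [← ENNReal.mul_rpow_of_nonneg _ _ hN1.le]
        exact ENNReal.rpow_le_rpow hrs hN1.le
      have hsN0 : s ^ (1 / N) ≠ 0 := by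
        simp [ENNReal.rpow_eq_zero_iff, hs0, hs]
      have hsNt : s ^ (1 / N) ≠ ∞ := ENNReal.rpow_ne_top_of_nonneg hN1.le hs
      have hrN0 : r ^ (1 / N) ≠ 0 := by
        simp [ENNReal.rpow_eq_zero_iff, hr, hr']
      have hrNt : r ^ (1 / N) ≠ ∞ := ENNReal.rpow_ne_top_of_nonneg hN1.le hr'
      calc (s ^ (1 / N))⁻¹ = (s ^ (1 / N))⁻¹ * (r ^ (1 / N) * (r ^ (1 / N))⁻¹) := by
            rw [ENNReal.mul_inv_cancel hrN0 hrNt, mul_one]
        _ ≤ (s ^ (1 / N))⁻¹ * ((s ^ (1 / N) * ENNReal.ofReal D ^ (1 / N)) * (r ^ (1 / N))⁻¹) := by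
            gcongr
        _ = ENNReal.ofReal D ^ (1 / N) * (r ^ (1 / N))⁻¹ := by
            rw [← mul_assoc, ← mul_assoc, ENNReal.inv_mul_cancel hsN0 hsNt, one_mul]
    calc T * s ^ (-(1 / N)) ≤ ENNReal.ofReal ((τ ^ (N - 4) * Q) ^ (1 / N)) *
          (ENNReal.ofReal D ^ (1 / N) * r ^ (-(1 / N))) := by gcongr
      _ = ENNReal.ofReal ((τ ^ (N - 4) * (Q * D)) ^ (1 / N)) * r ^ (-(1 / N)) := by
          rw [← mul_assoc, ENNReal.ofReal_rpow_of_nonneg hD hN1.le,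
            ← ENNReal.ofReal_mul (by positivity), ← mul_assoc (τ ^ (N - 4)),
            Real.mul_rpow (by positivity) hD]
  have k0 := key T0 r0 Q0 D0 (1 - t) (by linarith) hQ0 hD0 hT0 hr0 h0
  have k1 := key T1 r1 Q1 D1 t ht0 hQ1 hD1 hT1 hr1 h1
  refine (add_le_add k0 k1).trans ?_
  rw [← add_mul, ← ENNReal.ofReal_add (by
    apply Real.rpow_nonneg
    have : 0 < 1 - t := by linarith
    positivity) (by positivity)]
  have h2 := amgm_step hN ht0 ht1 (mul_nonneg hQ0 hD0) (mul_nonneg hQ1 hD1) hjac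
  calc _ ≤ ENNReal.ofReal 1 * r ^ (-(1 / N)) := by
        gcongr
    _ = _ := by simp

end Pool.Agent.Lib.H84.RCD
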