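import Mathlib
import Pool.Agent.Lib.H84.RCDDefs

/-!
# Optimal transport on compact metric spaces
-/

open MeasureTheory Set Filter Topology Metric ProbabilityTheory
open scoped ENNReal NNReal Real BoundedContinuousFunction

set_option linter.unusedSectionVars false
set_option linter.style.haveILetI false

namespace Pool.Agent.Lib.H84.RCD

universe u

section Exist

variable {X : Type u} [MetricSpace X] [CompactSpace X] [MeasurableSpace X] [BorelSpace X]

omit [MetricSpace X] [CompactSpace X] [BorelSpace X] in
lemma IsCoupling.isProbabilityMeasure {μ ν : Measure X} {q : Measure (X × X)}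
    [IsProbabilityMeasure μ] (h : IsCoupling μ ν q) : IsProbabilityMeasure q := by
  constructor
  have := h.1
  have h1 : (q.map Prod.fst) univ = μ univ := by rw [this]
  rw [Measure.map_apply measurable_fst MeasurableSet.univ] at h1
  simpa using h1

/-- existence of optimal couplings on compact spaces -/
theorem exists_optimalCoupling (μ ν : Measure X) [IsProbabilityMeasure μ] [IsProbabilityMeasure ν] :
    ∃ q : Measure (X × X), IsOptimalCoupling μ ν q := by
  -- the compact set of couplings
  let P := ProbabilityMeasure (X × X)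
  let fstm : P → ProbabilityMeasure X := fun q => q.map continuous_fst.measurable.aemeasurable
  let sndm : P → ProbabilityMeasure X := fun q => q.map continuous_snd.measurable.aemeasurable
  have hfst : Continuous fstm := ProbabilityMeasure.continuous_map continuous_fst
  have hsnd : Continuous sndm := ProbabilityMeasure.continuous_map continuous_snd
  let μ' : ProbabilityMeasure X := ⟨μ, inferInstance⟩
  let ν' : ProbabilityMeasure X := ⟨ν, inferInstance⟩
  let C : Set P := {q | fstm q = μ' ∧ sndm q = ν'}
  have hC : IsClosed C :=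
    (isClosed_eq hfst continuous_const).inter (isClosed_eq hsnd continuous_const)
  have hCne : C.Nonempty := by
    refine ⟨⟨μ.prod ν, inferInstance⟩, ?_, ?_⟩
    · apply Subtype.ext
      simp only [fstm, ProbabilityMeasure.map, μ']
      exact (Measure.fst_prod : (μ.prod ν).fst = μ)
    · apply Subtype.ext
      simp only [sndm, ProbabilityMeasure.map, ν']
      exact (Measure.snd_prod : (μ.prod ν).snd = ν)
  -- the cost
  let f0 : C(X × X, ℝ≥0) := ⟨fun p => nndist p.1 p.2 ^ 2, by fun_prop⟩
  let f : X × X →ᵇ ℝ≥0 := BoundedContinuousFunction.mkOfCompact f0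
  have hf : ∀ p, ((f p : ℝ≥0) : ℝ≥0∞) = edist p.1 p.2 ^ 2 := by
    intro p
    change (((nndist p.1 p.2 ^ 2 : ℝ≥0)) : ℝ≥0∞) = _
    rw [edist_nndist]; push_cast; rfl
  have hcont : Continuous (fun q : P => ∫⁻ p, (f p : ℝ≥0∞) ∂(q : Measure (X × X))) := by
    rw [continuous_iff_continuousAt]
    intro q
    exact (ProbabilityMeasure.tendsto_iff_forall_lintegral_tendsto.1
      (tendsto_id : Tendsto id (𝓝 q) (𝓝 q))) f
  obtain ⟨q, hqC, hqmin⟩ := hC.isCompact.exists_isMinOn hCne hcont.continuousOn
  refine ⟨(q : Measure (X × X)), ⟨?_, ?_⟩, ?_⟩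
  · have := congrArg (fun m : ProbabilityMeasure X => (m : Measure X)) hqC.1
    simpa [fstm, ProbabilityMeasure.map, μ'] using this
  · have := congrArg (fun m : ProbabilityMeasure X => (m : Measure X)) hqC.2
    simpa [sndm, ProbabilityMeasure.map, ν'] using this
  · intro q' hq'
    have := hq'.isProbabilityMeasure
    have hmem : (⟨q', inferInstance⟩ : P) ∈ C := by
      constructor
      · apply Subtype.ext
        simpa [fstm, ProbabilityMeasure.map, μ'] using hq'.1
      · apply Subtype.ext
        simpa [sndm, ProbabilityMeasure.map, ν'] using hq'.2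
    have := isMinOn_iff.1 hqmin _ hmem
    unfold transportCost
    simp only [hf] at this
    exact this

lemma exists_dist_bound (X : Type u) [MetricSpace X] [CompactSpace X] :
    ∃ D : ℝ, 0 ≤ D ∧ ∀ x y : X, dist x y ≤ D := by
  obtain ⟨C, hC⟩ := (Metric.isBounded_iff.1
    (Metric.isBounded_of_compactSpace (s := (univ : Set X))))
  refine ⟨max C 0, le_max_right _ _, fun x y => (hC (mem_univ x) (mem_univ y)).trans
    (le_max_left _ _)⟩

lemma transportCost_eq (q : Measure (X × X)) :
    transportCost q = ∫⁻ p, ENNReal.ofReal (dist p.1 p.2 ^ 2) ∂q := by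
  unfold transportCost
  congr 1
  ext p
  rw [edist_dist, ENNReal.ofReal_pow dist_nonneg]

lemma transportCost_lt_top (q : Measure (X × X)) [IsFiniteMeasure q] : transportCost q < ∞ := by
  obtain ⟨D, hD0, hD⟩ := exists_dist_bound X
  rw [transportCost_eq]
  calc ∫⁻ p, ENNReal.ofReal (dist p.1 p.2 ^ 2) ∂q ≤ ∫⁻ _, ENNReal.ofReal (D ^ 2) ∂q := by
        apply lintegral_mono
        intro p
        apply ENNReal.ofReal_le_ofReal
        have := hD p.1 p.2
        gcongr
    _ < ∞ := by
        rw [lintegral_const]
        exact ENNReal.mul_lt_top ENNReal.ofReal_lt_top (measure_lt_top _ _)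

theorem cyclicallyMonotone_support {μ ν : Measure X} [IsProbabilityMeasure μ]
    {q : Measure (X × X)} (hq : IsOptimalCoupling μ ν q)
    {ι : Type*} [Fintype ι] (p : ι → X × X) (hp : ∀ i, p i ∈ q.support) (σ : Equiv.Perm ι) :
    ∑ i, dist (p i).1 (p i).2 ^ 2 ≤ ∑ i, dist (p i).1 (p (σ i)).2 ^ 2 := by
  classical
  have hqprob : IsProbabilityMeasure q := hq.1.isProbabilityMeasure
  by_contra hcon
  push Not at hcon
  rcases isEmpty_or_nonempty ι with hι | hι
  · simp at hcon
  set n : ℕ := Fintype.card ι with hn
  have hnpos : 0 < n := Fintype.card_pos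
  have hnR : (0 : ℝ) < n := by exact_mod_cast hnpos
  set S1 := ∑ i, dist (p i).1 (p i).2 ^ 2 with hS1
  set S2 := ∑ i, dist (p i).1 (p (σ i)).2 ^ 2 with hS2
  set η : ℝ := (S1 - S2) / (3 * n) with hη
  have hηpos : 0 < η := div_pos (by linarith) (by positivity)
  have hηn : 3 * (n * η) = S1 - S2 := by rw [hη]; field_simp
  -- uniform continuity
  have huc : UniformContinuous (fun p : X × X => dist p.1 p.2 ^ 2) :=
    CompactSpace.uniformContinuous_of_continuous (by fun_prop)
  obtain ⟨ρ, hρ, hρc⟩ := Metric.uniformContinuous_iff.1 huc η hηpos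
  set A : ι → Set (X × X) := fun i => ball (p i).1 ρ ×ˢ ball (p i).2 ρ with hA
  have hAm : ∀ i, MeasurableSet (A i) := fun i => measurableSet_ball.prod measurableSet_ball
  have hAnhds : ∀ i, A i ∈ 𝓝 (p i) := fun i =>
    prod_mem_nhds (ball_mem_nhds _ hρ) (ball_mem_nhds _ hρ)
  set a : ι → ℝ≥0∞ := fun i => q (A i) with ha
  have hapos : ∀ i, 0 < a i := fun i => (Measure.mem_support_iff_forall (p i)).1 (hp i) _ (hAnhds i)
  have hatop : ∀ i, a i ≠ ∞ := fun i => measure_ne_top _ _
  obtain ⟨i0, -, hi0⟩ := Finset.exists_min_image (Finset.univ : Finset ι) a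
    Finset.univ_nonempty
  set ε : ℝ≥0∞ := a i0 / n with hε
  have hnE : (n : ℝ≥0∞) ≠ 0 := by exact_mod_cast hnpos.ne'
  have hnE' : (n : ℝ≥0∞) ≠ ∞ := ENNReal.natCast_ne_top n
  have hεpos : ε ≠ 0 := by
    rw [hε]; exact (ENNReal.div_pos (hapos i0).ne' hnE').ne'
  have hεtop : ε ≠ ∞ := by
    rw [hε]; exact (ENNReal.div_lt_top (hatop i0) hnE).ne
  have hεa : ∀ i, ε / a i ≤ 1 / n := by
    intro i
    rw [hε, ENNReal.div_le_iff (hapos i).ne' (hatop i), one_div, ENNReal.div_eq_inv_mul]
    gcongr
    exact hi0 i (Finset.mem_univ i)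
  -- the part to be modified
  set s : Measure (X × X) := ∑ i, (ε / a i) • q.restrict (A i) with hs
  have hsle : s ≤ q := by
    rw [Measure.le_iff]
    intro B hB
    rw [hs, Measure.finsetSum_apply]
    calc ∑ i, ((ε / a i) • q.restrict (A i)) B ≤ ∑ _i : ι, (1 / n : ℝ≥0∞) * q B := by
          apply Finset.sum_le_sum
          intro i _
          rw [Measure.smul_apply, smul_eq_mul]
          exact mul_le_mul' (hεa i) (Measure.restrict_le_self B)
      _ = q B := by
          rw [Finset.sum_const, Finset.card_univ, ← hn, nsmul_eq_mul, ← mul_assoc, one_div,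
            ENNReal.mul_inv_cancel hnE hnE', one_mul]
  have hsfin : IsFiniteMeasure s := ⟨(hsle univ).trans_lt (measure_lt_top _ _)⟩
  set r : Measure (X × X) := q - s with hr
  have hrs : r + s = q := Measure.sub_add_cancel_of_le hsle
  have hrle : r ≤ q := by
    rw [← hrs]; exact Measure.le_add_right le_rfl
  have hrfin : IsFiniteMeasure r := ⟨(hrle univ).trans_lt (measure_lt_top _ _)⟩
  -- marginals of the pieces
  set α : ι → Measure X := fun i => (a i)⁻¹ • (q.restrict (A i)).map Prod.fst with hα
  set β : ι → Measure X := fun i => (a i)⁻¹ • (q.restrict (A i)).map Prod.snd with hβ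
  have hαp : ∀ i, IsProbabilityMeasure (α i) := by
    intro i
    constructor
    rw [hα]
    simp only [Measure.smul_apply, smul_eq_mul]
    rw [Measure.map_apply measurable_fst MeasurableSet.univ, preimage_univ,
      Measure.restrict_apply_univ]
    exact ENNReal.inv_mul_cancel (hapos i).ne' (hatop i)
  have hβp : ∀ i, IsProbabilityMeasure (β i) := by
    intro i
    constructor
    rw [hβ]
    simp only [Measure.smul_apply, smul_eq_mul]
    rw [Measure.map_apply measurable_snd MeasurableSet.univ, preimage_univ,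
      Measure.restrict_apply_univ]
    exact ENNReal.inv_mul_cancel (hapos i).ne' (hatop i)
  set q' : Measure (X × X) := r + ∑ i, ε • (α i).prod (β (σ i)) with hq'
  have hmapfst : q'.map Prod.fst = μ := by
    rw [← hq.1.1]
    conv_rhs => rw [← hrs]
    rw [hq', Measure.map_add _ _ measurable_fst, Measure.map_add _ _ measurable_fst]
    congr 1
    rw [hs, Measure.map_finset_sum (by fun_prop), Measure.map_finset_sum (by fun_prop)]
    apply Finset.sum_congr rfl
    intro i _
    rw [Measure.map_smul, Measure.map_smul]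
    have : ((α i).prod (β (σ i))).map Prod.fst = α i := (Measure.fst_prod)
    rw [this, hα]
    simp only
    rw [smul_smul, ENNReal.div_eq_inv_mul, mul_comm]
  have hmapsnd : q'.map Prod.snd = ν := by
    rw [← hq.1.2]
    conv_rhs => rw [← hrs]
    rw [hq', Measure.map_add _ _ measurable_snd, Measure.map_add _ _ measurable_snd]
    congr 1
    rw [hs, Measure.map_finset_sum (by fun_prop), Measure.map_finset_sum (by fun_prop)]
    rw [← Equiv.sum_comp σ (fun i => Measure.map Prod.snd ((ε / a i) • q.restrict (A i)))]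
    apply Finset.sum_congr rfl
    intro i _
    rw [Measure.map_smul, Measure.map_smul]
    have : ((α i).prod (β (σ i))).map Prod.snd = β (σ i) := (Measure.snd_prod)
    rw [this, hβ]
    simp only
    rw [smul_smul, ENNReal.div_eq_inv_mul, mul_comm]
  have hle := hq.2 q' ⟨hmapfst, hmapsnd⟩
  -- costs
  have hcq : transportCost q = transportCost r +
      ∑ i, (ε / a i) * ∫⁻ p in A i, ENNReal.ofReal (dist p.1 p.2 ^ 2) ∂q := by
    conv_lhs => rw [← hrs]
    rw [transportCost_eq, lintegral_add_measure, transportCost_eq, hs,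
      lintegral_finsetSum_measure]
    simp only [lintegral_smul_measure, smul_eq_mul]
  have hcq' : transportCost q' = transportCost r +
      ∑ i, ε * ∫⁻ p, ENNReal.ofReal (dist p.1 p.2 ^ 2) ∂((α i).prod (β (σ i))) := by
    rw [hq', transportCost_eq, lintegral_add_measure, transportCost_eq,
      lintegral_finsetSum_measure]
    simp only [lintegral_smul_measure, smul_eq_mul]
  have hlow : ∀ i, ε * ENNReal.ofReal (dist (p i).1 (p i).2 ^ 2 - η) ≤
      (ε / a i) * ∫⁻ p in A i, ENNReal.ofReal (dist p.1 p.2 ^ 2) ∂q := by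
    intro i
    have h1 : ENNReal.ofReal (dist (p i).1 (p i).2 ^ 2 - η) * a i ≤
        ∫⁻ p in A i, ENNReal.ofReal (dist p.1 p.2 ^ 2) ∂q := by
      rw [ha, ← setLIntegral_const]
      apply setLIntegral_mono' (hAm i)
      intro x hx
      apply ENNReal.ofReal_le_ofReal
      have hx' : dist x (p i) < ρ := by
        rw [Prod.dist_eq]
        exact max_lt hx.1 hx.2
      have := hρc hx'
      rw [Real.dist_eq, abs_lt] at this
      linarith [this.1]
    calc ε * ENNReal.ofReal (dist (p i).1 (p i).2 ^ 2 - η)
        = (ε / a i) * (ENNReal.ofReal (dist (p i).1 (p i).2 ^ 2 - η) * a i) := by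
          rw [ENNReal.div_eq_inv_mul, mul_comm (ENNReal.ofReal _) (a i), ← mul_assoc,
            mul_comm ((a i)⁻¹) ε, mul_assoc ε, ENNReal.inv_mul_cancel (hapos i).ne' (hatop i),
            mul_one]
      _ ≤ _ := by gcongr
  have hupp : ∀ i, ∫⁻ p, ENNReal.ofReal (dist p.1 p.2 ^ 2) ∂((α i).prod (β (σ i))) ≤
      ENNReal.ofReal (dist (p i).1 (p (σ i)).2 ^ 2 + η) := by
    intro i
    have hα1 : ∀ᵐ x ∂(α i), x ∈ ball (p i).1 ρ := by
      rw [hα]
      apply Measure.ae_smul_measure
      refine (ae_map_iff (p := fun x => x ∈ ball (p i).1 ρ) measurable_fst.aemeasurable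
        measurableSet_ball).2 ?_
      filter_upwards [ae_restrict_mem (hAm i)] with x hx using hx.1
    have hβ1 : ∀ᵐ x ∂(β (σ i)), x ∈ ball (p (σ i)).2 ρ := by
      rw [hβ]
      apply Measure.ae_smul_measure
      refine (ae_map_iff (p := fun x => x ∈ ball (p (σ i)).2 ρ) measurable_snd.aemeasurable
        measurableSet_ball).2 ?_
      filter_upwards [ae_restrict_mem (hAm (σ i))] with x hx using hx.2
    have hprod : ∀ᵐ x ∂((α i).prod (β (σ i))), x.1 ∈ ball (p i).1 ρ ∧
        x.2 ∈ ball (p (σ i)).2 ρ := by
      have h1 := Measure.quasiMeasurePreserving_fst (μ := α i) (ν := β (σ i)) |>.ae hα1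
      have h2 := Measure.quasiMeasurePreserving_snd (μ := α i) (ν := β (σ i)) |>.ae hβ1
      filter_upwards [h1, h2] with x h1 h2 using ⟨h1, h2⟩
    calc ∫⁻ p, ENNReal.ofReal (dist p.1 p.2 ^ 2) ∂((α i).prod (β (σ i)))
        ≤ ∫⁻ _, ENNReal.ofReal (dist (p i).1 (p (σ i)).2 ^ 2 + η) ∂((α i).prod (β (σ i))) := by
          apply lintegral_mono_ae
          filter_upwards [hprod] with x hx
          apply ENNReal.ofReal_le_ofReal
          have hx' : dist x ((p i).1, (p (σ i)).2) < ρ := by
            rw [Prod.dist_eq]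
            exact max_lt hx.1 hx.2
          have := hρc hx'
          rw [Real.dist_eq, abs_lt] at this
          linarith [this.2]
      _ = ENNReal.ofReal (dist (p i).1 (p (σ i)).2 ^ 2 + η) := by simp
  have hrtop : transportCost r ≠ ∞ := (transportCost_lt_top r).ne
  have hlt : transportCost q' < transportCost q := by
    rw [hcq, hcq']
    apply ENNReal.add_lt_add_left hrtop
    calc ∑ i, ε * ∫⁻ p, ENNReal.ofReal (dist p.1 p.2 ^ 2) ∂((α i).prod (β (σ i)))
        ≤ ∑ i, ε * ENNReal.ofReal (dist (p i).1 (p (σ i)).2 ^ 2 + η) := by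
          apply Finset.sum_le_sum
          intro i _
          gcongr
          exact hupp i
      _ = ε * ENNReal.ofReal (S2 + n * η) := by
          rw [← Finset.mul_sum, ← ENNReal.ofReal_sum_of_nonneg]
          · congr 2
            rw [Finset.sum_add_distrib, Finset.sum_const, Finset.card_univ, ← hn, nsmul_eq_mul]
          · intro i _; positivity
      _ < ε * ENNReal.ofReal (S1 - n * η) := by
          apply ENNReal.mul_lt_mul_right hεpos hεtop
          rw [ENNReal.ofReal_lt_ofReal_iff]
          · nlinarith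
          · have : 0 ≤ S2 := Finset.sum_nonneg (fun i _ => by positivity)
            nlinarith
      _ ≤ ε * ∑ i, ENNReal.ofReal (dist (p i).1 (p i).2 ^ 2 - η) := by
          gcongr
          have : S1 - n * η = ∑ i, (dist (p i).1 (p i).2 ^ 2 - η) := by
            rw [Finset.sum_sub_distrib, Finset.sum_const, Finset.card_univ, ← hn, nsmul_eq_mul]
          rw [this]
          calc ENNReal.ofReal (∑ i, (dist (p i).1 (p i).2 ^ 2 - η))
              ≤ ENNReal.ofReal (∑ i, max (dist (p i).1 (p i).2 ^ 2 - η) 0) := by
                apply ENNReal.ofReal_le_ofReal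
                apply Finset.sum_le_sum
                intro i _
                exact le_max_left _ _
            _ = ∑ i, ENNReal.ofReal (max (dist (p i).1 (p i).2 ^ 2 - η) 0) := by
                rw [ENNReal.ofReal_sum_of_nonneg]
                intro i _; exact le_max_right _ _
            _ = ∑ i, ENNReal.ofReal (dist (p i).1 (p i).2 ^ 2 - η) := by
                apply Finset.sum_congr rfl
                intro i _
                rw [ENNReal.ofReal_max]
                simp
      _ ≤ ∑ i, (ε / a i) * ∫⁻ p in A i, ENNReal.ofReal (dist p.1 p.2 ^ 2) ∂q := by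
          rw [Finset.mul_sum]
          exact Finset.sum_le_sum (fun i _ => hlow i)
  exact absurd hle (not_le.2 hlt)

end Exist

end Pool.Agent.Lib.H84.RCD
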