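import Mathlib
import Pool.Agent.Lib.H84.Wass

/-!
# Gluing of couplings, triangle inequality for `W2`, interpolation
-/

open MeasureTheory Set Filter Topology Metric ProbabilityTheory
open scoped ENNReal NNReal Real BoundedContinuousFunction

set_option linter.unusedSectionVars false
set_option linter.style.haveILetI false

namespace Pool.Agent.Lib.H84.RCD

universe u

section Glue

variable {X : Type u} [MetricSpace X] [CompactSpace X] [MeasurableSpace X] [BorelSpace X]

lemma W2_le_of_coupling {μ ν : Measure X} {q : Measure (X × X)} (h : IsCoupling μ ν q) :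
    W2 μ ν ≤ (transportCost q) ^ (1 / 2 : ℝ) := by
  unfold W2
  apply ENNReal.rpow_le_rpow _ (by norm_num)
  exact iInf₂_le q h

lemma W2_eq_of_optimal {μ ν : Measure X} {q : Measure (X × X)} (h : IsOptimalCoupling μ ν q) :
    W2 μ ν = (transportCost q) ^ (1 / 2 : ℝ) := by
  unfold W2
  congr 1
  apply le_antisymm (iInf₂_le q h.1)
  exact le_iInf₂ (fun q' hq' => h.2 q' hq')

/-- gluing lemma -/
lemma exists_glue {μ₁ μ₂ μ₃ : Measure X} [Nonempty X] [IsProbabilityMeasure μ₁]
    [IsProbabilityMeasure μ₂]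
    {q₁₂ q₂₃ : Measure (X × X)} (h12 : IsCoupling μ₁ μ₂ q₁₂) (h23 : IsCoupling μ₂ μ₃ q₂₃) :
    ∃ q : Measure ((X × X) × X), q.map Prod.fst = q₁₂ ∧
      q.map (fun p => (p.1.2, p.2)) = q₂₃ := by
  have := h12.isProbabilityMeasure
  have := h23.isProbabilityMeasure
  let κ : Kernel X X := q₂₃.condKernel
  refine ⟨q₁₂ ⊗ₘ (κ.comap Prod.snd measurable_snd), ?_, ?_⟩
  · exact Measure.fst_compProd _ _
  · have hdis : q₂₃.fst ⊗ₘ κ = q₂₃ := Measure.disintegrate _ _
    have hfst : q₂₃.fst = q₁₂.map Prod.snd := by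
      rw [h12.2]; exact h23.1
    conv_rhs => rw [← hdis, hfst]
    have hκ : IsMarkovKernel κ := inferInstance
    have hm : Measurable (fun p : (X × X) × X => (p.1.2, p.2)) := by fun_prop
    refine Measure.ext_of_lintegral _ (fun f hf => ?_)
    have hf' : Measurable (fun p : (X × X) × X => f (p.1.2, p.2)) := hf.comp hm
    rw [lintegral_map hf hm, Measure.lintegral_compProd hf',
      Measure.lintegral_compProd hf, lintegral_map _ measurable_snd]
    · rfl
    · exact Measurable.lintegral_kernel_prod_right' hf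

lemma W2_triangle (μ₁ μ₂ μ₃ : Measure X) [IsProbabilityMeasure μ₁] [IsProbabilityMeasure μ₂]
    [IsProbabilityMeasure μ₃] : W2 μ₁ μ₃ ≤ W2 μ₁ μ₂ + W2 μ₂ μ₃ := by
  have hne : Nonempty X := by
    by_contra hcon
    rw [not_nonempty_iff] at hcon
    have h1 := measure_univ (μ := μ₁)
    rw [Set.univ_eq_empty_iff.2 hcon] at h1
    simp at h1
  obtain ⟨q12, h12⟩ := exists_optimalCoupling μ₁ μ₂
  obtain ⟨q23, h23⟩ := exists_optimalCoupling μ₂ μ₃
  obtain ⟨q, hq1, hq2⟩ := exists_glue h12.1 h23.1
  have hm2 : Measurable (fun p : (X × X) × X => (p.1.2, p.2)) := by fun_prop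
  have hm3 : Measurable (fun p : (X × X) × X => (p.1.1, p.2)) := by fun_prop
  have hcoup : IsCoupling μ₁ μ₃ (q.map (fun p => (p.1.1, p.2))) := by
    constructor
    · rw [Measure.map_map measurable_fst hm3, ← h12.1.1, ← hq1,
        Measure.map_map measurable_fst measurable_fst]
      rfl
    · rw [Measure.map_map measurable_snd hm3, ← h23.1.2, ← hq2,
        Measure.map_map measurable_snd hm2]
      rfl
  refine (W2_le_of_coupling hcoup).trans ?_
  rw [W2_eq_of_optimal h12, W2_eq_of_optimal h23]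
  have hed : Measurable (fun p : X × X => edist p.1 p.2) := by fun_prop
  have e3 : transportCost (q.map (fun p => (p.1.1, p.2))) =
      ∫⁻ p, edist p.1.1 p.2 ^ (2 : ℝ) ∂q := by
    unfold transportCost
    rw [lintegral_map (by fun_prop) hm3]
    simp only [ENNReal.rpow_two]
  have e1 : transportCost q12 = ∫⁻ p, edist p.1.1 p.1.2 ^ (2 : ℝ) ∂q := by
    unfold transportCost
    rw [← hq1, lintegral_map (by fun_prop) measurable_fst]
    simp only [ENNReal.rpow_two]
  have e2 : transportCost q23 = ∫⁻ p, edist p.1.2 p.2 ^ (2 : ℝ) ∂q := by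
    unfold transportCost
    rw [← hq2, lintegral_map (by fun_prop) hm2]
    simp only [ENNReal.rpow_two]
  rw [e1, e2, e3]
  calc (∫⁻ p, edist p.1.1 p.2 ^ (2 : ℝ) ∂q) ^ (1 / 2 : ℝ)
      ≤ (∫⁻ p, (edist p.1.1 p.1.2 + edist p.1.2 p.2) ^ (2 : ℝ) ∂q) ^ (1 / 2 : ℝ) := by
        gcongr
        exact edist_triangle _ _ _
    _ ≤ _ := by
        have := ENNReal.lintegral_Lp_add_le (μ := q) (p := 2)
          (f := fun p => edist p.1.1 p.1.2) (g := fun p => edist p.1.2 p.2)
          (by fun_prop) (by fun_prop) (by norm_num)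
        exact this

/-- Interpolation along a measurable selection of geodesics. -/
theorem isW2Geodesic_of_selection {μ₀ μ₁ : Measure X} [IsProbabilityMeasure μ₀]
    [IsProbabilityMeasure μ₁] {q : Measure (X × X)} (hq : IsOptimalCoupling μ₀ μ₁ q)
    (G : ℝ → X × X → X) (hGm : ∀ t ∈ Icc (0 : ℝ) 1, Measurable (G t))
    (hG0 : ∀ p, G 0 p = p.1) (hG1 : ∀ p, G 1 p = p.2)
    (hG : ∀ p, ∀ s ∈ Icc (0 : ℝ) 1, ∀ t ∈ Icc (0 : ℝ) 1,
      dist (G s p) (G t p) = |s - t| * dist p.1 p.2) :
    IsW2Geodesic μ₀ μ₁ (fun t => q.map (G t)) := by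
  have hqp := hq.1.isProbabilityMeasure
  have hprob : ∀ t ∈ Icc (0 : ℝ) 1, IsProbabilityMeasure (q.map (G t)) := fun t ht =>
    Measure.isProbabilityMeasure_map (hGm t ht).aemeasurable
  have h0 : q.map (G 0) = μ₀ := by
    rw [show G 0 = Prod.fst from funext hG0]; exact hq.1.1
  have h1 : q.map (G 1) = μ₁ := by
    rw [show G 1 = Prod.snd from funext hG1]; exact hq.1.2
  have hupper : ∀ s ∈ Icc (0 : ℝ) 1, ∀ t ∈ Icc (0 : ℝ) 1,
      W2 (q.map (G s)) (q.map (G t)) ≤ ENNReal.ofReal |s - t| * W2 μ₀ μ₁ := by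
    intro s hs t ht
    have hm : Measurable (fun p => (G s p, G t p)) := (hGm s hs).prodMk (hGm t ht)
    have hc : IsCoupling (q.map (G s)) (q.map (G t)) (q.map (fun p => (G s p, G t p))) := by
      constructor
      · rw [Measure.map_map measurable_fst hm]; rfl
      · rw [Measure.map_map measurable_snd hm]; rfl
    refine (W2_le_of_coupling hc).trans ?_
    rw [W2_eq_of_optimal hq]
    have : transportCost (q.map (fun p => (G s p, G t p))) =
        ENNReal.ofReal |s - t| ^ 2 * transportCost q := by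
      unfold transportCost
      rw [lintegral_map (by fun_prop) hm, ← lintegral_const_mul _ (by fun_prop)]
      congr 1
      ext p
      simp only
      rw [edist_dist, hG p s hs t ht, ENNReal.ofReal_mul (abs_nonneg _), mul_pow, edist_dist]
    rw [this, ENNReal.mul_rpow_of_nonneg _ _ (by norm_num), ← ENNReal.rpow_natCast,
      ← ENNReal.rpow_mul]
    norm_num
  have hW : W2 μ₀ μ₁ ≠ ∞ := by
    rw [W2_eq_of_optimal hq]
    exact (ENNReal.rpow_lt_top_of_nonneg (by norm_num) (transportCost_lt_top q).ne).ne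
  have hne : Nonempty X := by
    by_contra hcon
    rw [not_nonempty_iff] at hcon
    have h1 := measure_univ (μ := μ₀)
    rw [Set.univ_eq_empty_iff.2 hcon] at h1
    simp at h1
  refine ⟨h0, h1, ?_, ?_⟩
  · intro t ht
    have := hprob t ht
    refine ⟨this, Classical.arbitrary X, ?_⟩
    obtain ⟨D, hD0, hD⟩ := exists_dist_bound X
    calc ∫⁻ x, edist x (Classical.arbitrary X) ^ 2 ∂(q.map (G t))
        ≤ ∫⁻ _, ENNReal.ofReal D ^ 2 ∂(q.map (G t)) := by
          gcongr with x
          rw [edist_dist]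
          exact ENNReal.ofReal_le_ofReal (hD _ _)
      _ < ∞ := by
          rw [lintegral_const, measure_univ, mul_one]
          exact ENNReal.pow_lt_top ENNReal.ofReal_lt_top
  · -- the key equality
    have key : ∀ s ∈ Icc (0 : ℝ) 1, ∀ t ∈ Icc (0 : ℝ) 1, s ≤ t →
        ENNReal.ofReal |s - t| * W2 μ₀ μ₁ ≤ W2 (q.map (G s)) (q.map (G t)) := by
      intro s hs t ht hst
      have := hprob s hs
      have := hprob t ht
      have hA : W2 μ₀ μ₁ ≤ ENNReal.ofReal s * W2 μ₀ μ₁ + W2 (q.map (G s)) (q.map (G t)) +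
          ENNReal.ofReal (1 - t) * W2 μ₀ μ₁ := by
        calc W2 μ₀ μ₁ ≤ W2 μ₀ (q.map (G s)) + W2 (q.map (G s)) μ₁ := W2_triangle _ _ _
          _ ≤ W2 μ₀ (q.map (G s)) + (W2 (q.map (G s)) (q.map (G t)) + W2 (q.map (G t)) μ₁) := by
            gcongr; exact W2_triangle _ _ _
          _ ≤ ENNReal.ofReal s * W2 μ₀ μ₁ + (W2 (q.map (G s)) (q.map (G t)) +
              ENNReal.ofReal (1 - t) * W2 μ₀ μ₁) := by
            have h2 := hupper 0 ⟨le_rfl, zero_le_one⟩ s hs
            rw [h0, zero_sub, abs_neg, abs_of_nonneg hs.1] at h2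
            have h3 := hupper t ht 1 ⟨zero_le_one, le_rfl⟩
            rw [h1, abs_sub_comm, abs_of_nonneg (by linarith [ht.2])] at h3
            gcongr
          _ = _ := by rw [add_assoc]
      set W := W2 μ₀ μ₁ with hWdef
      have hsplit : W = ENNReal.ofReal s * W + ENNReal.ofReal |s - t| * W +
          ENNReal.ofReal (1 - t) * W := by
        rw [← add_mul, ← add_mul, ← ENNReal.ofReal_add hs.1 (abs_nonneg _),
          ← ENNReal.ofReal_add (by linarith [hs.1, abs_nonneg (s - t)]) (by linarith [ht.2]),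
          abs_sub_comm, abs_of_nonneg (by linarith)]
        norm_num
      have h1' : ENNReal.ofReal s * W ≠ ∞ := ENNReal.mul_ne_top ENNReal.ofReal_ne_top hW
      have h2' : ENNReal.ofReal (1 - t) * W ≠ ∞ := ENNReal.mul_ne_top ENNReal.ofReal_ne_top hW
      rw [hsplit] at hA
      conv at hA => rhs; rw [show ENNReal.ofReal s * (ENNReal.ofReal s * W +
        ENNReal.ofReal |s - t| * W + ENNReal.ofReal (1 - t) * W) = ENNReal.ofReal s * W by
          rw [← hsplit]]
      conv at hA => rhs; rw [show ENNReal.ofReal (1 - t) * (ENNReal.ofReal s * W +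
        ENNReal.ofReal |s - t| * W + ENNReal.ofReal (1 - t) * W) = ENNReal.ofReal (1 - t) * W by
          rw [← hsplit]]
      rw [ENNReal.add_le_add_iff_right h2'] at hA
      rwa [ENNReal.add_le_add_iff_left h1'] at hA
    intro s hs t ht
    apply le_antisymm (hupper s hs t ht)
    rcases le_total s t with hst | hst
    · exact key s hs t ht hst
    · have := key t ht s hs hst
      rw [abs_sub_comm] at this
      refine this.trans (le_of_eq ?_)
      -- symmetry of W2
      have hsymm : ∀ a b : Measure X, W2 a b ≤ W2 b a := by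
        intro a b
        unfold W2
        gcongr ?_ ^ _
        refine le_iInf₂ (fun r hr => ?_)
        have hr' : IsCoupling a b (r.map Prod.swap) := by
          constructor
          · rw [Measure.map_map measurable_fst measurable_swap]; exact hr.2
          · rw [Measure.map_map measurable_snd measurable_swap]; exact hr.1
        refine (iInf₂_le _ hr').trans (le_of_eq ?_)
        unfold transportCost
        rw [lintegral_map (by fun_prop) measurable_swap]
        simp [edist_comm]
      exact le_antisymm (hsymm _ _) (hsymm _ _)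

end Glue

end Pool.Agent.Lib.H84.RCD
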