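import Mathlib
import Pool.Agent.Lib.H84.Wass2
import Pool.Agent.Lib.H84.Geod
import Pool.Agent.Lib.H84.Jac
import Pool.Agent.Lib.H84.Anti
import Pool.Agent.Lib.H84.Dens

/-!
# The condition `CD(3,4)` for `S²(1/√3) × S²₊(1/√3)`
-/

open MeasureTheory Set Filter Topology Metric InnerProductGeometry
open scoped ENNReal NNReal Real RealInnerProductSpace

set_option linter.unusedSectionVars false
set_option linter.style.haveILetI false

namespace Pool.Agent.Lib.H84.RCD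

lemma mono_pair {μ₀ μ₁ : Measure Hemi} [IsProbabilityMeasure μ₀] {q : Measure (Hemi × Hemi)}
    (hq : IsOptimalCoupling μ₀ μ₁ q) {p p' : Hemi × Hemi} (hp : p ∈ q.support)
    (hp' : p' ∈ q.support) :
    dist p.1.1 p.2.1 ^ 2 + dist p'.1.1 p'.2.1 ^ 2 ≤
      dist p.1.1 p'.2.1 ^ 2 + dist p'.1.1 p.2.1 ^ 2 := by
  have h := cyclicallyMonotone_support hq (ι := Fin 2) ![p, p']
    (by intro i; fin_cases i <;> simp [hp, hp']) (Equiv.swap 0 1)
  simp only [Fin.sum_univ_two, Matrix.cons_val_zero, Matrix.cons_val_one, Equiv.swap_apply_left,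
    Equiv.swap_apply_right, Subtype.dist_eq] at h
  exact h

lemma hgeod_control {μ₀ μ₁ : Measure Hemi} [IsProbabilityMeasure μ₀] {q : Measure (Hemi × Hemi)}
    (hq : IsOptimalCoupling μ₀ μ₁ q) {p p' : Hemi × Hemi} (hp : p ∈ q.support)
    (hp' : p' ∈ q.support) {t : ℝ} (ht : t ∈ Icc (0 : ℝ) 1) :
    (1 - t) * dist p.1 p'.1 ≤ dist (hgeod t p) (hgeod t p') ∧
      t * dist p.2 p'.2 ≤ dist (hgeod t p) (hgeod t p') := by
  rw [Subtype.dist_eq, Subtype.dist_eq, Subtype.dist_eq, hgeod_coe ht, hgeod_coe ht]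
  exact SS.shortening ht (mono_pair hq hp hp')

lemma dist_iota_le (z w : Hemi) : dist (iota z) (iota w) ≤ 2 * dist z w := SS.dist_toVec_le _ _

lemma dist_le_iota (z w : Hemi) : dist z w ≤ 2 * dist (iota z) (iota w) := SS.dist_le_toVec _ _

/-- the interpolated measures are absolutely continuous -/
lemma hgeod_ac {μ₀ μ₁ : Measure Hemi} [IsProbabilityMeasure μ₀] {q : Measure (Hemi × Hemi)}
    (hq : IsOptimalCoupling μ₀ μ₁ q) (h0 : μ₀ ≪ (μH[(4 : ℝ)] : Measure Hemi)) {t : ℝ}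
    (ht0 : 0 ≤ t) (ht1 : t < 1) : q.map (hgeod t) ≪ (μH[(4 : ℝ)] : Measure Hemi) := by
  have ht : t ∈ Icc (0 : ℝ) 1 := ⟨ht0, ht1.le⟩
  have hqp := hq.1.isProbabilityMeasure
  have h1t : 0 < 1 - t := by linarith
  have hm := measurable_hgeod ht
  set S := q.support with hS
  have hSc : q Sᶜ = 0 := Measure.measure_compl_support
  rcases S.eq_empty_or_nonempty with hSe | ⟨p0, hp0⟩
  · rw [hSe, compl_empty] at hSc
    have : q univ = 1 := measure_univ
    rw [this] at hSc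
    exact absurd hSc one_ne_zero
  haveI : Nonempty (Hemi × Hemi) := ⟨p0⟩
  refine Measure.AbsolutelyContinuous.mk (fun A hA hA0 => ?_)
  rw [Measure.map_apply hm hA]
  set E := S ∩ hgeod t ⁻¹' A with hE
  have h1 : hgeod t ⁻¹' A ⊆ E ∪ Sᶜ := by
    intro p hp
    by_cases h : p ∈ S
    · exact Or.inl ⟨h, hp⟩
    · exact Or.inr h
  apply measure_mono_null h1
  apply measure_union_null _ hSc
  have h2 : E ⊆ Prod.fst ⁻¹' (Prod.fst '' E) := subset_preimage_image _ _
  apply measure_mono_null h2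
  have h3 : q (Prod.fst ⁻¹' (Prod.fst '' E)) ≤ (q.map Prod.fst) (Prod.fst '' E) :=
    Measure.le_map_apply measurable_fst.aemeasurable _
  rw [hq.1.1] at h3
  suffices hfin : μ₀ (Prod.fst '' E) = 0 from nonpos_iff_eq_zero.1 (h3.trans hfin.le)
  apply h0
  set g : Hemi → Hemi := fun z => (Function.invFunOn (hgeod t) S z).1 with hg
  have hinv : ∀ z ∈ hgeod t '' S, Function.invFunOn (hgeod t) S z ∈ S ∧
      hgeod t (Function.invFunOn (hgeod t) S z) = z := fun z hz => Function.invFunOn_pos hz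
  have hlip : LipschitzOnWith (Real.toNNReal (1 / (1 - t))) g (hgeod t '' S) := by
    apply LipschitzOnWith.of_dist_le_mul
    intro z hz w hw
    obtain ⟨hz1, hz2⟩ := hinv z hz
    obtain ⟨hw1, hw2⟩ := hinv w hw
    have h4 := (hgeod_control hq hz1 hw1 ht).1
    rw [hz2, hw2] at h4
    rw [Real.coe_toNNReal _ (by positivity), div_mul_eq_mul_div, one_mul, le_div_iff₀ h1t,
      mul_comm]
    exact h4
  have himg : Prod.fst '' E ⊆ g '' (hgeod t '' E) := by
    rintro _ ⟨p, hp, rfl⟩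
    refine ⟨hgeod t p, ⟨p, hp, rfl⟩, ?_⟩
    obtain ⟨hz1, hz2⟩ := hinv (hgeod t p) ⟨p, hp.1, rfl⟩
    have h4 := (hgeod_control hq hz1 hp.1 ht).1
    rw [hz2, dist_self] at h4
    have h5 : dist (Function.invFunOn (hgeod t) S (hgeod t p)).1 p.1 ≤ 0 := by
      by_contra hcon
      push Not at hcon
      nlinarith
    exact dist_le_zero.1 h5
  have hEA : hgeod t '' E ⊆ A := by
    rintro _ ⟨p, hp, rfl⟩; exact hp.2
  have h6 : (μH[(4 : ℝ)] : Measure Hemi) (g '' (hgeod t '' E)) ≤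
      (Real.toNNReal (1 / (1 - t)) : ℝ≥0∞) ^ (4 : ℝ) * (μH[(4 : ℝ)] : Measure Hemi)
        (hgeod t '' E) :=
    (hlip.mono (image_mono inter_subset_left)).hausdorffMeasure_image_le (by norm_num)
  rw [measure_mono_null hEA hA0, mul_zero] at h6
  exact measure_mono_null himg (nonpos_iff_eq_zero.1 h6)

/-- the inequality between the densities, along almost every geodesic -/
theorem density_ineq {μ₀ μ₁ : Measure Hemi} [IsProbabilityMeasure μ₀] [IsProbabilityMeasure μ₁]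
    {q : Measure (Hemi × Hemi)} (hq : IsOptimalCoupling μ₀ μ₁ q)
    (h0 : μ₀ ≪ (μH[(4 : ℝ)] : Measure Hemi)) (h1 : μ₁ ≪ (μH[(4 : ℝ)] : Measure Hemi)) {t : ℝ}
    (ht0 : 0 < t) (ht1 : t < 1) :
    ∀ᵐ p ∂q, ∀ N : ℝ, 4 ≤ N →
      tau 3 N (1 - t) (dist p.1 p.2) * (μ₀.rnDeriv (μH[(4 : ℝ)] : Measure Hemi) p.1) ^ (-(1 / N)) +
      tau 3 N t (dist p.1 p.2) * (μ₁.rnDeriv (μH[(4 : ℝ)] : Measure Hemi) p.2) ^ (-(1 / N)) ≤
      ((q.map (hgeod t)).rnDeriv (μH[(4 : ℝ)] : Measure Hemi) (hgeod t p)) ^ (-(1 / N)) := by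
  have ht : t ∈ Icc (0 : ℝ) 1 := ⟨ht0.le, ht1.le⟩
  have hqp := hq.1.isProbabilityMeasure
  have h1t : 0 < 1 - t := by linarith
  have hm := measurable_hgeod ht
  have hιm := measurableEmbedding_iota
  set S := q.support with hS
  have hSc : q Sᶜ = 0 := Measure.measure_compl_support
  have hSm : MeasurableSet S := Measure.isClosed_support.measurableSet
  rcases S.eq_empty_or_nonempty with hSe | ⟨p0, hp0⟩
  · rw [hSe, compl_empty] at hSc
    have : q univ = 1 := measure_univ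
    rw [this] at hSc
    exact absurd hSc one_ne_zero
  haveI : Nonempty (Hemi × Hemi) := ⟨p0⟩
  set Φ : Hemi × Hemi → E3 × E3 := fun p => iota (hgeod t p) with hΦ
  have hΦm : Measurable Φ := hιm.measurable.comp hm
  -- control of the endpoints
  have hctl : ∀ p ∈ S, ∀ p' ∈ S, dist (iota p.1) (iota p'.1) ≤ 4 / (1 - t) * dist (Φ p) (Φ p') ∧
      dist (iota p.2) (iota p'.2) ≤ 4 / t * dist (Φ p) (Φ p') := by
    intro p hp p' hp'
    obtain ⟨c1, c2⟩ := hgeod_control hq hp hp' ht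
    have c3 := dist_le_iota (hgeod t p) (hgeod t p')
    have c4 := dist_iota_le p.1 p'.1
    have c5 := dist_iota_le p.2 p'.2
    change dist (hgeod t p) (hgeod t p') ≤ 2 * dist (Φ p) (Φ p') at c3
    constructor
    · rw [div_mul_eq_mul_div, le_div_iff₀ h1t]
      nlinarith
    · rw [div_mul_eq_mul_div, le_div_iff₀ ht0]
      nlinarith
  have hinj : InjOn Φ S := by
    intro p hp p' hp' h
    obtain ⟨c1, c2⟩ := hctl p hp p' hp'
    rw [h, dist_self, mul_zero] at c1 c2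
    exact Prod.ext (hιm.injective (dist_le_zero.1 c1)) (hιm.injective (dist_le_zero.1 c2))
  set K : Set (E3 × E3) := Φ '' S with hK
  have hKm : MeasurableSet K := hSm.image_of_measurable_injOn hΦm hinj
  have hKs : K ⊆ SS.sph := by
    rintro _ ⟨p, _, rfl⟩; exact iota_mem_sph _
  have hKmem : ∀ p ∈ S, Φ p ∈ K := fun p hp => ⟨p, hp, rfl⟩
  have hinv : ∀ p ∈ S, Function.invFunOn Φ S (Φ p) = p := by
    intro p hp
    have h2 := Function.invFunOn_pos (f := Φ) (s := S) (b := Φ p) ⟨p, hp, rfl⟩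
    exact hinj h2.1 hp h2.2
  -- the two Lipschitz maps
  obtain ⟨x, hxL, hxe⟩ : ∃ x : E3 × E3 → E3 × E3, (∃ L, LipschitzWith L x) ∧
      ∀ p ∈ S, x (Φ p) = iota p.1 := by
    have hl : LipschitzOnWith (Real.toNNReal (4 / (1 - t)))
        (fun z => iota (Function.invFunOn Φ S z).1) K := by
      apply LipschitzOnWith.of_dist_le_mul
      rintro _ ⟨p, hp, rfl⟩ _ ⟨p', hp', rfl⟩
      rw [hinv p hp, hinv p' hp', Real.coe_toNNReal _ (by positivity)]
      exact (hctl p hp p' hp').1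
    obtain ⟨g, hg1, hg2⟩ := hl.extend_finite_dimension
    refine ⟨g, ⟨_, hg1⟩, fun p hp => ?_⟩
    rw [← hg2 (hKmem p hp)]
    simp only
    rw [hinv p hp]
  obtain ⟨y, hyL, hye⟩ : ∃ y : E3 × E3 → E3 × E3, (∃ L, LipschitzWith L y) ∧
      ∀ p ∈ S, y (Φ p) = iota p.2 := by
    have hl : LipschitzOnWith (Real.toNNReal (4 / t))
        (fun z => iota (Function.invFunOn Φ S z).2) K := by
      apply LipschitzOnWith.of_dist_le_mul
      rintro _ ⟨p, hp, rfl⟩ _ ⟨p', hp', rfl⟩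
      rw [hinv p hp, hinv p' hp', Real.coe_toNNReal _ (by positivity)]
      exact (hctl p hp p' hp').2
    obtain ⟨g, hg1, hg2⟩ := hl.extend_finite_dimension
    refine ⟨g, ⟨_, hg1⟩, fun p hp => ?_⟩
    rw [← hg2 (hKmem p hp)]
    simp only
    rw [hinv p hp]
  obtain ⟨Lx, hxL⟩ := hxL
  obtain ⟨Ly, hyL⟩ := hyL
  have hxK : ∀ z ∈ K, x z ∈ SS.sph := by
    rintro _ ⟨p, hp, rfl⟩; rw [hxe p hp]; exact iota_mem_sph _
  have hyK : ∀ z ∈ K, y z ∈ SS.sph := by
    rintro _ ⟨p, hp, rfl⟩; rw [hye p hp]; exact iota_mem_sph _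
  have hgeo : ∀ z ∈ K, z = (geo t (x z).1 (y z).1, geo t (x z).2 (y z).2) := by
    rintro _ ⟨p, hp, rfl⟩
    rw [hxe p hp, hye p hp]
    change SS.toVec (hgeod t p).1 = _
    rw [hgeod_coe ht]
    rfl
  have hcst : ∀ a b : Hemi, cst (iota a) (iota b) = 3 * dist a b ^ 2 := by
    intro a b
    rw [Subtype.dist_eq, SS.dist_sq]
    unfold cst iota SS.toVec
    ring
  have hcyc : CycRel K x y := by
    intro L w hw σ
    choose p hpS hpw using hw
    have h2 := cyclicallyMonotone_support hq p hpS σ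
    have e1 : ∀ i j, cst (x (w i)) (y (w j)) = 3 * dist (p i).1 (p j).2 ^ 2 := by
      intro i j
      rw [← hpw i, ← hpw j, hxe _ (hpS i), hye _ (hpS j), hcst]
    simp only [e1]
    rw [← Finset.mul_sum, ← Finset.mul_sum]
    linarith
  have hmono : ∀ z ∈ K, ∀ w ∈ K, cst (x z) (y z) + cst (x w) (y w) ≤
      cst (x z) (y w) + cst (x w) (y z) := by
    rintro _ ⟨p, hp, rfl⟩ _ ⟨p', hp', rfl⟩
    rw [hxe p hp, hye p hp, hxe p' hp', hye p' hp', hcst, hcst, hcst, hcst]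
    have := mono_pair hq hp hp'
    simp only [Subtype.dist_eq]
    linarith
  -- the measures
  set m : Measure Hemi := μH[(4 : ℝ)] with hmdef
  haveI hmfin : IsFiniteMeasure m := by rw [hmdef]; infer_instance
  set Γ := q.map (hgeod t) with hΓ
  haveI : IsProbabilityMeasure Γ := Measure.isProbabilityMeasure_map hm.aemeasurable
  have hΓac : Γ ≪ m := hgeod_ac hq h0 ht0.le ht1
  set ν₀ := μ₀.map iota with hν₀
  set ν₁ := μ₁.map iota with hν₁
  set ν := q.map Φ with hν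
  have hνΓ : Γ.map iota = ν := by
    rw [hΓ, Measure.map_map hιm.measurable hm]
    rfl
  haveI : IsProbabilityMeasure ν₀ := Measure.isProbabilityMeasure_map hιm.measurable.aemeasurable
  haveI : IsProbabilityMeasure ν₁ := Measure.isProbabilityMeasure_map hιm.measurable.aemeasurable
  haveI : IsProbabilityMeasure ν := Measure.isProbabilityMeasure_map hΦm.aemeasurable
  have hν₀ac : ν₀ ≪ coneMeasure := map_iota_ac h0
  have hν₁ac : ν₁ ≪ coneMeasure := map_iota_ac h1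
  have hνac : ν ≪ coneMeasure := by rw [← hνΓ]; exact map_iota_ac hΓac
  have hνK : ν Kᶜ = 0 := by
    rw [hν, Measure.map_apply hΦm hKm.compl]
    apply measure_mono_null _ hSc
    intro p hp hpS
    exact hp (hKmem p hpS)
  have hqfst : q.map (fun p => iota p.1) = ν₀ := by
    rw [hν₀, ← hq.1.1, Measure.map_map hιm.measurable measurable_fst]
    rfl
  have hqsnd : q.map (fun p => iota p.2) = ν₁ := by
    rw [hν₁, ← hq.1.2, Measure.map_map hιm.measurable measurable_snd]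
    rfl
  have hmfst : Measurable (fun p : Hemi × Hemi => iota p.1) := hιm.measurable.comp measurable_fst
  have hmsnd : Measurable (fun p : Hemi × Hemi => iota p.2) := hιm.measurable.comp measurable_snd
  have hSq : ∀ B : Set (E3 × E3), MeasurableSet B → ν B ≤ q (S ∩ Φ ⁻¹' B) := by
    intro B hB
    rw [hν, Measure.map_apply hΦm hB]
    have h2 : Φ ⁻¹' B ⊆ (S ∩ Φ ⁻¹' B) ∪ Sᶜ := by
      intro p hp
      by_cases h : p ∈ S
      · exact Or.inl ⟨h, hp⟩
      · exact Or.inr h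
    refine (measure_mono h2).trans ((measure_union_le _ _).trans ?_)
    rw [hSc, add_zero]
  have hpush0 : ∀ B ⊆ K, MeasurableSet B → ν B ≤ ν₀ (x '' B) := by
    intro B _ hB
    refine (hSq B hB).trans ?_
    rw [← hqfst]
    refine le_trans (measure_mono ?_) (Measure.le_map_apply hmfst.aemeasurable _)
    rintro p ⟨hp, hpB⟩
    exact ⟨Φ p, hpB, hxe p hp⟩
  have hpush1 : ∀ B ⊆ K, MeasurableSet B → ν B ≤ ν₁ (y '' B) := by
    intro B _ hB
    refine (hSq B hB).trans ?_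
    rw [← hqsnd]
    refine le_trans (measure_mono ?_) (Measure.le_map_apply hmsnd.aemeasurable _)
    rintro p ⟨hp, hpB⟩
    exact ⟨Φ p, hpB, hye p hp⟩
  -- almost everywhere statements
  have goodx := ae_good hKm hKs hxL
  have goody := ae_good hKm hKs hyL
  have dx := density_le K hKm hKs x hxL.continuous hxK ν₀ ν hν₀ac hνac hνK hpush0
    (goodx.mono fun z hz => hz.1)
  have dy := density_le K hKm hKs y hyL.continuous hyK ν₁ ν hν₁ac hνac hνK hpush1
    (goody.mono fun z hz => hz.1)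
  have hanti := anti_det hKm hKs hxL hyL hxK hyK hmono
  rw [ae_restrict_iff' hKm] at goodx goody hanti
  have gx := ae_of_ae_map hΦm.aemeasurable (hνac.ae_le goodx)
  have gy := ae_of_ae_map hΦm.aemeasurable (hνac.ae_le goody)
  have ga := ae_of_ae_map hΦm.aemeasurable (hνac.ae_le hanti)
  have dx' := ae_of_ae_map hΦm.aemeasurable dx
  have dy' := ae_of_ae_map hΦm.aemeasurable dy
  obtain ⟨c, hc0, hct, hc⟩ := exists_rnDeriv_transfer
  have hqf : q.map Prod.fst = μ₀ := hq.1.1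
  have hqs : q.map Prod.snd = μ₁ := hq.1.2
  have hA : ∀ {P : Hemi → Prop}, (∀ᵐ a ∂m, P a) → (∀ᵐ p ∂q, P p.1) ∧ (∀ᵐ p ∂q, P p.2) ∧
      (∀ᵐ p ∂q, P (hgeod t p)) := by
    intro P hP
    refine ⟨?_, ?_, ?_⟩
    · apply ae_of_ae_map (measurable_fst (α := Hemi) (β := Hemi)).aemeasurable
      rw [hqf]; exact h0.ae_le hP
    · apply ae_of_ae_map (measurable_snd (α := Hemi) (β := Hemi)).aemeasurable
      rw [hqs]; exact h1.ae_le hP
    · exact ae_of_ae_map hm.aemeasurable (hΓac.ae_le hP)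
  have t0 := (hA (hc μ₀ inferInstance h0)).1
  have t1 := (hA (hc μ₁ inferInstance h1)).2.1
  have t2 := (hA (hc Γ inferInstance hΓac)).2.2
  have f0 := (hA (Measure.rnDeriv_lt_top μ₀ m)).1
  have f1 := (hA (Measure.rnDeriv_lt_top μ₁ m)).2.1
  have f2 := (hA (Measure.rnDeriv_lt_top Γ m)).2.2
  haveI hL : Γ.HaveLebesgueDecomposition m :=
    Measure.haveLebesgueDecomposition_of_sigmaFinite Γ m
  have f3' : ∀ᵐ z ∂Γ, 0 < Γ.rnDeriv m z := Measure.rnDeriv_pos hΓac
  have f3 : ∀ᵐ p ∂q, 0 < Γ.rnDeriv m (hgeod t p) := ae_of_ae_map hm.aemeasurable f3'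
  have hSae : ∀ᵐ p ∂q, p ∈ S := by
    rw [ae_iff]; exact hSc
  filter_upwards [gx, gy, ga, dx', dy', t0, t1, t2, f0, f1, f2, f3, hSae] with p gx gy ga dx' dy'
    t0 t1 t2 f0 f1 f2 f3 hpS N hN
  have hpK := hKmem p hpS
  obtain ⟨hdx, htan⟩ := gx hpK
  obtain ⟨hdy, _⟩ := gy hpK
  have ga := ga hpK
  rw [hxe p hpS, hye p hpS] at ga
  rw [hxe p hpS] at dx'
  rw [hye p hpS] at dy'
  rw [hνΓ] at t2
  change Γ.rnDeriv m (hgeod t p) = c * ν.rnDeriv coneMeasure (Φ p) at t2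
  set D0 := |(fderiv ℝ (homExt x) (Φ p)).det| with hD0
  set D1 := |(fderiv ℝ (homExt y) (Φ p)).det| with hD1
  have k0 : Γ.rnDeriv m (hgeod t p) ≤ μ₀.rnDeriv m p.1 * ENNReal.ofReal D0 := by
    rw [t2, t0, mul_assoc]
    gcongr
  have k1 : Γ.rnDeriv m (hgeod t p) ≤ μ₁.rnDeriv m p.2 * ENNReal.ofReal D1 := by
    rw [t2, t1, mul_assoc]
    gcongr
  -- angles
  set θ1 := angle p.1.1.fst p.2.1.fst with hθ1
  set θ2 := angle p.1.1.snd p.2.1.snd with hθ2
  have hne : ¬ (θ1 = π ∨ θ2 = π) := by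
    intro h
    have hdet : (fderiv ℝ (homExt x) (Φ p)).det = 0 := ga h
    have : D0 = 0 := by rw [hD0, hdet, abs_zero]
    rw [this, ENNReal.ofReal_zero, mul_zero] at k0
    exact absurd f3 (not_lt.2 k0)
  push Not at hne
  have hθ1π : θ1 < π := lt_of_le_of_ne (angle_le_pi _ _) hne.1
  have hθ2π : θ2 < π := lt_of_le_of_ne (angle_le_pi _ _) hne.2
  have hθ1' : angle (x (Φ p)).1 (y (Φ p)).1 = θ1 := by rw [hxe p hpS, hye p hpS]; rfl
  have hθ2' : angle (x (Φ p)).2 (y (Φ p)).2 = θ2 := by rw [hxe p hpS, hye p hpS]; rfl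
  have hj := jac hKs hxK hyK ht0 ht1 hgeo hcyc hpK hdx hdy htan (by rw [hθ1']; exact hθ1π)
    (by rw [hθ2']; exact hθ2π)
  rw [hθ1', hθ2'] at hj
  have hdist : dist p.1 p.2 = √((θ1 ^ 2 + θ2 ^ 2) / 3) := by
    rw [Subtype.dist_eq, SS.dist_def]
  rw [hdist]
  have r1 : 0 < ratio (1 - t) θ1 := ratio_pos h1t (by linarith) (angle_nonneg _ _) hθ1π
  have r2 : 0 < ratio (1 - t) θ2 := ratio_pos h1t (by linarith) (angle_nonneg _ _) hθ2π
  have r3 : 0 < ratio t θ1 := ratio_pos ht0 ht1.le (angle_nonneg _ _) hθ1π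
  have r4 : 0 < ratio t θ2 := ratio_pos ht0 ht1.le (angle_nonneg _ _) hθ2π
  exact pointwise_ineq (Q0 := (1 - t) ^ 2 * ratio (1 - t) θ1 * ratio (1 - t) θ2)
    (Q1 := t ^ 2 * ratio t θ1 * ratio t θ2) (D0 := D0) (D1 := D1) hN ht0 ht1
    (by positivity) (by positivity) (abs_nonneg _) (abs_nonneg _)
    (tau_le hN h1t (by linarith) (angle_nonneg _ _) hθ1π (angle_nonneg _ _) hθ2π)
    (tau_le hN ht0 ht1 (angle_nonneg _ _) hθ1π (angle_nonneg _ _) hθ2π)
    hj f3.ne' f2.ne f0.ne f1.ne k0 k1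

/-- `S²(1/√3) × S²₊(1/√3)` satisfies `CD(3,4)`. -/
theorem cd_Hemi : CD 3 4 (μH[(4 : ℝ)] : Measure Hemi) := by
  intro μ₀ μ₁ hP0 hP1 h0 h1
  haveI := hP0.1
  haveI := hP1.1
  obtain ⟨q, hq⟩ := exists_optimalCoupling μ₀ μ₁
  have hgeo : IsW2Geodesic μ₀ μ₁ (fun t => q.map (hgeod t)) :=
    isW2Geodesic_of_selection hq hgeod (fun t ht => measurable_hgeod ht) hgeod_zero hgeod_one
      (fun p s hs t ht => dist_hgeod p hs ht)
  have hΓ0 : q.map (hgeod 0) = μ₀ := hgeo.1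
  have hΓ1 : q.map (hgeod 1) = μ₁ := hgeo.2.1
  have hqp := hq.1.isProbabilityMeasure
  have hac : ∀ t ∈ Icc (0 : ℝ) 1, q.map (hgeod t) ≪ (μH[(4 : ℝ)] : Measure Hemi) := by
    intro t ht
    rcases eq_or_lt_of_le ht.2 with h | h
    · rw [h, hΓ1]; exact h1
    · exact hgeod_ac hq h0 ht.1 h
  refine ⟨q, fun t => q.map (hgeod t), hq, hgeo, hac, ?_⟩
  intro N hN t ht
  have hNpos : 0 < N := by linarith
  have hm := measurable_hgeod ht
  haveI : IsProbabilityMeasure (q.map (hgeod t)) :=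
    Measure.isProbabilityMeasure_map hm.aemeasurable
  refine le_trans ?_ (lintegral_le_negRenyi (hac t ht) hNpos)
  have hmr : Measurable (fun a => ((q.map (hgeod t)).rnDeriv (μH[(4 : ℝ)] : Measure Hemi) a) ^
      (-(1 / N))) := (Measure.measurable_rnDeriv _ _).pow_const _
  rw [lintegral_map hmr hm]
  apply lintegral_mono_ae
  have hang : ∀ p : Hemi × Hemi, dist p.1 p.2 =
      √((angle p.1.1.fst p.2.1.fst ^ 2 + angle p.1.1.snd p.2.1.snd ^ 2) / 3) := by
    intro p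
    rw [Subtype.dist_eq, SS.dist_def]
  rcases eq_or_lt_of_le ht.1 with h | h
  · subst h
    filter_upwards with p
    rw [hang, sub_zero, tau_one hN (angle_nonneg _ _) (angle_le_pi _ _) (angle_nonneg _ _)
      (angle_le_pi _ _), tau_zero hN (angle_nonneg _ _) (angle_le_pi _ _) (angle_nonneg _ _)
      (angle_le_pi _ _), zero_mul, add_zero, one_mul, hΓ0, hgeod_zero]
  · rcases eq_or_lt_of_le ht.2 with h' | h'
    · subst h'
      filter_upwards with p
      rw [hang, sub_self, tau_one hN (angle_nonneg _ _) (angle_le_pi _ _) (angle_nonneg _ _)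
        (angle_le_pi _ _), tau_zero hN (angle_nonneg _ _) (angle_le_pi _ _) (angle_nonneg _ _)
        (angle_le_pi _ _), zero_mul, zero_add, one_mul, hΓ1, hgeod_one]
    · filter_upwards [density_ineq hq h0 h1 h h'] with p hp
      exact hp N hN

end Pool.Agent.Lib.H84.RCD
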