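import Mathlib
import Pool.Agent.Lib.H84.RCDDefs

/-!
# The Cheeger energy is quadratic if it is so on Lipschitz functions
-/

open MeasureTheory Set Filter Topology Metric
open scoped ENNReal NNReal Real

namespace Pool.Agent.Lib.H84.RCD

namespace T1

universe u

lemma liminf_add_liminf_le {a b : ℕ → ℝ≥0∞} {K : ℝ≥0∞} (h : ∀ n, a n + b n ≤ K) :
    liminf a atTop + liminf b atTop ≤ K := by
  by_contra hK
  push Not at hK
  by_cases hA : liminf a atTop = 0
  · rw [hA, zero_add] at hK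
    obtain ⟨n, hn⟩ := (eventually_lt_of_lt_liminf hK).exists
    exact absurd (lt_of_lt_of_le hn (le_trans (le_add_left le_rfl) (h n))) (lt_irrefl _)
  by_cases hB : liminf b atTop = 0
  · rw [hB, add_zero] at hK
    obtain ⟨n, hn⟩ := (eventually_lt_of_lt_liminf hK).exists
    exact absurd (lt_of_lt_of_le hn (le_trans (le_add_right le_rfl) (h n))) (lt_irrefl _)
  obtain ⟨a', ha', b', hb', hab⟩ := ENNReal.exists_lt_add_of_lt_add hK hA hB
  obtain ⟨n, hn1, hn2⟩ := ((eventually_lt_of_lt_liminf ha').and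
    (eventually_lt_of_lt_liminf hb')).exists
  exact absurd (lt_of_lt_of_le hab ((add_le_add hn1.le hn2.le).trans (h n))) (lt_irrefl _)

variable {X : Type u} [MetricSpace X]

lemma localLip_const_mul (c : ℝ) (f : X → ℝ) (x : X) :
    localLip (c • f) x = ENNReal.ofReal |c| * localLip f x := by
  rw [localLip, localLip, ← ENNReal.limsup_const_mul_of_ne_top ENNReal.ofReal_ne_top]
  congr 1
  funext y
  rw [← ENNReal.ofReal_mul (abs_nonneg _)]
  congr 1
  simp only [Pi.smul_apply, smul_eq_mul]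
  rw [← mul_sub, abs_mul, mul_div_assoc]

variable [MeasurableSpace X]

/-- The energy `(1/2) ∫ (lip f)² dm`. -/
noncomputable def lipEnergy (m : Measure X) (f : X → ℝ) : ℝ≥0∞ :=
  (1 / 2) * ∫⁻ x, localLip f x ^ 2 ∂m

lemma lipEnergy_const_mul (m : Measure X) (c : ℝ) (f : X → ℝ) :
    lipEnergy m (c • f) = ENNReal.ofReal (c ^ 2) * lipEnergy m f := by
  rw [lipEnergy, lipEnergy]
  have h : ∀ x, localLip (c • f) x ^ 2 = ENNReal.ofReal (c ^ 2) * localLip f x ^ 2 := by
    intro x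
    rw [localLip_const_mul, mul_pow, ← ENNReal.ofReal_pow (abs_nonneg _), sq_abs]
  simp_rw [h]
  rw [lintegral_const_mul' _ _ ENNReal.ofReal_ne_top]
  ring

/-- A sequence admissible in the definition of the Cheeger energy of `f`. -/
def Admissible (m : Measure X) (f : X → ℝ) (g : ℕ → X → ℝ) : Prop :=
  (∀ n, (∃ C : ℝ≥0, LipschitzWith C (g n)) ∧ MemLp (g n) 2 m) ∧
    Tendsto (fun n => eLpNorm (g n - f) 2 m) atTop (𝓝 0)

lemma cheegerEnergy_le {m : Measure X} {f : X → ℝ} {g : ℕ → X → ℝ} (h : Admissible m f g) :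
    cheegerEnergy m f ≤ liminf (fun n => lipEnergy m (g n)) atTop := by
  rw [cheegerEnergy]
  exact iInf_le_of_le g (iInf_le_of_le h.1 (iInf_le_of_le h.2 le_rfl))

lemma exists_admissible_lt {m : Measure X} {f : X → ℝ} {K : ℝ≥0∞} (h : cheegerEnergy m f < K) :
    ∃ g, Admissible m f g ∧ ∀ n, lipEnergy m (g n) < K := by
  rw [cheegerEnergy] at h
  simp only [iInf_lt_iff] at h
  obtain ⟨g, hg1, hg2, hg3⟩ := h
  obtain ⟨φ, hφ, hφ2⟩ := extraction_of_frequently_atTop (frequently_lt_of_liminf_lt (by isBoundedDefault) hg3)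
  refine ⟨fun n => g (φ n), ⟨fun n => hg1 _, hg2.comp hφ.tendsto_atTop⟩, fun n => hφ2 n⟩

lemma cheegerEnergy_const_mul_le (m : Measure X) {c : ℝ} (hc : c ≠ 0) (f : X → ℝ) :
    cheegerEnergy m (c • f) ≤ ENNReal.ofReal (c ^ 2) * cheegerEnergy m f := by
  have hc2 : ENNReal.ofReal (c ^ 2) ≠ 0 := by
    rw [Ne, ENNReal.ofReal_eq_zero, not_le]; positivity
  have hct : ENNReal.ofReal (c ^ 2) ≠ ∞ := ENNReal.ofReal_ne_top
  rw [mul_comm, ← ENNReal.div_le_iff_le_mul (Or.inl hc2) (Or.inl hct)]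
  apply le_of_forall_gt_imp_ge_of_dense
  intro K hK
  obtain ⟨g, hg, hgK⟩ := exists_admissible_lt hK
  rw [ENNReal.div_le_iff_le_mul (Or.inl hc2) (Or.inl hct)]
  have hadm : Admissible m (c • f) (fun n => c • g n) := by
    refine ⟨fun n => ?_, ?_⟩
    · obtain ⟨C, hC⟩ := (hg.1 n).1
      refine ⟨⟨‖c‖₊ * C, ?_⟩, (hg.1 n).2.const_smul c⟩
      exact (lipschitzWith_smul c).comp hC
    · have h1 : ∀ n, eLpNorm (c • g n - c • f) 2 m = ‖c‖ₑ * eLpNorm (g n - f) 2 m := by
        intro n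
        rw [← smul_sub, eLpNorm_const_smul]
      simp_rw [h1]
      have h2 := ENNReal.Tendsto.const_mul (a := ‖c‖ₑ) hg.2 (Or.inr enorm_ne_top)
      simpa using h2
  refine (cheegerEnergy_le hadm).trans ?_
  refine liminf_le_of_frequently_le (Frequently.of_forall (fun n => ?_))
  rw [lipEnergy_const_mul, mul_comm]
  exact mul_le_mul_left (hgK n).le _

theorem cheeger_parallelogram_le (m : Measure X)
    (h : ∀ f g : X → ℝ, (∃ C : ℝ≥0, LipschitzWith C f) → (∃ C : ℝ≥0, LipschitzWith C g) →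
      lipEnergy m (f + g) + lipEnergy m (f - g) ≤ 2 * lipEnergy m f + 2 * lipEnergy m g)
    (f g : X → ℝ) (hfm : MemLp f 2 m) (hgm : MemLp g 2 m) :
    cheegerEnergy m (f + g) + cheegerEnergy m (f - g) ≤
      2 * cheegerEnergy m f + 2 * cheegerEnergy m g := by
  by_cases hf : cheegerEnergy m f = ∞
  · rw [hf]; simp
  by_cases hg : cheegerEnergy m g = ∞
  · rw [hg]; simp
  refine ENNReal.le_of_forall_pos_le_add ?_
  intro ε hε _
  have hε4 : (0 : ℝ≥0∞) < (ε : ℝ≥0∞) / 4 := ENNReal.div_pos (by positivity) (by norm_num)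
  obtain ⟨u, hu, huK⟩ := exists_admissible_lt (ENNReal.lt_add_right hf hε4.ne')
  obtain ⟨v, hv, hvK⟩ := exists_admissible_lt (ENNReal.lt_add_right hg hε4.ne')
  have hsum : Tendsto (fun n => eLpNorm (u n - f) 2 m + eLpNorm (v n - g) 2 m) atTop (𝓝 0) := by
    have := hu.2.add hv.2
    simpa using this
  have hadd : Admissible m (f + g) (fun n => u n + v n) := by
    refine ⟨fun n => ?_, ?_⟩
    · obtain ⟨C, hC⟩ := (hu.1 n).1
      obtain ⟨D, hD⟩ := (hv.1 n).1
      exact ⟨⟨C + D, hC.add hD⟩, (hu.1 n).2.add (hv.1 n).2⟩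
    · refine tendsto_of_tendsto_of_tendsto_of_le_of_le tendsto_const_nhds hsum
        (fun _ => zero_le) (fun n => ?_)
      have e : u n + v n - (f + g) = (u n - f) + (v n - g) := by abel
      show eLpNorm (u n + v n - (f + g)) 2 m ≤ _
      rw [e]
      exact eLpNorm_add_le ((hu.1 n).2.sub hfm).1 ((hv.1 n).2.sub hgm).1 (by norm_num)
  have hsub : Admissible m (f - g) (fun n => u n - v n) := by
    refine ⟨fun n => ?_, ?_⟩
    · obtain ⟨C, hC⟩ := (hu.1 n).1
      obtain ⟨D, hD⟩ := (hv.1 n).1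
      exact ⟨⟨C + D, hC.sub hD⟩, (hu.1 n).2.sub (hv.1 n).2⟩
    · refine tendsto_of_tendsto_of_tendsto_of_le_of_le tendsto_const_nhds hsum
        (fun _ => zero_le) (fun n => ?_)
      have e : u n - v n - (f - g) = (u n - f) - (v n - g) := by abel
      show eLpNorm (u n - v n - (f - g)) 2 m ≤ _
      rw [e]
      exact eLpNorm_sub_le ((hu.1 n).2.sub hfm).1 ((hv.1 n).2.sub hgm).1 (by norm_num)
  refine (add_le_add (cheegerEnergy_le hadd) (cheegerEnergy_le hsub)).trans ?_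
  apply liminf_add_liminf_le
  intro n
  refine (h _ _ (hu.1 n).1 (hv.1 n).1).trans ?_
  have h4 : 2 * (cheegerEnergy m f + ε / 4) + 2 * (cheegerEnergy m g + ε / 4) =
      2 * cheegerEnergy m f + 2 * cheegerEnergy m g + ε := by
    have : (2 : ℝ≥0∞) * (ε / 4) + 2 * (ε / 4) = ε := by
      rw [← add_mul]
      norm_num
      exact ENNReal.mul_div_cancel (by norm_num) (by norm_num)
    calc _ = 2 * cheegerEnergy m f + 2 * cheegerEnergy m g + (2 * (ε / 4) + 2 * (ε / 4)) := by ring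
      _ = _ := by rw [this]
  rw [← h4]
  exact add_le_add (mul_le_mul_right (huK n).le _) (mul_le_mul_right (hvK n).le _)

theorem hilbertian_of_lip (m : Measure X)
    (h : ∀ f g : X → ℝ, (∃ C : ℝ≥0, LipschitzWith C f) → (∃ C : ℝ≥0, LipschitzWith C g) →
      lipEnergy m (f + g) + lipEnergy m (f - g) ≤ 2 * lipEnergy m f + 2 * lipEnergy m g) :
    InfinitesimallyHilbertian m := by
  intro f g hf hg
  apply le_antisymm (cheeger_parallelogram_le m h f g hf hg)
  have h1 := cheeger_parallelogram_le m h (f + g) (f - g) (hf.add hg) (hf.sub hg)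
  have e1 : f + g + (f - g) = (2 : ℝ) • f := by
    funext x; simp only [Pi.add_apply, Pi.sub_apply, Pi.smul_apply, smul_eq_mul]; ring
  have e2 : f + g - (f - g) = (2 : ℝ) • g := by
    funext x; simp only [Pi.add_apply, Pi.sub_apply, Pi.smul_apply, smul_eq_mul]; ring
  rw [e1, e2] at h1
  have h2 : ∀ f : X → ℝ, 4 * cheegerEnergy m f ≤ cheegerEnergy m ((2 : ℝ) • f) := by
    intro f
    have h3 := cheegerEnergy_const_mul_le m (c := (1 / 2 : ℝ)) (by norm_num) ((2 : ℝ) • f)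
    rw [smul_smul, show (1 / 2 : ℝ) * 2 = 1 by norm_num, one_smul] at h3
    have h4 : (4 : ℝ≥0∞) * ENNReal.ofReal ((1 / 2 : ℝ) ^ 2) = 1 := by
      rw [show (4 : ℝ≥0∞) = ENNReal.ofReal 4 by simp, ← ENNReal.ofReal_mul (by norm_num)]
      norm_num
    calc 4 * cheegerEnergy m f ≤ 4 * (ENNReal.ofReal ((1 / 2 : ℝ) ^ 2) *
          cheegerEnergy m ((2 : ℝ) • f)) := mul_le_mul_right h3 _
      _ = _ := by rw [← mul_assoc, h4, one_mul]
  have h5 := (add_le_add (h2 f) (h2 g)).trans h1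
  have h6 : 2 * (2 * cheegerEnergy m f + 2 * cheegerEnergy m g) ≤
      2 * (cheegerEnergy m (f + g) + cheegerEnergy m (f - g)) := by
    calc _ = 4 * cheegerEnergy m f + 4 * cheegerEnergy m g := by ring
      _ ≤ _ := h5
      _ = _ := by ring
  exact (ENNReal.mul_le_mul_iff_right (by norm_num) (by norm_num)).1 h6

end T1

end Pool.Agent.Lib.H84.RCD
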