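import Mathlib
import Pool.Agent.Lib.H84.Space
import Pool.Agent.Lib.H84.T1Abs

/-!
# The local Lipschitz constant on `Hemi` at a point of differentiability
-/

open MeasureTheory Set Filter Topology Metric InnerProductGeometry
open scoped ENNReal NNReal Real RealInnerProductSpace

namespace Pool.Agent.Lib.H84.RCD

namespace T1

/-- first component of the gradient of a linear form on `ℝ³ × ℝ³` -/
noncomputable def grad1 (L : E3 × E3 →L[ℝ] ℝ) : E3 :=
  (InnerProductSpace.toDual ℝ E3).symm (L.comp (ContinuousLinearMap.inl ℝ E3 E3))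

/-- second component of the gradient of a linear form on `ℝ³ × ℝ³` -/
noncomputable def grad2 (L : E3 × E3 →L[ℝ] ℝ) : E3 :=
  (InnerProductSpace.toDual ℝ E3).symm (L.comp (ContinuousLinearMap.inr ℝ E3 E3))

lemma inner_grad1 (L : E3 × E3 →L[ℝ] ℝ) (v : E3) : ⟪grad1 L, v⟫ = L (v, 0) := by
  rw [grad1, InnerProductSpace.toDual_symm_apply]; rfl

lemma inner_grad2 (L : E3 × E3 →L[ℝ] ℝ) (v : E3) : ⟪grad2 L, v⟫ = L (0, v) := by
  rw [grad2, InnerProductSpace.toDual_symm_apply]; rfl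

lemma apply_eq_grad (L : E3 × E3 →L[ℝ] ℝ) (v : E3 × E3) :
    L v = ⟪grad1 L, v.1⟫ + ⟪grad2 L, v.2⟫ := by
  rw [inner_grad1, inner_grad2, ← map_add]
  simp

lemma grad1_add (L M : E3 × E3 →L[ℝ] ℝ) : grad1 (L + M) = grad1 L + grad1 M := by
  rw [grad1, grad1, grad1, ← map_add]; rfl

lemma grad2_add (L M : E3 × E3 →L[ℝ] ℝ) : grad2 (L + M) = grad2 L + grad2 M := by
  rw [grad2, grad2, grad2, ← map_add]; rfl

lemma grad1_sub (L M : E3 × E3 →L[ℝ] ℝ) : grad1 (L - M) = grad1 L - grad1 M := by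
  rw [grad1, grad1, grad1, ← map_sub]; rfl

lemma grad2_sub (L M : E3 × E3 →L[ℝ] ℝ) : grad2 (L - M) = grad2 L - grad2 M := by
  rw [grad2, grad2, grad2, ← map_sub]; rfl

lemma continuous_grad1 : Continuous grad1 := by
  unfold grad1
  exact (InnerProductSpace.toDual ℝ E3).symm.continuous.comp
    ((ContinuousLinearMap.compL ℝ E3 (E3 × E3) ℝ).flip (ContinuousLinearMap.inl ℝ E3 E3)).continuous

lemma continuous_grad2 : Continuous grad2 := by
  unfold grad2
  exact (InnerProductSpace.toDual ℝ E3).symm.continuous.comp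
    ((ContinuousLinearMap.compL ℝ E3 (E3 × E3) ℝ).flip (ContinuousLinearMap.inr ℝ E3 E3)).continuous

/-- squared norm of the gradient -/
noncomputable def gradSq (L : E3 × E3 →L[ℝ] ℝ) : ℝ := ‖grad1 L‖ ^ 2 + ‖grad2 L‖ ^ 2

lemma gradSq_nonneg (L : E3 × E3 →L[ℝ] ℝ) : 0 ≤ gradSq L := by unfold gradSq; positivity

lemma gradSq_parallelogram (L M : E3 × E3 →L[ℝ] ℝ) :
    gradSq (L + M) + gradSq (L - M) = 2 * gradSq L + 2 * gradSq M := by
  unfold gradSq
  rw [grad1_add, grad2_add, grad1_sub, grad2_sub]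
  have h1 := parallelogram_law_with_norm ℝ (grad1 L) (grad1 M)
  have h2 := parallelogram_law_with_norm ℝ (grad2 L) (grad2 M)
  nlinarith

lemma abs_apply_le (L : E3 × E3 →L[ℝ] ℝ) (v : E3 × E3) :
    |L v| ≤ √(gradSq L) * √(‖v.1‖ ^ 2 + ‖v.2‖ ^ 2) := by
  rw [apply_eq_grad, ← Real.sqrt_mul (gradSq_nonneg L)]
  apply Real.abs_le_sqrt
  have h1 := abs_real_inner_le_norm (grad1 L) v.1
  have h2 := abs_real_inner_le_norm (grad2 L) v.2
  unfold gradSq
  have h3 : |⟪grad1 L, v.1⟫ + ⟪grad2 L, v.2⟫| ≤ ‖grad1 L‖ * ‖v.1‖ + ‖grad2 L‖ * ‖v.2‖ :=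
    (abs_add_le _ _).trans (add_le_add h1 h2)
  have h4 : (⟪grad1 L, v.1⟫ + ⟪grad2 L, v.2⟫) ^ 2 ≤
      (‖grad1 L‖ * ‖v.1‖ + ‖grad2 L‖ * ‖v.2‖) ^ 2 := by
    rw [← sq_abs]
    gcongr
  nlinarith [sq_nonneg (‖grad1 L‖ * ‖v.2‖ - ‖grad2 L‖ * ‖v.1‖)]

/-- the chordal distance is at most `√3` times the distance -/
lemma sqrt_chord_le (z w : SS) :
    √(‖z.fst - w.fst‖ ^ 2 + ‖z.snd - w.snd‖ ^ 2) ≤ √3 * dist z w := by
  rw [SS.dist_def, ← Real.sqrt_mul (by norm_num)]
  apply Real.sqrt_le_sqrt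
  have h1 := norm_sub_le_angle z.norm_fst w.norm_fst
  have h2 := norm_sub_le_angle z.norm_snd w.norm_snd
  have h3 : ‖z.fst - w.fst‖ ^ 2 ≤ angle z.fst w.fst ^ 2 := by gcongr
  have h4 : ‖z.snd - w.snd‖ ^ 2 ≤ angle z.snd w.snd ^ 2 := by gcongr
  linarith

lemma arctan_le_self' {t : ℝ} (ht : 0 ≤ t) : Real.arctan t ≤ t := by
  have h := Real.le_tan (Real.arctan_nonneg.2 ht) (Real.arctan_lt_pi_div_two t)
  rwa [Real.tan_arctan] at h

lemma angle_add_smul_le {z g : E3} (hz : ‖z‖ = 1) (h : ⟪g, z⟫ = 0) {s : ℝ} (hs : 0 ≤ s) :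
    angle (‖z + s • g‖⁻¹ • (z + s • g)) z ≤ s * ‖g‖ := by
  have h0 : z ≠ 0 := by rintro rfl; simp at hz
  have hin : ⟪z, s • g⟫ = 0 := by rw [inner_smul_right, real_inner_comm, h, mul_zero]
  have h1 : z + s • g ≠ 0 := by
    intro h2
    have h3 : ⟪z, z + s • g⟫ = 0 := by rw [h2, inner_zero_right]
    rw [inner_add_right, hin, add_zero, real_inner_self_eq_norm_sq, hz] at h3
    norm_num at h3
  rw [angle_smul_left_of_pos _ _ (by positivity), angle_comm,
    angle_add_eq_arctan_of_inner_eq_zero hin h0, hz, div_one, norm_smul, Real.norm_of_nonneg hs]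
  exact arctan_le_self' (by positivity)

lemma proj_of_mem_sph {u : E3 × E3} (hu : u ∈ SS.sph) : proj u = u := by
  obtain ⟨h1, h2⟩ := hu
  rw [proj, h1, h2]; simp

lemma proj_mem_sph {u : E3 × E3} (h1 : u.1 ≠ 0) (h2 : u.2 ≠ 0) : proj u ∈ SS.sph := by
  constructor
  · rw [proj]; simp only; rw [norm_smul, norm_inv, norm_norm, inv_mul_cancel₀ (norm_ne_zero_iff.2 h1)]
  · rw [proj]; simp only; rw [norm_smul, norm_inv, norm_norm, inv_mul_cancel₀ (norm_ne_zero_iff.2 h2)]

lemma toVec_mem_sph (z : SS) : z.toVec ∈ SS.sph := ⟨z.norm_fst, z.norm_snd⟩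

/-- A function which is homogeneous of degree zero in each component. -/
lemma grad1_orthogonal {F : E3 × E3 → ℝ} (hF : ∀ u, F (proj u) = F u) {z : E3 × E3}
    (hz : z ∈ SS.sph) (hd : DifferentiableAt ℝ F z) : ⟪grad1 (fderiv ℝ F z), z.1⟫ = 0 := by
  rw [inner_grad1]
  -- derivative along `s ↦ z + s • (z.1, 0)`
  have h1 : HasDerivAt (fun s : ℝ => F (z + s • ((z.1, 0) : E3 × E3)))
      (fderiv ℝ F z (z.1, 0)) 0 := by
    have hc : HasDerivAt (fun s : ℝ => z + s • ((z.1, 0) : E3 × E3)) (z.1, 0) 0 := by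
      have := ((hasDerivAt_id (0 : ℝ)).smul_const ((z.1, 0) : E3 × E3)).const_add z
      simpa using this
    have hd' : HasFDerivAt F (fderiv ℝ F z) (z + (0 : ℝ) • ((z.1, 0) : E3 × E3)) := by
      simpa using hd.hasFDerivAt
    exact hd'.comp_hasDerivAt (0 : ℝ) hc
  have h2 : HasDerivAt (fun s : ℝ => F (z + s • ((z.1, 0) : E3 × E3))) 0 0 := by
    have hev : (fun s : ℝ => F (z + s • ((z.1, 0) : E3 × E3))) =ᶠ[𝓝 0] fun _ => F z := by
      have hpos : ∀ᶠ s : ℝ in 𝓝 0, -1 < s := lt_mem_nhds (by norm_num)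
      filter_upwards [hpos] with s hs
      rw [← hF, ← hF z]
      congr 1
      have e : z + s • ((z.1, 0) : E3 × E3) = ((1 + s) • z.1, z.2) := by
        ext1
        · simp [add_smul]
        · simp
      rw [e, proj, proj]
      have hs1 : (0 : ℝ) < 1 + s := by linarith
      simp only [norm_smul, Real.norm_of_nonneg hs1.le, hz.1, hz.2, mul_one, inv_one, one_smul,
        smul_smul, inv_mul_cancel₀ hs1.ne']
    exact (hasDerivAt_const (0 : ℝ) (F z)).congr_of_eventuallyEq hev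
  exact h1.unique h2

lemma grad2_orthogonal {F : E3 × E3 → ℝ} (hF : ∀ u, F (proj u) = F u) {z : E3 × E3}
    (hz : z ∈ SS.sph) (hd : DifferentiableAt ℝ F z) : ⟪grad2 (fderiv ℝ F z), z.2⟫ = 0 := by
  rw [inner_grad2]
  have h1 : HasDerivAt (fun s : ℝ => F (z + s • ((0, z.2) : E3 × E3)))
      (fderiv ℝ F z (0, z.2)) 0 := by
    have hc : HasDerivAt (fun s : ℝ => z + s • ((0, z.2) : E3 × E3)) (0, z.2) 0 := by
      have := ((hasDerivAt_id (0 : ℝ)).smul_const ((0, z.2) : E3 × E3)).const_add z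
      simpa using this
    have hd' : HasFDerivAt F (fderiv ℝ F z) (z + (0 : ℝ) • ((0, z.2) : E3 × E3)) := by
      simpa using hd.hasFDerivAt
    exact hd'.comp_hasDerivAt (0 : ℝ) hc
  have h2 : HasDerivAt (fun s : ℝ => F (z + s • ((0, z.2) : E3 × E3))) 0 0 := by
    have hev : (fun s : ℝ => F (z + s • ((0, z.2) : E3 × E3))) =ᶠ[𝓝 0] fun _ => F z := by
      have hpos : ∀ᶠ s : ℝ in 𝓝 0, -1 < s := lt_mem_nhds (by norm_num)
      filter_upwards [hpos] with s hs
      rw [← hF, ← hF z]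
      congr 1
      have e : z + s • ((0, z.2) : E3 × E3) = (z.1, (1 + s) • z.2) := by
        ext1
        · simp
        · simp [add_smul]
      rw [e, proj, proj]
      have hs1 : (0 : ℝ) < 1 + s := by linarith
      simp only [norm_smul, Real.norm_of_nonneg hs1.le, hz.1, hz.2, mul_one, inv_one, one_smul,
        smul_smul, inv_mul_cancel₀ hs1.ne']
    exact (hasDerivAt_const (0 : ℝ) (F z)).congr_of_eventuallyEq hev
  exact h1.unique h2

/-- Upper bound for the slope. -/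
lemma localLip_le {F : E3 × E3 → ℝ} {f : Hemi → ℝ} (hf : ∀ y : Hemi, F y.1.toVec = f y)
    (x : Hemi) (hd : DifferentiableAt ℝ F x.1.toVec) :
    localLip f x ≤ ENNReal.ofReal (√3 * √(gradSq (fderiv ℝ F x.1.toVec))) := by
  set z := x.1.toVec with hz
  set L := fderiv ℝ F z with hL
  set G := √(gradSq L) with hG
  have hG0 : 0 ≤ G := Real.sqrt_nonneg _
  refine ENNReal.le_of_forall_pos_le_add ?_
  intro ε hε _
  rw [localLip]
  have hε2 : (0 : ℝ) < ε / 2 := by positivity
  have h1 := hd.hasFDerivAt.isLittleO.def hε2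
  have hcont : Tendsto (fun y : Hemi => y.1.toVec) (𝓝[≠] x) (𝓝 z) :=
    ((SS.continuous_toVec.comp continuous_subtype_val).tendsto x).mono_left nhdsWithin_le_nhds
  have h2 := hcont.eventually h1
  have h3 : ∀ᶠ y in 𝓝[≠] x, ENNReal.ofReal (|f y - f x| / dist y x) ≤
      ENNReal.ofReal (√3 * G) + ε := by
    filter_upwards [h2, self_mem_nhdsWithin] with y hy hne
    have hdist : 0 < dist y x := dist_pos.2 hne
    rw [show (ε : ℝ≥0∞) = ENNReal.ofReal (ε : ℝ) by simp,
      ← ENNReal.ofReal_add (by positivity) (by positivity)]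
    apply ENNReal.ofReal_le_ofReal
    rw [div_le_iff₀ hdist, ← hf y, ← hf x]
    rw [← hz]
    have e1 : ‖y.1.toVec - z‖ ≤ 2 * dist y x := by
      have := SS.dist_toVec_le y.1 x.1
      rw [dist_eq_norm] at this
      exact this
    have e2 : |L (y.1.toVec - z)| ≤ G * (√3 * dist y x) :=
      (abs_apply_le L _).trans (mul_le_mul_of_nonneg_left (sqrt_chord_le y.1 x.1) hG0)
    have e3 : |F y.1.toVec - F z| ≤
        ‖F y.1.toVec - F z - L (y.1.toVec - z)‖ + |L (y.1.toVec - z)| := by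
      rw [Real.norm_eq_abs]
      have := abs_add_le (F y.1.toVec - F z - L (y.1.toVec - z)) (L (y.1.toVec - z))
      rwa [sub_add_cancel] at this
    have e4 : (ε : ℝ) / 2 * ‖y.1.toVec - z‖ ≤ ε / 2 * (2 * dist y x) :=
      mul_le_mul_of_nonneg_left e1 hε2.le
    calc |F y.1.toVec - F z| ≤ _ := e3
      _ ≤ ε / 2 * (2 * dist y x) + G * (√3 * dist y x) := add_le_add (hy.trans e4) e2
      _ = _ := by ring
  exact limsup_le_of_le (by isBoundedDefault) h3

/-- Lower bound for the slope. -/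
lemma le_localLip {F : E3 × E3 → ℝ} {f : Hemi → ℝ} (hf : ∀ y : Hemi, F y.1.toVec = f y)
    (hF : ∀ u, F (proj u) = F u) (x : Hemi) (hx : 0 < x.1.snd 2)
    (hd : DifferentiableAt ℝ F x.1.toVec) :
    ENNReal.ofReal (√3 * √(gradSq (fderiv ℝ F x.1.toVec))) ≤ localLip f x := by
  set z := x.1.toVec with hz
  set L := fderiv ℝ F z with hL
  set G := √(gradSq L) with hG
  have hG0 : 0 ≤ G := Real.sqrt_nonneg _
  rcases hG0.eq_or_lt with hG0' | hGpos
  · rw [← hG0']; simp
  have hzs : z ∈ SS.sph := toVec_mem_sph _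
  have o1 : ⟪grad1 L, z.1⟫ = 0 := grad1_orthogonal hF hzs hd
  have o2 : ⟪grad2 L, z.2⟫ = 0 := grad2_orthogonal hF hzs hd
  set g : E3 × E3 := (grad1 L, grad2 L) with hg
  have hLg : L g = G ^ 2 := by
    rw [apply_eq_grad, hG, Real.sq_sqrt (gradSq_nonneg _), gradSq, hg]
    simp only [real_inner_self_eq_norm_sq]
  -- nonvanishing
  have nz1 : ∀ s : ℝ, z.1 + s • grad1 L ≠ 0 := by
    intro s h2
    have h3 : ⟪z.1, z.1 + s • grad1 L⟫ = 0 := by rw [h2, inner_zero_right]
    rw [inner_add_right, inner_smul_right, real_inner_comm, real_inner_comm (grad1 L), o1,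
      mul_zero, add_zero, real_inner_self_eq_norm_sq, hzs.1] at h3
    norm_num at h3
  have nz2 : ∀ s : ℝ, z.2 + s • grad2 L ≠ 0 := by
    intro s h2
    have h3 : ⟪z.2, z.2 + s • grad2 L⟫ = 0 := by rw [h2, inner_zero_right]
    rw [inner_add_right, inner_smul_right, real_inner_comm, real_inner_comm (grad2 L), o2,
      mul_zero, add_zero, real_inner_self_eq_norm_sq, hzs.2] at h3
    norm_num at h3
  have hmem : ∀ s : ℝ, proj (z + s • g) ∈ SS.sph := fun s => proj_mem_sph (nz1 s) (nz2 s)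
  -- the path in `SS`
  let P : ℝ → SS := fun s => ⟨(proj (z + s • g)).1, (proj (z + s • g)).2, (hmem s).1, (hmem s).2⟩
  have hP : ∀ s, (P s).toVec = proj (z + s • g) := fun s => rfl
  have hFP : ∀ s, F (P s).toVec = F (z + s • g) := fun s => by rw [hP, hF]
  have hdP : ∀ s : ℝ, 0 ≤ s → dist (P s) x.1 ≤ s * G / √3 := by
    intro s hs
    rw [SS.dist_def]
    have a1 : angle (P s).fst x.1.fst ≤ s * ‖grad1 L‖ := angle_add_smul_le hzs.1 o1 hs
    have a2 : angle (P s).snd x.1.snd ≤ s * ‖grad2 L‖ := angle_add_smul_le hzs.2 o2 hs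
    have a3 : angle (P s).fst x.1.fst ^ 2 ≤ (s * ‖grad1 L‖) ^ 2 := by
      have := angle_nonneg (P s).fst x.1.fst
      gcongr
    have a4 : angle (P s).snd x.1.snd ^ 2 ≤ (s * ‖grad2 L‖) ^ 2 := by
      have := angle_nonneg (P s).snd x.1.snd
      gcongr
    rw [le_div_iff₀ (by positivity), ← Real.sqrt_mul (by positivity)]
    rw [Real.sqrt_le_left (by positivity)]
    rw [mul_pow, hG, Real.sq_sqrt (gradSq_nonneg _), gradSq]
    nlinarith
  have hPHemi : ∀ᶠ s : ℝ in 𝓝[>] 0, P s ∈ Hemi := by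
    have hc : Continuous (fun s : ℝ => (z.2 + s • grad2 L) 2) := by fun_prop
    have h0 : (0 : ℝ) < (z.2 + (0 : ℝ) • grad2 L) 2 := by
      rw [zero_smul, add_zero]; exact hx
    have := (hc.tendsto 0).eventually (lt_mem_nhds h0)
    filter_upwards [this.filter_mono nhdsWithin_le_nhds] with s hs
    show 0 ≤ (proj (z + s • g)).2 2
    rw [proj]
    have e : (z + s • g).2 = z.2 + s • grad2 L := rfl
    simp only [e, PiLp.smul_apply, smul_eq_mul]
    positivity
  -- the path in `Hemi`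
  classical
  let Q : ℝ → Hemi := fun s => if h : P s ∈ Hemi then ⟨P s, h⟩ else x
  have hQ : ∀ᶠ s : ℝ in 𝓝[>] 0, (Q s).1 = P s := by
    filter_upwards [hPHemi] with s hs
    simp only [Q, dif_pos hs]
  -- slope
  have hslope : Tendsto (fun s : ℝ => s⁻¹ • (F (z + s • g) - F z)) (𝓝[>] 0) (𝓝 (G ^ 2)) := by
    have h1 : HasDerivAt (fun s : ℝ => F (z + s • g)) (L g) 0 := by
      have hc : HasDerivAt (fun s : ℝ => z + s • g) g 0 := by
        have := ((hasDerivAt_id (0 : ℝ)).smul_const g).const_add z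
        simpa using this
      have hd' : HasFDerivAt F L (z + (0 : ℝ) • g) := by
        simpa using hd.hasFDerivAt
      exact hd'.comp_hasDerivAt (0 : ℝ) hc
    have h2 := h1.tendsto_slope_zero_right
    simpa [hLg] using h2
  have hpos : ∀ᶠ s : ℝ in 𝓝[>] 0, 0 < s⁻¹ • (F (z + s • g) - F z) :=
    hslope.eventually (lt_mem_nhds (by positivity))
  have hQtend : Tendsto Q (𝓝[>] 0) (𝓝[≠] x) := by
    rw [tendsto_nhdsWithin_iff]
    constructor
    · rw [tendsto_iff_dist_tendsto_zero]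
      have hb : Tendsto (fun s : ℝ => s * G / √3) (𝓝[>] 0) (𝓝 0) := by
        have : Continuous (fun s : ℝ => s * G / √3) := by fun_prop
        have h0 := (this.tendsto 0).mono_left (nhdsWithin_le_nhds (s := Ioi 0))
        simpa using h0
      refine tendsto_of_tendsto_of_tendsto_of_le_of_le' tendsto_const_nhds hb
        (Eventually.of_forall fun _ => dist_nonneg) ?_
      filter_upwards [hQ, self_mem_nhdsWithin] with s hs hs0
      rw [Subtype.dist_eq, hs]
      exact hdP s (le_of_lt hs0)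
    · filter_upwards [hQ, self_mem_nhdsWithin, hpos] with s hs hs0 hp heq
      have hs0' : (0 : ℝ) < s := hs0
      rw [heq] at hs
      have e : F (z + s • g) = F z := by rw [← hFP s, ← hs]
      rw [e] at hp
      simp at hp
  have hlim : Tendsto (fun s : ℝ => ENNReal.ofReal
      (|s⁻¹ • (F (z + s • g) - F z)| / (G / √3))) (𝓝[>] 0) (𝓝 (ENNReal.ofReal (√3 * G))) := by
    apply ENNReal.tendsto_ofReal
    have h1 := (hslope.abs).div_const (G / √3)
    have e : |G ^ 2| / (G / √3) = √3 * G := by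
      rw [abs_of_nonneg (by positivity)]
      field_simp
    rwa [e] at h1
  calc ENNReal.ofReal (√3 * G)
      = limsup (fun s : ℝ => ENNReal.ofReal
          (|s⁻¹ • (F (z + s • g) - F z)| / (G / √3))) (𝓝[>] 0) := hlim.limsup_eq.symm
    _ ≤ limsup (fun s : ℝ => ENNReal.ofReal (|f (Q s) - f x| / dist (Q s) x)) (𝓝[>] 0) := by
        refine limsup_le_limsup ?_
        filter_upwards [hQ, self_mem_nhdsWithin, hpos] with s hs hs0 hp
        have hs0' : (0 : ℝ) < s := hs0
        apply ENNReal.ofReal_le_ofReal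
        rw [← hf (Q s), ← hf x, hs, hFP, ← hz]
        have hdpos : 0 < dist (Q s) x := by
          rw [dist_pos]
          intro heq
          rw [heq] at hs
          have e : F (z + s • g) = F z := by rw [← hFP s, ← hs]
          rw [e] at hp
          simp at hp
        have hd2 : dist (Q s) x ≤ s * G / √3 := by
          rw [Subtype.dist_eq, hs]; exact hdP s hs0'.le
        rw [smul_eq_mul, abs_mul, abs_of_pos (inv_pos.2 hs0'), ← div_eq_inv_mul, div_div]
        have e2 : s * (G / √3) = s * G / √3 := by ring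
        rw [e2]
        exact div_le_div_of_nonneg_left (abs_nonneg _) hdpos hd2
    _ = limsup (fun y => ENNReal.ofReal (|f y - f x| / dist y x)) (map Q (𝓝[>] 0)) := rfl
    _ ≤ localLip f x := by
        rw [localLip]
        exact limsup_le_limsup_of_le hQtend (by isBoundedDefault) (by isBoundedDefault)

end T1

end Pool.Agent.Lib.H84.RCD
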