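import Mathlib
import Pool.Agent.Lib.H84.Space
import Pool.Agent.Lib.H84.T1Abs
import Pool.Agent.Lib.H84.T1Point

/-!
# `Hemi` is infinitesimally Hilbertian
-/

open MeasureTheory Set Filter Topology Metric InnerProductGeometry
open scoped ENNReal NNReal Real RealInnerProductSpace

namespace Pool.Agent.Lib.H84.RCD

namespace T1

instance isAddHaarMeasure_volume : (volume : Measure (E3 × E3)).IsAddHaarMeasure :=
  Measure.prod.instIsAddHaarMeasure (volume : Measure E3) (volume : Measure E3)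

lemma unit_unit (v : E3) : ‖‖v‖⁻¹ • v‖⁻¹ • (‖v‖⁻¹ • v) = ‖v‖⁻¹ • v := by
  by_cases h : v = 0
  · simp [h]
  · rw [norm_smul, norm_inv, norm_norm, inv_mul_cancel₀ (norm_ne_zero_iff.2 h)]; simp

lemma proj_proj (u : E3 × E3) : proj (proj u) = proj u := by
  unfold proj
  simp only [unit_unit]

lemma unit_smul {c : ℝ} (hc : 0 < c) (v : E3) : ‖c • v‖⁻¹ • (c • v) = ‖v‖⁻¹ • v := by
  rw [norm_smul, Real.norm_of_nonneg hc.le, smul_smul, mul_inv]
  congr 1
  field_simp

/-- scaling of both components by positive numbers -/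
noncomputable def scal (a b : ℝ) : E3 × E3 →L[ℝ] E3 × E3 :=
  (a • ContinuousLinearMap.fst ℝ E3 E3).prod (b • ContinuousLinearMap.snd ℝ E3 E3)

lemma scal_apply (a b : ℝ) (v : E3 × E3) : scal a b v = (a • v.1, b • v.2) := rfl

lemma proj_scal {a b : ℝ} (ha : 0 < a) (hb : 0 < b) (v : E3 × E3) : proj (scal a b v) = proj v := by
  rw [scal_apply, proj, proj]
  simp only [unit_smul ha, unit_smul hb]

lemma scal_proj {u : E3 × E3} (h1 : u.1 ≠ 0) (h2 : u.2 ≠ 0) :
    scal ‖u.1‖ ‖u.2‖ (proj u) = u := by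
  rw [scal_apply, proj]
  simp only [smul_smul]
  rw [mul_inv_cancel₀ (norm_ne_zero_iff.2 h1), mul_inv_cancel₀ (norm_ne_zero_iff.2 h2)]
  simp

lemma differentiableAt_proj {F : E3 × E3 → ℝ} (hF : ∀ u, F (proj u) = F u) {u : E3 × E3}
    (h1 : u.1 ≠ 0) (h2 : u.2 ≠ 0) (hd : DifferentiableAt ℝ F u) :
    DifferentiableAt ℝ F (proj u) := by
  have hS : F ∘ scal ‖u.1‖ ‖u.2‖ = F := by
    funext v
    rw [Function.comp_apply, ← hF, proj_scal (norm_pos_iff.2 h1) (norm_pos_iff.2 h2), hF]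
  have h3 : DifferentiableAt ℝ F (scal ‖u.1‖ ‖u.2‖ (proj u)) := by
    rw [scal_proj h1 h2]; exact hd
  have h4 := h3.comp (proj u) (scal ‖u.1‖ ‖u.2‖).differentiableAt
  rwa [hS] at h4

lemma unit_lipschitz {v w : E3} (hv : 1 / 2 < ‖v‖) (hw : 1 / 2 < ‖w‖) :
    ‖‖v‖⁻¹ • v - ‖w‖⁻¹ • w‖ ≤ 4 * ‖v - w‖ := by
  have hv0 : 0 < ‖v‖ := by linarith
  have hw0 : 0 < ‖w‖ := by linarith
  have e : ‖v‖⁻¹ • v - ‖w‖⁻¹ • w = ‖v‖⁻¹ • (v - w) + (‖v‖⁻¹ - ‖w‖⁻¹) • w := by
    rw [smul_sub, sub_smul]; abel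
  rw [e]
  have h1 : ‖‖v‖⁻¹ • (v - w)‖ ≤ 2 * ‖v - w‖ := by
    rw [norm_smul, norm_inv, norm_norm]
    have : ‖v‖⁻¹ ≤ 2 := by
      rw [inv_le_comm₀ hv0 (by norm_num)]; linarith
    gcongr
  have h2 : ‖(‖v‖⁻¹ - ‖w‖⁻¹) • w‖ ≤ 2 * ‖v - w‖ := by
    rw [norm_smul, Real.norm_eq_abs]
    have e2 : (‖v‖⁻¹ - ‖w‖⁻¹) * ‖w‖ = (‖w‖ - ‖v‖) * ‖v‖⁻¹ := by field_simp
    have e3 : |‖v‖⁻¹ - ‖w‖⁻¹| * ‖w‖ = |‖w‖ - ‖v‖| * ‖v‖⁻¹ := by
      rw [← abs_of_pos hw0, ← abs_of_pos (inv_pos.2 hv0), ← abs_mul, ← abs_mul,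
        abs_of_pos hw0, abs_of_pos (inv_pos.2 hv0), e2]
    rw [e3, mul_comm]
    have : ‖v‖⁻¹ ≤ 2 := by
      rw [inv_le_comm₀ hv0 (by norm_num)]; linarith
    have h3 : |‖w‖ - ‖v‖| ≤ ‖v - w‖ := by
      rw [abs_sub_comm]; exact abs_norm_sub_norm_le v w
    gcongr
  calc _ ≤ _ := norm_add_le _ _
    _ ≤ 2 * ‖v - w‖ + 2 * ‖v - w‖ := add_le_add h1 h2
    _ = _ := by ring

lemma lipschitzOn_proj : LipschitzOnWith 4 proj annulus := by
  apply LipschitzOnWith.of_dist_le_mul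
  intro u hu v hv
  rw [Prod.dist_eq, Prod.dist_eq, dist_eq_norm, dist_eq_norm, dist_eq_norm, dist_eq_norm]
  have h1 := unit_lipschitz hu.1.1 hv.1.1
  have h2 := unit_lipschitz hu.2.1 hv.2.1
  have e : ((4 : ℝ≥0) : ℝ) = 4 := by norm_num
  rw [e]
  apply max_le
  · exact h1.trans (mul_le_mul_of_nonneg_left (le_max_left _ _) (by norm_num))
  · exact h2.trans (mul_le_mul_of_nonneg_left (le_max_right _ _) (by norm_num))

lemma isOpen_annulus : IsOpen annulus := by
  have h1 : Continuous (fun u : E3 × E3 => ‖u.1‖) := by fun_prop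
  have h2 : Continuous (fun u : E3 × E3 => ‖u.2‖) := by fun_prop
  exact ((isOpen_lt continuous_const h1).inter (isOpen_lt h1 continuous_const)).inter
    ((isOpen_lt continuous_const h2).inter (isOpen_lt h2 continuous_const))

lemma ne_zero_of_mem_annulus {u : E3 × E3} (hu : u ∈ annulus) : u.1 ≠ 0 ∧ u.2 ≠ 0 := by
  constructor
  · rintro h
    have := hu.1.1
    rw [h, norm_zero] at this
    norm_num at this
  · rintro h
    have := hu.2.1
    rw [h, norm_zero] at this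
    norm_num at this

lemma measurable_proj : Measurable proj := by
  unfold proj
  fun_prop

/-- Lipschitz functions on `Hemi` extend to functions on `ℝ³ × ℝ³` which are homogeneous of degree
`0` in each variable and differentiable almost everywhere on `S² × S²`. -/
lemma exists_extension {f : Hemi → ℝ} (hf : ∃ C : ℝ≥0, LipschitzWith C f) :
    ∃ F : E3 × E3 → ℝ, (∀ u, F (proj u) = F u) ∧ (∀ y : Hemi, F y.1.toVec = f y) ∧
      ∀ᵐ z ∂coneMeasure, DifferentiableAt ℝ F z := by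
  obtain ⟨C, hC⟩ := hf
  let ι : Hemi → E3 × E3 := fun y => y.1.toVec
  have hι : Function.Injective ι := SS.toVec_injective.comp Subtype.val_injective
  have hlip : LipschitzOnWith (C * 2) (Function.extend ι f 0) (range ι) := by
    apply LipschitzOnWith.of_dist_le_mul
    rintro _ ⟨x, rfl⟩ _ ⟨y, rfl⟩
    rw [hι.extend_apply, hι.extend_apply]
    have h1 := hC.dist_le_mul x y
    have h2 : dist x y ≤ 2 * dist (ι x) (ι y) := SS.dist_le_toVec x.1 y.1
    calc _ ≤ (C : ℝ) * dist x y := h1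
      _ ≤ C * (2 * dist (ι x) (ι y)) := by gcongr
      _ = _ := by push_cast; ring
  obtain ⟨F0, hF0, hF0f⟩ := hlip.extend_real
  refine ⟨F0 ∘ proj, ?_, ?_, ?_⟩
  · intro u; rw [Function.comp_apply, Function.comp_apply, proj_proj]
  · intro y
    rw [Function.comp_apply, proj_of_mem_sph (toVec_mem_sph _), ← hF0f ⟨y, rfl⟩]
    exact hι.extend_apply _ _ _
  · rw [coneMeasure, ae_map_iff measurable_proj.aemeasurable (measurableSet_of_differentiableAt ℝ _)]
    rw [ae_restrict_iff' isOpen_annulus.measurableSet]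
    have h1 : LipschitzOnWith (C * 2 * 4) (F0 ∘ proj) annulus := hF0.comp_lipschitzOnWith lipschitzOn_proj
    filter_upwards [h1.ae_differentiableWithinAt_of_mem (μ := volume)] with u hu hmem
    have h2 := (hu hmem).differentiableAt (isOpen_annulus.mem_nhds hmem)
    exact differentiableAt_proj (fun v => by rw [Function.comp_apply, Function.comp_apply, proj_proj])
      (ne_zero_of_mem_annulus hmem).1 (ne_zero_of_mem_annulus hmem).2 h2

lemma ae_snd_ne_zero : ∀ᵐ z ∂coneMeasure, z.2 2 ≠ 0 := by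
  have hm : MeasurableSet {z : E3 × E3 | z.2 2 ≠ 0} := by
    have : Continuous (fun z : E3 × E3 => z.2 2) := by fun_prop
    exact (isClosed_eq this continuous_const).measurableSet.compl
  rw [coneMeasure, ae_map_iff measurable_proj.aemeasurable hm,
    ae_restrict_iff' isOpen_annulus.measurableSet]
  let S : Submodule ℝ (E3 × E3) := LinearMap.ker
    ((EuclideanSpace.proj (2 : Fin 3) : E3 →L[ℝ] ℝ).comp (ContinuousLinearMap.snd ℝ E3 E3)).toLinearMap
  have hS : S ≠ ⊤ := by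
    intro h
    have h1 : ((0, EuclideanSpace.single 2 1) : E3 × E3) ∈ S := by rw [h]; trivial
    have h2 : (EuclideanSpace.single (2 : Fin 3) (1 : ℝ) : E3) 2 = 0 := h1
    simp at h2
  have h0 : (volume : Measure (E3 × E3)) S = 0 := Measure.addHaar_submodule _ S hS
  have h1 : ∀ᵐ u ∂(volume : Measure (E3 × E3)), u ∉ (S : Set (E3 × E3)) := measure_eq_zero_iff_ae_notMem.1 h0
  filter_upwards [h1] with u hu hmem hz
  apply hu
  have h2 : u.2 ≠ 0 := (ne_zero_of_mem_annulus hmem).2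
  rw [proj] at hz
  simp only [PiLp.smul_apply, smul_eq_mul, mul_eq_zero, inv_eq_zero, norm_eq_zero] at hz
  exact hz.resolve_left h2

theorem hilbertian_of_map (m : Measure Hemi) (c : ℝ≥0∞)
    (hm : m.map (fun z => SS.toVec z.1) = c • coneMeasure.restrict {u | 0 ≤ u.2 2}) :
    InfinitesimallyHilbertian m := by
  have hι : Measurable (fun z : Hemi => SS.toVec z.1) :=
    SS.continuous_toVec.measurable.comp measurable_subtype_coe
  have transfer : ∀ p : E3 × E3 → Prop, (∀ᵐ z ∂coneMeasure, p z) → ∀ᵐ x ∂m, p x.1.toVec := by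
    intro p hp
    apply ae_of_ae_map hι.aemeasurable
    rw [hm]
    exact Measure.ae_smul_measure (ae_restrict_of_ae hp) c
  apply hilbertian_of_lip
  intro f g hf hg
  obtain ⟨F, hF1, hF2, hF3⟩ := exists_extension hf
  obtain ⟨G, hG1, hG2, hG3⟩ := exists_extension hg
  -- pointwise formula
  have key : ∀ (H : E3 × E3 → ℝ) (h : Hemi → ℝ), (∀ u, H (proj u) = H u) →
      (∀ y : Hemi, H y.1.toVec = h y) → (∀ᵐ z ∂coneMeasure, DifferentiableAt ℝ H z) →
      ∀ᵐ x ∂m, localLip h x ^ 2 = ENNReal.ofReal (3 * gradSq (fderiv ℝ H x.1.toVec)) := by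
    intro H h h1 h2 h3
    filter_upwards [transfer _ h3, transfer _ ae_snd_ne_zero] with x hx1 hx2
    have hpos : 0 < x.1.snd 2 := lt_of_le_of_ne x.2 (Ne.symm hx2)
    have e := le_antisymm (localLip_le h2 x hx1) (le_localLip h2 h1 x hpos hx1)
    rw [e, ← ENNReal.ofReal_pow (by positivity), mul_pow, Real.sq_sqrt (by norm_num),
      Real.sq_sqrt (gradSq_nonneg _)]
  have kf := key F f hF1 hF2 hF3
  have kg := key G g hG1 hG2 hG3
  have kadd := key (F + G) (f + g) (fun u => by simp only [Pi.add_apply, hF1, hG1])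
    (fun y => by simp only [Pi.add_apply, hF2, hG2])
    (by filter_upwards [hF3, hG3] with z h1 h2; exact h1.add h2)
  have ksub := key (F - G) (f - g) (fun u => by simp only [Pi.sub_apply, hF1, hG1])
    (fun y => by simp only [Pi.sub_apply, hF2, hG2])
    (by filter_upwards [hF3, hG3] with z h1 h2; exact h1.sub h2)
  have hgm : Continuous gradSq := by
    unfold gradSq
    exact (continuous_grad1.norm.pow 2).add (continuous_grad2.norm.pow 2)
  have hmeas : ∀ H : E3 × E3 → ℝ, Measurable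
      (fun x : Hemi => ENNReal.ofReal (3 * gradSq (fderiv ℝ H x.1.toVec))) := by
    intro H
    have h1 : Measurable (fun x : Hemi => fderiv ℝ H x.1.toVec) := (measurable_fderiv ℝ H).comp hι
    exact ((hgm.measurable.comp h1).const_mul 3).ennreal_ofReal
  unfold lipEnergy
  rw [lintegral_congr_ae kf, lintegral_congr_ae kg, lintegral_congr_ae kadd,
    lintegral_congr_ae ksub, ← mul_add, ← lintegral_add_left (hmeas _)]
  have e : ∀ᵐ x ∂m, ENNReal.ofReal (3 * gradSq (fderiv ℝ (F + G) x.1.toVec)) +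
      ENNReal.ofReal (3 * gradSq (fderiv ℝ (F - G) x.1.toVec)) =
      2 * ENNReal.ofReal (3 * gradSq (fderiv ℝ F x.1.toVec)) +
      2 * ENNReal.ofReal (3 * gradSq (fderiv ℝ G x.1.toVec)) := by
    filter_upwards [transfer _ hF3, transfer _ hG3] with x h1 h2
    rw [fderiv_add h1 h2, fderiv_sub h1 h2]
    have h3 := gradSq_parallelogram (fderiv ℝ F x.1.toVec) (fderiv ℝ G x.1.toVec)
    have n1 := gradSq_nonneg (fderiv ℝ F x.1.toVec + fderiv ℝ G x.1.toVec)
    have n2 := gradSq_nonneg (fderiv ℝ F x.1.toVec - fderiv ℝ G x.1.toVec)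
    have n3 := gradSq_nonneg (fderiv ℝ F x.1.toVec)
    have n4 := gradSq_nonneg (fderiv ℝ G x.1.toVec)
    have two_mul_ofReal : ∀ r : ℝ, 2 * ENNReal.ofReal r = ENNReal.ofReal (2 * r) := by
      intro r
      rw [ENNReal.ofReal_mul (by norm_num)]; simp
    rw [two_mul_ofReal, two_mul_ofReal, ← ENNReal.ofReal_add (by positivity) (by positivity),
      ← ENNReal.ofReal_add (by positivity) (by positivity)]
    congr 1
    linarith
  rw [lintegral_congr_ae e, lintegral_add_left ((hmeas F).const_mul 2),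
    lintegral_const_mul _ (hmeas F), lintegral_const_mul _ (hmeas G), mul_add]
  apply le_of_eq
  ring

/-- T1, from T2: `hilbertian_Hemi := hilbertian_Hemi_of hausdorff_Hemi`. -/
theorem hilbertian_Hemi_of
    (h : ∃ c : ℝ≥0∞, c ≠ 0 ∧ c ≠ ∞ ∧
      (μH[(4 : ℝ)] : Measure Hemi).map (fun z => SS.toVec z.1) =
        c • coneMeasure.restrict {u | 0 ≤ u.2 2}) :
    InfinitesimallyHilbertian (μH[(4 : ℝ)] : Measure Hemi) := by
  obtain ⟨c, -, -, hc⟩ := h
  exact hilbertian_of_map _ c hc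

end T1

end Pool.Agent.Lib.H84.RCD
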