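import Mathlib
import Pool.Agent.Lib.H84.Space

/-!
# The boundary of `S²(1/√3) × S²₊(1/√3)` is not empty
-/

open MeasureTheory Set Filter Topology Metric InnerProductGeometry
open scoped ENNReal NNReal Real RealInnerProductSpace

set_option autoImplicit false

namespace Pool.Agent.Lib.H84.RCD

lemma norm_sq_E3 (u : E3) : ‖u‖ ^ 2 = u 0 ^ 2 + u 1 ^ 2 + u 2 ^ 2 := by
  rw [EuclideanSpace.norm_sq_eq, Fin.sum_univ_three]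
  simp [Real.norm_eq_abs, sq_abs]

/-- distance of the last two coordinates -/
noncomputable def D2 (u v : E3) : ℝ := √((u 1 - v 1) ^ 2 + (u 2 - v 2) ^ 2)

lemma D2_sq (u v : E3) : D2 u v ^ 2 = (u 1 - v 1) ^ 2 + (u 2 - v 2) ^ 2 :=
  Real.sq_sqrt (by positivity)

lemma D2_nonneg (u v : E3) : 0 ≤ D2 u v := Real.sqrt_nonneg _

lemma D2_le_norm (u v : E3) : D2 u v ≤ ‖u - v‖ := by
  rw [← Real.sqrt_sq (norm_nonneg (u - v)), norm_sq_E3]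
  apply Real.sqrt_le_sqrt
  simp only [PiLp.sub_apply]
  nlinarith [sq_nonneg (u 0 - v 0)]

lemma D2_le_angle {u v : E3} (hu : ‖u‖ = 1) (hv : ‖v‖ = 1) : D2 u v ≤ angle u v :=
  (D2_le_norm u v).trans (norm_sub_le_angle hu hv)

lemma chord_real {u0 u1 u2 v0 v1 v2 δ D : ℝ} (hnu : 1 = u0 ^ 2 + u1 ^ 2 + u2 ^ 2)
    (hnv : 1 = v0 ^ 2 + v1 ^ 2 + v2 ^ 2) (hδ : 0 ≤ δ) (hδ' : δ ≤ 1 / 2)
    (hu0 : 0 < u0) (hv0 : 0 < v0) (hu1 : u1 ^ 2 + u2 ^ 2 ≤ δ ^ 2)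
    (hv1 : v1 ^ 2 + v2 ^ 2 ≤ δ ^ 2) (hDsq : D ^ 2 = (u1 - v1) ^ 2 + (u2 - v2) ^ 2) :
    (u0 - v0) ^ 2 ≤ 4 / 3 * δ ^ 2 * D ^ 2 ∧ D ^ 2 ≤ (2 * δ) ^ 2 := by
  have hδ2 : δ ^ 2 ≤ 1 / 4 := by nlinarith
  have hu0' : 3 / 4 ≤ u0 ^ 2 := by linarith
  have hv0' : 3 / 4 ≤ v0 ^ 2 := by linarith
  have huv : 3 / 4 ≤ u0 * v0 := by
    have h1 : (3 / 4 : ℝ) ^ 2 ≤ (u0 * v0) ^ 2 := by
      rw [mul_pow]
      nlinarith
    exact le_of_sq_le_sq h1 (by positivity)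
  have hsum : 3 ≤ (u0 + v0) ^ 2 := by nlinarith
  have e2 : (v1 + u1) ^ 2 + (v2 + u2) ^ 2 ≤ 4 * δ ^ 2 := by
    nlinarith [sq_nonneg (v1 - u1), sq_nonneg (v2 - u2)]
  have hcs : ((u0 - v0) * (u0 + v0)) ^ 2 ≤ D ^ 2 * (4 * δ ^ 2) := by
    have e1 : (u0 - v0) * (u0 + v0)
        = (v1 - u1) * (v1 + u1) + (v2 - u2) * (v2 + u2) := by linarith
    rw [e1, hDsq]
    have e3 : ((v1 - u1) * (v1 + u1) + (v2 - u2) * (v2 + u2)) ^ 2 ≤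
        ((u1 - v1) ^ 2 + (u2 - v2) ^ 2) * ((v1 + u1) ^ 2 + (v2 + u2) ^ 2) := by
      nlinarith [sq_nonneg ((v1 - u1) * (v2 + u2) - (v2 - u2) * (v1 + u1))]
    exact e3.trans (mul_le_mul_of_nonneg_left e2 (by positivity))
  constructor
  · rw [mul_pow] at hcs
    have h1 : (u0 - v0) ^ 2 * 3 ≤ (u0 - v0) ^ 2 * (u0 + v0) ^ 2 :=
      mul_le_mul_of_nonneg_left hsum (sq_nonneg _)
    linarith
  · rw [hDsq]
    nlinarith [sq_nonneg (v1 + u1), sq_nonneg (v2 + u2)]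

lemma chord_real2 {δ D a c : ℝ} (hδ : 0 ≤ δ) (hδ' : δ ≤ 1 / 2) (hD0 : 0 ≤ D) (ha0 : 0 ≤ a)
    (hc0 : 0 ≤ c)
    (hc : c ^ 2 ≤ D ^ 2 + 4 / 3 * δ ^ 2 * D ^ 2) (hD : D ^ 2 ≤ (2 * δ) ^ 2)
    (hac : a ≤ 1.6 * c) (hsin : a - a ^ 3 / 24 ≤ c) : a ≤ (1 + 3 * δ ^ 2) * D := by
  have hδ2 : δ ^ 2 ≤ 1 / 4 := by nlinarith
  have hDδ : D ≤ 2 * δ := le_of_sq_le_sq hD (by positivity)
  have hch : c ≤ (1 + 2 / 3 * δ ^ 2) * D := by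
    have h1 : c ^ 2 ≤ ((1 + 2 / 3 * δ ^ 2) * D) ^ 2 := by
      have : ((1 + 2 / 3 * δ ^ 2) * D) ^ 2 = D ^ 2 + 4 / 3 * δ ^ 2 * D ^ 2
          + (2 / 3 * δ ^ 2 * D) ^ 2 := by ring
      rw [this]
      linarith [sq_nonneg (2 / 3 * δ ^ 2 * D)]
    exact le_of_sq_le_sq h1 (by positivity)
  have h2 : c ≤ 7 / 3 * δ := by
    have : (1 + 2 / 3 * δ ^ 2) * D ≤ (1 + 2 / 3 * (1 / 4)) * (2 * δ) := by gcongr
    linarith
  have ha4 : a ≤ 4 * δ := by linarith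
  have h5 : a ^ 2 ≤ (4 * δ) ^ 2 := by gcongr
  have h6 : a * (1 - 2 / 3 * δ ^ 2) ≤ (1 + 2 / 3 * δ ^ 2) * D := by
    have h7 : a * a ^ 2 ≤ a * (4 * δ) ^ 2 := mul_le_mul_of_nonneg_left h5 ha0
    have h8 : a ^ 3 = a * a ^ 2 := by ring
    have h9 : a * (4 * δ) ^ 2 = 16 * (a * δ ^ 2) := by ring
    have h10 : a * (1 - 2 / 3 * δ ^ 2) = a - 2 / 3 * (a * δ ^ 2) := by ring
    rw [h10]
    linarith
  have h7 : (1 + 2 / 3 * δ ^ 2) ≤ (1 + 3 * δ ^ 2) * (1 - 2 / 3 * δ ^ 2) := by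
    have : 0 ≤ δ ^ 2 := sq_nonneg δ
    nlinarith
  have h8 : a * (1 - 2 / 3 * δ ^ 2) ≤ ((1 + 3 * δ ^ 2) * D) * (1 - 2 / 3 * δ ^ 2) := by
    calc a * (1 - 2 / 3 * δ ^ 2) ≤ (1 + 2 / 3 * δ ^ 2) * D := h6
      _ ≤ ((1 + 3 * δ ^ 2) * (1 - 2 / 3 * δ ^ 2)) * D := by gcongr
      _ = _ := by ring
  exact le_of_mul_le_mul_right h8 (by linarith)

lemma angle_le_D2 {u v : E3} (hu : ‖u‖ = 1) (hv : ‖v‖ = 1) {δ : ℝ} (hδ : 0 ≤ δ) (hδ' : δ ≤ 1 / 2)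
    (hu0 : 0 < u 0) (hv0 : 0 < v 0) (hu1 : u 1 ^ 2 + u 2 ^ 2 ≤ δ ^ 2)
    (hv1 : v 1 ^ 2 + v 2 ^ 2 ≤ δ ^ 2) :
    angle u v ≤ (1 + 3 * δ ^ 2) * D2 u v := by
  have hnu := norm_sq_E3 u
  have hnv := norm_sq_E3 v
  rw [hu, one_pow] at hnu
  rw [hv, one_pow] at hnv
  obtain ⟨h1, h2⟩ := chord_real hnu hnv hδ hδ' hu0 hv0 hu1 hv1 (D2_sq u v)
  apply chord_real2 (c := ‖u - v‖) hδ hδ' (D2_nonneg u v) (angle_nonneg u v) (norm_nonneg _) _ h2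
  · have h3 := angle_le_norm_sub hu hv
    have h4 : π / 2 ≤ 1.6 := by linarith [Real.pi_lt_d2]
    have h5 : 0 ≤ ‖u - v‖ := norm_nonneg _
    have h6 : π / 2 * ‖u - v‖ ≤ 1.6 * ‖u - v‖ := mul_le_mul_of_nonneg_right h4 h5
    linarith
  · rw [norm_sub_eq_of_unit hu hv]
    rcases (angle_nonneg u v).eq_or_lt with h | h
    · rw [← h]; simp
    · have := Real.sin_gt_sub_cube (x := angle u v / 2) (by linarith)
      have e : (angle u v / 2) ^ 3 / 6 = angle u v ^ 3 / 48 := by ring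
      rw [e] at this
      linarith
  · rw [norm_sq_E3]
    simp only [PiLp.sub_apply]
    rw [D2_sq] at h1 ⊢
    linarith

/-! ### the base point and linear coordinates -/

/-- the first basis vector -/
noncomputable def b0 : E3 := !₂[1, 0, 0]

lemma norm_b0 : ‖b0‖ = 1 := by
  have h := norm_sq_E3 b0
  simp [b0] at h
  rcases h with h | h
  · exact h
  · have := norm_nonneg b0
    simp only [b0] at this
    linarith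

/-- the base point as a point of `SS` -/
noncomputable def x0' : SS := ⟨b0, b0, norm_b0, norm_b0⟩

/-- the base point -/
noncomputable def x0 : Hemi := ⟨x0', by
  change 0 ≤ b0 2
  simp [b0]⟩

/-- distance of the linear coordinates -/
noncomputable def D4 (z w : SS) : ℝ := √((D2 z.fst w.fst ^ 2 + D2 z.snd w.snd ^ 2) / 3)

lemma D4_le_dist (z w : SS) : D4 z w ≤ dist z w := by
  rw [SS.dist_def]
  apply Real.sqrt_le_sqrt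
  have h1 := D2_le_angle z.norm_fst w.norm_fst
  have h2 := D2_le_angle z.norm_snd w.norm_snd
  have h3 := D2_nonneg z.fst w.fst
  have h4 := D2_nonneg z.snd w.snd
  gcongr

lemma near_fst {δ : ℝ} (hδ' : δ ≤ 1 / 2) {z : SS} (hz : dist z x0' ≤ δ / 2) :
    0 < z.fst 0 ∧ z.fst 1 ^ 2 + z.fst 2 ^ 2 ≤ δ ^ 2 ∧
      0 < z.snd 0 ∧ z.snd 1 ^ 2 + z.snd 2 ^ 2 ≤ δ ^ 2 := by
  have hδ : 0 ≤ δ := by
    have := dist_nonneg (x := z) (y := x0')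
    linarith
  have key : ∀ u : E3, ‖u‖ = 1 → ‖u - b0‖ ≤ δ → 0 < u 0 ∧ u 1 ^ 2 + u 2 ^ 2 ≤ δ ^ 2 := by
    intro u hu hb
    have h1 := norm_sq_E3 (u - b0)
    simp only [PiLp.sub_apply] at h1
    simp only [b0, PiLp.toLp_apply, Matrix.cons_val_zero, Matrix.cons_val_one,
      Matrix.cons_val_two, Matrix.tail_cons, Matrix.head_cons, Matrix.cons_val] at h1
    have h2 : ‖u - b0‖ ^ 2 ≤ δ ^ 2 := by gcongr
    simp only [b0] at h2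
    rw [h1] at h2
    constructor
    · nlinarith [sq_nonneg (u 1 - 0), sq_nonneg (u 2 - 0)]
    · nlinarith [sq_nonneg (u 0 - 1)]
  have h3 : √3 * dist z x0' ≤ δ := by
    have h4 := SS.sqrt_three_le
    have := dist_nonneg (x := z) (y := x0')
    nlinarith
  have h1 := key z.fst z.norm_fst
    ((norm_sub_le_angle z.norm_fst norm_b0).trans ((SS.angle_fst_le z x0').trans h3))
  have h2 := key z.snd z.norm_snd
    ((norm_sub_le_angle z.norm_snd norm_b0).trans ((SS.angle_snd_le z x0').trans h3))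
  exact ⟨h1.1, h1.2, h2.1, h2.2⟩

lemma dist_le_D4_of {δ : ℝ} (hδ : 0 ≤ δ) (hδ' : δ ≤ 1 / 2) {z w : SS}
    (hz1 : 0 < z.fst 0) (hz2 : z.fst 1 ^ 2 + z.fst 2 ^ 2 ≤ δ ^ 2)
    (hz3 : 0 < z.snd 0) (hz4 : z.snd 1 ^ 2 + z.snd 2 ^ 2 ≤ δ ^ 2)
    (hw1 : 0 < w.fst 0) (hw2 : w.fst 1 ^ 2 + w.fst 2 ^ 2 ≤ δ ^ 2)
    (hw3 : 0 < w.snd 0) (hw4 : w.snd 1 ^ 2 + w.snd 2 ^ 2 ≤ δ ^ 2) :
    dist z w ≤ (1 + 3 * δ ^ 2) * D4 z w := by
  have h1 := angle_le_D2 z.norm_fst w.norm_fst hδ hδ' hz1 hw1 hz2 hw2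
  have h2 := angle_le_D2 z.norm_snd w.norm_snd hδ hδ' hz3 hw3 hz4 hw4
  have h3 := D2_nonneg z.fst w.fst
  have h4 := D2_nonneg z.snd w.snd
  have h5 := angle_nonneg z.fst w.fst
  have h6 := angle_nonneg z.snd w.snd
  rw [SS.dist_def, D4]
  rw [← Real.sqrt_sq (show 0 ≤ 1 + 3 * δ ^ 2 by positivity), ← Real.sqrt_mul (by positivity)]
  apply Real.sqrt_le_sqrt
  have h7 : angle z.fst w.fst ^ 2 ≤ ((1 + 3 * δ ^ 2) * D2 z.fst w.fst) ^ 2 := by gcongr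
  have h8 : angle z.snd w.snd ^ 2 ≤ ((1 + 3 * δ ^ 2) * D2 z.snd w.snd) ^ 2 := by gcongr
  rw [mul_pow] at h7 h8
  linarith

lemma dist_le_D4 {δ : ℝ} (hδ' : δ ≤ 1 / 2) {z w : SS} (hz : dist z x0' ≤ δ / 2)
    (hw : dist w x0' ≤ δ / 2) : dist z w ≤ (1 + 3 * δ ^ 2) * D4 z w := by
  have hδ : 0 ≤ δ := by
    have := dist_nonneg (x := z) (y := x0')
    linarith
  obtain ⟨a1, a2, a3, a4⟩ := near_fst hδ' hz
  obtain ⟨c1, c2, c3, c4⟩ := near_fst hδ' hw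
  exact dist_le_D4_of hδ hδ' a1 a2 a3 a4 c1 c2 c3 c4

end Pool.Agent.Lib.H84.RCD
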