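import Mathlib
import Pool.Agent.Lib.H84.T3Chart

/-!
# The boundary of `S²(1/√3) × S²₊(1/√3)` is not empty
-/

open MeasureTheory Set Filter Topology Metric InnerProductGeometry
open scoped ENNReal NNReal Real RealInnerProductSpace

set_option autoImplicit false

namespace Pool.Agent.Lib.H84.RCD

/-! ### the stratum `S³`: no tangent cone at `x0` splits off `ℝ⁴` -/

lemma dist_WithLp {α β : Type} [MetricSpace α] [MetricSpace β] (x y : WithLp 2 (α × β)) :
    dist x y = √(dist x.fst y.fst ^ 2 + dist x.snd y.snd ^ 2) := by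
  rw [WithLp.prod_dist_eq_add (by norm_num)]
  simp [Real.sqrt_eq_rpow]

/-- rescaled linear coordinates -/
noncomputable def V (r : ℝ) (z : SS) : EuclideanSpace ℝ (Fin 4) :=
  !₂[z.fst 1 / (√3 * r), z.fst 2 / (√3 * r), z.snd 1 / (√3 * r), z.snd 2 / (√3 * r)]

lemma norm_sq_E4 (u : EuclideanSpace ℝ (Fin 4)) :
    ‖u‖ ^ 2 = u 0 ^ 2 + u 1 ^ 2 + u 2 ^ 2 + u 3 ^ 2 := by
  rw [EuclideanSpace.norm_sq_eq, Fin.sum_univ_four]
  simp [Real.norm_eq_abs, sq_abs]

lemma norm_V_sub {r : ℝ} (hr : 0 < r) (z w : SS) : ‖V r z - V r w‖ = D4 z w / r := by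
  have h3 : √3 ^ 2 = 3 := Real.sq_sqrt (by norm_num)
  have h1 : ‖V r z - V r w‖ ^ 2 = (D4 z w / r) ^ 2 := by
    rw [norm_sq_E4, div_pow, D4, Real.sq_sqrt (by positivity), D2_sq, D2_sq]
    simp only [V, PiLp.sub_apply, Matrix.cons_val_zero, Matrix.cons_val_one,
      Matrix.cons_val_two, Matrix.tail_cons, Matrix.head_cons, Matrix.cons_val]
    field_simp
    rw [h3]
    ring
  have h2 : 0 ≤ D4 z w := Real.sqrt_nonneg _
  exact (sq_eq_sq₀ (norm_nonneg _) (by positivity)).1 h1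

lemma V_x0 (r : ℝ) : V r x0' = 0 := by
  ext i
  fin_cases i <;> simp [V, x0', b0]

/-- no almost orthonormal frame with antipodes in the half space -/
lemma no_frame (v w : Fin 4 → EuclideanSpace ℝ (Fin 4)) (hv : ∀ j, 0 ≤ v j 3)
    (hw : ∀ j, 0 ≤ w j 3) (h1 : ∀ j, 1 - 5 / 1000 ≤ ‖v j‖) (h1' : ∀ j, ‖v j‖ ≤ 1 + 3 / 1000)
    (h1'' : ∀ j, ‖w j‖ ≤ 1 + 3 / 1000) (h2 : ∀ j, 2 - 5 / 1000 ≤ ‖v j - w j‖)
    (h3 : ∀ i j, i ≠ j → √2 - 5 / 1000 ≤ ‖v i - v j‖)
    (h3' : ∀ i j, i ≠ j → ‖v i - v j‖ ≤ √2 + 3 / 1000) : False := by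
  have s2 : √2 ^ 2 = 2 := Real.sq_sqrt (by norm_num)
  have s2' : √2 ≤ 1.5 := by
    rw [Real.sqrt_le_left (by norm_num)]; norm_num
  have s2'' : 1.4 ≤ √2 := by
    apply Real.le_sqrt_of_sq_le; norm_num
  have hh : ∀ j, (v j 3) ^ 2 ≤ 46 / 1000 := by
    intro j
    have e1 : ‖v j + w j‖ ^ 2 = 2 * ‖v j‖ ^ 2 + 2 * ‖w j‖ ^ 2 - ‖v j - w j‖ ^ 2 := by
      have := parallelogram_law_with_norm ℝ (v j) (w j)
      nlinarith
    have e2 : ‖v j‖ ^ 2 ≤ (1 + 3 / 1000) ^ 2 := by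
      have := h1' j
      gcongr
    have e3 : ‖w j‖ ^ 2 ≤ (1 + 3 / 1000) ^ 2 := by
      have := h1'' j
      gcongr
    have e4 : (2 - 5 / 1000) ^ 2 ≤ ‖v j - w j‖ ^ 2 := by
      have := h2 j
      gcongr
    have e5 : ‖v j + w j‖ ^ 2 ≤ 46 / 1000 := by
      rw [e1]; nlinarith
    have e6 : (v j 3 + w j 3) ^ 2 ≤ ‖v j + w j‖ ^ 2 := by
      rw [norm_sq_E4]
      simp only [PiLp.add_apply]
      nlinarith [sq_nonneg (v j 0 + w j 0), sq_nonneg (v j 1 + w j 1), sq_nonneg (v j 2 + w j 2)]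
    have := hv j
    have := hw j
    nlinarith
  -- the Gram matrix of the horizontal parts
  let W : Matrix (Fin 4) (Fin 3) ℝ := fun i k => v i (Fin.castSucc k)
  let G : Matrix (Fin 4) (Fin 4) ℝ := W * W.transpose
  have hG : ∀ i j, G i j = v i 0 * v j 0 + v i 1 * v j 1 + v i 2 * v j 2 := by
    intro i j
    change (W * W.transpose) i j = _
    rw [Matrix.mul_apply, Fin.sum_univ_three]
    rfl
  have hdet : G.det = 0 := by
    by_contra h
    have hu : IsUnit G := (Matrix.isUnit_iff_isUnit_det G).2 (isUnit_iff_ne_zero.2 h)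
    have r1 := Matrix.rank_of_isUnit G hu
    have r2 : G.rank ≤ W.rank := Matrix.rank_mul_le_left W W.transpose
    have r3 : W.rank ≤ 3 := by
      have := Matrix.rank_le_width W
      exact this
    rw [r1] at r2
    simp at r2
    omega
  have hoff : ∀ i j, i ≠ j → |G i j| ≤ 62 / 1000 := by
    intro i j hij
    have f1 := norm_sq_E4 (v i - v j)
    simp only [PiLp.sub_apply] at f1
    have f2 := norm_sq_E4 (v i)
    have f3 := norm_sq_E4 (v j)
    have g1 : (√2 - 5 / 1000) ^ 2 ≤ ‖v i - v j‖ ^ 2 := by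
      have := h3 i j hij
      have : 0 ≤ √2 - 5 / 1000 := by linarith
      gcongr
    have g2 : ‖v i - v j‖ ^ 2 ≤ (√2 + 3 / 1000) ^ 2 := by
      have := h3' i j hij
      gcongr
    have e2 : ∀ j, ‖v j‖ ^ 2 ≤ (1 + 3 / 1000) ^ 2 := by
      intro j
      have := h1' j
      gcongr
    have e3 : ∀ j, (1 - 5 / 1000) ^ 2 ≤ ‖v j‖ ^ 2 := by
      intro j
      have := h1 j
      gcongr
    have e4 := e2 i
    have e5 := e2 j
    have e6 := e3 i
    have e7 := e3 j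
    have e8 := hh i
    have e9 := hh j
    have p1 := hv i
    have p2 := hv j
    have hprod : v i 3 * v j 3 ≤ 46 / 1000 := by nlinarith [sq_nonneg (v i 3 - v j 3)]
    have hprod0 : 0 ≤ v i 3 * v j 3 := by positivity
    rw [hG, abs_le]
    constructor
    · nlinarith
    · nlinarith
  have hdiag : ∀ i, 9 / 10 ≤ G i i := by
    intro i
    have f2 := norm_sq_E4 (v i)
    have e8 := hh i
    have e3 : (1 - 5 / 1000) ^ 2 ≤ ‖v i‖ ^ 2 := by
      have := h1 i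
      gcongr
    rw [hG]
    nlinarith
  refine (det_ne_zero_of_sum_row_lt_diag ?_) hdet
  intro k
  have h4 : ∑ j ∈ Finset.univ.erase k, ‖G k j‖ ≤ ∑ j ∈ Finset.univ.erase k, (62 / 1000 : ℝ) := by
    apply Finset.sum_le_sum
    intro j hj
    rw [Real.norm_eq_abs]
    exact hoff k j (Finset.ne_of_mem_erase hj).symm
  rw [Finset.sum_const, Finset.card_erase_of_mem (Finset.mem_univ k)] at h4
  have h5 := hdiag k
  have h6 : G k k ≤ ‖G k k‖ := Real.le_norm_self _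
  have h7 : (Finset.univ.card (α := Fin 4) - 1) • (62 / 1000 : ℝ) ≤ 2 / 10 := by
    simp only [Finset.card_univ, Fintype.card_fin, nsmul_eq_mul]
    norm_num
  linarith

lemma compare_V {r : ℝ} (hr : 0 < r) {δ R : ℝ} (hδ : δ ≤ 1 / 2) (hrR : R * r ≤ δ / 2)
    (a b : Hemi) (ha : dist a x0 / r < R) (hb : dist b x0 / r < R) :
    ‖V r a.1 - V r b.1‖ ≤ dist a b / r ∧
      dist a b / r ≤ (1 + 3 * δ ^ 2) * ‖V r a.1 - V r b.1‖ := by
  rw [norm_V_sub hr]
  rw [div_lt_iff₀ hr] at ha hb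
  constructor
  · have := D4_le_dist a.1 b.1
    rw [Subtype.dist_eq]
    gcongr
  · have h1 : dist a.1 x0' ≤ δ / 2 := by
      have : dist a x0 = dist a.1 x0' := rfl
      linarith
    have h2 : dist b.1 x0' ≤ δ / 2 := by
      have : dist b x0 = dist b.1 x0' := rfl
      linarith
    have h3 := dist_le_D4 hδ h1 h2
    rw [Subtype.dist_eq, ← mul_div_assoc]
    gcongr

end Pool.Agent.Lib.H84.RCD
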