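import Mathlib
import Pool.Agent.Lib.H84.T3Frame

/-!
# A tangent cone of `S²(1/√3) × S²₊(1/√3)` at a boundary point
-/

open MeasureTheory Set Filter Topology Metric InnerProductGeometry
open scoped ENNReal NNReal Real RealInnerProductSpace

set_option autoImplicit false

namespace Pool.Agent.Lib.H84.RCD

/-- the half space -/
abbrev Y0 : Type := WithLp 2 (EuclideanSpace ℝ (Fin 3) × Set.Ici (0 : ℝ))

/-- its apex -/
def y0 : Y0 := WithLp.toLp 2 (0, ⟨0, Set.self_mem_Ici⟩)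

lemma proper_Y0 : ProperSpace Y0 := by
  have : ProperSpace (Set.Ici (0 : ℝ)) := ProperSpace.of_isClosed isClosed_Ici
  exact (WithLp.prod_antilipschitzWith_toLp 2 (EuclideanSpace ℝ (Fin 3))
    (Set.Ici (0 : ℝ))).properSpace (WithLp.prod_continuous_toLp 2 _ _)
    (WithLp.equiv 2 _).symm.surjective

/-- the rescaled coordinates as a point of the half space -/
noncomputable def F (r : ℝ) (hr : 0 < r) (z : Hemi) : Y0 :=
  WithLp.toLp 2 (!₂[z.1.fst 1 / (√3 * r), z.1.fst 2 / (√3 * r), z.1.snd 1 / (√3 * r)],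
    ⟨z.1.snd 2 / (√3 * r), by
      have h : 0 ≤ z.1.snd 2 := z.2
      exact Set.mem_Ici.2 (by positivity)⟩)

lemma dist_Y0_sq (u v : Y0) : dist u v ^ 2 = (u.fst 0 - v.fst 0) ^ 2 + (u.fst 1 - v.fst 1) ^ 2 +
    (u.fst 2 - v.fst 2) ^ 2 + (u.snd.1 - v.snd.1) ^ 2 := by
  rw [dist_WithLp, Real.sq_sqrt (by positivity), dist_eq_norm, norm_sq_E3]
  rw [Subtype.dist_eq, Real.dist_eq, sq_abs]
  rfl

lemma dist_F {r : ℝ} (hr : 0 < r) (z w : Hemi) : dist (F r hr z) (F r hr w) = D4 z.1 w.1 / r := by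
  have h3 : √3 ^ 2 = 3 := Real.sq_sqrt (by norm_num)
  have h1 : dist (F r hr z) (F r hr w) ^ 2 = (D4 z.1 w.1 / r) ^ 2 := by
    rw [dist_Y0_sq, div_pow, D4, Real.sq_sqrt (by positivity), D2_sq, D2_sq]
    simp only [F, WithLp.toLp_fst, WithLp.toLp_snd, Matrix.cons_val_zero, Matrix.cons_val_one,
      Matrix.cons_val_two, Matrix.tail_cons, Matrix.head_cons, Matrix.cons_val]
    field_simp
    rw [h3]
    ring
  have h2 : 0 ≤ D4 z.1 w.1 := Real.sqrt_nonneg _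
  exact (sq_eq_sq₀ dist_nonneg (by positivity)).1 h1

lemma F_x0 {r : ℝ} (hr : 0 < r) : F r hr x0 = y0 := by
  have h : dist (F r hr x0) y0 ^ 2 = 0 := by
    rw [dist_Y0_sq]
    simp [F, y0, x0, x0', b0]
  exact dist_eq_zero.1 (pow_eq_zero_iff (two_ne_zero)|>.1 h)

/-- the point of the hemisphere over given coordinates -/
lemma exists_lift {r : ℝ} (hr : 0 < r) {δ R : ℝ} (hδ0 : 0 < δ) (hδ : δ ≤ 1 / 2)
    (hrR : R * r ≤ δ / 2) (z : Y0) (hz : dist z y0 ≤ R) :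
    ∃ a : Hemi, F r hr a = z ∧ dist a x0 / r ≤ (1 + 3 * δ ^ 2) * dist z y0 := by
  have h3 : √3 ^ 2 = 3 := Real.sq_sqrt (by norm_num)
  have h3' := SS.sqrt_three_le
  have hR : 0 ≤ R := dist_nonneg.trans hz
  have hzz := dist_Y0_sq z y0
  have e1 : y0.fst 0 = 0 := rfl
  have e2 : y0.fst 1 = 0 := rfl
  have e3 : y0.fst 2 = 0 := rfl
  have e4 : y0.snd.1 = 0 := rfl
  rw [e1, e2, e3, e4] at hzz
  simp only [sub_zero] at hzz
  have hzR : dist z y0 ^ 2 ≤ R ^ 2 := by gcongr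
  have hz4 : 0 ≤ z.snd.1 := z.snd.2
  set s1 := z.fst 0
  set s2 := z.fst 1
  set s3 := z.fst 2
  set s4 := z.snd.1
  have hk : (√3 * r) ^ 2 * R ^ 2 ≤ δ ^ 2 := by
    rw [mul_pow, h3]
    have : (R * r) ^ 2 ≤ (δ / 2) ^ 2 := by gcongr
    nlinarith
  have hA : (√3 * r * s1) ^ 2 + (√3 * r * s2) ^ 2 ≤ δ ^ 2 := by
    have : s1 ^ 2 + s2 ^ 2 ≤ R ^ 2 := by nlinarith [sq_nonneg s3, sq_nonneg s4]
    calc (√3 * r * s1) ^ 2 + (√3 * r * s2) ^ 2 = (√3 * r) ^ 2 * (s1 ^ 2 + s2 ^ 2) := by ring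
      _ ≤ (√3 * r) ^ 2 * R ^ 2 := by gcongr
      _ ≤ δ ^ 2 := hk
  have hB : (√3 * r * s3) ^ 2 + (√3 * r * s4) ^ 2 ≤ δ ^ 2 := by
    have : s3 ^ 2 + s4 ^ 2 ≤ R ^ 2 := by nlinarith [sq_nonneg s1, sq_nonneg s2]
    calc (√3 * r * s3) ^ 2 + (√3 * r * s4) ^ 2 = (√3 * r) ^ 2 * (s3 ^ 2 + s4 ^ 2) := by ring
      _ ≤ (√3 * r) ^ 2 * R ^ 2 := by gcongr
      _ ≤ δ ^ 2 := hk
  have hδ2 : δ ^ 2 ≤ 1 / 4 := by nlinarith
  set m1 := √3 * r * s1
  set m2 := √3 * r * s2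
  set m3 := √3 * r * s3
  set m4 := √3 * r * s4
  have hn : ∀ p q : ℝ, p ^ 2 + q ^ 2 ≤ δ ^ 2 → ‖(!₂[√(1 - p ^ 2 - q ^ 2), p, q] : E3)‖ = 1 := by
    intro p q hpq
    have h : ‖(!₂[√(1 - p ^ 2 - q ^ 2), p, q] : E3)‖ ^ 2 = 1 ^ 2 := by
      rw [norm_sq_E3]
      simp only [Matrix.cons_val_zero, Matrix.cons_val_one,
        Matrix.cons_val_two, Matrix.tail_cons, Matrix.head_cons, Matrix.cons_val]
      rw [Real.sq_sqrt (by linarith)]
      ring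
    exact (sq_eq_sq₀ (norm_nonneg _) (by norm_num)).1 h
  have hpos : ∀ p q : ℝ, p ^ 2 + q ^ 2 ≤ δ ^ 2 → 0 < √(1 - p ^ 2 - q ^ 2) := by
    intro p q hpq
    apply Real.sqrt_pos.2
    linarith
  let a' : SS := ⟨!₂[√(1 - m1 ^ 2 - m2 ^ 2), m1, m2], !₂[√(1 - m3 ^ 2 - m4 ^ 2), m3, m4],
    hn _ _ hA, hn _ _ hB⟩
  have ha' : a' ∈ Hemi := by
    change 0 ≤ m4
    positivity
  have hFa : F r hr ⟨a', ha'⟩ = z := by
    have h : dist (F r hr ⟨a', ha'⟩) z ^ 2 = 0 := by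
      rw [dist_Y0_sq]
      have c1 : (F r hr ⟨a', ha'⟩).fst 0 = m1 / (√3 * r) := rfl
      have c2 : (F r hr ⟨a', ha'⟩).fst 1 = m2 / (√3 * r) := rfl
      have c3 : (F r hr ⟨a', ha'⟩).fst 2 = m3 / (√3 * r) := rfl
      have c4 : (F r hr ⟨a', ha'⟩).snd.1 = m4 / (√3 * r) := rfl
      rw [c1, c2, c3, c4]
      have hne : √3 * r ≠ 0 := by positivity
      simp only [m1, m2, m3, m4]
      rw [mul_div_cancel_left₀ _ hne, mul_div_cancel_left₀ _ hne, mul_div_cancel_left₀ _ hne,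
        mul_div_cancel_left₀ _ hne]
      simp [s1, s2, s3, s4]
    exact dist_eq_zero.1 (pow_eq_zero_iff (two_ne_zero)|>.1 h)
  refine ⟨⟨a', ha'⟩, hFa, ?_⟩
  have h5 : dist a' x0' ≤ (1 + 3 * δ ^ 2) * D4 a' x0' := by
    apply dist_le_D4_of hδ0.le hδ
    · exact hpos _ _ hA
    · exact hA
    · exact hpos _ _ hB
    · exact hB
    · simp [x0', b0]
    · simp [x0', b0]; positivity
    · simp [x0', b0]
    · simp [x0', b0]; positivity
  have h6 : D4 a' x0' / r = dist z y0 := by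
    rw [← hFa, ← F_x0 hr, dist_F hr]
    rfl
  have h7 : dist (⟨a', ha'⟩ : Hemi) x0 = dist a' x0' := rfl
  rw [h7, ← h6, ← mul_div_assoc]
  gcongr

theorem x0_not_mem_stratum : x0 ∉ stratum 2 Hemi := by
  intro h
  refine h Y0 y0 ⟨proper_Y0, fun n => 1 / ((n : ℝ) + 1), fun n => by positivity,
    tendsto_one_div_add_atTop_nhds_zero_nat, ?_⟩ ⟨Set.Ici (0 : ℝ), inferInstance,
    ⟨IsometryEquiv.refl _⟩⟩
  intro R hR ε hε
  set δ : ℝ := min (1 / 2) (ε / (6 * R + 1)) with hδdef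
  have hδ0 : 0 < δ := by
    apply lt_min (by norm_num) (by positivity)
  have hδ1 : δ ≤ 1 / 2 := min_le_left _ _
  have hδ2 : δ * (6 * R + 1) ≤ ε := by
    have : δ ≤ ε / (6 * R + 1) := min_le_right _ _
    rwa [le_div_iff₀ (by positivity)] at this
  have hδ3 : 6 * R * δ ^ 2 < ε := by nlinarith [mul_pos hR hδ0]
  have hev : ∀ᶠ n : ℕ in atTop, 1 / ((n : ℝ) + 1) < δ / (2 * R) :=
    tendsto_one_div_add_atTop_nhds_zero_nat.eventually_lt_const (by positivity)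
  filter_upwards [hev] with n hn
  set r : ℝ := 1 / ((n : ℝ) + 1) with hr
  have hr0 : 0 < r := by positivity
  have hrR : R * r ≤ δ / 2 := by
    rw [lt_div_iff₀ (by positivity)] at hn
    linarith
  refine ⟨F r hr0, F_x0 hr0, ?_, ?_⟩
  · intro a b ha hb
    obtain ⟨h1, h2⟩ := compare_V hr0 hδ1 hrR a b ha hb
    rw [norm_V_sub hr0, ← dist_F hr0] at h1 h2
    have h3 : dist a b / r < 2 * R := by
      have h4 : dist a b ≤ dist a x0 + dist x0 b := dist_triangle _ _ _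
      rw [dist_comm x0 b] at h4
      have h5 : dist a b / r ≤ dist a x0 / r + dist b x0 / r := by
        rw [← add_div]
        gcongr
      linarith
    rw [abs_lt]
    have h6 : 0 ≤ dist (F r hr0 a) (F r hr0 b) := dist_nonneg
    constructor
    · nlinarith [sq_nonneg δ]
    · linarith
  · intro z hz
    obtain ⟨a, ha1, ha2⟩ := exists_lift hr0 hδ0 hδ1 hrR z (by linarith)
    refine ⟨a, ?_, ?_⟩
    · have h6 : 0 ≤ dist z y0 := dist_nonneg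
      have : (1 + 3 * δ ^ 2) * dist z y0 < R := by nlinarith [sq_nonneg δ]
      linarith
    · rw [ha1, dist_self]
      exact hε

end Pool.Agent.Lib.H84.RCD
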