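import Mathlib
import Pool.Agent.Lib.H84.T3Frame
import Pool.Agent.Lib.H84.T3Cone

/-!
# The boundary of `S²(1/√3) × S²₊(1/√3)` is not empty
-/

open MeasureTheory Set Filter Topology Metric InnerProductGeometry
open scoped ENNReal NNReal Real RealInnerProductSpace

set_option autoImplicit false

namespace Pool.Agent.Lib.H84.RCD

theorem x0_mem_stratum : x0 ∈ stratum 3 Hemi := by
  intro Y _ y hY hsplit
  obtain ⟨_, r, hr, hr0, hGH⟩ := hY
  obtain ⟨Z, _, ⟨φ⟩⟩ := hsplit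
  let E0 : EuclideanSpace ℝ (Fin 4) → Y := fun u =>
    φ.symm (WithLp.toLp 2 ((φ y).fst + u, (φ y).snd))
  have hd : ∀ u v : EuclideanSpace ℝ (Fin 4), dist (E0 u) (E0 v) = ‖u - v‖ := by
    intro u v
    simp only [E0]
    rw [φ.symm.dist_eq, dist_WithLp]
    simp [dist_eq_norm]
  have hy : E0 0 = y := by
    simp only [E0]
    rw [add_zero]
    exact φ.symm_apply_apply y
  let e : ℝ → Fin 4 → EuclideanSpace ℝ (Fin 4) := fun s j => EuclideanSpace.single j s
  have he0 : ∀ s j, ‖e s j‖ = |s| := by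
    intro s j
    simp [e]
  have he1 : ∀ s j, ‖e s j - e (-s) j‖ = 2 * |s| := by
    intro s j
    have : e s j - e (-s) j = e (2 * s) j := by
      ext i
      by_cases h : i = j
      · subst h; simp [e]; ring
      · simp [e, h]
    rw [this, he0, abs_mul]
    simp
  have he2 : ∀ i j, i ≠ j → ‖e 1 i - e 1 j‖ = √2 := by
    intro i j hij
    have h1 : ‖e 1 i - e 1 j‖ ^ 2 = 2 := by
      rw [norm_sub_sq_real]
      have : ⟪e 1 i, e 1 j⟫ = 0 := by
        simp only [e]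
        rw [EuclideanSpace.inner_single_left]
        simp [hij]
      rw [this, he0, he0]
      norm_num
    rw [← h1, Real.sqrt_sq (norm_nonneg _)]
  have hev := hGH 3 (by norm_num) (1 / 1000) (by norm_num)
  have hsm : ∀ᶠ n in atTop, r n < 1 / 600 := hr0.eventually_lt_const (by norm_num)
  obtain ⟨n, ⟨f, hf0, hf1, hf2⟩, hn⟩ := (hev.and hsm).exists
  have hrn := hr n
  have hP : ∀ s : ℝ, |s| = 1 → ∀ j, ∃ a : Hemi, dist a x0 / r n < 3 ∧
      dist (E0 (e s j)) (f a) < 1 / 1000 := by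
    intro s hs j
    apply hf2
    rw [← hy, hd, sub_zero, he0, hs]
    norm_num
  have h11 : |(1 : ℝ)| = 1 := abs_one
  have h12 : |(-1 : ℝ)| = 1 := by simp
  choose P hP1 hP2 using hP
  -- comparison of V distances with model distances
  have hx0 : dist x0 x0 / r n < 3 := by simp
  have hcmp : ∀ (a b : Hemi) (A B : Y) (α β : ℝ), dist a x0 / r n < 3 → dist b x0 / r n < 3 →
      dist A (f a) ≤ 1 / 1000 → dist B (f b) ≤ 1 / 1000 → dist A B ≤ 2 →
      dist A B - 5 / 1000 ≤ ‖V (r n) a.1 - V (r n) b.1‖ ∧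
        ‖V (r n) a.1 - V (r n) b.1‖ ≤ dist A B + 3 / 1000 := by
    intro a b A B _ _ ha hb hA hB hAB
    have h1 := hf1 a b ha hb
    rw [abs_lt] at h1
    have h2 : dist A B ≤ dist A (f a) + dist (f a) (f b) + dist (f b) B := dist_triangle4 _ _ _ _
    have h3 : dist (f a) (f b) ≤ dist (f a) A + dist A B + dist B (f b) := dist_triangle4 _ _ _ _
    rw [dist_comm (f b) B] at h2
    rw [dist_comm (f a) A] at h3
    obtain ⟨h4, h5⟩ := compare_V hrn (δ := 1 / 100) (R := 3) (by norm_num) (by linarith) a b ha hb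
    have h6 : 0 ≤ ‖V (r n) a.1 - V (r n) b.1‖ := norm_nonneg _
    constructor
    · by_contra hcon
      push Not at hcon
      nlinarith
    · linarith
  have hcmp0 : ∀ (a : Hemi) (A : Y), dist a x0 / r n < 3 → dist A (f a) ≤ 1 / 1000 →
      dist A y = 1 → 1 - 5 / 1000 ≤ ‖V (r n) a.1‖ ∧ ‖V (r n) a.1‖ ≤ 1 + 3 / 1000 := by
    intro a A ha hA hAy
    have h1 := hcmp a x0 A y 0 0 ha hx0 hA (by rw [hf0]; simp) (by rw [hAy]; norm_num)
    have h2 : V (r n) (x0 : Hemi).1 = 0 := V_x0 (r n)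
    rw [h2, sub_zero, hAy] at h1
    exact h1
  have hdy : ∀ s : ℝ, |s| = 1 → ∀ j, dist (E0 (e s j)) y = 1 := by
    intro s hs j
    rw [← hy, hd, sub_zero, he0, hs]
  have hV3 : ∀ a : Hemi, 0 ≤ V (r n) a.1 3 := by
    intro a
    have h1 : 0 ≤ a.1.snd 2 := a.2
    have h2 : V (r n) a.1 3 = a.1.snd 2 / (√3 * r n) := rfl
    rw [h2]
    positivity
  refine no_frame (fun j => V (r n) (P 1 h11 j).1) (fun j => V (r n) (P (-1) h12 j).1)
    (fun j => hV3 _) (fun j => hV3 _) ?_ ?_ ?_ ?_ ?_ ?_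
  · intro j
    exact (hcmp0 _ _ (hP1 1 h11 j) (hP2 1 h11 j).le (hdy 1 h11 j)).1
  · intro j
    exact (hcmp0 _ _ (hP1 1 h11 j) (hP2 1 h11 j).le (hdy 1 h11 j)).2
  · intro j
    exact (hcmp0 _ _ (hP1 (-1) h12 j) (hP2 (-1) h12 j).le (hdy (-1) h12 j)).2
  · intro j
    have h1 : dist (E0 (e 1 j)) (E0 (e (-1) j)) = 2 := by
      rw [hd, he1]; simp
    have h2 := hcmp _ _ _ _ 0 0 (hP1 1 h11 j) (hP1 (-1) h12 j) (hP2 1 h11 j).le
      (hP2 (-1) h12 j).le h1.le
    rw [h1] at h2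
    exact h2.1
  · intro i j hij
    have h1 : dist (E0 (e 1 i)) (E0 (e 1 j)) = √2 := by
      rw [hd, he2 i j hij]
    have h2 := hcmp _ _ _ _ 0 0 (hP1 1 h11 i) (hP1 1 h11 j) (hP2 1 h11 i).le
      (hP2 1 h11 j).le (by rw [h1, Real.sqrt_le_left (by norm_num)]; norm_num)
    rw [h1] at h2
    exact h2.1
  · intro i j hij
    have h1 : dist (E0 (e 1 i)) (E0 (e 1 j)) = √2 := by
      rw [hd, he2 i j hij]
    have h2 := hcmp _ _ _ _ 0 0 (hP1 1 h11 i) (hP1 1 h11 j) (hP2 1 h11 i).le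
      (hP2 1 h11 j).le (by rw [h1, Real.sqrt_le_left (by norm_num)]; norm_num)
    rw [h1] at h2
    exact h2.2

theorem boundary_Hemi_nonempty : (boundary 4 Hemi).Nonempty :=
  ⟨x0, subset_closure ⟨x0_mem_stratum, x0_not_mem_stratum⟩⟩

end Pool.Agent.Lib.H84.RCD
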